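import Pool.Agent.Lib.MP_53fa4a_an_NL.AvD

/-!
# Box averages of solutions of a convolution equation
-/

set_option autoImplicit false

open Filter
open scoped BigOperators Topology ComplexConjugate

noncomputable section

namespace Pool.Agent.NL53

private theorem Av_min_nonneg {j : ℕ} (l : ℕ) (w : Fin j → ℤ) :
    0 ≤ min 2 (2 * (∑ i, |(w i : ℝ)|) / l) :=
  le_min (by norm_num) (by
    have : (0 : ℝ) ≤ ∑ i, |(w i : ℝ)| := Finset.sum_nonneg fun i _ => abs_nonneg _
    positivity)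

private theorem Av_summable {j : ℕ} {κ : (Fin j → ℤ) → ℂ} (hκ : Summable fun w => ‖κ w‖)
    (l : ℕ) : Summable fun w => ‖κ w‖ * min 2 (2 * (∑ i, |(w i : ℝ)|) / l) := by
  refine Summable.of_nonneg_of_le
    (fun w => mul_nonneg (norm_nonneg _) (Av_min_nonneg l w)) (fun w => ?_) (hκ.mul_right 2)
  exact mul_le_mul_of_nonneg_left (min_le_left _ _) (norm_nonneg _)

/-- **The average of a solution is small.**  PROOF: `g = av l f` satisfies the same equation
`∑' w, κ w * g (u + w) = 0` (finite sums of the equations), and `∑' w, κ w = 1`, so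
`g u = ∑' w, κ w * (g u - g (u + w))`, and `av_diff`. -/
theorem av_bound {j : ℕ} {l : ℕ} (hl : 0 < l) {C : ℝ} {κ f : (Fin j → ℤ) → ℂ}
    (hκ : Summable fun w => ‖κ w‖) (h1 : ∑' w, κ w = 1) (hf : ∀ u, ‖f u‖ ≤ C)
    (he : ∀ u, ∑' w, κ w * f (u + w) = 0) :
    (∀ u, ‖av l f u‖ ≤ th κ l * C) ∧ ∀ u, ∑' w, κ w * av l f (u + w) = 0 := by
  have hs : ∀ v, Summable fun w => κ w * f (v + w) := by
    intro v
    refine Summable.of_norm_bounded (hκ.mul_right C) fun w => ?_
    rw [norm_mul]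
    exact mul_le_mul_of_nonneg_left (hf _) (norm_nonneg _)
  have hav : ∀ v w, κ w * av l f (v + w) =
      ((l : ℂ) ^ j)⁻¹ * ∑ a ∈ bx j 0 l, κ w * f ((v + a) + w) := by
    intro v w
    unfold av
    rw [← Finset.mul_sum, ← mul_assoc, mul_comm (κ w), mul_assoc]
    congr 2
    exact Finset.sum_congr rfl fun a _ => by rw [add_right_comm]
  have hse : ∀ v, Summable fun w => κ w * av l f (v + w) := by
    intro v
    simp only [hav]
    exact (summable_sum fun a _ => hs (v + a)).mul_left _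
  have h2 : ∀ u, ∑' w, κ w * av l f (u + w) = 0 := by
    intro u
    simp only [hav]
    rw [tsum_mul_left, Summable.tsum_finsetSum fun a _ => hs (u + a)]
    rw [Finset.sum_eq_zero fun a _ => he (u + a), mul_zero]
  refine ⟨fun u => ?_, h2⟩
  have hκ' : Summable κ := hκ.of_norm
  have h3 : av l f u = ∑' w, κ w * (av l f u - av l f (u + w)) := by
    simp only [mul_sub]
    rw [Summable.tsum_sub (hκ'.mul_right _) (hse u), h2, sub_zero, tsum_mul_right, h1, one_mul]
  have h4 : ∀ w, ‖κ w * (av l f u - av l f (u + w))‖ ≤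
      ‖κ w‖ * min 2 (2 * (∑ i, |(w i : ℝ)|) / l) * C := by
    intro w
    rw [norm_mul, mul_assoc, mul_comm (min _ _)]
    exact mul_le_mul_of_nonneg_left (av_diff hl hf u w) (norm_nonneg _)
  have h5 := (Av_summable hκ l).mul_right C
  have h6 : Summable fun w => ‖κ w * (av l f u - av l f (u + w))‖ :=
    Summable.of_nonneg_of_le (fun w => norm_nonneg _) h4 h5
  rw [h3]
  refine (norm_tsum_le_tsum_norm h6).trans ((h6.tsum_le_tsum h4 h5).trans (le_of_eq ?_))
  rw [tsum_mul_right]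
  rfl

/-- PROOF: induction on `K` with `av_bound` (`Function.iterate_succ'`). -/
theorem av_iter {j : ℕ} {l : ℕ} (hl : 0 < l) {C : ℝ} {κ f : (Fin j → ℤ) → ℂ}
    (hκ : Summable fun w => ‖κ w‖) (h1 : ∑' w, κ w = 1) (hf : ∀ u, ‖f u‖ ≤ C)
    (he : ∀ u, ∑' w, κ w * f (u + w) = 0) (K : ℕ) (u : Fin j → ℤ) :
    ‖(av l)^[K] f u‖ ≤ th κ l ^ K * C := by
  have h : ∀ K : ℕ, (∀ u, ‖(av l)^[K] f u‖ ≤ th κ l ^ K * C) ∧
      ∀ u, ∑' w, κ w * (av l)^[K] f (u + w) = 0 := by
    intro K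
    induction K with
    | zero => exact ⟨fun u => by simpa using hf u, he⟩
    | succ K ih =>
      obtain ⟨ih1, ih2⟩ := ih
      rw [Function.iterate_succ', Function.comp_apply]
      obtain ⟨h3, h4⟩ := av_bound hl hκ h1 ih1 ih2
      refine ⟨fun u => (h3 u).trans (le_of_eq ?_), h4⟩
      rw [pow_succ]
      ring
  exact (h K).1 u

/-- the trivial bound: averages do not increase the sup norm (`bx j 0 l` has `l ^ j` elements) -/
theorem av_iter_le {j : ℕ} {l : ℕ} (hl : 0 < l) {C : ℝ} {f : (Fin j → ℤ) → ℂ}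
    (hf : ∀ u, ‖f u‖ ≤ C) (K : ℕ) (u : Fin j → ℤ) : ‖(av l)^[K] f u‖ ≤ C := by
  have hone : ∀ g : (Fin j → ℤ) → ℂ, (∀ u, ‖g u‖ ≤ C) → ∀ u, ‖av l g u‖ ≤ C := by
    intro g hg u
    have hcard : (bx j 0 (l : ℤ)).card = l ^ j := by
      unfold bx
      simp
    have hlr : (0 : ℝ) < (l : ℝ) ^ j := by positivity
    have h1 : ‖∑ a ∈ bx j 0 l, g (u + a)‖ ≤ (l : ℝ) ^ j * C := by
      refine (norm_sum_le _ _).trans ((Finset.sum_le_sum fun a _ => hg (u + a)).trans ?_)
      rw [Finset.sum_const, hcard, nsmul_eq_mul]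
      push_cast
      exact le_rfl
    unfold av
    rw [norm_mul, norm_inv, norm_pow, Complex.norm_natCast]
    calc ((l : ℝ) ^ j)⁻¹ * ‖∑ a ∈ bx j 0 l, g (u + a)‖
        ≤ ((l : ℝ) ^ j)⁻¹ * ((l : ℝ) ^ j * C) :=
          mul_le_mul_of_nonneg_left h1 (inv_nonneg.2 hlr.le)
      _ = C := by rw [← mul_assoc, inv_mul_cancel₀ hlr.ne', one_mul]
  induction K generalizing u with
  | zero => simpa using hf u
  | succ K ih =>
    rw [Function.iterate_succ', Function.comp_apply]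
    exact hone _ ih u

/-- PROOF: dominated convergence (`tendsto_tsum_of_dominated_convergence` with the bound
`2 * ‖κ w‖`; every term tends to `0`). -/
theorem th_tendsto {j : ℕ} {κ : (Fin j → ℤ) → ℂ} (hκ : Summable fun w => ‖κ w‖) :
    Tendsto (fun l : ℕ => th κ l) atTop (𝓝 0) := by
  have h0 : (0 : ℝ) = ∑' _ : Fin j → ℤ, (0 : ℝ) := tsum_zero.symm
  rw [h0]
  unfold th
  refine tendsto_tsum_of_dominated_convergence (bound := fun w => ‖κ w‖ * 2) (hκ.mul_right 2)
    (fun w => ?_) (Eventually.of_forall fun l w => ?_)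
  · have h1 : Tendsto (fun l : ℕ => 2 * (∑ i, |(w i : ℝ)|) / (l : ℝ)) atTop (𝓝 0) :=
      tendsto_const_div_atTop_nhds_zero_nat _
    have h2 := (tendsto_const_nhds (x := (2 : ℝ))).min h1
    have h3 := h2.const_mul ‖κ w‖
    have h4 : ‖κ w‖ * min 2 0 = 0 := by simp
    rwa [h4] at h3
  · rw [Real.norm_of_nonneg (mul_nonneg (norm_nonneg _) (Av_min_nonneg l w))]
    exact mul_le_mul_of_nonneg_left (min_le_left _ _) (norm_nonneg _)

end Pool.Agent.NL53
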