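import Pool.Agent.Lib.MP_53fa4a_an_NL.Box

/-!
# Slow variation of box averages
-/

set_option autoImplicit false

open Filter
open scoped BigOperators Topology ComplexConjugate

noncomputable section

namespace Pool.Agent.NL53

private lemma AvD_card (j l : ℕ) : (bx j 0 l).card = l ^ j := by
  simp [bx, Fintype.card_piFinset]

private lemma AvD_mem {j : ℕ} {l : ℕ} {a : Fin j → ℤ} :
    a ∈ bx j 0 l ↔ ∀ k, 0 ≤ a k ∧ a k < l := by
  simp [bx, Fintype.mem_piFinset]

private lemma AvD_face {j : ℕ} (l : ℕ) (i : Fin j) :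
    l * (Fintype.piFinset fun k : Fin j =>
      if k = i then ({0} : Finset ℤ) else Finset.Ico 0 (l : ℤ)).card = l ^ j := by
  rw [Fintype.card_piFinset, ← Finset.mul_prod_erase Finset.univ _ (Finset.mem_univ i),
    if_pos rfl, Finset.card_singleton, one_mul]
  have h1 : ∏ k ∈ Finset.univ.erase i,
      (if k = i then ({0} : Finset ℤ) else Finset.Ico 0 (l : ℤ)).card =
      ∏ k ∈ (Finset.univ : Finset (Fin j)).erase i, l := by
    refine Finset.prod_congr rfl fun k hk => ?_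
    rw [if_neg (Finset.ne_of_mem_erase hk)]
    simp
  rw [h1]
  have h2 : l * ∏ k ∈ (Finset.univ : Finset (Fin j)).erase i, l =
      ∏ k ∈ (Finset.univ : Finset (Fin j)), l :=
    Finset.mul_prod_erase Finset.univ (fun _ => l) (Finset.mem_univ i)
  rw [h2, Finset.prod_const, Finset.card_univ, Fintype.card_fin]

private lemma AvD_unit {j : ℕ} {l : ℕ} (hl : 0 < l) {C : ℝ} {f : (Fin j → ℤ) → ℂ}
    (hf : ∀ u, ‖f u‖ ≤ C) (u : Fin j → ℤ) (i : Fin j) :
    ‖av l f u - av l f (u + Pi.single i 1)‖ ≤ 2 * C / l := by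
  classical
  obtain ⟨S, hS⟩ : ∃ S : Finset (Fin j → ℤ),
      S = (bx j 0 l).map (addRightEmbedding (Pi.single i 1)) := ⟨_, rfl⟩
  have hcS : S.card = (bx j 0 l).card := by
    rw [hS, Finset.card_map]
  have e1 : ∑ a ∈ bx j 0 l, f (u + Pi.single i 1 + a) = ∑ a ∈ S, f (u + a) := by
    rw [hS, Finset.sum_map]
    refine Finset.sum_congr rfl fun a _ => ?_
    rw [addRightEmbedding_apply, add_assoc, add_comm (Pi.single i 1) a]
  have hsub : bx j 0 l \ S ⊆ Fintype.piFinset fun k : Fin j =>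
      if k = i then ({0} : Finset ℤ) else Finset.Ico 0 (l : ℤ) := by
    intro a ha
    obtain ⟨ha1, ha2⟩ := Finset.mem_sdiff.1 ha
    rw [Fintype.mem_piFinset]
    intro k
    by_cases hk : k = i
    · rw [if_pos hk, Finset.mem_singleton, hk]
      by_contra hne
      apply ha2
      rw [hS, Finset.mem_map]
      refine ⟨a - Pi.single i 1, ?_, ?_⟩
      · rw [AvD_mem] at ha1 ⊢
        intro k'
        by_cases hk' : k' = i
        · rw [hk', Pi.sub_apply, Pi.single_eq_same]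
          have := ha1 i
          omega
        · rw [Pi.sub_apply, Pi.single_eq_of_ne hk', sub_zero]
          exact ha1 k'
      · rw [addRightEmbedding_apply, sub_add_cancel]
    · rw [if_neg hk, Finset.mem_Ico]
      exact AvD_mem.1 ha1 k
  have hc1 : l * (bx j 0 l \ S).card ≤ l ^ j := by
    rw [← AvD_face l i]
    exact Nat.mul_le_mul_left l (Finset.card_le_card hsub)
  have hc2 : (S \ bx j 0 l).card = (bx j 0 l \ S).card := Finset.card_sdiff_comm hcS
  obtain ⟨n, hn⟩ : ∃ n : ℕ, n = (bx j 0 l \ S).card := ⟨_, rfl⟩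
  rw [← hn] at hc1 hc2
  have hC : 0 ≤ C := (norm_nonneg _).trans (hf u)
  have e2 : av l f u - av l f (u + Pi.single i 1) =
      ((l : ℂ) ^ j)⁻¹ * (∑ a ∈ bx j 0 l \ S, f (u + a) - ∑ a ∈ S \ bx j 0 l, f (u + a)) := by
    rw [av, av, e1, ← mul_sub, Finset.sum_sdiff_sub_sum_sdiff]
  have e3 : ∀ T : Finset (Fin j → ℤ), ‖∑ a ∈ T, f (u + a)‖ ≤ T.card * C := by
    intro T
    refine (norm_sum_le _ _).trans ?_
    refine (Finset.sum_le_sum fun a _ => hf (u + a)).trans (le_of_eq ?_)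
    rw [Finset.sum_const, nsmul_eq_mul]
  have hlj : (0 : ℝ) < (l : ℝ) ^ j := by positivity
  have hl0 : (0 : ℝ) < l := by exact_mod_cast hl
  rw [e2, norm_mul, norm_inv, norm_pow, Complex.norm_natCast]
  have e4 : ‖∑ a ∈ bx j 0 l \ S, f (u + a) - ∑ a ∈ S \ bx j 0 l, f (u + a)‖ ≤ 2 * (n * C) := by
    refine (norm_sub_le _ _).trans ?_
    have h1 := e3 (bx j 0 l \ S)
    have h2 := e3 (S \ bx j 0 l)
    rw [hc2] at h2
    rw [← hn] at h1
    linarith
  have hc3 : (l : ℝ) * n ≤ (l : ℝ) ^ j := by exact_mod_cast hc1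
  rw [inv_mul_eq_div, div_le_div_iff₀ hlj hl0]
  calc ‖∑ a ∈ bx j 0 l \ S, f (u + a) - ∑ a ∈ S \ bx j 0 l, f (u + a)‖ * l
      ≤ 2 * (n * C) * l := mul_le_mul_of_nonneg_right e4 hl0.le
    _ = 2 * C * (l * n) := by ring
    _ ≤ 2 * C * (l : ℝ) ^ j := mul_le_mul_of_nonneg_left hc3 (by positivity)

private lemma AvD_nat {j : ℕ} {l : ℕ} (hl : 0 < l) {C : ℝ} {f : (Fin j → ℤ) → ℂ}
    (hf : ∀ u, ‖f u‖ ≤ C) (u : Fin j → ℤ) (i : Fin j) (n : ℕ) :
    ‖av l f u - av l f (u + Pi.single i (n : ℤ))‖ ≤ n * (2 * C / l) := by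
  induction n with
  | zero => simp
  | succ n ih =>
    have h1 := AvD_unit hl hf (u + Pi.single i (n : ℤ)) i
    have h2 : u + Pi.single i ((n + 1 : ℕ) : ℤ) = u + Pi.single i (n : ℤ) + Pi.single i 1 := by
      push_cast
      rw [add_assoc, ← Pi.single_add]
    rw [h2]
    have h3 := norm_sub_le_norm_sub_add_norm_sub (av l f u) (av l f (u + Pi.single i (n : ℤ)))
      (av l f (u + Pi.single i (n : ℤ) + Pi.single i 1))
    push_cast
    linarith

private lemma AvD_int {j : ℕ} {l : ℕ} (hl : 0 < l) {C : ℝ} {f : (Fin j → ℤ) → ℂ}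
    (hf : ∀ u, ‖f u‖ ≤ C) (u : Fin j → ℤ) (i : Fin j) (t : ℤ) :
    ‖av l f u - av l f (u + Pi.single i t)‖ ≤ |(t : ℝ)| * (2 * C / l) := by
  rcases le_total 0 t with ht | ht
  · obtain ⟨n, rfl⟩ := Int.eq_ofNat_of_zero_le ht
    have h1 := AvD_nat hl hf u i n
    have h2 : |(((n : ℕ) : ℤ) : ℝ)| = n := by
      push_cast
      exact abs_of_nonneg (Nat.cast_nonneg n)
    rw [h2]
    exact h1
  · obtain ⟨n, hn⟩ := Int.eq_ofNat_of_zero_le (neg_nonneg.2 ht)
    have h1 := AvD_nat hl hf (u + Pi.single i t) i n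
    have h2 : u + Pi.single i t + Pi.single i (n : ℤ) = u := by
      rw [← hn, add_assoc, ← Pi.single_add, add_neg_cancel, Pi.single_zero, add_zero]
    rw [h2] at h1
    have h3 : |(t : ℝ)| = n := by
      have h4 : t = -(n : ℤ) := by omega
      rw [h4]
      push_cast
      rw [abs_neg]
      exact abs_of_nonneg (Nat.cast_nonneg n)
    rw [h3, norm_sub_rev]
    exact h1

private lemma AvD_norm {j : ℕ} {l : ℕ} (hl : 0 < l) {C : ℝ} {f : (Fin j → ℤ) → ℂ}
    (hf : ∀ u, ‖f u‖ ≤ C) (u : Fin j → ℤ) : ‖av l f u‖ ≤ C := by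
  have hlj : (0 : ℝ) < (l : ℝ) ^ j := by
    have hl0 : (0 : ℝ) < l := by exact_mod_cast hl
    positivity
  rw [av, norm_mul, norm_inv, norm_pow, Complex.norm_natCast]
  have h1 : ‖∑ a ∈ bx j 0 l, f (u + a)‖ ≤ (l : ℝ) ^ j * C := by
    refine (norm_sum_le _ _).trans ?_
    refine (Finset.sum_le_sum fun a _ => hf (u + a)).trans (le_of_eq ?_)
    rw [Finset.sum_const, nsmul_eq_mul, AvD_card]
    push_cast
    rfl
  rw [inv_mul_eq_div, div_le_iff₀ hlj]
  linarith

/-- **Slow variation of box averages.**  PROOF: for a unit vector `± e_i` the difference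
`∑_{a ∈ box} f(u + a) - f(u + a ± e_i)` has at most `2 l^(j-1)` terms which do not cancel
(telescoping in the coordinate `i`), so the difference of the averages is at most `2 C / l`; go
from `u` to `u + w` in `|w|_1` unit steps (induction on `∑_i |w_i|`).  The bound `2 C` is trivial.
-/
theorem av_diff {j : ℕ} {l : ℕ} (hl : 0 < l) {C : ℝ} {f : (Fin j → ℤ) → ℂ} (hf : ∀ u, ‖f u‖ ≤ C)
    (u w : Fin j → ℤ) :
    ‖av l f u - av l f (u + w)‖ ≤ C * min 2 (2 * (∑ i, |(w i : ℝ)|) / l) := by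
  have hC : 0 ≤ C := (norm_nonneg _).trans (hf u)
  have key : ∀ T : Finset (Fin j),
      ‖av l f u - av l f (u + ∑ i ∈ T, Pi.single i (w i))‖ ≤
        (∑ i ∈ T, |(w i : ℝ)|) * (2 * C / l) := by
    intro T
    induction T using Finset.induction_on with
    | empty => simp
    | insert i T hi ih =>
      have h1 := AvD_int hl hf (u + ∑ i ∈ T, Pi.single i (w i)) i (w i)
      have h2 : u + ∑ k ∈ insert i T, Pi.single k (w k) =
          u + ∑ k ∈ T, Pi.single k (w k) + Pi.single i (w i) := by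
        rw [Finset.sum_insert hi]
        abel
      have h3 := norm_sub_le_norm_sub_add_norm_sub (av l f u)
        (av l f (u + ∑ i ∈ T, Pi.single i (w i)))
        (av l f (u + ∑ k ∈ T, Pi.single k (w k) + Pi.single i (w i)))
      rw [h2, Finset.sum_insert hi, add_mul]
      linarith
  have h1 := key Finset.univ
  rw [Finset.univ_sum_single] at h1
  rw [mul_min_of_nonneg _ _ hC, le_min_iff]
  constructor
  · refine (norm_sub_le _ _).trans ?_
    have h2 := AvD_norm hl hf u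
    have h3 := AvD_norm hl hf (u + w)
    linarith
  · refine h1.trans (le_of_eq ?_)
    ring

end Pool.Agent.NL53
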