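import Pool.Agent.Lib.MP_53fa4a_an_NL.AvgA

/-!
# Averages annihilate the solutions, after twisting with a character of finite order
-/

set_option autoImplicit false

open Polynomial
open scoped BigOperators ComplexConjugate

noncomputable section

namespace Pool.Agent.NL53

variable {G : Type*} [AddCommGroup G]

/-- integral and complex operators commute -/
private theorem avg_comm (g : RG ℤ G) (w : RG ℂ G) (h : G → ℂ) :
    act g (act w h) = act w (act g h) := by
  classical
  induction g using AddMonoidAlgebra.induction_linear with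
  | zero => simp
  | add x y hx hy => rw [act_add, act_add, act_fun_add, hx, hy]
  | single v c =>
    funext x
    rw [act_single]
    simp only [act_apply w, Finsupp.sum, Finset.smul_sum, act_single]
    refine Finset.sum_congr rfl fun u _ => ?_
    rw [smul_comm, add_right_comm]

private theorem avg_cast (g : RG ℤ G) (F : G → ℤ) :
    act g (fun x => (F x : ℂ)) = fun x => ((act g F x : ℤ) : ℂ) := by
  funext x
  simp only [act, Finsupp.sum]
  push_cast
  refine Finset.sum_congr rfl fun v _ => ?_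
  simp

private theorem avg_wL_cons (m : ℕ) (q : G) (qs : List G) :
    wL m (q :: qs) = aq m q * wL m qs := by
  simp [wL]

/-- PROOF: induction on the list `L` with `one_factor`, for all `h`. -/
theorem avg_kill (b : AddChar G Circle) {m : ℕ} (hm : 0 < m) {L : List (ℤ[X] × G)}
    (hL : ∀ p ∈ L, p.1 ∣ X ^ m - 1) (hb : ∀ p ∈ L, b (m • p.2) = 1) (hne : ev b (prd L) ≠ 0)
    {h : G → ℂ} (h0 : act (prd L) h = 0) : act (tw b (wL m (L.map Prod.snd))) h = 0 := by
  induction L generalizing h with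
  | nil =>
    rw [prd_nil, act_one] at h0
    rw [h0, act_fun_zero]
  | cons p L ih =>
    rw [prd_cons] at hne h0
    rw [map_mul, ev_fl] at hne
    rw [act_mul] at h0
    have h1 := one_factor b hm (hb p (List.mem_cons_self ..)) (hL p (List.mem_cons_self ..))
      (left_ne_zero_of_mul hne) h0
    rw [← avg_comm] at h1
    have h2 := ih (fun r hr => hL r (List.mem_cons_of_mem _ hr))
      (fun r hr => hb r (List.mem_cons_of_mem _ hr)) (right_ne_zero_of_mul hne) h1
    rw [List.map_cons, avg_wL_cons, map_mul, mul_comm, act_mul]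
    exact h2

/-- **Averages.**  PROOF: `N₀` = the product of exponents `N` with `θ ∣ X^N - 1` for all pairs in
the lists of `P` (`X^N - 1 ∣ X^m - 1` if `N ∣ m`); `wL` of the whole list is a multiple of
`wL m (L.map Prod.snd)` for `L ∈ P`; `act (prd L) F = 0` over `ℤ` gives the same over `ℂ`. -/
theorem avg_main {Γ : G → ℂ} {B : ℕ} {P : List (List (ℤ[X] × G))} (hP : ∀ L ∈ P, Good Γ B L) :
    ∃ N₀ : ℕ, 0 < N₀ ∧ ∀ m : ℕ, 0 < m → N₀ ∣ m → ∀ b : AddChar G Circle,
      (∀ g, b (m • g) = 1) → (∃ L ∈ P, ev b (prd L) ≠ 0) → ∀ F : G → ℤ, Ker Γ B F →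
        act (tw b (wL m (P.flatten.map Prod.snd))) (fun x => (F x : ℂ)) = 0 := by
  classical
  have hC : ∀ p ∈ P.flatten, ∃ N : ℕ, 0 < N ∧ p.1 ∣ X ^ N - 1 := by
    intro p hp
    obtain ⟨L, hL, hpL⟩ := List.mem_flatten.1 hp
    exact (hP L hL).1 p hpL
  obtain ⟨f, hf⟩ : ∃ f : ℤ[X] × G → ℕ, ∀ p, 0 < f p ∧ (p ∈ P.flatten → p.1 ∣ X ^ (f p) - 1) := by
    refine ⟨fun p => if h : p ∈ P.flatten then (hC p h).choose else 1, fun p => ?_⟩
    by_cases h : p ∈ P.flatten
    · simp only [dif_pos h]
      exact ⟨(hC p h).choose_spec.1, fun _ => (hC p h).choose_spec.2⟩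
    · simp only [dif_neg h]
      exact ⟨one_pos, fun h' => absurd h' h⟩
  refine ⟨(P.flatten.map f).prod, ?_, ?_⟩
  · refine Nat.pos_of_ne_zero fun h => ?_
    obtain ⟨p, -, hp⟩ := List.mem_map.1 (List.prod_eq_zero_iff.1 h)
    exact (hf p).1.ne' hp
  · intro m hm hdvd b hb hex F hF
    obtain ⟨L, hL, hne⟩ := hex
    have hmem : ∀ p ∈ L, p ∈ P.flatten := fun p hp => List.mem_flatten.2 ⟨L, hL, hp⟩
    have h1 : ∀ p ∈ L, p.1 ∣ X ^ m - 1 := by
      intro p hp
      have h2 : f p ∣ m := (List.dvd_prod (List.mem_map.2 ⟨p, hmem p hp, rfl⟩)).trans hdvd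
      obtain ⟨c, hc⟩ := h2
      refine ((hf p).2 (hmem p hp)).trans ?_
      rw [hc, pow_mul]
      have h3 := sub_dvd_pow_sub_pow ((X : ℤ[X]) ^ (f p)) 1 c
      rwa [one_pow] at h3
    have h2 : act (prd L) (fun x => (F x : ℂ)) = 0 := by
      rw [avg_cast, (hP L hL).2 F hF]
      funext x
      simp
    have h3 := avg_kill b hm h1 (fun p _ => hb p.2) hne h2
    have h4 : wL m (L.map Prod.snd) ∣ wL m (P.flatten.map Prod.snd) := by
      unfold wL
      exact (((List.sublist_flatten_of_mem hL).map _).map _).prod_dvd_prod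
    obtain ⟨w, hw⟩ := h4
    rw [hw, map_mul, mul_comm, act_mul, h3, act_fun_zero]

end Pool.Agent.NL53
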