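import Pool.Agent.Lib.MP_53fa4a_an_NL.AvgDef

/-!
# Twisted averages along one vector
-/

set_option autoImplicit false

open Polynomial
open scoped BigOperators ComplexConjugate

noncomputable section

namespace Pool.Agent.NL53

variable {G : Type*} [AddCommGroup G]

/-- coefficients of the twist -/
theorem tw_coeff (b : AddChar G Circle) (w : RG ℂ G) (v : G) :
    (tw b w).coeff v = w.coeff v * conj ((b v : Circle) : ℂ) := by
  classical
  induction w using AddMonoidAlgebra.induction_linear with
  | zero => simp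
  | add x y hx hy =>
    rw [map_add, AddMonoidAlgebra.coeff_add, AddMonoidAlgebra.coeff_add, Finsupp.add_apply,
      Finsupp.add_apply, hx, hy, add_mul]
  | single u c =>
    rw [tw_single, AddMonoidAlgebra.coeff_single, AddMonoidAlgebra.coeff_single]
    by_cases h : u = v
    · subst h; simp
    · simp [h]

/-- the element `X^q - b(q)` times the twist of `aq m q` is `b(q)/m (X^{mq} - 1)` if `b(q)^m = 1` -/
theorem tw_aq (b : AddChar G Circle) {m : ℕ} (hm : 0 < m) {q : G} (hb : b (m • q) = 1) :
    (AddMonoidAlgebra.single q 1 - AddMonoidAlgebra.single 0 ((b q : Circle) : ℂ)) * tw b (aq m q) =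
      AddMonoidAlgebra.single 0 (((b q : Circle) : ℂ) / m) *
        (AddMonoidAlgebra.single (m • q) 1 - 1) := by
  have hbm : ((b q : Circle) : ℂ) ^ m = 1 := by
    rw [← Circle.coe_pow, ← AddChar.map_nsmul_eq_pow, hb, Circle.coe_one]
  have hbc : ((b q : Circle) : ℂ) * conj ((b q : Circle) : ℂ) = 1 := by
    rw [← Circle.coe_inv_eq_conj, ← Circle.coe_mul, mul_inv_cancel, Circle.coe_one]
  have hcm : (conj ((b q : Circle) : ℂ)) ^ m = 1 := by
    rw [← map_pow, hbm, map_one]
  have hpow : ∀ i : ℕ, (AddMonoidAlgebra.single q (conj ((b q : Circle) : ℂ)) : RG ℂ G) ^ i =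
      AddMonoidAlgebra.single (i • q) ((conj ((b q : Circle) : ℂ)) ^ i) := by
    intro i
    rw [AddMonoidAlgebra.single_pow]
  have htw : tw b (aq m q) = AddMonoidAlgebra.single 0 ((m : ℂ)⁻¹) *
      ∑ i ∈ Finset.range m,
        (AddMonoidAlgebra.single q (conj ((b q : Circle) : ℂ)) : RG ℂ G) ^ i := by
    rw [aq, map_sum, Finset.mul_sum]
    refine Finset.sum_congr rfl fun i _ => ?_
    rw [tw_single, hpow, AddMonoidAlgebra.single_mul_single, zero_add, AddChar.map_nsmul_eq_pow,
      Circle.coe_pow, map_pow]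
  have hX : (AddMonoidAlgebra.single q 1 - AddMonoidAlgebra.single 0 ((b q : Circle) : ℂ) :
      RG ℂ G) = AddMonoidAlgebra.single 0 ((b q : Circle) : ℂ) *
        (AddMonoidAlgebra.single q (conj ((b q : Circle) : ℂ)) - 1) := by
    rw [mul_sub, mul_one, AddMonoidAlgebra.single_mul_single, zero_add, hbc]
  have hgeom := mul_geom_sum (AddMonoidAlgebra.single q (conj ((b q : Circle) : ℂ)) : RG ℂ G) m
  rw [hpow, hcm] at hgeom
  rw [← hgeom, htw, hX, div_eq_mul_inv]
  have h3 : (AddMonoidAlgebra.single 0 (((b q : Circle) : ℂ) * (m : ℂ)⁻¹) : RG ℂ G) =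
      AddMonoidAlgebra.single 0 ((b q : Circle) : ℂ) * AddMonoidAlgebra.single 0 ((m : ℂ)⁻¹) := by
    rw [AddMonoidAlgebra.single_mul_single, zero_add]
  rw [h3]
  ring

/-- integral and complex operators commute -/
private theorem avga_comm (g : RG ℤ G) (w : RG ℂ G) (h : G → ℂ) :
    act g (act w h) = act w (act g h) := by
  classical
  induction g using AddMonoidAlgebra.induction_linear with
  | zero => simp
  | add x y hx hy => rw [act_add, act_add, act_fun_add, hx, hy]
  | single v c =>
    funext x
    rw [act_single]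
    simp only [act_apply w, Finsupp.sum, Finset.smul_sum, act_single]
    refine Finset.sum_congr rfl fun u _ => ?_
    rw [smul_comm, add_right_comm]

/-- the operator of `fl θ q` on an eigenfunction -/
private theorem avga_eig {q : G} {S : G → ℂ} {β : ℂ} (hS : ∀ x, S (x + q) = β * S x)
    (θ : ℤ[X]) : act (fl θ q) S = aeval β θ • S := by
  classical
  have hn : ∀ (n : ℕ) (x : G), S (x + n • q) = β ^ n * S x := by
    intro n
    induction n with
    | zero => intro x; simp
    | succ k ih =>
      intro x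
      rw [succ_nsmul, ← add_assoc, hS, ih, pow_succ]
      ring
  unfold fl
  induction θ using Polynomial.induction_on' with
  | add p r hp hr => rw [map_add, map_add, act_add, hp, hr, add_smul]
  | monomial n a =>
    rw [aeval_monomial, aeval_monomial, ← tr_nsmul, act_mul]
    funext x
    have h1 : act (tr (n • q)) S = fun x => S (x + n • q) := by
      funext y
      exact act_tr _ _ _
    rw [h1]
    have h2 : (algebraMap ℤ (RG ℤ G)) a = AddMonoidAlgebra.single 0 a := by
      rw [AddMonoidAlgebra.coe_algebraMap]; rfl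
    rw [h2, act_single, add_zero, hn, Pi.smul_apply]
    simp [mul_assoc]

/-- **One factor.**  If `θ(X^q) h = 0`, `θ ∣ X^m - 1`, `b(q)^m = 1` and `θ(b(q)) ≠ 0`, then the
twisted average of `h` along `q` is `0`.
PROOF: `h(x + m q) = h(x)` (as `θ ∣ X^m - 1`), so by `tw_aq` `S = act (tw b (aq m q)) h` satisfies
`S(x+q) = b(q) S(x)`, hence `act (fl θ q) S = θ(b q) S`; it is also
`act (tw b (aq m q)) (act (fl θ q) h) = 0` (the operators commute; the action of `ℤ[G]` on complex
functions is that of its image in `ℂ[G]`). -/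
theorem one_factor (b : AddChar G Circle) {m : ℕ} (hm : 0 < m) {q : G} (hb : b (m • q) = 1)
    {θ : ℤ[X]} (hθ : θ ∣ X ^ m - 1) (hne : aeval ((b q : Circle) : ℂ) θ ≠ 0) {h : G → ℂ}
    (h0 : act (fl θ q) h = 0) : act (tw b (aq m q)) h = 0 := by
  have hper : ∀ x, h (x + m • q) = h x := by
    obtain ⟨r, hr⟩ := hθ
    have h1 : act (fl (X ^ m - 1 : ℤ[X]) q) h = 0 := by
      have : fl (X ^ m - 1 : ℤ[X]) q = fl r q * fl θ q := by
        rw [hr]
        unfold fl
        rw [map_mul, mul_comm]
      rw [this, act_mul, h0, act_fun_zero]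
    have h2 : fl (X ^ m - 1 : ℤ[X]) q = tr (m • q) - 1 := by
      unfold fl
      rw [map_sub, map_pow, aeval_X, map_one, tr_nsmul]
    rw [h2, act_sub, act_one] at h1
    intro x
    have h3 := congrFun h1 x
    rw [Pi.sub_apply, act_tr, Pi.zero_apply, sub_eq_zero] at h3
    exact h3
  have h4 : act (AddMonoidAlgebra.single (m • q) 1 - 1 : RG ℂ G) h = 0 := by
    funext x
    rw [act_sub, act_one, Pi.sub_apply, act_single, one_smul, hper, sub_self, Pi.zero_apply]
  have h5 : act (AddMonoidAlgebra.single q 1 - AddMonoidAlgebra.single 0 ((b q : Circle) : ℂ) :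
      RG ℂ G) (act (tw b (aq m q)) h) = 0 := by
    rw [← act_mul, tw_aq b hm hb, act_mul, h4, act_fun_zero]
  have h6 : ∀ x, act (tw b (aq m q)) h (x + q) =
      ((b q : Circle) : ℂ) * act (tw b (aq m q)) h x := by
    intro x
    have h7 := congrFun h5 x
    rw [act_sub, Pi.sub_apply, act_single, act_single, one_smul, add_zero, Pi.zero_apply,
      sub_eq_zero, smul_eq_mul] at h7
    exact h7
  have h8 := avga_eig h6 θ
  rw [avga_comm, h0, act_fun_zero] at h8
  exact (smul_eq_zero.1 h8.symm).resolve_left hne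

end Pool.Agent.NL53
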