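import Pool.Agent.Lib.MP_53fa4a_an_NL.Defs

/-!
# Averages and twists: definitions
-/

set_option autoImplicit false

open Polynomial
open scoped BigOperators ComplexConjugate

noncomputable section

namespace Pool.Agent.NL53

variable {G : Type*} [AddCommGroup G]

/-- `m⁻¹ ∑_{i < m} X^{i q}` -/
def aq (m : ℕ) (q : G) : RG ℂ G :=
  ∑ i ∈ Finset.range m, AddMonoidAlgebra.single (i • q) ((m : ℂ)⁻¹)

/-- the product of the `aq m q` over the list -/
def wL (m : ℕ) (qs : List G) : RG ℂ G := (qs.map (aq m)).prod

/-- the twist `X^v ↦ conj (b v) X^v`, a ring homomorphism -/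
def tw (b : AddChar G Circle) : RG ℂ G →+* RG ℂ G :=
  (AddMonoidAlgebra.lift ℂ (RG ℂ G) G
    ({ toFun := fun v => AddMonoidAlgebra.single v.toAdd (conj ((b v.toAdd : Circle) : ℂ)),
       map_one' := by simp; rfl,
       map_mul' := by
        intro x y
        simp [AddChar.map_add_eq_mul, AddMonoidAlgebra.single_mul_single] } :
      Multiplicative G →* RG ℂ G)).toRingHom

lemma tw_single (b : AddChar G Circle) (v : G) (c : ℂ) :
    tw b (AddMonoidAlgebra.single v c) =
      AddMonoidAlgebra.single v (c * conj ((b v : Circle) : ℂ)) := by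
  simp [tw]

end Pool.Agent.NL53
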