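import Pool.Agent.Lib.MP_53fa4a_an_NL.SpecDef

/-!
# Bounded multi-tiles have closures with interior points
-/

set_option autoImplicit false

open MeasureTheory Set Filter
open scoped ENNReal Topology ComplexConjugate BigOperators

noncomputable section

namespace Pool.Agent.NL53

open Pool.Agent.SpecND (E ee)

variable {d : ℕ}

/-- **Baire.**  PROOF: almost every point of the ball `ball 0 1` is in one of the finitely many
translates `Ω - l`, `l` in the lattice, which meet the ball (`Ω` is bounded); so the union of
the closures of these translates, a closed set, contains the ball; if `closure Ω` had empty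
interior, this finite union of closed sets with empty interior would have empty interior. -/
theorem interior_of_tile {Ω : Set (E d)} (hb : Bornology.IsBounded Ω)
    (v : Module.Basis (Fin d) ℝ (E d)) {N : ℕ} (hN : 0 < N)
    (ht : ∀ᵐ x, {l | l ∈ Submodule.span ℤ (Set.range v) ∧ x + l ∈ Ω}.encard = N) :
    (interior (closure Ω)).Nonempty := by
  classical
  obtain ⟨r, hr⟩ := hb.subset_closedBall (0 : E d)
  have hF : ({l : E d | l ∈ Submodule.span ℤ (Set.range v) ∧
      ∃ x ∈ Metric.ball (0 : E d) 1, x + l ∈ Ω}).Finite := by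
    have h1 : (Metric.closedBall (0 : E d) (r + 1) ∩
        (Submodule.span ℤ (Set.range v) : Set (E d))).Finite :=
      ZSpan.setFinite_inter v Metric.isBounded_closedBall
    refine h1.subset fun l hl => ?_
    obtain ⟨hl1, x, hx, hxl⟩ := hl
    refine ⟨?_, hl1⟩
    have h2 := hr hxl
    rw [mem_closedBall_zero_iff] at h2 ⊢
    rw [mem_ball_zero_iff] at hx
    have h3 : l = (x + l) - x := by abel
    have h4 : ‖l‖ ≤ ‖x + l‖ + ‖x‖ := by
      have h5 := norm_sub_le (x + l) x
      rwa [← h3] at h5
    linarith
  obtain ⟨F, hFd⟩ : ∃ F : Set (E d), F = {l : E d | l ∈ Submodule.span ℤ (Set.range v) ∧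
      ∃ x ∈ Metric.ball (0 : E d) 1, x + l ∈ Ω} := ⟨_, rfl⟩
  rw [← hFd] at hF
  obtain ⟨U, hU⟩ : ∃ U : Set (E d), U = ⋃ l ∈ F, (fun x => x + l) ⁻¹' closure Ω := ⟨_, rfl⟩
  have hclo : ∀ l : E d, IsClosed ((fun x : E d => x + l) ⁻¹' closure Ω) := fun l =>
    isClosed_closure.preimage (continuous_id.add continuous_const)
  have hUc : IsClosed U := by
    rw [hU]
    exact hF.isClosed_biUnion fun l _ => hclo l
  have hsub : Metric.ball (0 : E d) 1 ⊆ U := by
    have ho : IsOpen (Metric.ball (0 : E d) 1 \ U) := Metric.isOpen_ball.sdiff hUc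
    have hnull : volume (Metric.ball (0 : E d) 1 \ U) = 0 := by
      have h1 : Metric.ball (0 : E d) 1 \ U ⊆
          {x | ¬ {l | l ∈ Submodule.span ℤ (Set.range v) ∧ x + l ∈ Ω}.encard = N} := by
        intro x hx hN'
        have hne : {l | l ∈ Submodule.span ℤ (Set.range v) ∧ x + l ∈ Ω}.Nonempty := by
          rw [Set.nonempty_iff_ne_empty]
          intro h2
          rw [h2, Set.encard_empty] at hN'
          have h3 : (N : ℕ∞) = 0 := hN'.symm
          have h4 : N = 0 := by exact_mod_cast h3
          omega
        obtain ⟨l, hl1, hl2⟩ := hne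
        refine hx.2 ?_
        rw [hU]
        refine Set.mem_biUnion (x := l) ?_ (subset_closure hl2)
        rw [hFd]
        exact ⟨hl1, x, hx.1, hl2⟩
      exact measure_mono_null h1 ht
    have hemp := (ho.measure_eq_zero_iff volume).1 hnull
    exact Set.diff_eq_empty.1 hemp
  by_contra hcon
  rw [Set.not_nonempty_iff_eq_empty] at hcon
  have hint : ∀ l : E d, interior ((fun x : E d => x + l) ⁻¹' closure Ω) = ∅ := by
    intro l
    have h1 := (Homeomorph.addRight l).preimage_interior (closure Ω)
    rw [hcon, Set.preimage_empty] at h1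
    exact h1.symm
  have hfin : ∀ s : Set (E d), s.Finite →
      interior (⋃ l ∈ s, (fun x : E d => x + l) ⁻¹' closure Ω) = ∅ := by
    intro s hs
    induction s, hs using Set.Finite.induction_on with
    | empty => simp
    | @insert a s _ _ ih =>
      rw [Set.biUnion_insert, interior_union_isClosed_of_interior_empty (hclo a) ih]
      exact hint a
  have h2 : Metric.ball (0 : E d) 1 ⊆ interior U := interior_maximal hsub Metric.isOpen_ball
  rw [hU, hfin F hF] at h2
  exact h2 (Metric.mem_ball_self one_pos)

end Pool.Agent.NL53
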