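import Mathlib

/-!
# Exponentials, boxes and box averages on `ℤ^j`: definitions
-/

set_option autoImplicit false

open Filter
open scoped BigOperators Topology ComplexConjugate

noncomputable section

namespace Pool.Agent.NL53

/-- `exp (2 π i ⟨w, ξ⟩)` -/
def ex {j : ℕ} (w : Fin j → ℤ) (ξ : Fin j → ℝ) : ℂ :=
  Complex.exp (2 * Real.pi * Complex.I * ((∑ i, (w i : ℝ) * ξ i : ℝ) : ℂ))

/-- the box `{w : a ≤ w_i < b}` -/
def bx (j : ℕ) (a b : ℤ) : Finset (Fin j → ℤ) := Fintype.piFinset fun _ => Finset.Ico a b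

/-- the average over the box `u + [0, l)^j` -/
def av {j : ℕ} (l : ℕ) (f : (Fin j → ℤ) → ℂ) (u : Fin j → ℤ) : ℂ :=
  ((l : ℂ) ^ j)⁻¹ * ∑ a ∈ bx j 0 l, f (u + a)

/-- `∑_w |κ(w)| min (2, 2 |w|_1 / l)` -/
def th {j : ℕ} (κ : (Fin j → ℤ) → ℂ) (l : ℕ) : ℝ :=
  ∑' w, ‖κ w‖ * min 2 (2 * (∑ i, |(w i : ℝ)|) / l)

lemma norm_ex {j : ℕ} (w : Fin j → ℤ) (ξ : Fin j → ℝ) : ‖ex w ξ‖ = 1 := by
  unfold ex
  rw [mul_assoc, mul_comm Complex.I, ← mul_assoc]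
  exact_mod_cast Complex.norm_exp_ofReal_mul_I (2 * Real.pi * ∑ i, (w i : ℝ) * ξ i)

lemma ex_add {j : ℕ} (w w' : Fin j → ℤ) (ξ : Fin j → ℝ) : ex (w + w') ξ = ex w ξ * ex w' ξ := by
  unfold ex
  rw [← Complex.exp_add]
  congr 1
  simp only [Pi.add_apply]
  push_cast
  rw [← mul_add, ← Finset.sum_add_distrib]
  congr 1
  exact Finset.sum_congr rfl fun i _ => by ring

lemma ex_zero {j : ℕ} (ξ : Fin j → ℝ) : ex (0 : Fin j → ℤ) ξ = 1 := by simp [ex]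

lemma ex_zero_right {j : ℕ} (w : Fin j → ℤ) : ex w (0 : Fin j → ℝ) = 1 := by simp [ex]

lemma ex_neg {j : ℕ} (w : Fin j → ℤ) (ξ : Fin j → ℝ) : ex (-w) ξ = conj (ex w ξ) := by
  unfold ex
  rw [← Complex.exp_conj]
  congr 1
  have h2 : (starRingEnd ℂ) 2 = 2 := map_ofNat _ 2
  simp [h2]

lemma ex_mul_conj {j : ℕ} (w : Fin j → ℤ) (ξ : Fin j → ℝ) : ex w ξ * conj (ex w ξ) = 1 := by
  rw [← ex_neg, ← ex_add, add_neg_cancel, ex_zero]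

end Pool.Agent.NL53
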