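import Mathlib

/-!
# Characters of finite groups with values in the circle
-/

set_option autoImplicit false

open scoped BigOperators ComplexConjugate

noncomputable section

namespace Pool.Agent.NL53

variable {T : Type*} [AddCommGroup T]

instance instFintypeAddCharCircle [Finite T] : Fintype (AddChar T Circle) :=
  Fintype.ofEquiv (AddChar T ℂ) (AddChar.circleEquivComplex (α := T)).symm.toEquiv

theorem card_char [Fintype T] : Fintype.card (AddChar T Circle) = Fintype.card T := by
  classical
  rw [Fintype.card_congr (AddChar.circleEquivComplex (α := T)).toEquiv]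
  exact AddChar.card_eq

theorem char_orth [Fintype T] [DecidableEq T] (t : T) :
    ∑ χ : AddChar T Circle, ((χ t : Circle) : ℂ) = if t = 0 then (Fintype.card T : ℂ) else 0 := by
  rw [← AddChar.sum_apply_eq_ite]
  exact Fintype.sum_equiv (AddChar.circleEquivComplex (α := T)).toEquiv _ _ fun χ => rfl

/-- `χ(t) conj χ(s) = χ(t - s)` -/
theorem char_mul_conj (χ : AddChar T Circle) (t s : T) :
    ((χ t : Circle) : ℂ) * conj ((χ s : Circle) : ℂ) = ((χ (t - s) : Circle) : ℂ) := by
  rw [← Circle.coe_inv_eq_conj, ← Circle.coe_mul, ← AddChar.map_neg_eq_inv,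
    ← AddChar.map_add_eq_mul, sub_eq_add_neg]

/-- Parseval: `∑_t g(t) F(t) = |T|⁻¹ ∑_χ (∑_t g(t) χ(t)) (∑_s F(s) conj χ(s))` -/
theorem parseval_T [Fintype T] (g F : T → ℂ) :
    (Fintype.card T : ℂ) * ∑ t, g t * F t =
      ∑ χ : AddChar T Circle, (∑ t, g t * ((χ t : Circle) : ℂ)) *
        ∑ s, F s * conj ((χ s : Circle) : ℂ) := by
  classical
  have h1 : ∀ χ : AddChar T Circle, (∑ t, g t * ((χ t : Circle) : ℂ)) *
      ∑ s, F s * conj ((χ s : Circle) : ℂ) =
      ∑ t, ∑ s, g t * F s * ((χ (t - s) : Circle) : ℂ) := by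
    intro χ
    rw [Finset.sum_mul_sum]
    refine Finset.sum_congr rfl fun t _ => Finset.sum_congr rfl fun s _ => ?_
    rw [← char_mul_conj]
    ring
  rw [Finset.sum_congr rfl fun χ _ => h1 χ, Finset.sum_comm]
  rw [Finset.mul_sum]
  refine Finset.sum_congr rfl fun t _ => ?_
  rw [Finset.sum_comm]
  have h2 : ∀ s, ∑ χ : AddChar T Circle, g t * F s * ((χ (t - s) : Circle) : ℂ) =
      if t = s then (Fintype.card T : ℂ) * (g t * F t) else 0 := by
    intro s
    rw [← Finset.mul_sum, char_orth]
    by_cases h : t = s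
    · subst h; simp; ring
    · simp [h, sub_eq_zero]
  rw [Finset.sum_congr rfl fun s _ => h2 s]
  simp

end Pool.Agent.NL53
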