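import Mathlib

/-!
# Galois conjugate characters of a finite group
-/

set_option autoImplicit false

open Polynomial
open scoped BigOperators ComplexConjugate

noncomputable section

namespace Pool.Agent.NL53

/-- **Galois conjugation.**  `T` finite, `H : T → ℤ` with `∑_t H(t) χ(t) = 0`; if `χ'` is a
character such that `χ'(t)` and `χ(t)` have the same order for all `t`, then `∑_t H(t) χ'(t) = 0`.
PROOF.  The range of `χ` is a finite subgroup of `ℂˣ`, hence cyclic (`isCyclic_of_subgroup_isDomain`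
or `isCyclic_subgroup_units`), of order `M`; take `t₁` with `χ(t₁)` a generator, a primitive `M`-th
root of unity `ζ`; `ζ' = χ'(t₁)` is also a primitive `M`-th root of unity.  For every `t` there is
`e(t) ∈ ℕ` with `χ(t) = ζ^e(t)`, i.e. `χ(t - e(t) t₁) = 1`, so `χ'(t - e(t) t₁) = 1` (same order)
and `χ'(t) = ζ'^e(t)`.  The polynomial `p = ∑_t H(t) X^e(t) ∈ ℤ[X]` vanishes at `ζ`, so the minimal
polynomial `cyclotomic M` divides it (`IsPrimitiveRoot.minpoly_dvd_...`,
`Polynomial.cyclotomic_eq_minpoly`, `minpoly.isIntegrallyClosed_dvd`), so it vanishes at `ζ'`. -/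
theorem galois {T : Type*} [AddCommGroup T] [Fintype T] (χ χ' : AddChar T Circle)
    (hord : ∀ t, orderOf (χ t) = orderOf (χ' t)) (H : T → ℤ)
    (h : ∑ t, (H t : ℂ) * ((χ t : Circle) : ℂ) = 0) :
    ∑ t, (H t : ℂ) * ((χ' t : Circle) : ℂ) = 0 := by
  classical
  have hfin : Finite T := inferInstance
  -- the range is cyclic
  obtain ⟨f, hf⟩ : ∃ f : Multiplicative T →* Circle, ∀ t, f (Multiplicative.ofAdd t) = χ t :=
    ⟨χ.toMonoidHom, fun t => rfl⟩
  have hfr : Finite f.range := Finite.of_surjective f.rangeRestrict f.rangeRestrict_surjective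
  have hcyc : IsCyclic f.range := by
    refine isCyclic_of_injective_ringHom ((Circle.coeHom).comp f.range.subtype) ?_
    intro x y hxy
    exact Subtype.ext (Circle.ext hxy)
  obtain ⟨⟨g, hg⟩, hgen⟩ := hcyc.exists_generator
  obtain ⟨t1', ht1'⟩ := hg
  obtain ⟨t1, rfl⟩ : ∃ t1, Multiplicative.ofAdd t1 = t1' := ⟨t1'.toAdd, rfl⟩
  rw [hf] at ht1'
  have hgfin : IsOfFinOrder g := by
    have h1 : IsOfFinOrder (⟨g, ⟨_, (hf t1).trans ht1'⟩⟩ : f.range) := isOfFinOrder_of_finite _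
    exact f.range.subtype.isOfFinOrder h1
  have hpow : ∀ t, ∃ n : ℕ, χ t = χ t1 ^ n := by
    intro t
    have h1 := hgen ⟨f (Multiplicative.ofAdd t), ⟨_, rfl⟩⟩
    obtain ⟨k, hk⟩ := Subgroup.mem_zpowers_iff.1 h1
    have hk' : g ^ k = χ t := by
      have := congrArg Subtype.val hk
      simpa [hf] using this
    have h2 : χ t ∈ Subgroup.zpowers g := ⟨k, hk'⟩
    rw [← hgfin.mem_powers_iff_mem_zpowers] at h2
    obtain ⟨n, hn⟩ := h2
    exact ⟨n, by rw [ht1']; exact hn.symm⟩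
  choose e he using hpow
  have he' : ∀ t, χ' t = χ' t1 ^ e t := by
    intro t
    have h1 : χ (t - e t • t1) = 1 := by
      rw [AddChar.map_sub_eq_div, AddChar.map_nsmul_eq_pow, ← he, div_self']
    have h2 : χ' (t - e t • t1) = 1 := by
      rw [← orderOf_eq_one_iff, ← hord, h1, orderOf_one]
    rw [AddChar.map_sub_eq_div, AddChar.map_nsmul_eq_pow] at h2
    exact div_eq_one.1 h2
  -- primitive roots
  have hM : 0 < orderOf (χ t1) := by
    rw [ht1']; exact hgfin.orderOf_pos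
  have hinj : Function.Injective (Circle.coeHom : Circle →* ℂ) := fun x y hxy => Circle.ext hxy
  have hz : IsPrimitiveRoot ((χ t1 : Circle) : ℂ) (orderOf (χ t1)) :=
    (IsPrimitiveRoot.orderOf (χ t1)).map_of_injective hinj
  have hz' : IsPrimitiveRoot ((χ' t1 : Circle) : ℂ) (orderOf (χ t1)) := by
    rw [hord t1]
    exact (IsPrimitiveRoot.orderOf (χ' t1)).map_of_injective hinj
  have hmin : minpoly ℤ ((χ t1 : Circle) : ℂ) = minpoly ℤ ((χ' t1 : Circle) : ℂ) := by
    rw [← Polynomial.cyclotomic_eq_minpoly hz hM, ← Polynomial.cyclotomic_eq_minpoly hz' hM]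
  obtain ⟨p, hp⟩ : ∃ p : ℤ[X], p = ∑ t, C (H t) * X ^ e t := ⟨_, rfl⟩
  have hev : ∀ ψ : AddChar T Circle, (∀ t, ψ t = ψ t1 ^ e t) →
      aeval ((ψ t1 : Circle) : ℂ) p = ∑ t, (H t : ℂ) * ((ψ t : Circle) : ℂ) := by
    intro ψ hψ
    rw [hp, map_sum]
    refine Finset.sum_congr rfl fun t _ => ?_
    rw [map_mul, map_pow, aeval_C, aeval_X, hψ t, Circle.coe_pow]
    simp
  have h0 : aeval ((χ t1 : Circle) : ℂ) p = 0 := by rw [hev χ he, h]
  have hdvd : minpoly ℤ ((χ t1 : Circle) : ℂ) ∣ p :=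
    minpoly.isIntegrallyClosed_dvd (hz.isIntegral hM) h0
  rw [hmin] at hdvd
  obtain ⟨q, hq⟩ := hdvd
  rw [← hev χ' he', hq, map_mul, minpoly.aeval, zero_mul]

end Pool.Agent.NL53
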