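import Pool.Agent.Lib.MP_53fa4a_an_NL.Defs
import Pool.Agent.Lib.MP_53fa4a_an_NL.FChar
import Pool.Agent.Lib.MP_53fa4a_an_NL.Gal

/-!
# The flat element of a character of the torsion part
-/

set_option autoImplicit false

open Polynomial
open scoped BigOperators ComplexConjugate

noncomputable section

namespace Pool.Agent.NL53

section psi

variable {A T : Type*} [AddCommGroup A] [AddCommGroup T]

private theorem psi_orderOf (z : Circle) : orderOf ((z : Circle) : ℂ) = orderOf z :=
  orderOf_injective Circle.coeHom Subtype.val_injective z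

private theorem psi_aeval_cyc {d : ℕ} (hd : 0 < d) (z : Circle) :
    aeval ((z : Circle) : ℂ) (cyclotomic d ℤ) = 0 ↔ orderOf z = d := by
  have h0 : NeZero ((d : ℕ) : ℂ) := ⟨by exact_mod_cast hd.ne'⟩
  have h1 : aeval ((z : Circle) : ℂ) (cyclotomic d ℤ) =
      eval ((z : Circle) : ℂ) (cyclotomic d ℂ) := by
    rw [aeval_def, eval₂_eq_eval_map, map_cyclotomic]
  rw [h1, ← IsRoot.def, isRoot_cyclotomic_iff, ← psi_orderOf]
  constructor
  · intro h
    exact h.eq_orderOf.symm
  · intro h
    rw [← h]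
    exact IsPrimitiveRoot.orderOf _

/-- The product of the cyclotomic polynomials of the other orders. -/
private def psiTh (M o : ℕ) : ℤ[X] := ∏ d ∈ M.divisors.erase o, cyclotomic d ℤ

private theorem psiTh_cyc {M : ℕ} (hM : 0 < M) (o : ℕ) : Cyc (psiTh M o) := by
  refine ⟨M, hM, ?_⟩
  rw [← prod_cyclotomic_eq_X_pow_sub_one hM ℤ]
  exact Finset.prod_dvd_prod_of_subset _ _ _ (Finset.erase_subset _ _)

private theorem psiTh_ne {M : ℕ} (z : Circle) : aeval ((z : Circle) : ℂ) (psiTh M (orderOf z)) ≠
    0 := by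
  unfold psiTh
  rw [map_prod]
  refine Finset.prod_ne_zero_iff.2 fun d hd => ?_
  rw [Finset.mem_erase] at hd
  intro h
  rw [psi_aeval_cyc (Nat.pos_of_mem_divisors hd.2)] at h
  exact hd.1 h.symm

private theorem psiTh_order {M o : ℕ} (hM : 0 < M) (z : Circle) (hz : z ^ M = 1)
    (h : aeval ((z : Circle) : ℂ) (psiTh M o) ≠ 0) : orderOf z = o := by
  by_contra hne
  apply h
  unfold psiTh
  rw [map_prod]
  have h1 : orderOf z ∈ M.divisors.erase o :=
    Finset.mem_erase.2 ⟨hne, Nat.mem_divisors.2 ⟨orderOf_dvd_of_pow_eq_one hz, hM.ne'⟩⟩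
  refine Finset.prod_eq_zero h1 ?_
  rw [psi_aeval_cyc (Nat.pos_of_mem_divisors (Finset.mem_erase.1 h1).2)]

private theorem psi_pow_card [Fintype T] (χ : AddChar T Circle) (t : T) :
    χ t ^ Fintype.card T = 1 := by
  rw [← AddChar.map_nsmul_eq_pow, card_nsmul_eq_zero, AddChar.map_zero_eq_one]

/-- The embedding of the group algebra of `T`. -/
private def psiI (A T : Type*) [AddCommGroup A] [AddCommGroup T] : RG ℤ T →+* RG ℤ (A × T) :=
  AddMonoidAlgebra.mapDomainRingHom ℤ (AddMonoidHom.inr A T)

private theorem psiI_single (t : T) (c : ℤ) :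
    psiI A T (AddMonoidAlgebra.single t c) = AddMonoidAlgebra.single ((0 : A), t) c := by
  unfold psiI
  rw [AddMonoidAlgebra.mapDomainRingHom_apply, AddMonoidAlgebra.mapDomain_single]
  rfl

private theorem psiI_fl (θ : ℤ[X]) (t : T) : psiI A T (fl θ t) = fl θ ((0 : A), t) := by
  unfold fl
  have h1 : tr ((0 : A), t) = (psiI A T).toIntAlgHom (tr t) := (psiI_single t 1).symm
  rw [h1, aeval_algHom_apply]
  rfl

private theorem psiI_act (g : RG ℤ T) (h : A × T → ℤ) (x : A × T) :
    act (psiI A T g) h x = act g (fun t => h (x + ((0 : A), t))) 0 := by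
  induction g using AddMonoidAlgebra.induction_linear with
  | zero => simp
  | add a b ha hb =>
    rw [map_add, act_add, act_add, Pi.add_apply, Pi.add_apply, ha, hb]
  | single t c =>
    rw [psiI_single, act_single, act_single, zero_add]

private theorem psi_act_sum [Fintype T] (g : RG ℤ T) (H : T → ℤ) :
    ((act g H 0 : ℤ) : ℂ) = ∑ t, ((g.coeff t : ℤ) : ℂ) * ((H t : ℤ) : ℂ) := by
  rw [act_apply, Finsupp.sum_fintype _ _ fun i => by simp]
  push_cast
  refine Finset.sum_congr rfl fun t _ => ?_
  rw [zero_add, smul_eq_mul]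
  push_cast
  rfl

private theorem psi_ev_sum [Fintype T] (g : RG ℤ T) (χ : AddChar T Circle) :
    ∑ t, ((g.coeff t : ℤ) : ℂ) * ((χ t : Circle) : ℂ) = ev χ g := by
  rw [ev_apply, Finsupp.sum_fintype _ _ fun i => by simp]

end psi

/-- **The flat element of a character `χ` of `T`.**
PROOF.  Let `M = card T`, `o t = orderOf (χ t)` (divides `M`),
`θ t = ∏_{d ∣ M, d ≠ o t} cyclotomic d ℤ`, so `θ t * cyclotomic (o t) ℤ = X ^ M - 1`
(`Polynomial.prod_cyclotomic_eq_X_pow_sub_one`), and `L` = the list of the `(θ t, (0, t))`, `t ∈ T`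
(`Finset.univ.toList.map`). (2) `ev b (prd L) = ∏_t (θ t)(χ t)` (`ev_fl`), and `(θ t)(χ t) ≠ 0`,
because `χ t` is a primitive `o t`-th root of unity, hence not a root of `cyclotomic d` for
`d ≠ o t`. (3) fix `x` and let `H t = h (x + (0,t))`.  By Fourier inversion on `T`
(`AddChar` sums: `∑_χ' χ'(t) conj χ'(s) = card T` if `s = t`, `0` otherwise),
`card T * act (prd L) h x = ∑_χ' (∑_s H(s) conj (χ' s)) * ∏_t (θ t)(χ' t)` (sum over all characters
`χ' : AddChar T Circle` (or `AddChar T ℂ`) of `T`): expand `prd L` (an element supported on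
`0 × T`). If the last product is not `0` for some `χ'`, then for every `t`, `(χ' t)^M = 1` and
`(θ t)(χ' t) ≠ 0`, so `χ' t` is a root of `cyclotomic (o t)`, i.e. `orderOf (χ' t) = o t`; by
`galois` (take complex conjugates, `H` is real) the first factor is `0`. -/
theorem exists_psi {A T : Type*} [AddCommGroup A] [AddCommGroup T] [Fintype T]
    (χ : AddChar T Circle) :
    ∃ L : List (ℤ[X] × (A × T)), (∀ p ∈ L, Cyc p.1) ∧
      (∀ b : AddChar (A × T) Circle, (∀ t, b (0, t) = χ t) → ev b (prd L) ≠ 0) ∧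
      ∀ h : A × T → ℤ,
        (∀ x, ∑ t, ((h (x + (0, t)) : ℤ) : ℂ) * conj ((χ t : Circle) : ℂ) = 0) →
        act (prd L) h = 0 := by
  have hM : 0 < Fintype.card T := Fintype.card_pos
  refine ⟨Finset.univ.toList.map fun t => (psiTh (Fintype.card T) (orderOf (χ t)), ((0 : A), t)),
    ?_, ?_, ?_⟩
  · intro p hp
    obtain ⟨t, _, rfl⟩ := List.mem_map.1 hp
    exact psiTh_cyc hM _
  · intro b hb
    unfold prd
    rw [map_list_prod]
    refine List.prod_ne_zero ?_
    intro h0
    rw [List.map_map, List.map_map] at h0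
    obtain ⟨t, _, ht⟩ := List.mem_map.1 h0
    have h1 : ev b (fl (psiTh (Fintype.card T) (orderOf (χ t))) ((0 : A), t)) = 0 := ht
    rw [ev_fl, hb] at h1
    exact psiTh_ne (χ t) h1
  · intro h hh
    funext x
    obtain ⟨g, hg⟩ : ∃ g : RG ℤ T, g = prd (Finset.univ.toList.map fun t : T =>
      (psiTh (Fintype.card T) (orderOf (χ t)), t)) := ⟨_, rfl⟩
    have h1 : prd (Finset.univ.toList.map fun t : T =>
        (psiTh (Fintype.card T) (orderOf (χ t)), ((0 : A), t))) = psiI A T g := by
      rw [hg]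
      unfold prd
      rw [map_list_prod, List.map_map, List.map_map, List.map_map]
      refine congrArg List.prod (List.map_congr_left fun t _ => ?_)
      exact (psiI_fl _ _).symm
    rw [h1, psiI_act]
    obtain ⟨H, hH⟩ : ∃ H : T → ℤ, H = fun t => h (x + ((0 : A), t)) := ⟨_, rfl⟩
    rw [← hH]
    have hH0 : ∑ t, ((H t : ℤ) : ℂ) * ((χ t : Circle) : ℂ) = 0 := by
      have h2 := congrArg conj (hh x)
      rw [map_sum, map_zero] at h2
      rw [← h2]
      refine Finset.sum_congr rfl fun t _ => ?_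
      rw [map_mul, Complex.conj_conj, hH]
      congr 1
      exact (map_intCast (starRingEnd ℂ) _).symm
    have h3 : (Fintype.card T : ℂ) * ((act g H 0 : ℤ) : ℂ) = 0 := by
      rw [psi_act_sum, parseval_T]
      refine Finset.sum_eq_zero fun χ' _ => ?_
      rw [psi_ev_sum]
      by_cases hev : ev χ' g = 0
      · rw [hev, zero_mul]
      · have h4 : ∀ t, orderOf (χ t) = orderOf (χ' t) := by
          intro t
          refine (psiTh_order hM (χ' t) (psi_pow_card χ' t) fun h5 => hev ?_).symm
          rw [hg]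
          unfold prd
          rw [map_list_prod]
          refine List.prod_eq_zero ?_
          rw [List.map_map, List.map_map]
          refine List.mem_map.2 ⟨t, Finset.mem_toList.2 (Finset.mem_univ t), ?_⟩
          show ev χ' (fl (psiTh (Fintype.card T) (orderOf (χ t))) t) = 0
          rw [ev_fl, h5]
        have h6 := galois χ χ' h4 H hH0
        have h7 : ∑ s, ((H s : ℤ) : ℂ) * conj ((χ' s : Circle) : ℂ) = 0 := by
          have h8 := congrArg conj h6
          rw [map_sum, map_zero] at h8
          rw [← h8]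
          refine Finset.sum_congr rfl fun t _ => ?_
          rw [map_mul]
          congr 1
          exact (map_intCast (starRingEnd ℂ) _).symm
        rw [h7, mul_zero]
    have h9 : ((act g H 0 : ℤ) : ℂ) = 0 :=
      (mul_eq_zero.1 h3).resolve_left (by exact_mod_cast hM.ne')
    exact_mod_cast h9

end Pool.Agent.NL53
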