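import Pool.Agent.Lib.MP_53fa4a_an_NL.Interp
import Pool.Agent.Lib.MP_53fa4a_an_NL.Psi

/-!
# From one annihilator to a product of a flat element and differences
-/

set_option autoImplicit false

open Polynomial
open scoped BigOperators ComplexConjugate

noncomputable section

namespace Pool.Agent.NL53

/-- the double sum -/
private theorem chi_zero {A T : Type*} [AddCommGroup A] [AddCommGroup T] [Fintype T]
    {g : RG ℤ (A × T)} (χ : AddChar T Circle) (u₀ : A) {h : A × T → ℤ}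
    (h0 : ∀ x, ∑ t : T, g.coeff (u₀, t) * h (x + (u₀, t)) = 0) (y : A × T) :
    (∑ t, ((g.coeff (u₀, t) : ℤ) : ℂ) * ((χ t : Circle) : ℂ)) *
      ∑ s, ((h (y + (0, s)) : ℤ) : ℂ) * conj ((χ s : Circle) : ℂ) = 0 := by
  rw [Finset.sum_mul_sum]
  have h1 : ∀ t : T, ∑ s, ((g.coeff (u₀, t) : ℤ) : ℂ) * ((χ t : Circle) : ℂ) *
      (((h (y + (0, s)) : ℤ) : ℂ) * conj ((χ s : Circle) : ℂ)) =
      ∑ s, conj ((χ s : Circle) : ℂ) *
        (((g.coeff (u₀, t) : ℤ) : ℂ) * ((h (y + (0, s + t)) : ℤ) : ℂ)) := by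
    intro t
    rw [← Equiv.sum_comp (Equiv.addRight t)]
    refine Finset.sum_congr rfl fun s _ => ?_
    rw [Equiv.coe_addRight]
    have h2 : ((χ t : Circle) : ℂ) * conj ((χ (s + t) : Circle) : ℂ) =
        conj ((χ s : Circle) : ℂ) := by
      have h3 := char_mul_conj χ t t
      rw [sub_self, AddChar.map_zero_eq_one, Circle.coe_one] at h3
      rw [AddChar.map_add_eq_mul, Circle.coe_mul, map_mul, mul_left_comm, h3, mul_one]
    calc ((g.coeff (u₀, t) : ℤ) : ℂ) * ((χ t : Circle) : ℂ) *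
          (((h (y + (0, s + t)) : ℤ) : ℂ) * conj ((χ (s + t) : Circle) : ℂ))
        = ((χ t : Circle) : ℂ) * conj ((χ (s + t) : Circle) : ℂ) *
          (((g.coeff (u₀, t) : ℤ) : ℂ) * ((h (y + (0, s + t)) : ℤ) : ℂ)) := by ring
      _ = _ := by rw [h2]
  rw [Finset.sum_congr rfl fun t _ => h1 t, Finset.sum_comm]
  refine Finset.sum_eq_zero fun s _ => ?_
  rw [← Finset.mul_sum]
  have h4 := h0 (y + (0, s) - (u₀, 0))
  have h5 : ∀ t : T, y + (0, s) - (u₀, 0) + (u₀, t) = y + (0, s + t) := by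
    intro t
    have e : ((u₀, t) : A × T) = (u₀, 0) + (0, t) := by simp
    have e2 : ((0, s + t) : A × T) = (0, s) + (0, t) := by simp
    rw [e, e2]
    abel
  simp only [h5] at h4
  have h6 : ∑ t : T, ((g.coeff (u₀, t) : ℤ) : ℂ) * ((h (y + (0, s + t)) : ℤ) : ℂ) = 0 := by
    exact_mod_cast congrArg (fun z : ℤ => (z : ℂ)) h4
  rw [h6, mul_zero]

/-- PROOF.  `interp` gives `ps` with `Kills Γ B (part u₀ g * dprd ps)`; `exists_psi` gives `L`.
Let `Ker Γ B F` and `h = act (dprd ps) F`.  Then `act (part u₀ g) h = 0`, i.e. (`act_part`)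
`∑_t g(u₀,t) h(x + (u₀,t)) = 0` for all `x`.  Multiply by `conj χ(s)` at `x + (0,s)` and sum over
`s ∈ T` : `(∑_t g(u₀,t) χ(t)) * ∑_s h(x + (u₀,0) + (0,s)) conj χ(s) = 0`, so
`∑_s h(y + (0,s)) conj χ(s) = 0` for all `y`, so `act (prd L) h = 0`. -/
theorem chi_list {A T : Type*} [AddCommGroup A] [AddCommGroup T] [Fintype T]
    (hA : ∀ n : ℕ, n ≠ 0 → ∀ a : A, n • a = 0 → a = 0)
    {Γ : A × T → ℂ} {B : ℕ} {g : RG ℤ (A × T)} (hg : Kills Γ B g) (χ : AddChar T Circle) (u₀ : A)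
    (hne : ∑ t, ((g.coeff (u₀, t) : ℤ) : ℂ) * ((χ t : Circle) : ℂ) ≠ 0) :
    ∃ (L : List (ℤ[X] × (A × T))) (ps : List (A × T)), (∀ p ∈ L, Cyc p.1) ∧
      (∀ p ∈ ps, ∀ n : ℕ, n ≠ 0 → n • p ≠ 0) ∧
      (∀ b : AddChar (A × T) Circle, (∀ t, b (0, t) = χ t) → ev b (prd L) ≠ 0) ∧
      Kills Γ B (prd L * dprd ps) := by
  obtain ⟨ps, hps, hK⟩ := interp hA hg u₀
  obtain ⟨L, hL1, hL2, hL3⟩ := exists_psi (A := A) χ
  refine ⟨L, ps, hL1, hps, hL2, fun F hF => ?_⟩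
  rw [act_mul]
  obtain ⟨h, hh⟩ : ∃ h : A × T → ℤ, h = act (dprd ps) F := ⟨_, rfl⟩
  rw [← hh]
  have h0 : ∀ x, ∑ t : T, g.coeff (u₀, t) * h (x + (u₀, t)) = 0 := by
    intro x
    have h1 := congrFun (hK F hF) x
    rw [act_mul, act_part, ← hh] at h1
    exact h1
  exact hL3 h fun y => (mul_eq_zero.1 (chi_zero χ u₀ h0 y)).resolve_left hne

end Pool.Agent.NL53
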