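import Pool.Agent.Lib.MP_53fa4a_an_NL.WinDef

/-!
# The window is equidistributed modulo `m`
-/

set_option autoImplicit false

open Polynomial
open scoped BigOperators ComplexConjugate

noncomputable section

namespace Pool.Agent.NL53

variable {d : ℕ}

private lemma wb_one (x : ℤ) {m : ℕ} (hm : 0 < m) :
    ∑ k ∈ Finset.range m, (if (m : ℤ) ∣ x + k then (1 : ℂ) else 0) = 1 := by
  have h0 : (0 : ℤ) < m := by exact_mod_cast hm
  obtain ⟨k0, hk0⟩ := Int.eq_ofNat_of_zero_le (Int.emod_nonneg (-x) h0.ne')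
  have h1 : k0 < m := by
    have := Int.emod_lt_of_pos (-x) h0
    rw [hk0] at this
    exact_mod_cast this
  have h2 : (m : ℤ) ∣ x + k0 := by
    rw [← hk0, Int.emod_def]
    exact ⟨-(-x / m), by ring⟩
  rw [Finset.sum_eq_single_of_mem k0 (Finset.mem_range.2 h1), if_pos h2]
  intro k hk hne
  rw [if_neg]
  intro h3
  have h4 : (m : ℤ) ∣ (k : ℤ) - k0 := by
    have h5 := dvd_sub h3 h2
    rwa [add_sub_add_left_eq_sub] at h5
  have h6 : k < m := Finset.mem_range.1 hk
  have h5 : (k : ℤ) - k0 = 0 := by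
    refine Int.eq_zero_of_abs_lt_dvd h4 ?_
    rw [abs_lt]
    omega
  omega

private lemma wb_aq (m : ℕ) (q : Fin d → ℤ) (F : (Fin d → ℤ) → ℂ) (x : Fin d → ℤ) :
    act (aq m q) F x = (m : ℂ)⁻¹ * ∑ k ∈ Finset.range m, F (x + k • q) := by
  unfold aq
  rw [act_sum, Finset.sum_apply, Finset.mul_sum]
  refine Finset.sum_congr rfl fun k _ => ?_
  rw [act_single, smul_eq_mul]

private lemma wb_const {m : ℕ} (hm : 0 < m) (c : ℂ) (qs : List (Fin d → ℤ)) :
    act (wL m qs) (fun _ => c) = fun _ => c := by
  induction qs with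
  | nil => exact act_one _
  | cons q qs ih =>
    have h : wL m (q :: qs) = aq m q * wL m qs := by
      unfold wL
      rw [List.map_cons, List.prod_cons]
    rw [h, act_mul, ih]
    funext x
    rw [wb_aq, Finset.sum_const, Finset.card_range, nsmul_eq_mul]
    have hm' : (m : ℂ) ≠ 0 := by exact_mod_cast hm.ne'
    rw [← mul_assoc, inv_mul_cancel₀ hm', one_mul]

private def wbF (m : ℕ) (l : List (Fin d)) : (Fin d → ℤ) → ℂ :=
  fun x => if ∀ i ∈ l, (m : ℤ) ∣ x i then 1 else 0

private lemma wb_step {m : ℕ} (hm : 0 < m) {j : Fin d} {l : List (Fin d)} (hj : j ∉ l) :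
    act (aq m (Pi.single j 1)) (wbF m (j :: l)) = (m : ℂ)⁻¹ • wbF m l := by
  funext x
  rw [wb_aq, Pi.smul_apply, smul_eq_mul]
  congr 1
  have h1 : ∀ k : ℕ, wbF m (j :: l) (x + k • (Pi.single j 1 : Fin d → ℤ)) =
      (if (m : ℤ) ∣ x j + k then (1 : ℂ) else 0) * wbF m l x := by
    intro k
    have h2 : (x + k • (Pi.single j 1 : Fin d → ℤ)) j = x j + k := by simp
    have h3 : ∀ i ∈ l, (x + k • (Pi.single j 1 : Fin d → ℤ)) i = x i := by
      intro i hi
      have hij : i ≠ j := by
        rintro rfl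
        exact hj hi
      simp [hij]
    unfold wbF
    by_cases h4 : (m : ℤ) ∣ x j + k
    · by_cases h5 : ∀ i ∈ l, (m : ℤ) ∣ x i
      · rw [if_pos h4, if_pos h5, if_pos, one_mul]
        intro i hi
        rcases List.mem_cons.1 hi with h6 | h6
        · rw [h6, h2]
          exact h4
        · rw [h3 i h6]
          exact h5 i h6
      · rw [if_pos h4, if_neg h5, if_neg, one_mul]
        intro h6
        refine h5 fun i hi => ?_
        rw [← h3 i hi]
        exact h6 i (List.mem_cons_of_mem j hi)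
    · rw [if_neg h4, if_neg, zero_mul]
      intro h6
      apply h4
      rw [← h2]
      exact h6 j List.mem_cons_self
  rw [Finset.sum_congr rfl fun k _ => h1 k, ← Finset.sum_mul, wb_one _ hm, one_mul]

private lemma wb_box {m : ℕ} (hm : 0 < m) (l : List (Fin d)) (hl : l.Nodup) :
    act (wL m (l.map fun i => (Pi.single i 1 : Fin d → ℤ))) (wbF m l) =
      fun _ => ((m : ℂ) ^ l.length)⁻¹ := by
  induction l with
  | nil =>
    have h1 : wL m (([] : List (Fin d)).map fun i => (Pi.single i 1 : Fin d → ℤ)) = 1 := rfl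
    rw [h1, act_one]
    funext x
    simp [wbF]
  | cons j l ih =>
    obtain ⟨hj, hl'⟩ := List.nodup_cons.1 hl
    have h : wL m ((j :: l).map fun i => (Pi.single i 1 : Fin d → ℤ)) =
        wL m (l.map fun i => (Pi.single i 1 : Fin d → ℤ)) * aq m (Pi.single j 1) := by
      unfold wL
      rw [List.map_cons, List.map_cons, List.prod_cons, mul_comm]
    rw [h, act_mul, wb_step hm hj, act_fun_smul, ih hl']
    funext x
    rw [Pi.smul_apply, smul_eq_mul, List.length_cons, pow_succ, mul_inv, mul_comm]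

/-- the window is equidistributed modulo `m`.  PROOF: `∏_i aq m e_i` has mass `m^{-d}` on every
class modulo `m` (it is the uniform distribution on the box), and so has its product with any
element of total mass `1`. -/
theorem win_class (P : List (List (ℤ[X] × (Fin d → ℤ)))) {m : ℕ} (hm : 0 < m) :
    ((win d P m).coeff.sum fun n c => if (∀ i, (m : ℤ) ∣ n i) then c else 0) =
      ((m : ℂ) ^ d)⁻¹ := by
  have h1 : ((win d P m).coeff.sum fun n c => if (∀ i, (m : ℤ) ∣ n i) then c else 0) =
      act (win d P m) (wbF m (List.finRange d)) 0 := by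
    rw [act_apply]
    refine Finsupp.sum_congr fun n _ => ?_
    rw [zero_add, smul_eq_mul]
    unfold wbF
    by_cases h2 : ∀ i, (m : ℤ) ∣ n i
    · rw [if_pos h2, if_pos fun i _ => h2 i, mul_one]
    · rw [if_neg h2, if_neg, mul_zero]
      intro h3
      exact h2 fun i => h3 i (List.mem_finRange i)
  have h2 : win d P m = wL m (P.flatten.map Prod.snd) *
      wL m ((List.finRange d).map fun i => (Pi.single i 1 : Fin d → ℤ)) := by
    unfold win wL
    rw [List.map_append, List.prod_append]
  rw [h1, h2, act_mul, wb_box hm _ (List.nodup_finRange d), wb_const hm, List.length_finRange]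

end Pool.Agent.NL53
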