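import Pool.Agent.Lib.MP_53fa4a_an_NL.WinDef
import Pool.Agent.Lib.MP_53fa4a_an_NL.Avg

/-!
# The averages of the indicator function of a spectrum
-/

set_option autoImplicit false

open Polynomial
open scoped BigOperators ComplexConjugate

noncomputable section

namespace Pool.Agent.NL53

variable {d : ℕ}

private lemma wc_summable {Γ : (Fin d → ℤ) → ℂ} (hΓ : Summable fun g => ‖Γ g‖)
    {f : (Fin d → ℤ) → ℤ} (hf : ∀ x, f x = 0 ∨ f x = 1) (x : Fin d → ℤ) (c : ℂ) :
    Summable fun g => Γ g * (c * (f (x + g) : ℂ)) := by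
  refine Summable.of_norm_bounded (g := fun g => ‖Γ g‖ * ‖c‖) (hΓ.mul_right _) fun g => ?_
  rw [norm_mul, norm_mul]
  refine mul_le_mul_of_nonneg_left ?_ (norm_nonneg _)
  rcases hf (x + g) with h | h <;> simp [h]

private lemma wc_append {G : Type*} [AddCommGroup G] (m : ℕ) (l l' : List G) :
    wL m (l ++ l') = wL m l * wL m l' := by
  unfold wL
  rw [List.map_append, List.prod_append]

private lemma wc_cons {G : Type*} [AddCommGroup G] (m : ℕ) (q : G) (l : List G) :
    wL m (q :: l) = aq m q * wL m l := by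
  unfold wL
  rw [List.map_cons, List.prod_cons]

private lemma wc_mass {G : Type*} [AddCommGroup G] {m : ℕ} (hm : 0 < m) (C : ℂ) (l : List G) :
    act (tw (1 : AddChar G Circle) (wL m l)) (fun _ => C) = fun _ => C := by
  induction l with
  | nil =>
    have h : wL m ([] : List G) = 1 := rfl
    rw [h, map_one, act_one]
  | cons q l ih =>
    rw [wc_cons, map_mul, act_mul, ih]
    funext x
    have hm' : (m : ℂ) ≠ 0 := by exact_mod_cast hm.ne'
    have h1 : tw (1 : AddChar G Circle) (aq m q) = aq m q := by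
      unfold aq
      rw [map_sum]
      refine Finset.sum_congr rfl fun i _ => ?_
      rw [tw_single]
      simp
    rw [h1]
    unfold aq
    rw [act_sum, Finset.sum_apply]
    simp only [act_single, smul_eq_mul, Finset.sum_const, Finset.card_range, nsmul_eq_mul]
    field_simp

/-- a character with value one at the unit vectors is trivial -/
private lemma wc_char (b : AddChar (Fin d → ℤ) Circle) (h : ∀ i : Fin d, b (Pi.single i 1) = 1) :
    b = 1 := by
  ext v
  have h1 : v = ∑ i, v i • (Pi.single i 1 : Fin d → ℤ) := by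
    funext j
    rw [Finset.sum_apply]
    simp [Pi.single_apply]
  have h2 : ∀ s : Finset (Fin d), b (∑ i ∈ s, v i • (Pi.single i 1 : Fin d → ℤ)) = 1 := by
    intro s
    induction s using Finset.induction_on with
    | empty => rw [Finset.sum_empty, AddChar.map_zero_eq_one]
    | insert i s hi ih =>
      rw [Finset.sum_insert hi, AddChar.map_add_eq_mul, ih, mul_one, AddChar.map_zsmul_eq_zpow,
        h i, one_zpow]
  rw [h1, h2]
  simp

/-- **The averages of `f`.**  `f` is `{0,1}`-valued with `∑' g, Γ g * f (x+g) = C` for all `x`; `b`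
a character of order dividing `m` with `Γ(b) ≠ 0`.
PROOF.  For `t ∈ ℤ^d` the function `F_t(x) = f(x+t) - f(x)` satisfies `Ker Γ 1 F_t`, so by
`avg_main` (with `W₀ = wL m (P.flatten.map Prod.snd)`) `act (tw b W₀) F_t = 0`; so
`S = act (tw b W) f`, `W = win` (a multiple of `W₀`), satisfies `S(x+t) = S(x)` for all `t`: `S` is
constant.  Moreover `W = W₀' * aq m e_i` with `W₀'` still a multiple of `W₀`, so by `tw_aq`
`S(x+e_i) - b(e_i) S(x) = b(e_i)/m * act (tw b W₀') (F_{m e_i}) (x) = 0`.  If `b ≠ 1`, some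
`b(e_i) ≠ 1` and `S = 0`.  If `b = 1`: `∑' g, Γ g * S(x+g) = C * (total mass of W = 1)`, `S`
constant, so `S = C / ∑' g, Γ g`. -/
theorem win_avg {Γ : (Fin d → ℤ) → ℂ} (hΓ : Summable fun g => ‖Γ g‖)
    {P : List (List (ℤ[X] × (Fin d → ℤ)))} (hP : ∀ L ∈ P, Good Γ 1 L)
    (hP' : ∀ b : AddChar (Fin d → ℤ) Circle, Gh Γ b ≠ 0 → ∃ L ∈ P, ev b (prd L) ≠ 0) :
    ∃ N₀ : ℕ, 0 < N₀ ∧ ∀ m : ℕ, 0 < m → N₀ ∣ m → ∀ b : AddChar (Fin d → ℤ) Circle,
      (∀ g, b (m • g) = 1) → Gh Γ b ≠ 0 → ∀ f : (Fin d → ℤ) → ℤ, (∀ x, f x = 0 ∨ f x = 1) →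
      ∀ C : ℂ, (∀ x, ∑' g, Γ g * (f (x + g) : ℂ) = C) → ∀ x,
        act (tw b (win d P m)) (fun x => (f x : ℂ)) x = if b = 1 then C / ∑' g, Γ g else 0 := by
  obtain ⟨N₀, hN₀, hmain⟩ := avg_main hP
  refine ⟨N₀, hN₀, ?_⟩
  intro m hm hNm b hb hGb f hf C hC x
  have hsum : ∀ x : Fin d → ℤ, Summable fun g => Γ g * (f (x + g) : ℂ) := by
    intro x
    have h := wc_summable hΓ hf x 1
    simpa using h
  -- the differences
  have hker : ∀ t : Fin d → ℤ, Ker Γ 1 (fun x => f (x + t) - f x) := by
    intro t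
    refine ⟨fun x => ?_, fun x => ?_⟩
    · show |f (x + t) - f x| ≤ ((1 : ℕ) : ℤ)
      rcases hf (x + t) with h | h <;> rcases hf x with h' | h' <;> simp [h, h']
    · have h1 : ∀ g, Γ g * ((f (x + g + t) - f (x + g) : ℤ) : ℂ) =
          Γ g * (f (x + t + g) : ℂ) - Γ g * (f (x + g) : ℂ) := by
        intro g
        rw [add_right_comm x g t]
        push_cast
        ring
      show ∑' g, Γ g * ((f (x + g + t) - f (x + g) : ℤ) : ℂ) = 0
      rw [tsum_congr h1, (hsum (x + t)).tsum_sub (hsum x), hC, hC, sub_self]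
  set W₀ : RG ℂ (Fin d → ℤ) := wL m (P.flatten.map Prod.snd) with hW₀
  have hF : ∀ t : Fin d → ℤ,
      act (tw b W₀) (fun x => (f (x + t) : ℂ) - (f x : ℂ)) = 0 := by
    intro t
    have h := hmain m hm hNm b hb (hP' b hGb) _ (hker t)
    simp only [Int.cast_sub] at h
    exact h
  -- multiples of `W₀`
  have hK : ∀ (K : RG ℂ (Fin d → ℤ)) (t : Fin d → ℤ),
      act (tw b (K * W₀)) (fun x => (f (x + t) : ℂ) - (f x : ℂ)) = 0 := by
    intro K t
    rw [map_mul, act_mul, hF t, act_fun_zero]
  have hdiff : ∀ (w : RG ℂ (Fin d → ℤ)) (t : Fin d → ℤ),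
      act w (fun x => (f (x + t) : ℂ) - (f x : ℂ)) =
        fun x => act w (fun x => (f x : ℂ)) (x + t) - act w (fun x => (f x : ℂ)) x := by
    intro w t
    have h1 : (fun x => (f (x + t) : ℂ) - (f x : ℂ)) =
        (fun x => (f (x + t) : ℂ)) + (-1 : ℂ) • (fun x => (f x : ℂ)) := by
      funext y
      simp [sub_eq_add_neg]
    rw [h1, act_fun_add, act_fun_smul]
    have h2 := act_shift w (fun x => (f x : ℂ)) t
    rw [h2]
    funext y
    simp [sub_eq_add_neg]
  have hKS : ∀ (K : RG ℂ (Fin d → ℤ)) (t x : Fin d → ℤ),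
      act (tw b (K * W₀)) (fun x => (f x : ℂ)) (x + t) =
        act (tw b (K * W₀)) (fun x => (f x : ℂ)) x := by
    intro K t x
    have h := hK K t
    rw [hdiff] at h
    have h1 := congrFun h x
    exact sub_eq_zero.1 h1
  have hwin : win d P m =
      wL m ((List.finRange d).map fun i => (Pi.single i 1 : Fin d → ℤ)) * W₀ := by
    unfold win
    rw [wc_append, mul_comm]
  have hconst : ∀ t x : Fin d → ℤ, act (tw b (win d P m)) (fun x => (f x : ℂ)) (x + t) =
      act (tw b (win d P m)) (fun x => (f x : ℂ)) x := by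
    intro t x
    rw [hwin]
    exact hKS _ t x
  by_cases hb1 : b = 1
  · rw [if_pos hb1]
    subst hb1
    set S : ℂ := act (tw 1 (win d P m)) (fun x => (f x : ℂ)) 0 with hS
    have hSx : ∀ y, act (tw 1 (win d P m)) (fun x => (f x : ℂ)) y = S := by
      intro y
      have h := hconst y 0
      rwa [zero_add] at h
    rw [hSx x]
    have hG : ∑' g, Γ g ≠ 0 := by
      intro h
      apply hGb
      unfold Gh
      rw [← h]
      refine tsum_congr fun g => ?_
      simp
    rw [eq_div_iff hG]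
    -- exchange of the sums
    have h1 : ∑' g, Γ g * act (tw 1 (win d P m)) (fun x => (f x : ℂ)) (0 + g) =
        act (tw 1 (win d P m)) (fun _ => C) 0 := by
      simp only [act_apply, Finsupp.sum, smul_eq_mul, Finset.mul_sum]
      rw [Summable.tsum_finsetSum]
      · refine Finset.sum_congr rfl fun v _ => ?_
        rw [← hC (0 + v), ← tsum_mul_left]
        refine tsum_congr fun g => ?_
        rw [add_right_comm]
        ring
      · intro v _
        have h := wc_summable hΓ hf (0 + v) ((tw 1 (win d P m)).coeff v)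
        refine h.congr fun g => ?_
        rw [add_right_comm]
    have h2 : act (tw 1 (win d P m)) (fun _ => C) 0 = C := by
      unfold win
      rw [wc_mass hm]
    rw [h2] at h1
    rw [← h1, ← tsum_mul_left]
    refine tsum_congr fun g => ?_
    rw [hSx, mul_comm]
  · rw [if_neg hb1]
    obtain ⟨i, hi⟩ : ∃ i : Fin d, b (Pi.single i 1) ≠ 1 := by
      by_contra hcon
      push Not at hcon
      exact hb1 (wc_char b hcon)
    set e : Fin d → ℤ := Pi.single i 1 with he
    have hmem : e ∈ (List.finRange d).map fun i => (Pi.single i 1 : Fin d → ℤ) :=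
      List.mem_map.2 ⟨i, List.mem_finRange i, rfl⟩
    obtain ⟨l₁, l₂, hl⟩ := List.append_of_mem hmem
    have hwin' : win d P m = aq m e * (wL m l₁ * wL m l₂ * W₀) := by
      rw [hwin, hl, wc_append, wc_cons]
      ring
    have h1 : act ((AddMonoidAlgebra.single e 1 -
        AddMonoidAlgebra.single 0 ((b e : Circle) : ℂ)) * tw b (win d P m))
        (fun x => (f x : ℂ)) x = 0 := by
      rw [hwin', map_mul, ← mul_assoc, tw_aq b hm (hb e), mul_assoc, act_mul]
      have h2 : act ((AddMonoidAlgebra.single (m • e) 1 - 1) *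
          tw b (wL m l₁ * wL m l₂ * W₀)) (fun x => (f x : ℂ)) = 0 := by
        rw [act_mul, act_sub, act_one]
        funext y
        rw [Pi.sub_apply, act_single, one_smul, hKS, sub_self, Pi.zero_apply]
      rw [h2, act_fun_zero, Pi.zero_apply]
    rw [act_mul, act_sub, Pi.sub_apply, act_single, act_single, one_smul, add_zero, hconst,
      smul_eq_mul, ← one_sub_mul] at h1
    refine (mul_eq_zero.1 h1).resolve_left fun h2 => hi ?_
    apply Circle.ext
    rw [Circle.coe_one]
    exact (sub_eq_zero.1 h2).symm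

end Pool.Agent.NL53
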