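import Pool.Agent.Lib.MP_53fa4a_an_NL.WinA
import Pool.Agent.Lib.MP_53fa4a_an_NL.WinB
import Pool.Agent.Lib.MP_53fa4a_an_NL.WinC

/-!
# Uniform windows for the indicator function of a spectrum
-/

set_option autoImplicit false

open Polynomial
open scoped BigOperators ComplexConjugate

noncomputable section

namespace Pool.Agent.NL53

variable {d : ℕ}

/-- **Windows.**  PROOF: take `P` from `hM Γ hΓ 1`; `w` = the real parts of the coefficients of
`win d P m` (`win_nonneg`), `win_class`, `win_support` (`|m l_i| ≤ m R` gives `|l_i| ≤ R`),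
`win_avg` for the character of `k/m` (`exists_char`; it is trivial iff `m ∣ k_i` for all `i`;
`Gh Γ b = ∑' g, Γ g * ex g (k/m)`), `tw_coeff`. -/
theorem window {Γ : (Fin d → ℤ) → ℂ} (hΓ : Summable fun g => ‖Γ g‖) (hM : MM (Fin d → ℤ)) :
    ∃ N₀ R : ℕ, 0 < N₀ ∧ ∀ m : ℕ, 0 < m → N₀ ∣ m → ∃ w : (Fin d → ℤ) →₀ ℝ,
      (∀ n, 0 ≤ w n) ∧
      (w.sum fun n c => if (∀ i, (m : ℤ) ∣ n i) then c else 0) = ((m : ℝ) ^ d)⁻¹ ∧
      (∀ l : Fin d → ℤ, w (m • l) ≠ 0 → ∀ i, |l i| ≤ R) ∧
      ∀ f : (Fin d → ℤ) → ℤ, (∀ x, f x = 0 ∨ f x = 1) →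
        ∀ C : ℂ, (∀ x, ∑' g, Γ g * (f (x + g) : ℂ) = C) → ∀ k : Fin d → ℤ,
          ∑' g, Γ g * ex g (fun i => (k i : ℝ) / m) ≠ 0 → ∀ x,
            (w.sum fun n c => (c : ℂ) * (f (x + n) : ℂ) * conj (ex n (fun i => (k i : ℝ) / m))) =
              if (∀ i, (m : ℤ) ∣ k i) then C / ∑' g, Γ g else 0 := by
  obtain ⟨P, hP, hP'⟩ := hM Γ hΓ 1
  obtain ⟨N₀, hN, hav⟩ := win_avg hΓ hP hP'
  obtain ⟨R, hR⟩ := win_support P
  refine ⟨N₀, R, hN, fun m hm hmd => ?_⟩
  have hm' : (m : ℝ) ≠ 0 := by exact_mod_cast hm.ne'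
  have hre : ∀ n, (((win d P m).coeff n).re : ℂ) = (win d P m).coeff n := by
    intro n
    obtain ⟨r, -, hr⟩ := win_nonneg P m n
    rw [hr, Complex.ofReal_re]
  refine ⟨(win d P m).coeff.mapRange Complex.re Complex.zero_re, fun n => ?_, ?_,
    fun l hl i => ?_, ?_⟩
  · rw [Finsupp.mapRange_apply]
    obtain ⟨r, hr0, hr⟩ := win_nonneg P m n
    rw [hr, Complex.ofReal_re]
    exact hr0
  · have h1 := congrArg Complex.re (win_class P hm)
    rw [Finsupp.sum_mapRange_index (by intro a; simp)]
    have h2 : (((m : ℂ) ^ d)⁻¹).re = ((m : ℝ) ^ d)⁻¹ := by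
      have h3 : ((m : ℂ) ^ d)⁻¹ = ((((m : ℝ) ^ d)⁻¹ : ℝ) : ℂ) := by push_cast; rfl
      rw [h3, Complex.ofReal_re]
    rw [h2] at h1
    rw [← h1, Finsupp.sum, Finsupp.sum, Complex.re_sum]
    refine Finset.sum_congr rfl fun n _ => ?_
    split_ifs
    · rfl
    · rfl
  · rw [Finsupp.mapRange_apply] at hl
    have h1 : (win d P m).coeff (m • l) ≠ 0 := by
      intro h
      rw [h] at hl
      exact hl Complex.zero_re
    have h2 := hR m (m • l) h1 i
    rw [Pi.smul_apply, nsmul_eq_mul, abs_mul, Nat.abs_cast] at h2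
    exact le_of_mul_le_mul_left h2 (by exact_mod_cast hm)
  · intro f hf C hC k hk x
    obtain ⟨b, hb, hbe⟩ := exists_char k hm
    have hG : Gh Γ b = ∑' g, Γ g * ex g (fun i => (k i : ℝ) / m) :=
      tsum_congr fun g => by rw [hbe]
    have h := hav m hm hmd b hb (by rw [hG]; exact hk) f hf C hC x
    have hL : act (tw b (win d P m)) (fun x => (f x : ℂ)) x =
        ((win d P m).coeff.mapRange Complex.re Complex.zero_re).sum fun n c =>
          (c : ℂ) * (f (x + n) : ℂ) * conj (ex n (fun i => (k i : ℝ) / m)) := by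
      have hsub : (tw b (win d P m)).coeff.support ⊆ (win d P m).coeff.support := by
        intro v hv
        rw [Finsupp.mem_support_iff, tw_coeff] at hv
        exact Finsupp.mem_support_iff.2 (left_ne_zero_of_mul hv)
      rw [act_apply, Finsupp.sum_mapRange_index (by intro a; simp),
        Finsupp.sum_of_support_subset _ hsub _ (by intro i _; simp), Finsupp.sum]
      refine Finset.sum_congr rfl fun n _ => ?_
      rw [tw_coeff, hbe, hre n, smul_eq_mul]
      ring
    rw [← hL, h]
    have hb1 : b = 1 ↔ ∀ i, (m : ℤ) ∣ k i := by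
      constructor
      · intro hb1 i
        have h1 := hbe (Pi.single i 1)
        rw [hb1, AddChar.one_apply, Circle.coe_one] at h1
        unfold ex at h1
        obtain ⟨n, hn⟩ := Complex.exp_eq_one_iff.1 h1.symm
        have h2 : (∑ j, ((Pi.single i 1 : Fin d → ℤ) j : ℝ) * ((k j : ℝ) / m) : ℝ) =
            (k i : ℝ) / m := by
          rw [Finset.sum_eq_single i]
          · rw [Pi.single_eq_same]
            push_cast
            ring
          · intro j _ hj
            rw [Pi.single_eq_of_ne hj]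
            push_cast
            ring
          · intro hi
            exact absurd (Finset.mem_univ _) hi
        rw [h2] at hn
        have h3 : (((k i : ℝ) / m : ℝ) : ℂ) = n := by
          have h4 : (2 * (Real.pi : ℂ) * Complex.I) ≠ 0 := Complex.two_pi_I_ne_zero
          have h5 : (2 * (Real.pi : ℂ) * Complex.I) * (((k i : ℝ) / m : ℝ) : ℂ) =
              (2 * (Real.pi : ℂ) * Complex.I) * n := by
            rw [hn]
            ring
          exact mul_left_cancel₀ h4 h5
        have h4 : (k i : ℝ) / m = n := by exact_mod_cast h3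
        refine ⟨n, ?_⟩
        rw [div_eq_iff hm'] at h4
        have h5 : (k i : ℝ) = ((m * n : ℤ) : ℝ) := by
          rw [h4]
          push_cast
          ring
        exact_mod_cast h5
      · intro hk1
        choose q hq using hk1
        refine DFunLike.ext _ _ fun g => Circle.ext ?_
        rw [hbe, AddChar.one_apply, Circle.coe_one]
        unfold ex
        rw [Complex.exp_eq_one_iff]
        refine ⟨∑ i, g i * q i, ?_⟩
        have h2 : (∑ i, (g i : ℝ) * ((k i : ℝ) / m) : ℝ) = ((∑ i, g i * q i : ℤ) : ℝ) := by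
          push_cast
          refine Finset.sum_congr rfl fun i _ => ?_
          rw [hq i]
          push_cast
          field_simp
        rw [h2]
        push_cast
        ring
    by_cases hb2 : b = 1
    · rw [if_pos hb2, if_pos (hb1.1 hb2)]
    · rw [if_neg hb2, if_neg (fun h => hb2 (hb1.2 h))]

end Pool.Agent.NL53
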