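import Pool.Agent.Lib.MP_53fa4a_an_NL.CombA
import Pool.Agent.Lib.MP_53fa4a_an_NL.Win

/-!
# The combinatorial theorem: the size of a fibre
-/

set_option autoImplicit false

open Filter
open scoped BigOperators Topology ComplexConjugate

noncomputable section

namespace Pool.Agent.NL53

variable {d : ℕ}

private theorem comb_sub (w : Fin d → ℤ) (ξ η : Fin d → ℝ) :
    ex w (fun i => ξ i - η i) = ex w ξ * conj (ex w η) := by
  rw [← ex_neg]
  unfold ex
  rw [← Complex.exp_add]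
  congr 1
  rw [← mul_add, ← Complex.ofReal_add, ← Finset.sum_add_distrib]
  congr 2
  refine Finset.sum_congr rfl fun i _ => ?_
  rw [Pi.neg_apply]
  push_cast
  ring

private theorem comb_one (l k : Fin d → ℤ) {m : ℕ} (hm : 0 < m) :
    ex (m • l) (fun i => (k i : ℝ) / m) = 1 := by
  unfold ex
  have h1 : (∑ i, (((m • l) i : ℤ) : ℝ) * ((k i : ℝ) / m)) = ((∑ i, l i * k i : ℤ) : ℝ) := by
    push_cast
    refine Finset.sum_congr rfl fun i _ => ?_
    rw [Pi.smul_apply, nsmul_eq_mul]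
    push_cast
    have hm' : (m : ℝ) ≠ 0 := by positivity
    field_simp
  rw [h1]
  have h2 : (2 * (Real.pi : ℂ) * Complex.I * (((∑ i, l i * k i : ℤ) : ℝ) : ℂ)) =
      ((∑ i, l i * k i : ℤ) : ℂ) * (2 * Real.pi * Complex.I) := by
    push_cast
    ring
  rw [h2]
  exact Complex.exp_int_mul_two_pi_mul_I _

/-- The square of the norm of an exponential sum. -/
private theorem comb_sq (A : Finset (Fin d → ℤ)) (m : ℕ) (n : Fin d → ℤ) :
    ((‖∑ k ∈ A, ex n (fun i => (k i : ℝ) / m)‖ ^ 2 : ℝ) : ℂ) =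
      ∑ k ∈ A, ∑ k' ∈ A, conj (ex n (fun i => ((k i - k' i : ℤ) : ℝ) / m)) := by
  have h1 : ((‖∑ k ∈ A, ex n (fun i => (k i : ℝ) / m)‖ ^ 2 : ℝ) : ℂ) =
      conj (∑ k ∈ A, ex n (fun i => (k i : ℝ) / m)) *
        ∑ k ∈ A, ex n (fun i => (k i : ℝ) / m) := by
    rw [mul_comm, Complex.mul_conj']
    push_cast
    rfl
  rw [h1, map_sum, Finset.sum_mul_sum]
  refine Finset.sum_congr rfl fun k _ => Finset.sum_congr rfl fun k' _ => ?_
  have h2 : (fun i => ((k i - k' i : ℤ) : ℝ) / m) =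
      fun i => (k i : ℝ) / m - (k' i : ℝ) / m := by
    funext i
    push_cast
    ring
  rw [h2, comb_sub, map_mul, Complex.conj_conj]

/-- **The combinatorial theorem.**  PROOF.  `window` gives `N₀, R`; `syndetic` and `pattern` give
`m` and `x₀`; `window` gives `w` for `m`; `f` = the (integer valued) indicator function of `Λ`. 
For a finite set `A`
`∑_n w(n) f(x₀+n) ‖∑_{k ∈ A} e(n·k/m)‖² = ∑_{k,k' ∈ A} ∑_n w(n) f(x₀+n) conj e(n·(k-k')/m)`, where
the terms with `k ≠ k'` vanish (hypothesis on `A`, and `m` does not divide `k - k'`), and those with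
`k = k'` are `C/D`; so the sum is `card A * C / D`.  On the left the terms with `n = m l` have
`e(n·k/m) = 1`, so `‖∑‖² = (card A)²`, and `f(x₀+n) = 1` if `w n ≠ 0`; all terms are `≥ 0`; so
`(card A)² m^{-d} ≤ card A * C / D`. -/
theorem comb {Γ : (Fin d → ℤ) → ℂ} (hΓ : Summable fun g => ‖Γ g‖) (hM : MM (Fin d → ℤ))
    (Λ : Set (Fin d → ℤ)) {C D : ℝ} (hC : 0 < C) (hD : 0 < D) (hΓD : ∑' g, Γ g = (D : ℂ))
    (h : ∀ x, ∑' g, Γ g * Λ.indicator (fun _ => (1 : ℂ)) (x + g) = (C : ℂ)) :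
    ∃ m : ℕ, 0 < m ∧ ∀ A : Finset (Fin d → ℤ),
      (∀ k ∈ A, ∀ k' ∈ A, k ≠ k' → (¬ ∀ i, (m : ℤ) ∣ k i - k' i) ∧
        ∑' g, Γ g * ex g (fun i => ((k i - k' i : ℤ) : ℝ) / m) ≠ 0) →
      (A.card : ℝ) * D ≤ (m : ℝ) ^ d * C := by
  classical
  obtain ⟨N₀, R, hN, hwin⟩ := window hΓ hM
  have hC' : (C : ℂ) ≠ 0 := by exact_mod_cast hC.ne'
  have hD' : (D : ℂ) ≠ 0 := by exact_mod_cast hD.ne'
  obtain ⟨S, hS⟩ := syndetic hΓ hC' h
  obtain ⟨m, x₀, hm, hdvd, hpat⟩ := pattern hS N₀ R hN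
  obtain ⟨w, hw0, hwc, hws, hwa⟩ := hwin m hm hdvd
  refine ⟨m, hm, fun A hA => ?_⟩
  have hm' : (m : ℝ) ≠ 0 := by positivity
  obtain ⟨f, hf⟩ : ∃ f : (Fin d → ℤ) → ℤ, ∀ x, f x = if x ∈ Λ then 1 else 0 := ⟨_, fun _ => rfl⟩
  have hf01 : ∀ x, f x = 0 ∨ f x = 1 := by
    intro x
    rw [hf]
    by_cases hx : x ∈ Λ
    · simp [hx]
    · simp [hx]
  have hfi : ∀ x, ((f x : ℤ) : ℂ) = Λ.indicator (fun _ => (1 : ℂ)) x := by
    intro x
    rw [hf, Set.indicator_apply]
    by_cases hx : x ∈ Λ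
    · simp [hx]
    · simp [hx]
  have hfC : ∀ x, ∑' g, Γ g * (f (x + g) : ℂ) = (C : ℂ) := by
    intro x
    rw [← h x]
    exact tsum_congr fun g => by rw [hfi]
  have havg : ∀ k ∈ A, ∀ k' ∈ A,
      (w.sum fun n c => (c : ℂ) * (f (x₀ + n) : ℂ) *
        conj (ex n (fun i => ((k i - k' i : ℤ) : ℝ) / m))) =
        if k = k' then (C : ℂ) / D else 0 := by
    intro k hk k' hk'
    have hne : ∑' g, Γ g * ex g (fun i => (((fun i => k i - k' i) i : ℤ) : ℝ) / m) ≠ 0 := by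
      by_cases hkk : k = k'
      · subst hkk
        have h1 : ∀ g : Fin d → ℤ, Γ g * ex g (fun i => ((k i - k i : ℤ) : ℝ) / m) = Γ g := by
          intro g
          have h2 : (fun i => ((k i - k i : ℤ) : ℝ) / m) = (0 : Fin d → ℝ) := by
            funext i
            simp
          rw [h2, ex_zero_right, mul_one]
        rw [tsum_congr h1, hΓD]
        exact hD'
      · exact (hA k hk k' hk' hkk).2
    have h3 := hwa f hf01 C hfC (fun i => k i - k' i) hne x₀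
    rw [h3, hΓD]
    by_cases hkk : k = k'
    · subst hkk
      simp
    · rw [if_neg (hA k hk k' hk' hkk).1, if_neg hkk]
  have hT : w.sum (fun n c => c * (f (x₀ + n) : ℝ) *
      ‖∑ k ∈ A, ex n (fun i => (k i : ℝ) / m)‖ ^ 2) = A.card * (C / D) := by
    have h1 : ((w.sum (fun n c => c * (f (x₀ + n) : ℝ) *
        ‖∑ k ∈ A, ex n (fun i => (k i : ℝ) / m)‖ ^ 2) : ℝ) : ℂ) = ((A.card * (C / D) : ℝ) : ℂ) := by
      have h2 : ((w.sum (fun n c => c * (f (x₀ + n) : ℝ) *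
          ‖∑ k ∈ A, ex n (fun i => (k i : ℝ) / m)‖ ^ 2) : ℝ) : ℂ) =
          ∑ k ∈ A, ∑ k' ∈ A, w.sum fun n c => (c : ℂ) * (f (x₀ + n) : ℂ) *
            conj (ex n (fun i => ((k i - k' i : ℤ) : ℝ) / m)) := by
        simp only [Finsupp.sum]
        rw [Complex.ofReal_sum]
        have h3 : ∀ k ∈ A, ∑ k' ∈ A, ∑ n ∈ w.support, (w n : ℂ) * (f (x₀ + n) : ℂ) *
            conj (ex n (fun i => ((k i - k' i : ℤ) : ℝ) / m)) =
            ∑ n ∈ w.support, ∑ k' ∈ A, (w n : ℂ) * (f (x₀ + n) : ℂ) *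
            conj (ex n (fun i => ((k i - k' i : ℤ) : ℝ) / m)) := fun k _ => Finset.sum_comm
        rw [Finset.sum_congr rfl h3, Finset.sum_comm]
        refine Finset.sum_congr rfl fun n _ => ?_
        rw [Complex.ofReal_mul, comb_sq, Finset.mul_sum]
        refine Finset.sum_congr rfl fun k _ => ?_
        rw [Finset.mul_sum]
        refine Finset.sum_congr rfl fun k' _ => ?_
        push_cast
        ring
      rw [h2]
      have h4 : ∀ k ∈ A, (∑ k' ∈ A, w.sum fun n c => (c : ℂ) * (f (x₀ + n) : ℂ) *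
          conj (ex n (fun i => ((k i - k' i : ℤ) : ℝ) / m))) = (C : ℂ) / D := by
        intro k hk
        rw [Finset.sum_congr rfl fun k' hk' => havg k hk k' hk', Finset.sum_ite_eq, if_pos hk]
      rw [Finset.sum_congr rfl h4, Finset.sum_const, nsmul_eq_mul]
      push_cast
      ring
    exact_mod_cast h1
  have hlow : (A.card : ℝ) ^ 2 * ((m : ℝ) ^ d)⁻¹ ≤ A.card * (C / D) := by
    rw [← hT, ← hwc]
    simp only [Finsupp.sum]
    rw [Finset.mul_sum]
    refine Finset.sum_le_sum fun n _ => ?_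
    by_cases hn : ∀ i, (m : ℤ) ∣ n i
    · rw [if_pos hn]
      by_cases hwn : w n = 0
      · rw [hwn]
        simp
      choose l hl using hn
      have hnl : n = m • l := by
        funext i
        rw [hl i, Pi.smul_apply, nsmul_eq_mul]
      have h1 : ∀ i, |l i| ≤ R := hws l (by rw [← hnl]; exact hwn)
      have h2 : f (x₀ + n) = 1 := by
        rw [hf, hnl, if_pos (hpat l h1)]
      have h3 : ∑ k ∈ A, ex n (fun i => (k i : ℝ) / m) = (A.card : ℂ) := by
        rw [hnl, Finset.sum_congr rfl fun k _ => comb_one l k hm]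
        simp
      rw [h2, h3, Complex.norm_natCast]
      push_cast
      exact le_of_eq (by ring)
    · rw [if_neg hn, mul_zero]
      have h1 : (0 : ℝ) ≤ (f (x₀ + n) : ℝ) := by
        rcases hf01 (x₀ + n) with h1 | h1 <;> rw [h1] <;> simp
      exact mul_nonneg (mul_nonneg (hw0 n) h1) (sq_nonneg _)
  have hmd : (0 : ℝ) < (m : ℝ) ^ d := by positivity
  rcases Nat.eq_zero_or_pos A.card with h0 | h0
  · rw [h0]
    simp only [Nat.cast_zero, zero_mul]
    positivity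
  · have hA0 : (0 : ℝ) < A.card := by exact_mod_cast h0
    have h1 : (A.card : ℝ) * ((m : ℝ) ^ d)⁻¹ ≤ C / D := by
      have h2 : (A.card : ℝ) * (A.card * ((m : ℝ) ^ d)⁻¹) ≤ A.card * (C / D) := by
        calc (A.card : ℝ) * (A.card * ((m : ℝ) ^ d)⁻¹) =
            (A.card : ℝ) ^ 2 * ((m : ℝ) ^ d)⁻¹ := by ring
          _ ≤ _ := hlow
      exact le_of_mul_le_mul_left h2 hA0
    rw [← div_eq_mul_inv, div_le_div_iff₀ hmd hD] at h1
    linarith

end Pool.Agent.NL53
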