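import Mathlib

/-!
# Syndetic sets and homothetic patterns
-/

set_option autoImplicit false

open Filter
open scoped BigOperators Topology ComplexConjugate

noncomputable section

namespace Pool.Agent.NL53

variable {d : ℕ}

/-- `Λ` is syndetic.  PROOF: `C = ∑' g, Γ g * 1_Λ(x+g)`; the tail of `∑ ‖Γ g‖` outside a box
`|g_i| ≤ r` is `< |C|`, so some `g` in the box has `x + g ∈ Λ`. -/
theorem syndetic {Γ : (Fin d → ℤ) → ℂ} (hΓ : Summable fun g => ‖Γ g‖) {Λ : Set (Fin d → ℤ)}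
    {C : ℂ} (hC : C ≠ 0) (h : ∀ x, ∑' g, Γ g * Λ.indicator (fun _ => (1 : ℂ)) (x + g) = C) :
    ∃ S : Finset (Fin d → ℤ), ∀ x, ∃ g ∈ S, x + g ∈ Λ := by
  classical
  have h1 := (Metric.tendsto_nhds.1 hΓ.hasSum ‖C‖ (norm_pos_iff.2 hC)).exists
  obtain ⟨S, hS⟩ := h1
  refine ⟨S, fun x => ?_⟩
  by_contra hcon
  push Not at hcon
  have h2 : HasSum (fun g => if g ∈ S then ‖Γ g‖ else 0) (∑ g ∈ S, ‖Γ g‖) := by
    have h3 : HasSum (fun g => if g ∈ S then ‖Γ g‖ else 0)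
        (∑ g ∈ S, if g ∈ S then ‖Γ g‖ else 0) :=
      hasSum_sum_of_ne_finset_zero fun g hg => if_neg hg
    rwa [Finset.sum_congr rfl fun g hg => if_pos hg] at h3
  have h4 := hΓ.hasSum.sub h2
  have h5 : ‖∑' g, Γ g * Λ.indicator (fun _ => (1 : ℂ)) (x + g)‖ ≤
      ∑' g, ‖Γ g‖ - ∑ g ∈ S, ‖Γ g‖ := by
    refine tsum_of_norm_bounded h4 fun g => ?_
    by_cases hg : g ∈ S
    · rw [if_pos hg, sub_self, Set.indicator_of_notMem (hcon g hg), mul_zero, norm_zero]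
    · rw [if_neg hg, sub_zero, norm_mul]
      refine mul_le_of_le_one_right (norm_nonneg _) ?_
      by_cases hx : x + g ∈ Λ
      · rw [Set.indicator_of_mem hx, norm_one]
      · rw [Set.indicator_of_notMem hx, norm_zero]
        exact zero_le_one
  rw [h x] at h5
  rw [dist_comm, Real.dist_eq] at hS
  exact absurd (lt_of_le_of_lt (le_abs_self _) hS) (not_lt.2 h5)

/-- **Gallai.**  PROOF: colour `x` by a chosen `g ∈ S` with `x + g ∈ Λ` and apply
`Combinatorics.exists_mono_homothetic_copy` to the finite set `{N₀ • l : |l i| ≤ R}`: there are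
`a > 0`, `y` and a colour `g` with `a • (N₀ • l) + y` of colour `g` for all `l`; take `x₀ = y + g`.
-/
theorem pattern {Λ : Set (Fin d → ℤ)} {S : Finset (Fin d → ℤ)}
    (hS : ∀ x, ∃ g ∈ S, x + g ∈ Λ) (N₀ R : ℕ) (hN : 0 < N₀) :
    ∃ (m : ℕ) (x₀ : Fin d → ℤ), 0 < m ∧ N₀ ∣ m ∧
      ∀ l : Fin d → ℤ, (∀ i, |l i| ≤ R) → x₀ + m • l ∈ Λ := by
  classical
  choose c hc1 hc2 using hS
  obtain ⟨a, ha, b, g, hg⟩ := Combinatorics.exists_mono_homothetic_copy
    ((Fintype.piFinset fun _ : Fin d => Finset.Icc (-(R : ℤ)) R).image fun l => N₀ • l)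
    (fun x => (⟨c x, hc1 x⟩ : {g // g ∈ S}))
  refine ⟨a * N₀, b + (g : Fin d → ℤ), Nat.mul_pos ha hN, Dvd.intro_left a rfl, fun l hl => ?_⟩
  have h1 := hg (N₀ • l) (Finset.mem_image_of_mem _ (Fintype.mem_piFinset.2 fun i =>
    Finset.mem_Icc.2 (abs_le.1 (hl i))))
  have h2 : c (a • N₀ • l + b) = (g : Fin d → ℤ) := congrArg Subtype.val h1
  have h3 := hc2 (a • N₀ • l + b)
  rw [h2] at h3
  have h4 : b + (g : Fin d → ℤ) + (a * N₀) • l = a • N₀ • l + b + (g : Fin d → ℤ) := by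
    rw [mul_smul]
    abel
  rw [h4]
  exact h3

end Pool.Agent.NL53
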