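import Pool.Agent.Lib.MP_53fa4a_an_NL.SpecDef

/-!
# The image of `Ω` in the unit cube
-/

set_option autoImplicit false

open MeasureTheory Set Filter
open scoped ENNReal Topology ComplexConjugate BigOperators

noncomputable section

namespace Pool.Agent.NL53

open Pool.Agent.SpecND (E ee)

variable {d : ℕ}

/-- the integer vector in `Fin d → ℝ` -/
private def cbz (n : Fin d → ℤ) : Fin d → ℝ := fun i => (n i : ℝ)

/-- the half open unit cube -/
private def cbC (d : ℕ) : Set (Fin d → ℝ) := {x | ∀ i, x i ∈ Ioc (0 : ℝ) 1}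

private lemma cb_meas : MeasurableSet (cbC d) := by
  have h : cbC d = Set.pi univ fun _ => Ioc (0 : ℝ) 1 := by
    ext x
    simp [cbC]
  rw [h]
  exact MeasurableSet.univ_pi fun _ => measurableSet_Ioc

/-- the cube of a point -/
private lemma cb_exists (x : Fin d → ℝ) : ∃ n : Fin d → ℤ, x - cbz n ∈ cbC d := by
  refine ⟨fun i => ⌈x i⌉ - 1, fun i => ?_⟩
  have h1 := Int.ceil_lt_add_one (x i)
  have h2 := Int.le_ceil (x i)
  simp only [Pi.sub_apply, cbz, Int.cast_sub, Int.cast_one, mem_Ioc]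
  constructor <;> linarith

private lemma cb_unique {x : Fin d → ℝ} {n m : Fin d → ℤ} (hn : x - cbz n ∈ cbC d)
    (hm : x - cbz m ∈ cbC d) : n = m := by
  funext i
  have h1 := hn i
  have h2 := hm i
  simp only [Pi.sub_apply, cbz, mem_Ioc] at h1 h2
  have h3 : (n i : ℝ) < m i + 1 := by linarith [h1.1, h2.2]
  have h4 : (m i : ℝ) < n i + 1 := by linarith [h2.1, h1.2]
  have h5 : n i < m i + 1 := by exact_mod_cast h3
  have h6 : m i < n i + 1 := by exact_mod_cast h4
  omega

private lemma cb_ex (g n : Fin d → ℤ) (x : Fin d → ℝ) : ex g (x + cbz n) = ex g x := by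
  unfold ex
  have h1 : (∑ i, (g i : ℝ) * (x + cbz n) i) =
      (∑ i, (g i : ℝ) * x i) + ((∑ i, g i * n i : ℤ) : ℝ) := by
    push_cast
    rw [← Finset.sum_add_distrib]
    refine Finset.sum_congr rfl fun i _ => ?_
    simp only [Pi.add_apply, cbz]
    ring
  rw [h1]
  push_cast
  rw [mul_add, Complex.exp_add]
  have h2 : Complex.exp (2 * Real.pi * Complex.I * (∑ i, (g i : ℂ) * (n i : ℂ))) = 1 := by
    rw [Complex.exp_eq_one_iff]
    refine ⟨∑ i, g i * n i, ?_⟩
    push_cast
    ring
  rw [h2, mul_one]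

private lemma cb_ex_meas (g : Fin d → ℤ) : Measurable (ex g) := by
  have h : Continuous (ex g) := by
    unfold ex
    fun_prop
  exact h.measurable

private lemma cb_toLp_ex (g : Fin d → ℤ) (x : Fin d → ℝ) : ee (zv g) (rv x) = ex g x := by
  unfold ex ee
  congr 3
  simp only [zv, rv, PiLp.inner_apply, RCLike.inner_apply, conj_trivial]
  exact Finset.sum_congr rfl fun i _ => mul_comm _ _

private lemma cb_rv_add (x y : Fin d → ℝ) : rv (x + y) = rv x + rv y := rfl

private lemma cb_null {S : Set (Fin d → ℝ)} (hS : volume S = 0) (y : Fin d → ℝ) :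
    volume {x : Fin d → ℝ | x + y ∈ S} = 0 := by
  have h := measure_preimage_add_right (volume : Measure (Fin d → ℝ)) y S
  rw [hS] at h
  exact h

/-- **The set in the unit cube.**  For `Ω` injective modulo `ℤ^d` (a.e.) let `V` be the set of all
`x ∈ (0,1]^d` with `x + n ∈ Ω` for some integer vector `n` (a countable union, measurable).
PROOF.  Split `Ω` into the parts in the cubes `(0,1]^d + n` and translate them into `(0,1]^d`; there
they are disjoint a.e. by `hinj`; their union is `V`; `x ↦ ee (zv g) x` is `ℤ^d`-periodic; this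
gives the Fourier coefficients and `volume V = volume Ω`.  (`ex g x` is `exp (2πi g·x)` for
`x : Fin d → ℝ`; the identification of `EuclideanSpace` with `Fin d → ℝ` preserves the measure.)
Last clause: every `x ∈ Ω` with `x + ξ ∈ Ω` has `x - n ∈ V` for its cube, and `x - n + ξ + n' ∈ V`
for some `n'`; so a part of `Ω ∩ (Ω - ξ)` in a cube of positive measure would give positive
measure. -/
theorem exists_cube {Ω : Set (E d)} (hm : MeasurableSet Ω) (hfin : volume Ω ≠ ∞)
    (hinj : ∀ n : Fin d → ℤ, n ≠ 0 → volume (Ω ∩ {x | x + zv n ∈ Ω}) = 0) :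
    ∃ V : Set (Fin d → ℝ), MeasurableSet V ∧ V ⊆ {x | ∀ i, x i ∈ Ioc (0 : ℝ) 1} ∧
      (∀ g : Fin d → ℤ, ∫ x in V, ex g x = ∫ x in Ω, ee (zv g) x) ∧
      volume V = volume Ω ∧
      ∀ ξ : Fin d → ℝ,
        volume (V ∩ {x | ∃ n : Fin d → ℤ, (fun i => x i + ξ i + (n i : ℝ)) ∈ V}) = 0 →
        volume (Ω ∩ {x | x + rv ξ ∈ Ω}) = 0 := by
  have hpres : MeasurePreserving (WithLp.toLp 2 : (Fin d → ℝ) → E d) volume volume :=
    PiLp.volume_preserving_toLp (Fin d)
  have hemb : MeasurableEmbedding (WithLp.toLp 2 : (Fin d → ℝ) → E d) :=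
    (MeasurableEquiv.toLp 2 (Fin d → ℝ)).measurableEmbedding
  set O : Set (Fin d → ℝ) := {x | rv x ∈ Ω} with hO
  have hOm : MeasurableSet O := hpres.measurable hm
  have hOv : volume O = volume Ω := hpres.measure_preimage hm.nullMeasurableSet
  -- the hypothesis
  have hinj' : ∀ n : Fin d → ℤ, n ≠ 0 → volume {x | x ∈ O ∧ x + cbz n ∈ O} = 0 := by
    intro n hn
    have h1 : {x | x ∈ O ∧ x + cbz n ∈ O} =
        (WithLp.toLp 2 : (Fin d → ℝ) → E d) ⁻¹' (Ω ∩ {x | x + zv n ∈ Ω}) := rfl
    rw [h1, hpres.measure_preimage_emb hemb]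
    exact hinj n hn
  -- the pieces
  set A : (Fin d → ℤ) → Set (Fin d → ℝ) := fun n => {x | x ∈ cbC d ∧ x + cbz n ∈ O} with hA
  set B : (Fin d → ℤ) → Set (Fin d → ℝ) := fun n => {x | x ∈ O ∧ x - cbz n ∈ cbC d} with hB
  have hAB : ∀ n, A n = (fun x => x + cbz n) ⁻¹' B n := by
    intro n
    ext x
    simp only [hA, hB, mem_ofPred_eq, mem_preimage, add_sub_cancel_right]
    exact and_comm
  have hBm : ∀ n, MeasurableSet (B n) := fun n =>
    hOm.inter ((measurable_id.sub_const (cbz n)) cb_meas)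
  have hAm : ∀ n, MeasurableSet (A n) := fun n => by
    rw [hAB]
    exact (measurable_id.add_const (cbz n)) (hBm n)
  have hBd : Pairwise (Function.onFun Disjoint B) := by
    intro n m hnm
    rw [Function.onFun, Set.disjoint_left]
    intro x hx hy
    exact hnm (cb_unique hx.2 hy.2)
  have hBU : ⋃ n, B n = O := by
    ext x
    rw [mem_iUnion]
    constructor
    · rintro ⟨n, hn⟩
      exact hn.1
    · intro hx
      obtain ⟨n, hn⟩ := cb_exists x
      exact ⟨n, hx, hn⟩
  have hAd : Pairwise (Function.onFun (AEDisjoint (volume : Measure (Fin d → ℝ))) A) := by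
    intro n m hnm
    rw [Function.onFun]
    show volume (A n ∩ A m) = 0
    have h1 := cb_null (hinj' (m - n) (sub_ne_zero.2 (Ne.symm hnm))) (cbz n)
    refine measure_mono_null ?_ h1
    rintro x ⟨hx, hy⟩
    refine ⟨hx.2, ?_⟩
    have h2 : x + cbz n + cbz (m - n) = x + cbz m := by
      funext i
      simp only [Pi.add_apply, Pi.sub_apply, cbz, Int.cast_sub]
      ring
    rw [h2]
    exact hy.2
  have hvol : ∀ n, volume (A n) = volume (B n) := by
    intro n
    rw [hAB]
    exact measure_preimage_add_right _ _ _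
  have hVO : volume (⋃ n, A n) = volume O := by
    rw [measure_iUnion₀ hAd fun n => (hAm n).nullMeasurableSet, ← hBU, measure_iUnion hBd hBm]
    exact tsum_congr hvol
  refine ⟨⋃ n, A n, MeasurableSet.iUnion hAm, ?_, ?_, hVO.trans hOv, ?_⟩
  · intro x hx
    obtain ⟨n, hn⟩ := mem_iUnion.1 hx
    exact hn.1
  · intro g
    have hint : ∀ S : Set (Fin d → ℝ), volume S ≠ ∞ → IntegrableOn (ex g) S volume := by
      intro S hS
      exact Measure.integrableOn_of_bounded hS (cb_ex_meas g).aestronglyMeasurable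
        (M := 1) (Filter.Eventually.of_forall fun x => (norm_ex g x).le)
    have hVfin : volume (⋃ n, A n) ≠ ∞ := by
      rw [hVO, hOv]
      exact hfin
    have hOfin : volume O ≠ ∞ := by
      rw [hOv]
      exact hfin
    have h1 := integral_iUnion_ae (μ := (volume : Measure (Fin d → ℝ)))
      (fun n => (hAm n).nullMeasurableSet) hAd (hint _ hVfin)
    have h2 := integral_iUnion (μ := (volume : Measure (Fin d → ℝ))) hBm hBd
      (by rw [hBU]; exact hint _ hOfin)
    have h3 : ∀ n, ∫ x in A n, ex g x = ∫ x in B n, ex g x := by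
      intro n
      have h4 := (measurePreserving_add_right (volume : Measure (Fin d → ℝ))
        (cbz n)).setIntegral_preimage_emb (measurableEmbedding_addRight (cbz n)) (ex g) (B n)
      rw [← h4, hAB]
      refine setIntegral_congr_fun ?_ fun x _ => (cb_ex g n x).symm
      exact (measurable_id.add_const (cbz n)) (hBm n)
    have h5 : ∫ x in O, ex g x = ∫ x in Ω, ee (zv g) x := by
      have h6 := hpres.setIntegral_preimage_emb hemb (ee (zv g)) Ω
      rw [← h6]
      exact setIntegral_congr_fun hOm fun x _ => (cb_toLp_ex g x).symm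
    rw [h1, tsum_congr h3, ← h2, hBU, h5]
  · intro ξ hξ
    set V : Set (Fin d → ℝ) := ⋃ n, A n with hV
    set S : Set (Fin d → ℝ) :=
      V ∩ {x | ∃ n : Fin d → ℤ, (fun i => x i + ξ i + (n i : ℝ)) ∈ V} with hS
    have hmemV : ∀ (x : Fin d → ℝ), x ∈ O → ∀ n, x - cbz n ∈ cbC d → x - cbz n ∈ V := by
      intro x hx n hn
      rw [hV]
      refine mem_iUnion.2 ⟨n, hn, ?_⟩
      rw [sub_add_cancel]
      exact hx
    have h1 : volume {x | x ∈ O ∧ x + ξ ∈ O} = 0 := by
      have h2 : volume (⋃ n : Fin d → ℤ, {x : Fin d → ℝ | x + -cbz n ∈ S}) = 0 :=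
        measure_iUnion_null fun n => cb_null hξ _
      refine measure_mono_null ?_ h2
      rintro x ⟨hx, hy⟩
      obtain ⟨n, hn⟩ := cb_exists x
      obtain ⟨m, hm⟩ := cb_exists (x + ξ)
      refine mem_iUnion.2 ⟨n, ?_⟩
      show x + -cbz n ∈ S
      rw [← sub_eq_add_neg]
      refine ⟨hmemV x hx n hn, n - m, ?_⟩
      have h3 := hmemV (x + ξ) hy m hm
      have h4 : (fun i => (x - cbz n) i + ξ i + (((n - m) i : ℤ) : ℝ)) = x + ξ - cbz m := by
        funext i
        simp only [Pi.add_apply, Pi.sub_apply, cbz, Int.cast_sub]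
        ring
      rw [h4]
      exact h3
    have h5 : {x | x ∈ O ∧ x + ξ ∈ O} =
        (WithLp.toLp 2 : (Fin d → ℝ) → E d) ⁻¹' (Ω ∩ {x | x + rv ξ ∈ Ω}) := rfl
    rw [h5, hpres.measure_preimage_emb hemb] at h1
    exact h1

end Pool.Agent.NL53
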