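import Pool.Agent.Lib.MP_53fa4a_an_NL.SpecDef

/-!
# Autocorrelation of a subset of the unit cube (Parseval on the torus)
-/

set_option autoImplicit false

open MeasureTheory Set Filter
open scoped ENNReal Topology ComplexConjugate BigOperators

noncomputable section

namespace Pool.Agent.NL53

open Pool.Agent.SpecND (E ee)

variable {d : ℕ}

local instance CubeT_ms : MeasureSpace UnitAddCircle := ⟨AddCircle.haarAddCircle⟩

local instance CubeT_haar : Measure.IsAddHaarMeasure (volume : Measure UnitAddCircle) :=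
  inferInstanceAs (Measure.IsAddHaarMeasure AddCircle.haarAddCircle)

local instance CubeT_prob : IsProbabilityMeasure (volume : Measure UnitAddCircle) :=
  inferInstanceAs (IsProbabilityMeasure AddCircle.haarAddCircle)

private def pj (x : Fin d → ℝ) : UnitAddTorus (Fin d) := fun i => (x i : UnitAddCircle)

private theorem pj_mF (n : Fin d → ℤ) (x : Fin d → ℝ) :
    UnitAddTorus.mFourier n (pj x) = ex n x := by
  unfold ex pj UnitAddTorus.mFourier
  simp only [ContinuousMap.coe_mk, fourier_coe_apply]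
  rw [← Complex.exp_sum]
  congr 1
  push_cast
  rw [Finset.mul_sum]
  refine Finset.sum_congr rfl fun i _ => ?_
  ring

private theorem pj_per (x : Fin d → ℝ) (n : Fin d → ℤ) :
    pj (fun i => x i + (n i : ℝ)) = pj x := by
  funext i
  unfold pj
  rw [AddCircle.coe_add]
  have h : ((n i : ℝ) : UnitAddCircle) = 0 := by
    rw [AddCircle.coe_eq_zero_iff]
    exact ⟨n i, by simp⟩
  rw [h, add_zero]

private theorem pj_inj {x y : Fin d → ℝ} (h : pj x = pj y) :
    ∃ n : Fin d → ℤ, ∀ i, x i + (n i : ℝ) = y i := by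
  have h1 : ∀ i, ∃ m : ℤ, x i + (m : ℝ) = y i := by
    intro i
    have h2 : ((x i : ℝ) : UnitAddCircle) = ((y i : ℝ) : UnitAddCircle) := congrFun h i
    rw [← sub_eq_zero, ← AddCircle.coe_sub, AddCircle.coe_eq_zero_iff] at h2
    obtain ⟨m, hm⟩ := h2
    refine ⟨-m, ?_⟩
    push_cast
    simp only [zsmul_eq_mul, mul_one] at hm
    linarith
  choose n hn using h1
  exact ⟨n, hn⟩

/-- the set of the torus over `V` -/
private def UU (V : Set (Fin d → ℝ)) : Set (UnitAddTorus (Fin d)) :=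
  {t | (UnitAddTorus.measurableEquivPiIoc (0 : Fin d → ℝ) t).1 ∈ V}

private theorem UU_meas {V : Set (Fin d → ℝ)} (hV : MeasurableSet V) : MeasurableSet (UU V) :=
  (measurable_subtype_coe.comp
    (UnitAddTorus.measurableEquivPiIoc (0 : Fin d → ℝ)).measurable) hV

private theorem UU_mem {V : Set (Fin d → ℝ)} {x : Fin d → ℝ}
    (hx : ∀ i, x i ∈ Ioc (0 : ℝ) 1) : pj x ∈ UU V ↔ x ∈ V := by
  have hx' : ∀ i, x i ∈ Ioc ((0 : Fin d → ℝ) i) ((0 : Fin d → ℝ) i + 1) := by
    intro i
    simpa using hx i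
  have h1 : (UnitAddTorus.measurableEquivPiIoc (0 : Fin d → ℝ)).symm ⟨x, hx'⟩ = pj x := by
    rw [UnitAddTorus.coe_symm_measurableEquivPiIoc_apply]
    rfl
  unfold UU
  rw [Set.mem_ofPred_eq, ← h1, MeasurableEquiv.apply_symm_apply]

private theorem UU_iff {V : Set (Fin d → ℝ)} (hV' : V ⊆ {x | ∀ i, x i ∈ Ioc (0 : ℝ) 1})
    (y : Fin d → ℝ) : pj y ∈ UU V ↔ ∃ n : Fin d → ℤ, (fun i => y i + (n i : ℝ)) ∈ V := by
  constructor
  · intro h
    obtain ⟨x, hx, hxV⟩ : ∃ x : Fin d → ℝ, pj x = pj y ∧ x ∈ V := by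
      refine ⟨_, ?_, h⟩
      exact (UnitAddTorus.measurableEquivPiIoc (0 : Fin d → ℝ)).symm_apply_apply (pj y)
    obtain ⟨n, hn⟩ := pj_inj hx.symm
    refine ⟨n, ?_⟩
    have : (fun i => y i + (n i : ℝ)) = x := funext hn
    rw [this]
    exact hxV
  · rintro ⟨n, hn⟩
    rw [← pj_per y n]
    exact (UU_mem (hV' hn)).2 hn

/-- the measure of a set of the torus -/
private theorem UU_vol {S : Set (UnitAddTorus (Fin d))} (hS : MeasurableSet S)
    {W : Set (Fin d → ℝ)} (hW : ∀ x : Fin d → ℝ, x ∈ W ↔ (∀ i, x i ∈ Ioc (0 : ℝ) 1) ∧ pj x ∈ S) :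
    (volume : Measure (UnitAddTorus (Fin d))) S = volume W := by
  have hI : {x : Fin d → ℝ | ∀ i, x i ∈ Ioc ((0 : Fin d → ℝ) i) ((0 : Fin d → ℝ) i + 1)} =
      {x : Fin d → ℝ | ∀ i, x i ∈ Ioc (0 : ℝ) 1} := by
    simp
  have hIm : MeasurableSet {x : Fin d → ℝ | ∀ i, x i ∈ Ioc (0 : ℝ) 1} :=
    MeasurableSet.univ_pi' (fun i => measurableSet_Ioc)
  have hpm : Measurable (pj : (Fin d → ℝ) → UnitAddTorus (Fin d)) :=
    measurable_pi_lambda _ (fun i => AddCircle.measurable_mk'.comp (measurable_pi_apply i))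
  have h1 := UnitAddTorus.lintegral_preimage (S.indicator (fun _ => (1 : ℝ≥0∞)))
    (0 : Fin d → ℝ)
  rw [lintegral_indicator_const hS, one_mul, hI] at h1
  rw [h1]
  have h2 : (fun x : Fin d → ℝ => S.indicator (fun _ => (1 : ℝ≥0∞))
      (fun i => (x i : UnitAddCircle))) = (pj ⁻¹' S).indicator (fun _ => (1 : ℝ≥0∞)) := by
    funext x
    rfl
  rw [h2, lintegral_indicator_const (hpm hS), one_mul, Measure.restrict_apply (hpm hS)]
  congr 1
  ext x
  rw [hW x]
  exact and_comm

/-- Fourier coefficient of an indicator function -/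
private theorem UU_int {V : Set (Fin d → ℝ)} (hV : MeasurableSet V)
    (hV' : V ⊆ {x | ∀ i, x i ∈ Ioc (0 : ℝ) 1}) (n : Fin d → ℤ) :
    ∫ t : UnitAddTorus (Fin d), UnitAddTorus.mFourier (-n) t •
      (UU V).indicator (fun _ => (1 : ℂ)) t = conj (∫ x in V, ex n x) := by
  have hI : {x : Fin d → ℝ | ∀ i, x i ∈ Ioc ((0 : Fin d → ℝ) i) ((0 : Fin d → ℝ) i + 1)} =
      {x : Fin d → ℝ | ∀ i, x i ∈ Ioc (0 : ℝ) 1} := by
    simp
  have hIm : MeasurableSet {x : Fin d → ℝ | ∀ i, x i ∈ Ioc (0 : ℝ) 1} :=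
    MeasurableSet.univ_pi' (fun i => measurableSet_Ioc)
  rw [UnitAddTorus.integral_preimage _ (0 : Fin d → ℝ), hI, ← integral_conj]
  have h1 : ∀ x : Fin d → ℝ, x ∈ {x : Fin d → ℝ | ∀ i, x i ∈ Ioc (0 : ℝ) 1} →
      UnitAddTorus.mFourier (-n) (fun i => (x i : UnitAddCircle)) •
        (UU V).indicator (fun _ => (1 : ℂ)) (fun i => (x i : UnitAddCircle)) =
      V.indicator (fun x => conj (ex n x)) x := by
    intro x hx
    have h2 : UnitAddTorus.mFourier (-n) (fun i => (x i : UnitAddCircle)) =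
        conj (ex n x) := by
      rw [← ex_neg]
      exact pj_mF (-n) x
    rw [h2]
    have h3 : (UU V).indicator (fun _ => (1 : ℂ)) (fun i => (x i : UnitAddCircle)) =
        (UU V).indicator (fun _ => (1 : ℂ)) (pj x) := rfl
    rw [h3]
    by_cases hxV : x ∈ V
    · rw [Set.indicator_of_mem hxV, Set.indicator_of_mem ((UU_mem hx).2 hxV), smul_eq_mul,
        mul_one]
    · rw [Set.indicator_of_notMem hxV, Set.indicator_of_notMem (fun h => hxV ((UU_mem hx).1 h)),
        smul_zero]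
  rw [setIntegral_congr_fun hIm h1, setIntegral_indicator hV, Set.inter_eq_right.2 hV']

/-- **Parseval on the torus.**  PROOF.  Let `U` be the set of all `t ∈ UnitAddTorus (Fin d)` whose
representative in `(0,1]^d` is in `V` (`UnitAddTorus.measurableEquivPiIoc 0`), `f = 1_U`,
`f' t = f (t + ξ)`.  With the measure of `Mathlib/Analysis/Fourier/AddCircleMulti.lean` (the
product of the Haar measures `AddCircle.haarAddCircle`; repeat the local instances of that file),
`mFourierCoeff f n = ∫_V ex (-n) x` (`UnitAddTorus.integral_preimage`), and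
`mFourierCoeff f' n = ex n ξ * mFourierCoeff f n` (translation invariance); so
`UnitAddTorus.hasSum_prod_mFourierCoeff` for (the classes of) `f`, `f'` gives
`∑_n ‖∫_V ex (-n) x‖² ex n ξ = measure of U ∩ (U - ξ)`, which is the measure on the right
(`UnitAddTorus.lintegral_preimage`); and `‖∫_V ex (-n)‖ = ‖∫_V ex n‖` (complex conjugation). -/
theorem cube_corr {V : Set (Fin d → ℝ)} (hV : MeasurableSet V)
    (hV' : V ⊆ {x | ∀ i, x i ∈ Ioc (0 : ℝ) 1}) (ξ : Fin d → ℝ) :
    HasSum (fun g : Fin d → ℤ => ((‖∫ x in V, ex g x‖ ^ 2 : ℝ) : ℂ) * ex g ξ)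
      ((volume.real (V ∩
        {x | ∃ n : Fin d → ℤ, (fun i => x i + ξ i + (n i : ℝ)) ∈ V}) : ℝ) : ℂ) := by
  have hU : MeasurableSet (UU V) := UU_meas hV
  set U' : Set (UnitAddTorus (Fin d)) := (fun t => t + pj ξ) ⁻¹' (UU V) with hU'def
  have hU' : MeasurableSet U' := (measurable_add_const (pj ξ)) hU
  set F := indicatorConstLp (μ := (volume : Measure (UnitAddTorus (Fin d)))) 2 hU
    (measure_ne_top _ _) (1 : ℂ) with hF
  set F' := indicatorConstLp (μ := (volume : Measure (UnitAddTorus (Fin d)))) 2 hU'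
    (measure_ne_top _ _) (1 : ℂ) with hF'
  have hFe : F =ᵐ[volume] (UU V).indicator (fun _ => (1 : ℂ)) := indicatorConstLp_coeFn
  have hFe' : F' =ᵐ[volume] U'.indicator (fun _ => (1 : ℂ)) := indicatorConstLp_coeFn
  have key := UnitAddTorus.hasSum_prod_mFourierCoeff F F'
  -- the coefficients
  have hc : ∀ n : Fin d → ℤ, UnitAddTorus.mFourierCoeff F n = conj (∫ x in V, ex n x) := by
    intro n
    rw [← UU_int hV hV' n]
    unfold UnitAddTorus.mFourierCoeff
    refine integral_congr_ae ?_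
    filter_upwards [hFe] with t ht
    rw [ht]
  have hc' : ∀ n : Fin d → ℤ, UnitAddTorus.mFourierCoeff F' n =
      ex n ξ * conj (∫ x in V, ex n x) := by
    intro n
    rw [← UU_int hV hV' n]
    unfold UnitAddTorus.mFourierCoeff
    have h1 : ∫ t, UnitAddTorus.mFourier (-n) t • F' t =
        ∫ t, ex n ξ * (UnitAddTorus.mFourier (-n) (t + pj ξ) •
          (UU V).indicator (fun _ => (1 : ℂ)) (t + pj ξ)) := by
      refine integral_congr_ae ?_
      filter_upwards [hFe'] with t ht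
      rw [ht]
      have h2 : U'.indicator (fun _ => (1 : ℂ)) t =
          (UU V).indicator (fun _ => (1 : ℂ)) (t + pj ξ) := rfl
      have h3 : UnitAddTorus.mFourier (-n) (t + pj ξ) =
          UnitAddTorus.mFourier (-n) t * conj (ex n ξ) := by
        rw [← ex_neg, ← pj_mF (-n) ξ]
        unfold UnitAddTorus.mFourier
        simp only [ContinuousMap.coe_mk, Pi.add_apply, ← Finset.prod_mul_distrib]
        refine Finset.prod_congr rfl fun i _ => ?_
        simp only [fourier_apply, smul_add, AddCircle.toCircle_add, Circle.coe_mul]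
      rw [h2, h3, smul_eq_mul, smul_eq_mul]
      have h4 := ex_mul_conj n ξ
      calc _ = UnitAddTorus.mFourier (-n) t * (UU V).indicator (fun _ => (1 : ℂ)) (t + pj ξ) *
            (ex n ξ * conj (ex n ξ)) := by rw [h4, mul_one]
        _ = _ := by ring
    rw [h1, integral_const_mul]
    congr 1
    exact integral_add_right_eq_self (μ := (volume : Measure (UnitAddTorus (Fin d))))
      (fun t => UnitAddTorus.mFourier (-n) t • (UU V).indicator (fun _ => (1 : ℂ)) t) (pj ξ)
  have hsum : ∀ n : Fin d → ℤ, conj (UnitAddTorus.mFourierCoeff F n) *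
      UnitAddTorus.mFourierCoeff F' n = ((‖∫ x in V, ex n x‖ ^ 2 : ℝ) : ℂ) * ex n ξ := by
    intro n
    rw [hc, hc', Complex.conj_conj]
    have h1 : (∫ x in V, ex n x) * conj (∫ x in V, ex n x) =
        ((‖∫ x in V, ex n x‖ ^ 2 : ℝ) : ℂ) := by
      rw [Complex.mul_conj, Complex.normSq_eq_norm_sq]
    rw [← h1]
    ring
  have hint : ∫ t, conj (F t) * F' t = ((volume.real (V ∩
        {x | ∃ n : Fin d → ℤ, (fun i => x i + ξ i + (n i : ℝ)) ∈ V}) : ℝ) : ℂ) := by
    have h1 : ∫ t, conj (F t) * F' t =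
        ∫ t, (UU V ∩ U').indicator (fun _ => (1 : ℂ)) t := by
      refine integral_congr_ae ?_
      filter_upwards [hFe, hFe'] with t ht ht'
      rw [ht, ht']
      by_cases h2 : t ∈ UU V
      · by_cases h3 : t ∈ U'
        · have h4 : t ∈ UU V ∩ U' := ⟨h2, h3⟩
          rw [Set.indicator_of_mem h2, Set.indicator_of_mem h3, Set.indicator_of_mem h4]
          simp
        · have h4 : t ∉ UU V ∩ U' := fun h => h3 (Set.mem_inter_iff _ _ _ |>.1 h).2
          rw [Set.indicator_of_notMem h3, Set.indicator_of_notMem h4, mul_zero]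
      · have h4 : t ∉ UU V ∩ U' := fun h => h2 (Set.mem_inter_iff _ _ _ |>.1 h).1
        rw [Set.indicator_of_notMem h2, Set.indicator_of_notMem h4, map_zero, zero_mul]
    rw [h1, integral_indicator_const _ (hU.inter hU')]
    have h2 : (volume : Measure (UnitAddTorus (Fin d))).real (UU V ∩ U') = volume.real (V ∩
        {x | ∃ n : Fin d → ℤ, (fun i => x i + ξ i + (n i : ℝ)) ∈ V}) := by
      unfold Measure.real
      rw [UU_vol (hU.inter hU') (W := V ∩
        {x | ∃ n : Fin d → ℤ, (fun i => x i + ξ i + (n i : ℝ)) ∈ V})]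
      intro x
      have h3 : pj x + pj ξ = pj (fun i => x i + ξ i) := by
        funext i
        simp [pj]
      constructor
      · rintro ⟨hx, hn⟩
        refine ⟨hV' hx, (UU_mem (hV' hx)).2 hx, ?_⟩
        rw [hU'def, Set.mem_preimage, h3]
        exact (UU_iff hV' _).2 hn
      · rintro ⟨hI, hx, hx'⟩
        refine ⟨(UU_mem hI).1 hx, ?_⟩
        rw [hU'def, Set.mem_preimage, h3] at hx'
        exact (UU_iff hV' _).1 hx'
    rw [h2]
    simp
  rw [hint] at key
  refine key.congr_fun fun n => ?_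
  exact (hsum n).symm

end Pool.Agent.NL53
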