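import Mathlib

/-!
# MP_53fa4a_an, project NL (spectra contained in a lattice): definitions

`G` is an additive commutative group, `RG R G = R[G]` its group algebra.  `act g F` is the function
`x ↦ ∑_v g_v F(x + v)`.  `tr q` is the translation by `q`, i.e. the monomial `X^q`.

`Ker Γ B F`: the integer valued function `F` is bounded by `B` and `∑_g Γ(g) F(x+g) = 0` for all
`x`. `Kills Γ B g`: `g ∈ ℤ[G]` annihilates all these `F`.
`Gh Γ b = ∑_g Γ(g) b(g)` for a unitary character `b`.
`prd L = ∏_{(θ,q) ∈ L} θ(X^q)`.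
-/

set_option autoImplicit false

open Polynomial
open scoped BigOperators ComplexConjugate

noncomputable section

namespace Pool.Agent.NL53

/-- the group algebra `R[G]` -/
abbrev RG (R : Type*) (G : Type*) [CommRing R] [AddCommGroup G] := AddMonoidAlgebra R G

/-- the operator of `g ∈ R[G]` on functions: `(g F)(x) = ∑_v g_v F(x+v)` -/
def act {R G M : Type*} [CommRing R] [AddCommGroup G] [AddCommGroup M] [Module R M]
    (g : RG R G) (F : G → M) : G → M :=
  fun x => g.coeff.sum fun v c => c • F (x + v)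

/-- the monomial `X^q ∈ ℤ[G]` -/
def tr {G : Type*} [AddCommGroup G] (q : G) : RG ℤ G := AddMonoidAlgebra.single q 1

/-- evaluation of `g ∈ ℤ[G]` at a unitary character -/
def ev {G : Type*} [AddCommGroup G] (b : AddChar G Circle) : RG ℤ G →+* ℂ :=
  (AddMonoidAlgebra.lift ℤ ℂ G
    ({ toFun := fun v => ((b v.toAdd : Circle) : ℂ), map_one' := by simp,
       map_mul' := by intro x y; simp [AddChar.map_add_eq_mul] } : Multiplicative G →* ℂ)).toRingHom

/-- the integer valued solutions, bounded by `B`, of the convolution equation of `Γ` -/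
def Ker {G : Type*} [AddCommGroup G] (Γ : G → ℂ) (B : ℕ) (F : G → ℤ) : Prop :=
  (∀ x, |F x| ≤ B) ∧ ∀ x, ∑' g, Γ g * ((F (x + g) : ℤ) : ℂ) = 0

/-- `g` annihilates all solutions -/
def Kills {G : Type*} [AddCommGroup G] (Γ : G → ℂ) (B : ℕ) (g : RG ℤ G) : Prop :=
  ∀ F : G → ℤ, Ker Γ B F → act g F = 0

/-- the symbol `Γ(b) = ∑_g Γ(g) b(g)` -/
def Gh {G : Type*} [AddCommGroup G] (Γ : G → ℂ) (b : AddChar G Circle) : ℂ :=
  ∑' g, Γ g * ((b g : Circle) : ℂ)

/-- `θ` divides some `X^N - 1`, `N ≥ 1` -/
def Cyc (θ : ℤ[X]) : Prop := ∃ N : ℕ, 0 < N ∧ θ ∣ X ^ N - 1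

/-- `θ(X^q) ∈ ℤ[G]` -/
def fl {G : Type*} [AddCommGroup G] (θ : ℤ[X]) (q : G) : RG ℤ G := aeval (tr q) θ

/-- `∏ θ(X^q)` over the list -/
def prd {G : Type*} [AddCommGroup G] (L : List (ℤ[X] × G)) : RG ℤ G :=
  (L.map fun p => fl p.1 p.2).prod

/-- `∏ (1 - X^p)` over the list -/
def dprd {G : Type*} [AddCommGroup G] (ps : List G) : RG ℤ G := (ps.map fun p => 1 - tr p).prod

/-- all `θ` in the list divide some `X^N - 1`, and `prd L` annihilates the solutions -/
def Good {G : Type*} [AddCommGroup G] (Γ : G → ℂ) (B : ℕ) (L : List (ℤ[X] × G)) : Prop :=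
  (∀ p ∈ L, Cyc p.1) ∧ Kills Γ B (prd L)

/-- the main property of a group `G`: for all `Γ ∈ ℓ¹(G)` and `B` there is a finite list of flat
annihilators `Π` such that every character `b` with `Γ(b) ≠ 0` has `Π(b) ≠ 0` for one of them -/
def MM (G : Type*) [AddCommGroup G] : Prop :=
  ∀ Γ : G → ℂ, Summable (fun g => ‖Γ g‖) → ∀ B : ℕ, ∃ P : List (List (ℤ[X] × G)),
    (∀ L ∈ P, Good Γ B L) ∧ ∀ b : AddChar G Circle, Gh Γ b ≠ 0 → ∃ L ∈ P, ev b (prd L) ≠ 0

/-- the norm `∑_v |g_v|` -/
def nrm {G : Type*} [AddCommGroup G] (g : RG ℤ G) : ℕ := g.coeff.sum fun _ c => c.natAbs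

/-- the dilation `∑_v g_v X^{n v}` -/
def dil {G : Type*} [AddCommGroup G] (n : ℕ) (g : RG ℤ G) : RG ℤ G :=
  AddMonoidAlgebra.mapDomain (fun v => n • v) g

section basic

variable {R G M : Type*} [CommRing R] [AddCommGroup G] [AddCommGroup M] [Module R M]

lemma act_apply (g : RG R G) (F : G → M) (x : G) :
    act g F x = g.coeff.sum fun v c => c • F (x + v) := rfl

@[simp] lemma act_zero (F : G → M) : act (0 : RG R G) F = 0 := by
  funext x; simp [act]

lemma act_add (g h : RG R G) (F : G → M) : act (g + h) F = act g F + act h F := by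
  classical
  funext x
  simp only [act, AddMonoidAlgebra.coeff_add, Pi.add_apply]
  exact Finsupp.sum_add_index (by simp) (by intros; simp [add_smul])

@[simp] lemma act_single (v : G) (c : R) (F : G → M) (x : G) :
    act (AddMonoidAlgebra.single v c) F x = c • F (x + v) := by
  simp [act]

@[simp] lemma act_fun_zero (g : RG R G) : act g (0 : G → M) = 0 := by
  funext x; simp [act]

lemma act_fun_add (g : RG R G) (F F' : G → M) : act g (F + F') = act g F + act g F' := by
  funext x; simp [act, Finsupp.sum]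
  rw [← Finset.sum_add_distrib]

lemma act_fun_smul (g : RG R G) (a : R) (F : G → M) : act g (a • F) = a • act g F := by
  funext x; simp only [act, Finsupp.sum, Pi.smul_apply, Finset.smul_sum]
  exact Finset.sum_congr rfl fun v _ => by rw [smul_comm]

lemma act_mul (g h : RG R G) (F : G → M) : act (g * h) F = act g (act h F) := by
  induction g using AddMonoidAlgebra.induction_linear with
  | zero => simp
  | add x y hx hy => rw [add_mul, act_add, act_add, hx, hy]
  | single v c =>
    induction h using AddMonoidAlgebra.induction_linear with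
    | zero => simp
    | add x y hx hy => rw [mul_add, act_add, act_add, act_fun_add, hx, hy]
    | single w e =>
      rw [AddMonoidAlgebra.single_mul_single]
      funext x
      simp [mul_smul, add_assoc]

@[simp] lemma act_one (F : G → M) : act (1 : RG R G) F = F := by
  funext x
  rw [AddMonoidAlgebra.one_def]; simp

lemma act_neg (g : RG R G) (F : G → M) : act (-g) F = -act g F := by
  have h : act (-g) F + act g F = 0 := by rw [← act_add]; simp
  exact eq_neg_of_add_eq_zero_left h

lemma act_sub (g h : RG R G) (F : G → M) : act (g - h) F = act g F - act h F := by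
  rw [sub_eq_add_neg, act_add, act_neg, sub_eq_add_neg]

lemma act_sum {ι : Type*} (s : Finset ι) (g : ι → RG R G) (F : G → M) :
    act (∑ i ∈ s, g i) F = ∑ i ∈ s, act (g i) F := by
  classical
  induction s using Finset.induction_on with
  | empty => simp
  | insert a s ha ih => rw [Finset.sum_insert ha, Finset.sum_insert ha, act_add, ih]

/-- translates of the function -/
lemma act_shift (g : RG R G) (F : G → M) (y : G) :
    act g (fun x => F (x + y)) = fun x => act g F (x + y) := by
  funext x
  simp only [act]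
  refine Finsupp.sum_congr fun v _ => ?_
  rw [add_right_comm]

@[simp] lemma act_tr (q : G) {M : Type*} [AddCommGroup M] (F : G → M) (x : G) :
    act (tr q) F x = F (x + q) := by
  simp [tr]

lemma tr_add (p q : G) : tr (p + q) = tr p * tr q := by
  simp [tr, AddMonoidAlgebra.single_mul_single]

@[simp] lemma tr_zero : tr (0 : G) = 1 := rfl

lemma tr_nsmul (n : ℕ) (q : G) : tr (n • q) = tr q ^ n := by
  induction n with
  | zero => simp
  | succ k ih => rw [succ_nsmul, tr_add, ih, pow_succ]

end basic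

section ev

variable {G : Type*} [AddCommGroup G]

@[simp] lemma ev_single (b : AddChar G Circle) (v : G) (c : ℤ) :
    ev b (AddMonoidAlgebra.single v c) = (c : ℂ) * ((b v : Circle) : ℂ) := by
  simp [ev]

@[simp] lemma ev_tr (b : AddChar G Circle) (v : G) : ev b (tr v) = ((b v : Circle) : ℂ) := by
  simp [tr]

lemma ev_apply (b : AddChar G Circle) (g : RG ℤ G) :
    ev b g = g.coeff.sum fun v c => (c : ℂ) * ((b v : Circle) : ℂ) := by
  induction g using AddMonoidAlgebra.induction_linear with
  | zero => simp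
  | add x y hx hy =>
    classical
    rw [map_add, hx, hy, AddMonoidAlgebra.coeff_add,
      Finsupp.sum_add_index (by simp) (by intros; push_cast; ring)]
  | single v c => simp

lemma ev_fl (b : AddChar G Circle) (θ : ℤ[X]) (q : G) :
    ev b (fl θ q) = aeval ((b q : Circle) : ℂ) θ := by
  unfold fl
  induction θ using Polynomial.induction_on' with
  | add p q hp hq => simp [hp, hq]
  | monomial n a =>
    simp [aeval_monomial, ← tr_nsmul, AddChar.map_nsmul_eq_pow]

lemma prd_nil : prd ([] : List (ℤ[X] × G)) = 1 := rfl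

lemma prd_cons (p : ℤ[X] × G) (L : List (ℤ[X] × G)) : prd (p :: L) = fl p.1 p.2 * prd L := by
  simp [prd]

lemma prd_append (L L' : List (ℤ[X] × G)) : prd (L ++ L') = prd L * prd L' := by
  simp [prd]

lemma dprd_nil : dprd ([] : List G) = 1 := rfl

lemma dprd_cons (p : G) (ps : List G) : dprd (p :: ps) = (1 - tr p) * dprd ps := by
  simp [dprd]

lemma fl_one_sub (p : G) : fl (1 - X) p = 1 - tr p := by simp [fl]

lemma cyc_one_sub : Cyc (1 - X) := ⟨1, one_pos, ⟨-1, by ring⟩⟩

end ev

section ker

variable {G : Type*} [AddCommGroup G] {Γ : G → ℂ} {B : ℕ}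

lemma Ker.shift {F : G → ℤ} (h : Ker Γ B F) (y : G) : Ker Γ B (fun x => F (x + y)) := by
  refine ⟨fun x => h.1 _, fun x => ?_⟩
  rw [← h.2 (x + y)]
  refine tsum_congr fun g => ?_
  rw [add_right_comm]

/-- it suffices to look at `x = 0` -/
lemma kills_of_zero {g : RG ℤ G} (h : ∀ F : G → ℤ, Ker Γ B F → act g F 0 = 0) : Kills Γ B g := by
  intro F hF
  funext x
  have h1 := h _ (hF.shift x)
  rw [act_shift] at h1
  simpa using h1

lemma Kills.mul_left {g : RG ℤ G} (h : Kills Γ B g) (k : RG ℤ G) : Kills Γ B (k * g) := by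
  intro F hF
  rw [act_mul, h F hF, act_fun_zero]

lemma Kills.mul_right {g : RG ℤ G} (h : Kills Γ B g) (k : RG ℤ G) : Kills Γ B (g * k) := by
  rw [mul_comm]; exact h.mul_left k

lemma Kills.add {g k : RG ℤ G} (h : Kills Γ B g) (h' : Kills Γ B k) : Kills Γ B (g + k) := by
  intro F hF
  rw [act_add, h F hF, h' F hF, add_zero]

lemma Kills.sum {ι : Type*} (s : Finset ι) {g : ι → RG ℤ G} (h : ∀ i ∈ s, Kills Γ B (g i)) :
    Kills Γ B (∑ i ∈ s, g i) := by
  intro F hF
  rw [act_sum]
  exact Finset.sum_eq_zero fun i hi => h i hi F hF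

lemma natAbs_act_le (g : RG ℤ G) (F : G → ℤ) {B : ℕ} (hF : ∀ x, |F x| ≤ B) (x : G) :
    |act g F x| ≤ (B * nrm g : ℕ) := by
  simp only [act, nrm, Finsupp.sum]
  refine (Finset.abs_sum_le_sum_abs _ _).trans ?_
  push_cast
  rw [Finset.mul_sum]
  refine Finset.sum_le_sum fun v _ => ?_
  rw [smul_eq_mul, abs_mul, mul_comm]
  exact mul_le_mul_of_nonneg_right (hF _) (abs_nonneg _)

end ker

end Pool.Agent.NL53
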