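import Pool.Agent.Lib.MP_53fa4a_an_NL.Defs

/-!
# Descent to the quotient by a cyclic group
-/

set_option autoImplicit false

open Polynomial
open scoped BigOperators ComplexConjugate

noncomputable section

namespace Pool.Agent.NL53

variable {G : Type*} [AddCommGroup G] {Γ : G → ℂ} {B : ℕ}

/-- the sums over the fibres of the projection -/
private def gq (p : G) (Γ : G → ℂ) (y : G ⧸ AddSubgroup.zmultiples p) : ℂ :=
  ∑' g : {g : G // (QuotientAddGroup.mk g : G ⧸ AddSubgroup.zmultiples p) = y}, Γ g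

private theorem gq_tsum (hΓ : Summable fun g => ‖Γ g‖) (p : G)
    (k : (G ⧸ AddSubgroup.zmultiples p) → ℂ) (C : ℝ) (hk : ∀ y, ‖k y‖ ≤ C) :
    ∑' y, gq p Γ y * k y =
      ∑' g, Γ g * k (QuotientAddGroup.mk g : G ⧸ AddSubgroup.zmultiples p) := by
  let e := Equiv.sigmaFiberEquiv
    (fun g : G => (QuotientAddGroup.mk g : G ⧸ AddSubgroup.zmultiples p))
  have h1 : Summable fun g : G =>
      Γ g * k (QuotientAddGroup.mk g : G ⧸ AddSubgroup.zmultiples p) := by
    refine Summable.of_norm_bounded (hΓ.mul_right C) fun g => ?_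
    rw [norm_mul]
    exact mul_le_mul_of_nonneg_left (hk _) (norm_nonneg _)
  rw [← e.tsum_eq (fun g : G => Γ g * k (QuotientAddGroup.mk g : G ⧸ AddSubgroup.zmultiples p))]
  have h2 : Summable fun x : (y : G ⧸ AddSubgroup.zmultiples p) ×
      {g : G // (QuotientAddGroup.mk g : G ⧸ AddSubgroup.zmultiples p) = y} =>
      Γ (e x) * k (QuotientAddGroup.mk (e x) : G ⧸ AddSubgroup.zmultiples p) :=
    e.summable_iff.2 h1
  rw [h2.tsum_sigma]
  refine tsum_congr fun y => ?_
  rw [gq, ← tsum_mul_right]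
  refine tsum_congr fun g => ?_
  show Γ g.1 * k y = Γ g.1 * k (QuotientAddGroup.mk g.1)
  rw [g.2]

private theorem gq_summable (hΓ : Summable fun g => ‖Γ g‖) (p : G) :
    Summable fun y : G ⧸ AddSubgroup.zmultiples p => ‖gq p Γ y‖ := by
  let e := Equiv.sigmaFiberEquiv
    (fun g : G => (QuotientAddGroup.mk g : G ⧸ AddSubgroup.zmultiples p))
  have h2 : Summable fun x : (y : G ⧸ AddSubgroup.zmultiples p) ×
      {g : G // (QuotientAddGroup.mk g : G ⧸ AddSubgroup.zmultiples p) = y} => ‖Γ (e x)‖ :=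
    e.summable_iff.2 hΓ
  refine Summable.of_nonneg_of_le (fun y => norm_nonneg _) (fun y => ?_) h2.sigma
  exact norm_tsum_le_tsum_norm (h2.sigma_factor y)

private theorem desc_eq (hΓ : Summable fun g => ‖Γ g‖) {F : G → ℤ} (hF : Ker Γ B F)
    (P : RG ℤ G) : ∀ x, Summable (fun g => Γ g * ((act P F (x + g) : ℤ) : ℂ)) ∧
      ∑' g, Γ g * ((act P F (x + g) : ℤ) : ℂ) = 0 := by
  induction P using AddMonoidAlgebra.induction_linear with
  | zero =>
    intro x
    simp
  | add P P' h h' =>
    intro x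
    have e : (fun g => Γ g * ((act (P + P') F (x + g) : ℤ) : ℂ)) = fun g =>
        Γ g * ((act P F (x + g) : ℤ) : ℂ) + Γ g * ((act P' F (x + g) : ℤ) : ℂ) := by
      funext g
      rw [act_add, Pi.add_apply]
      push_cast
      ring
    rw [e]
    refine ⟨(h x).1.add (h' x).1, ?_⟩
    rw [(h x).1.tsum_add (h' x).1, (h x).2, (h' x).2, add_zero]
  | single v c =>
    intro x
    have e : (fun g => Γ g * ((act (AddMonoidAlgebra.single v c) F (x + g) : ℤ) : ℂ)) = fun g =>
        (c : ℂ) * (Γ g * ((F (x + v + g) : ℤ) : ℂ)) := by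
      funext g
      rw [act_single, smul_eq_mul, add_right_comm]
      push_cast
      ring
    rw [e]
    have hs : Summable fun g => Γ g * ((F (x + v + g) : ℤ) : ℂ) := by
      refine Summable.of_norm_bounded (hΓ.mul_right (B : ℝ)) fun g => ?_
      rw [norm_mul]
      refine mul_le_mul_of_nonneg_left ?_ (norm_nonneg _)
      rw [Complex.norm_intCast]
      exact_mod_cast hF.1 _
    refine ⟨hs.mul_left _, ?_⟩
    rw [tsum_mul_left, hF.2 (x + v), mul_zero]

private theorem desc_zsmul {H : Type*} [AddCommGroup H] (a : ℤ) (g : RG ℤ H) (F : H → ℤ) :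
    act (a • g) F = a • act g F := by
  induction a using Int.induction_on with
  | zero => rw [zero_smul, zero_smul, act_zero]
  | succ n ih => rw [add_smul, add_smul, one_smul, one_smul, act_add, ih]
  | pred n ih => rw [sub_smul, sub_smul, one_smul, one_smul, act_sub, ih]

private theorem desc_fl (p : G) (θ : ℤ[X]) (q : G) (k : (G ⧸ AddSubgroup.zmultiples p) → ℤ) :
    act (fl θ q) (fun x => k (QuotientAddGroup.mk x)) = fun x =>
      act (fl θ (QuotientAddGroup.mk q : G ⧸ AddSubgroup.zmultiples p)) k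
        (QuotientAddGroup.mk x) := by
  induction θ using Polynomial.induction_on' with
  | add P P' h h' =>
    have e1 : fl (P + P') q = fl P q + fl P' q := by simp [fl]
    have e2 : fl (P + P') (QuotientAddGroup.mk q : G ⧸ AddSubgroup.zmultiples p) =
        fl P (QuotientAddGroup.mk q) + fl P' (QuotientAddGroup.mk q) := by simp [fl]
    rw [e1, e2, act_add, act_add, h, h']
    rfl
  | monomial n a =>
    have e1 : fl (monomial n a) q = a • tr (n • q) := by
      rw [fl, aeval_monomial, ← Algebra.smul_def, tr_nsmul]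
    have e2 : fl (monomial n a) (QuotientAddGroup.mk q : G ⧸ AddSubgroup.zmultiples p) =
        a • tr (n • (QuotientAddGroup.mk q : G ⧸ AddSubgroup.zmultiples p)) := by
      rw [fl, aeval_monomial, ← Algebra.smul_def, tr_nsmul]
    rw [e1, e2, desc_zsmul, desc_zsmul]
    funext x
    rw [Pi.smul_apply, Pi.smul_apply, act_tr, act_tr]
    rfl

private theorem desc_prd (p : G) (k : (G ⧸ AddSubgroup.zmultiples p) → ℤ)
    (l : ℤ[X] × (G ⧸ AddSubgroup.zmultiples p) → ℤ[X] × G) (hl1 : ∀ x, (l x).1 = x.1)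
    (hl2 : ∀ x, (QuotientAddGroup.mk (l x).2 : G ⧸ AddSubgroup.zmultiples p) = x.2)
    (L : List (ℤ[X] × (G ⧸ AddSubgroup.zmultiples p))) :
    act (prd (L.map l)) (fun x => k (QuotientAddGroup.mk x)) = fun x =>
      act (prd L) k (QuotientAddGroup.mk x) := by
  induction L with
  | nil =>
    rw [List.map_nil, prd_nil, prd_nil, act_one, act_one]
  | cons a L ih =>
    rw [List.map_cons, prd_cons, prd_cons, act_mul, ih, act_mul, desc_fl, hl1, hl2]

private theorem desc_ev (p : G) (b : AddChar G Circle)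
    (b' : AddChar (G ⧸ AddSubgroup.zmultiples p) Circle)
    (hb : ∀ x : G, b' (QuotientAddGroup.mk x) = b x)
    (l : ℤ[X] × (G ⧸ AddSubgroup.zmultiples p) → ℤ[X] × G) (hl1 : ∀ x, (l x).1 = x.1)
    (hl2 : ∀ x, (QuotientAddGroup.mk (l x).2 : G ⧸ AddSubgroup.zmultiples p) = x.2)
    (L : List (ℤ[X] × (G ⧸ AddSubgroup.zmultiples p))) :
    ev b (prd (L.map l)) = ev b' (prd L) := by
  induction L with
  | nil => rw [List.map_nil, prd_nil, prd_nil, map_one, map_one]
  | cons a L ih =>
    rw [List.map_cons, prd_cons, prd_cons, map_mul, map_mul, ih, ev_fl, ev_fl, hl1, ← hb, hl2]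

private theorem desc_out (p : G) {T : Type*} (h : G → T) (hp : ∀ x, h (x + p) = h x) (x : G) :
    h (Quotient.out (QuotientAddGroup.mk x : G ⧸ AddSubgroup.zmultiples p)) = h x := by
  have hn : ∀ (n : ℕ) (y : G), h (y + n • p) = h y := by
    intro n
    induction n with
    | zero => intro y; simp
    | succ n ih =>
      intro y
      rw [succ_nsmul, ← add_assoc, hp, ih]
  have hz : ∀ (n : ℤ) (y : G), h (y + n • p) = h y := by
    intro n y
    obtain ⟨m, rfl | rfl⟩ := n.eq_nat_or_neg
    · rw [natCast_zsmul, hn]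
    · have h1 := hn m (y + (-(m : ℤ)) • p)
      rw [neg_smul, natCast_zsmul, neg_add_cancel_right] at h1
      rw [neg_smul, natCast_zsmul]
      exact h1.symm
  have h2 : (QuotientAddGroup.mk (Quotient.out
      (QuotientAddGroup.mk x : G ⧸ AddSubgroup.zmultiples p)) :
        G ⧸ AddSubgroup.zmultiples p) = QuotientAddGroup.mk x := Quotient.out_eq _
  rw [QuotientAddGroup.eq, AddSubgroup.mem_zmultiples_iff] at h2
  obtain ⟨n, hn'⟩ := h2
  have h3 : x = Quotient.out (QuotientAddGroup.mk x : G ⧸ AddSubgroup.zmultiples p) + n • p := by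
    rw [hn']
    abel
  have h4 := hz n (Quotient.out (QuotientAddGroup.mk x : G ⧸ AddSubgroup.zmultiples p))
  rw [← h3] at h4
  exact h4.symm

/-- **Descent to `G/⟨p⟩`.**  PROOF.  Let `Q = G ⧸ zmultiples p`, `π : G → Q`,
`Γ' ȳ = ∑' g : π⁻¹{ȳ}, Γ g` (e.g. `∑' g, if π g = ȳ then Γ g else 0`), summable over `Q` in norm
(`Summable.sigma`/`tsum` over fibres; `HasSum.sigma`), `B' = B * nrm P`.  Take the list `R̄` given
by `hM Γ' _ B'` and lift every pair `(θ, q̄)` to `(θ, q)` with `π q = q̄` (`Quotient.out`).  For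
`L̄ ∈ R̄` with lift `L`:
(a) `Kills Γ B (P * prd L)`: let `Ker Γ B F`, `h = act P F`; by `hP`, `act (1 - tr p) h = 0`, i.e.
`h (x + p) = h x`, so `h = h̄ ∘ π` for some `h̄ : Q → ℤ`, `|h̄| ≤ B'` (`natAbs_act_le`) and
`∑' ȳ, Γ' ȳ * h̄ (x̄ + ȳ) = ∑' g, Γ g * h (x + g) = 0` (the equation for `h` is a finite combination
of the equations for the translates of `F`:
`∑' g, Γ g * act P F (x+g) = ∑_v P_v ∑' g, Γ g F(x+v+g)`). So `Ker Γ' B' h̄` and
`act (prd L̄) h̄ = 0`; since `act (fl θ q) (k ∘ π) = (act (fl θ (π q)) k) ∘ π` (both sides for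
`θ = X^n`, i.e. `tr (n • q)`; linear in `θ`) and by induction on the list
`act (prd L) (k ∘ π) = (act (prd L̄) k) ∘ π`, we get `act (prd L * P) F = 0`. (b) a character `b`
with `b p = 1` factors as `b̄ ∘ π` (`QuotientAddGroup.lift` for `AddChar`: build it by hand, or
with `AddChar.toMonoidHom`), `Gh Γ' b̄ = Gh Γ b` (sum over fibres), `ev b (prd L) = ev b̄ (prd L̄)`
(by `ev_fl` and induction on the list). -/
theorem descend (hΓ : Summable fun g => ‖Γ g‖) (p : G) (P : RG ℤ G)
    (hP : Kills Γ B ((1 - tr p) * P)) (hM : MM (G ⧸ AddSubgroup.zmultiples p)) :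
    ∃ R : List (List (ℤ[X] × G)), (∀ L ∈ R, (∀ q ∈ L, Cyc q.1) ∧ Kills Γ B (P * prd L)) ∧
      ∀ b : AddChar G Circle, b p = 1 → Gh Γ b ≠ 0 → ∃ L ∈ R, ev b (prd L) ≠ 0 := by
  have hmk : ∀ y : G ⧸ AddSubgroup.zmultiples p,
      (QuotientAddGroup.mk (Quotient.out y) : G ⧸ AddSubgroup.zmultiples p) = y :=
    fun y => Quotient.out_eq _
  obtain ⟨R, hR1, hR2⟩ := hM (gq p Γ) (gq_summable hΓ p) (B * nrm P)
  let l : ℤ[X] × (G ⧸ AddSubgroup.zmultiples p) → ℤ[X] × G := fun x => (x.1, Quotient.out x.2)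
  have hl1 : ∀ x, (l x).1 = x.1 := fun x => rfl
  have hl2 : ∀ x, (QuotientAddGroup.mk (l x).2 : G ⧸ AddSubgroup.zmultiples p) = x.2 :=
    fun x => hmk x.2
  refine ⟨R.map fun L => L.map l, ?_, ?_⟩
  · intro L hL
    obtain ⟨L', hL', rfl⟩ := List.mem_map.1 hL
    refine ⟨fun q hq => ?_, fun F hF => ?_⟩
    · obtain ⟨q', hq', rfl⟩ := List.mem_map.1 hq
      exact (hR1 L' hL').1 q' hq'
    · -- the function `act P F` is periodic
      have hper : ∀ x, act P F (x + p) = act P F x := by
        intro x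
        have h1 := congrFun (hP F hF) x
        rw [act_mul, act_sub, act_one, Pi.sub_apply, act_tr, Pi.zero_apply] at h1
        exact (sub_eq_zero.1 h1).symm
      let k : (G ⧸ AddSubgroup.zmultiples p) → ℤ := fun y => act P F (Quotient.out y)
      have hk : ∀ x : G, k (QuotientAddGroup.mk x) = act P F x := fun x =>
        desc_out p (act P F) hper x
      have hkB : ∀ y, |k y| ≤ (B * nrm P : ℕ) := fun y => natAbs_act_le P F hF.1 _
      have hker : Ker (gq p Γ) (B * nrm P) k := by
        refine ⟨hkB, fun y => ?_⟩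
        have h1 := gq_tsum hΓ p (fun z => ((k (y + z) : ℤ) : ℂ)) (B * nrm P : ℕ) (fun z => by
          rw [Complex.norm_intCast]
          exact_mod_cast hkB (y + z))
        rw [h1]
        have h2 := (desc_eq hΓ hF P (Quotient.out y)).2
        rw [← h2]
        refine tsum_congr fun g => ?_
        have h3 : k (y + QuotientAddGroup.mk g) = act P F (Quotient.out y + g) := by
          rw [← hk]
          congr 1
          rw [QuotientAddGroup.mk_add, hmk]
        rw [h3]
      have h4 := (hR1 L' hL').2 k hker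
      have h5 : act P F = fun x => k (QuotientAddGroup.mk x) := by
        funext x
        exact (hk x).symm
      show act (P * prd (L'.map l)) F = 0
      rw [mul_comm, act_mul, h5, desc_prd p k l hl1 hl2 L', h4]
      rfl
  · intro b hbp hbG
    have hper : ∀ x, b (x + p) = b x := fun x => by
      rw [AddChar.map_add_eq_mul, hbp, mul_one]
    have hout : ∀ x : G, b (Quotient.out
        (QuotientAddGroup.mk x : G ⧸ AddSubgroup.zmultiples p)) = b x := fun x =>
      desc_out p (fun x => b x) hper x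
    let b' : AddChar (G ⧸ AddSubgroup.zmultiples p) Circle :=
      { toFun := fun y => b (Quotient.out y)
        map_zero_eq_one' := by
          have h1 := hout 0
          rw [QuotientAddGroup.mk_zero, AddChar.map_zero_eq_one] at h1
          exact h1
        map_add_eq_mul' := by
          intro y z
          have h1 := hout (Quotient.out y + Quotient.out z)
          rw [QuotientAddGroup.mk_add, hmk, hmk, AddChar.map_add_eq_mul] at h1
          exact h1 }
    have hb' : ∀ x : G, b' (QuotientAddGroup.mk x) = b x := hout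
    have hGh : Gh (gq p Γ) b' = Gh Γ b := by
      unfold Gh
      rw [gq_tsum hΓ p (fun y => ((b' y : Circle) : ℂ)) 1 (fun y => by
        rw [Circle.norm_coe])]
      refine tsum_congr fun g => ?_
      rw [hb']
    obtain ⟨L', hL', hne⟩ := hR2 b' (by rw [hGh]; exact hbG)
    exact ⟨L'.map l, List.mem_map.2 ⟨L', hL', rfl⟩, by
      rw [desc_ev p b b' hb' l hl1 hl2 L']
      exact hne⟩

end Pool.Agent.NL53
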