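import Pool.Agent.Lib.MP_53fa4a_an_NL.DualA

/-!
# The finite Fourier expansion with smooth cut-off
-/

set_option autoImplicit false

open Filter
open scoped BigOperators Topology ComplexConjugate

noncomputable section

namespace Pool.Agent.NL53

private theorem dual_mem {j : ℕ} {a b : ℤ} {x : Fin j → ℤ} :
    x ∈ bx j a b ↔ ∀ i, a ≤ x i ∧ x i < b := by
  unfold bx
  rw [Fintype.mem_piFinset]
  exact forall_congr' fun i => Finset.mem_Ico

private theorem dual_pos {j : ℕ} {n K l n' : ℕ} (hn0 : 0 < n') (hl : 0 < l)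
    (hn : n + K * l ≤ n') (φ : (Fin j → ℤ) → ℂ) {v : Fin j → ℤ} (hv : v ∈ bx j 0 n) :
    φ v = ((n' : ℂ) ^ j)⁻¹ * ∑ k ∈ bx j 0 n', ex v (fun i => (k i : ℝ) / n') *
      ∑ u ∈ bx j (-((K * l : ℕ) : ℤ)) n,
        (av l)^[K] (fun x => φ x * conj (ex x (fun i => (k i : ℝ) / n'))) u := by
  obtain ⟨w, hw1, hw⟩ := iter_weights (j := j) hl K
  have hk : ∀ k : Fin j → ℤ, ex v (fun i => (k i : ℝ) / n') *
      ∑ u ∈ bx j (-((K * l : ℕ) : ℤ)) n,
        (av l)^[K] (fun x => φ x * conj (ex x (fun i => (k i : ℝ) / n'))) u =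
      ∑ u ∈ bx j (-((K * l : ℕ) : ℤ)) n, ∑ a ∈ bx j 0 (K * l + 1),
        w a * φ (u + a) * ex (v - (u + a)) (fun i => (k i : ℝ) / n') := by
    intro k
    rw [Finset.mul_sum]
    refine Finset.sum_congr rfl fun u _ => ?_
    rw [hw, Finset.mul_sum]
    refine Finset.sum_congr rfl fun a _ => ?_
    rw [sub_eq_add_neg, ex_add v (-(u + a)), ex_neg]
    ring
  rw [Finset.sum_congr rfl fun k _ => hk k, Finset.sum_comm]
  have hu : ∀ u ∈ bx j (-((K * l : ℕ) : ℤ)) n,
      ∑ k ∈ bx j 0 n', ∑ a ∈ bx j 0 (K * l + 1),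
        w a * φ (u + a) * ex (v - (u + a)) (fun i => (k i : ℝ) / n') =
      ∑ a ∈ bx j 0 (K * l + 1), if u = v - a then w a * φ v * (n' : ℂ) ^ j else 0 := by
    intro u hu
    rw [Finset.sum_comm]
    refine Finset.sum_congr rfl fun a ha => ?_
    rw [← Finset.mul_sum, sum_ex hn0]
    by_cases h : u = v - a
    · have h1 : u + a = v := by rw [h, sub_add_cancel]
      rw [if_pos h, h1, if_pos]
      intro i
      rw [sub_self]
      exact dvd_zero _
    · rw [if_neg h, if_neg, mul_zero]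
      intro hd
      refine h (funext fun i => ?_)
      have h1 := dual_mem.1 hu i
      have h2 := dual_mem.1 ha i
      have h3 := dual_mem.1 hv i
      have h4 := hd i
      rw [Pi.sub_apply, Pi.add_apply] at h4
      rw [Pi.sub_apply]
      have h6 : (n : ℤ) + ((K * l : ℕ) : ℤ) ≤ (n' : ℤ) := by exact_mod_cast hn
      have h7 : ((K * l : ℕ) : ℤ) = (K : ℤ) * l := by push_cast; ring
      rw [h7] at h1 h6
      have h5 : v i - (u i + a i) = 0 := by
        refine Int.eq_zero_of_abs_lt_dvd h4 ?_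
        rw [abs_lt]
        constructor
        · linarith [h1.1, h1.2, h2.1, h2.2, h3.1, h3.2]
        · linarith [h1.1, h1.2, h2.1, h2.2, h3.1, h3.2]
      linarith
  rw [Finset.sum_congr rfl hu, Finset.sum_comm]
  have ha : ∀ a ∈ bx j 0 (K * l + 1),
      ∑ u ∈ bx j (-((K * l : ℕ) : ℤ)) n, (if u = v - a then w a * φ v * (n' : ℂ) ^ j else 0) =
        w a * (φ v * (n' : ℂ) ^ j) := by
    intro a ha
    rw [Finset.sum_ite_eq' (bx j (-((K * l : ℕ) : ℤ)) n) (v - a)
      (fun _ => w a * φ v * (n' : ℂ) ^ j), if_pos, mul_assoc]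
    rw [dual_mem]
    intro i
    have h2 := dual_mem.1 ha i
    have h3 := dual_mem.1 hv i
    have h7 : ((K * l : ℕ) : ℤ) = (K : ℤ) * l := by push_cast; ring
    rw [Pi.sub_apply, h7]
    constructor
    · linarith [h2.1, h2.2, h3.1, h3.2]
    · linarith [h2.1, h2.2, h3.1, h3.2]
  rw [Finset.sum_congr rfl ha, ← Finset.sum_mul, hw1, one_mul]
  have h0 : (n' : ℂ) ^ j ≠ 0 := pow_ne_zero _ (Nat.cast_ne_zero.2 hn0.ne')
  rw [mul_comm (φ v), ← mul_assoc, inv_mul_cancel₀ h0, one_mul]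

/-- **Expansion.**  PROOF.  Insert `iter_weights` (weights `w`): with `e_k(x) = ex x (k/n')` the
right hand side is `n'^{-j} ∑_{u, a} w(a) φ(u+a) ∑_k e_k(v - u - a)`, where `u ∈ [-K l, n)^j` and
`a ∈ [0, K l]^j`.  By `sum_ex` the inner sum is `n'^j` if `n'` divides all coordinates of `v-u-a`
and `0` otherwise.  The coordinates of `u + a` are in `[-K l, n - 1 + K l]`, those of `v` in
`[0, n)`, and `n' ≥ n + K l`, so divisibility means `u + a = v`.  Conversely for every
`a ∈ [0, K l]^j` the point `u = v - a` is in `[-K l, n)^j`.  So the sum is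
`∑_a w(a) φ(v) = φ(v)`. -/
theorem dual {j : ℕ} {n K l n' : ℕ} (hl : 0 < l) (hn : n + K * l ≤ n')
    (φ : (Fin j → ℤ) → ℂ) {v : Fin j → ℤ} (hv : v ∈ bx j 0 n) :
    φ v = ((n' : ℂ) ^ j)⁻¹ * ∑ k ∈ bx j 0 n', ex v (fun i => (k i : ℝ) / n') *
      ∑ u ∈ bx j (-((K * l : ℕ) : ℤ)) n,
        (av l)^[K] (fun x => φ x * conj (ex x (fun i => (k i : ℝ) / n'))) u := by
  rcases Nat.eq_zero_or_pos n' with h0 | h0
  · have hj : j = 0 := by
      by_contra hj
      have h1 := dual_mem.1 hv ⟨0, Nat.pos_of_ne_zero hj⟩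
      have h2 : n = 0 := by omega
      rw [h2] at h1
      have h3 : ((0 : ℕ) : ℤ) = 0 := rfl
      rw [h3] at h1
      linarith [h1.1, h1.2]
    subst hj
    obtain ⟨w, hw1, hw⟩ := iter_weights (j := 0) hl K
    have hb : ∀ a b : ℤ, bx 0 a b = {v} := by
      intro a b
      ext x
      rw [dual_mem, Finset.mem_singleton]
      exact ⟨fun _ => Subsingleton.elim _ _, fun _ i => i.elim0⟩
    rw [hb] at hw1
    rw [Finset.sum_singleton] at hw1
    rw [hb, hb, Finset.sum_singleton, Finset.sum_singleton, hw, hb, Finset.sum_singleton, hw1,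
      pow_zero, inv_one, one_mul, one_mul]
    have h4 : v + v = v := Subsingleton.elim _ _
    rw [h4, mul_left_comm, ex_mul_conj, mul_one]
  · exact dual_pos h0 hl hn φ hv

end Pool.Agent.NL53
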