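import Pool.Agent.Lib.MP_53fa4a_an_NL.Box

/-!
# Iterated averages as weighted sums; orthogonality
-/

set_option autoImplicit false

open Filter
open scoped BigOperators Topology ComplexConjugate

noncomputable section

namespace Pool.Agent.NL53

private theorem dua_mem {j : ℕ} {a b : ℤ} {w : Fin j → ℤ} :
    w ∈ bx j a b ↔ ∀ i, a ≤ w i ∧ w i < b := by
  unfold bx
  rw [Fintype.mem_piFinset]
  exact forall_congr' fun i => Finset.mem_Ico

private theorem dua_card (j l : ℕ) : ((bx j 0 l).card : ℂ) = (l : ℂ) ^ j := by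
  unfold bx
  rw [Fintype.card_piFinset_const, Int.card_Ico, sub_zero, Int.toNat_natCast, Nat.cast_pow]

private theorem dua_shift {j : ℕ} {B B' : Finset (Fin j → ℤ)} {b : Fin j → ℤ}
    (h : ∀ a ∈ B, a + b ∈ B') (g : (Fin j → ℤ) → ℂ) :
    ∑ c ∈ B', (if c - b ∈ B then g (c - b) else 0) = ∑ a ∈ B, g a := by
  rw [← Finset.sum_filter]
  refine Finset.sum_nbij' (fun c => c - b) (fun a => a + b) ?_ ?_ ?_ ?_ ?_
  · intro c hc
    exact (Finset.mem_filter.1 hc).2
  · intro a ha
    rw [Finset.mem_filter]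
    exact ⟨h a ha, by rwa [add_sub_cancel_right]⟩
  · intro c _
    exact sub_add_cancel c b
  · intro a _
    exact add_sub_cancel_right a b
  · intro c _
    rfl

/-- The iterated average is a weighted sum over the box `[0, K l]^j` with weights of sum `1`.
PROOF: induction on `K`: `w_{K+1}(a) = l^{-j} ∑_{b ∈ [0,l)^j, a - b ∈ [0, K l)^j} w_K(a-b)`. -/
theorem iter_weights {j l : ℕ} (hl : 0 < l) (K : ℕ) :
    ∃ w : (Fin j → ℤ) → ℂ, ∑ a ∈ bx j 0 (K * l + 1), w a = 1 ∧
      ∀ (f : (Fin j → ℤ) → ℂ) (u : Fin j → ℤ),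
        (av l)^[K] f u = ∑ a ∈ bx j 0 (K * l + 1), w a * f (u + a) := by
  classical
  induction K with
  | zero =>
    have hb : bx j 0 (((0 : ℕ) : ℤ) * l + 1) = {0} := by
      ext w
      rw [dua_mem, Finset.mem_singleton]
      constructor
      · intro h
        funext i
        have := h i
        simp only [Nat.cast_zero, zero_mul, zero_add] at this
        show w i = 0
        omega
      · rintro rfl i
        simp
    refine ⟨fun _ => 1, ?_, ?_⟩
    · rw [hb, Finset.sum_singleton]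
    · intro f u
      rw [hb, Finset.sum_singleton, one_mul, add_zero]
      rfl
  | succ K ih =>
    obtain ⟨w, hw, hf⟩ := ih
    obtain ⟨w', hw'⟩ : ∃ w' : (Fin j → ℤ) → ℂ, ∀ c, w' c = ((l : ℂ) ^ j)⁻¹ *
        ∑ b ∈ bx j 0 l, if c - b ∈ bx j 0 (K * l + 1) then w (c - b) else 0 := ⟨_, fun _ => rfl⟩
    have hin : ∀ b ∈ bx j 0 l, ∀ a ∈ bx j 0 ((K : ℤ) * l + 1),
        a + b ∈ bx j 0 (((K + 1 : ℕ) : ℤ) * l + 1) := by
      intro b hb a ha
      rw [dua_mem] at hb ha ⊢
      intro i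
      have h1 := hb i
      have h2 := ha i
      rw [Pi.add_apply]
      push_cast
      constructor
      · omega
      · linarith [h1.2, Int.lt_add_one_iff.1 h2.2]
    have key : ∀ g : (Fin j → ℤ) → ℂ, ∑ c ∈ bx j 0 (((K + 1 : ℕ) : ℤ) * l + 1), w' c * g c =
        ((l : ℂ) ^ j)⁻¹ * ∑ b ∈ bx j 0 l, ∑ a ∈ bx j 0 ((K : ℤ) * l + 1), w a * g (b + a) := by
      intro g
      have h1 : ∀ b ∈ bx j 0 (l : ℤ), ∑ a ∈ bx j 0 ((K : ℤ) * l + 1), w a * g (b + a) =
          ∑ c ∈ bx j 0 (((K + 1 : ℕ) : ℤ) * l + 1),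
            (if c - b ∈ bx j 0 (K * l + 1) then w (c - b) else 0) * g c := by
        intro b hb
        rw [← dua_shift (hin b hb) (fun a => w a * g (b + a))]
        refine Finset.sum_congr rfl fun c _ => ?_
        by_cases h : c - b ∈ bx j 0 ((K : ℤ) * l + 1)
        · rw [if_pos h, if_pos h, add_sub_cancel]
        · rw [if_neg h, if_neg h, zero_mul]
      rw [Finset.sum_congr rfl h1, Finset.sum_comm, Finset.mul_sum]
      refine Finset.sum_congr rfl fun c _ => ?_
      rw [hw', mul_assoc, Finset.sum_mul]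
    refine ⟨w', ?_, ?_⟩
    · have h1 := key (fun _ => 1)
      simp only [mul_one] at h1
      rw [h1, hw, Finset.sum_const, nsmul_eq_mul, mul_one, dua_card, inv_mul_cancel₀]
      exact pow_ne_zero _ (Nat.cast_ne_zero.2 hl.ne')
    · intro f u
      rw [Function.iterate_succ_apply', key (fun c => f (u + c)), av]
      congr 1
      refine Finset.sum_congr rfl fun b _ => ?_
      rw [hf]
      refine Finset.sum_congr rfl fun a _ => ?_
      rw [add_assoc]

private theorem dua_geom {n : ℕ} (hn : 0 < n) (x : ℤ) :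
    ∑ k ∈ Finset.Ico (0 : ℤ) n,
      Complex.exp (2 * Real.pi * Complex.I * (((x : ℝ) * ((k : ℝ) / n) : ℝ) : ℂ)) =
      if (n : ℤ) ∣ x then (n : ℂ) else 0 := by
  have hn' : (n : ℂ) ≠ 0 := Nat.cast_ne_zero.2 hn.ne'
  obtain ⟨ζ, hζ⟩ : ∃ ζ : ℂ, ζ = Complex.exp (2 * Real.pi * Complex.I * ((x : ℂ) / n)) := ⟨_, rfl⟩
  have h1 : ∑ k ∈ Finset.Ico (0 : ℤ) n,
      Complex.exp (2 * Real.pi * Complex.I * (((x : ℝ) * ((k : ℝ) / n) : ℝ) : ℂ)) =
      ∑ m ∈ Finset.range n, ζ ^ m := by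
    refine Finset.sum_nbij' (fun k => k.toNat) (fun m => (m : ℤ)) ?_ ?_ ?_ ?_ ?_
    · intro k hk
      rw [Finset.mem_Ico] at hk
      rw [Finset.mem_range]
      omega
    · intro m hm
      rw [Finset.mem_range] at hm
      rw [Finset.mem_Ico]
      omega
    · intro k hk
      rw [Finset.mem_Ico] at hk
      exact Int.toNat_of_nonneg hk.1
    · intro m _
      exact Int.toNat_natCast m
    · intro k hk
      rw [Finset.mem_Ico] at hk
      obtain ⟨m, rfl⟩ := Int.eq_ofNat_of_zero_le hk.1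
      rw [hζ, ← Complex.exp_nat_mul, Int.toNat_natCast]
      congr 1
      push_cast
      field_simp
  have h2 : ζ ^ n = 1 := by
    rw [hζ, ← Complex.exp_nat_mul, Complex.exp_eq_one_iff]
    refine ⟨x, ?_⟩
    field_simp
  have h3 : ζ = 1 ↔ (n : ℤ) ∣ x := by
    rw [hζ, Complex.exp_eq_one_iff]
    constructor
    · rintro ⟨m, hm⟩
      refine ⟨m, ?_⟩
      have h4 : (2 * Real.pi * Complex.I : ℂ) ≠ 0 := by
        simp [Real.pi_ne_zero]
      have h5 : (x : ℂ) / n = m := by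
        apply mul_left_cancel₀ h4
        rw [hm]
        ring
      rw [div_eq_iff hn'] at h5
      have h6 : (x : ℂ) = ((n * m : ℤ) : ℂ) := by
        rw [h5]
        push_cast
        ring
      exact_mod_cast h6
    · rintro ⟨m, rfl⟩
      refine ⟨m, ?_⟩
      push_cast
      field_simp
  rw [h1]
  by_cases h : (n : ℤ) ∣ x
  · rw [if_pos h, h3.2 h]
    simp
  · rw [if_neg h]
    have h4 : ζ ≠ 1 := fun h5 => h (h3.1 h5)
    rw [geom_sum_eq h4, h2, sub_self, zero_div]

/-- orthogonality on `(ℤ/n)^j`: a product of `j` geometric sums -/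
theorem sum_ex {j n : ℕ} (hn : 0 < n) (x : Fin j → ℤ) :
    ∑ k ∈ bx j 0 n, ex x (fun i => (k i : ℝ) / n) =
      if (∀ i, (n : ℤ) ∣ x i) then (n : ℂ) ^ j else 0 := by
  have h1 : ∀ k : Fin j → ℤ, ex x (fun i => (k i : ℝ) / n) = ∏ i, Complex.exp
      (2 * Real.pi * Complex.I * (((x i : ℝ) * ((k i : ℝ) / n) : ℝ) : ℂ)) := by
    intro k
    rw [ex, Complex.ofReal_sum, Finset.mul_sum, Complex.exp_sum]
  rw [Finset.sum_congr rfl fun k _ => h1 k, bx,
    ← Finset.prod_univ_sum (fun _ : Fin j => Finset.Ico (0 : ℤ) n) (fun i k => Complex.exp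
      (2 * Real.pi * Complex.I * (((x i : ℝ) * ((k : ℝ) / n) : ℝ) : ℂ)))]
  rw [Finset.prod_congr rfl fun i _ => dua_geom hn (x i)]
  by_cases h : ∀ i, (n : ℤ) ∣ x i
  · rw [if_pos h, Finset.prod_congr rfl fun i _ => if_pos (h i), Finset.prod_const,
      Finset.card_univ, Fintype.card_fin]
  · rw [if_neg h]
    push Not at h
    obtain ⟨i, hi⟩ := h
    exact Finset.prod_eq_zero (Finset.mem_univ i) (if_neg hi)

end Pool.Agent.NL53
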