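import Mathlib

/-!
# The parameters of the Siegel argument: definitions
-/

set_option autoImplicit false

open Filter
open scoped BigOperators Topology ComplexConjugate

noncomputable section

namespace Pool.Agent.NL53

def pM (j q : ℕ) : ℕ := j * q ^ (j - 1) + 1
def pn (j q s : ℕ) : ℕ := (q * pM j q - 1) * s ^ 2
def pn' (j q s : ℕ) : ℕ := q * pM j q * s ^ 2
def pE (j q τ : ℕ) : ℕ := τ * (q * pM j q) ^ j
def pN (j q τ s : ℕ) : ℕ := τ * pn j q s ^ j
def pR (j q τ s : ℕ) : ℕ := (τ - 1) * pn j q s ^ j + (pn' j q s ^ j - (pM j q * s ^ 2) ^ j)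
def pδ (j q τ B s : ℕ) : ℕ := 8 * (B + 1) * τ * pn' j q s ^ j
def pH (j q τ B s : ℕ) : ℕ := (8 * pN j q τ s * pδ j q τ B s) ^ pE j q τ

end Pool.Agent.NL53
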