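import Pool.Agent.Lib.MP_53fa4a_an_NL.Av
import Pool.Agent.Lib.MP_53fa4a_an_NL.Defs

/-!
# The `χ`-component of a solution
-/

set_option autoImplicit false

open Filter
open scoped BigOperators Topology ComplexConjugate

noncomputable section

namespace Pool.Agent.NL53

/-- the partial symbol `Γ_χ(w) = ∑_t Γ(w,t) χ(t)` -/
def gch {j : ℕ} {T : Type*} [AddCommGroup T] [Fintype T] (Γ : (Fin j → ℤ) × T → ℂ)
    (χ : AddChar T Circle) (w : Fin j → ℤ) : ℂ := ∑ t, Γ (w, t) * ((χ t : Circle) : ℂ)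

theorem gch_summable {j : ℕ} {T : Type*} [AddCommGroup T] [Fintype T]
    {Γ : (Fin j → ℤ) × T → ℂ} (hΓ : Summable fun g => ‖Γ g‖) (χ : AddChar T Circle) :
    Summable fun w => ‖gch Γ χ w‖ := by
  have h1 := hΓ.prod
  refine Summable.of_nonneg_of_le (fun w => norm_nonneg _) (fun w => ?_) h1
  rw [tsum_fintype]
  refine (norm_sum_le _ _).trans (Finset.sum_le_sum fun t _ => ?_)
  rw [norm_mul, Circle.norm_coe, mul_one]

/-- `Γ(b) = ∑_w Γ_χ(w) e(w·ξ)` for the character `b (w,t) = e(w·ξ) χ(t)` -/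
theorem gh_eq {j : ℕ} {T : Type*} [AddCommGroup T] [Fintype T]
    {Γ : (Fin j → ℤ) × T → ℂ} (hΓ : Summable fun g => ‖Γ g‖) (χ : AddChar T Circle)
    (ξ : Fin j → ℝ) (b : AddChar ((Fin j → ℤ) × T) Circle)
    (hb : ∀ w t, ((b (w, t) : Circle) : ℂ) = ex w ξ * ((χ t : Circle) : ℂ)) :
    Gh Γ b = ∑' w, gch Γ χ w * ex w ξ := by
  have h1 : Summable fun g => Γ g * ((b g : Circle) : ℂ) := by
    refine Summable.of_norm_bounded hΓ fun g => ?_
    rw [norm_mul, Circle.norm_coe, mul_one]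
  rw [Gh, h1.tsum_prod]
  refine tsum_congr fun w => ?_
  rw [tsum_fintype, gch, Finset.sum_mul]
  refine Finset.sum_congr rfl fun t _ => ?_
  rw [hb]
  ring

/-- the `χ`-component `φ(v) = ∑_t F(v,t) conj χ(t)` -/
def phi {j : ℕ} {T : Type*} [AddCommGroup T] [Fintype T] (F : (Fin j → ℤ) × T → ℤ)
    (χ : AddChar T Circle) (v : Fin j → ℤ) : ℂ := ∑ t, (F (v, t) : ℂ) * conj ((χ t : Circle) : ℂ)

/-- PROOF: `|F| ≤ B`, `|χ| = 1`. -/
theorem phi_le {j : ℕ} {T : Type*} [AddCommGroup T] [Fintype T] {F : (Fin j → ℤ) × T → ℤ} {B : ℕ}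
    (hF : ∀ x, |F x| ≤ B) (χ : AddChar T Circle) (v : Fin j → ℤ) :
    ‖phi F χ v‖ ≤ B * Fintype.card T := by
  have h1 : ∀ t ∈ (Finset.univ : Finset T), ‖(F (v, t) : ℂ) * conj ((χ t : Circle) : ℂ)‖ ≤ B := by
    intro t _
    rw [norm_mul, RCLike.norm_conj, Circle.norm_coe, mul_one, Complex.norm_intCast]
    exact_mod_cast hF (v, t)
  refine (norm_sum_le_of_le _ h1).trans (le_of_eq ?_)
  rw [Finset.sum_const, Finset.card_univ, nsmul_eq_mul, mul_comm]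

/-- **The equation of the `χ`-component.**  PROOF: `Γ_χ(w) φ(v+w) = ∑_{t,s} Γ(w,t) χ(t) F(v+w,s)
conj χ(s)`; put `s = t + u`: `= ∑_u conj χ(u) ∑_t Γ(w,t) F(v+w,t+u)`; sum over `w`. -/
theorem phi_eq {j : ℕ} {T : Type*} [AddCommGroup T] [Fintype T]
    {Γ : (Fin j → ℤ) × T → ℂ} (hΓ : Summable fun g => ‖Γ g‖) {B : ℕ} {F : (Fin j → ℤ) × T → ℤ}
    (hF : Ker Γ B F) (χ : AddChar T Circle) (v : Fin j → ℤ) :
    ∑' w, gch Γ χ w * phi F χ (v + w) = 0 := by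
  have hs : ∀ u : T, Summable fun g => Γ g * ((F ((v, u) + g) : ℤ) : ℂ) := by
    intro u
    refine Summable.of_norm_bounded (hΓ.mul_right (B : ℝ)) fun g => ?_
    rw [norm_mul, Complex.norm_intCast]
    refine mul_le_mul_of_nonneg_left ?_ (norm_nonneg _)
    exact_mod_cast hF.1 _
  have h1 : ∀ w, gch Γ χ w * phi F χ (v + w) = ∑ u : T, conj ((χ u : Circle) : ℂ) *
      ∑' t : T, Γ (w, t) * ((F ((v, u) + (w, t)) : ℤ) : ℂ) := by
    intro w
    have h2 : ∀ t : T, Γ (w, t) * ((χ t : Circle) : ℂ) * phi F χ (v + w) =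
        ∑ u : T, conj ((χ u : Circle) : ℂ) * (Γ (w, t) * ((F ((v, u) + (w, t)) : ℤ) : ℂ)) := by
      intro t
      rw [phi, ← Equiv.sum_comp (Equiv.addRight t), Finset.mul_sum]
      refine Finset.sum_congr rfl fun u _ => ?_
      have h3 : ((χ (u + t) : Circle) : ℂ) = ((χ u : Circle) : ℂ) * ((χ t : Circle) : ℂ) := by
        rw [AddChar.map_add_eq_mul, Circle.coe_mul]
      have h4 : ((χ t : Circle) : ℂ) * conj ((χ t : Circle) : ℂ) = 1 := by
        rw [Complex.mul_conj, Circle.normSq_coe, Complex.ofReal_one]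
      have h5 : Equiv.addRight t u = u + t := rfl
      rw [h5, h3, map_mul]
      show Γ (w, t) * ((χ t : Circle) : ℂ) * ((F (v + w, u + t) : ℂ) *
        (conj ((χ u : Circle) : ℂ) * conj ((χ t : Circle) : ℂ))) = conj ((χ u : Circle) : ℂ) *
          (Γ (w, t) * ((F (v + w, u + t) : ℤ) : ℂ))
      linear_combination (Γ (w, t) * (F (v + w, u + t) : ℂ) * conj ((χ u : Circle) : ℂ)) * h4
    rw [gch, Finset.sum_mul, Finset.sum_congr rfl fun t _ => h2 t, Finset.sum_comm]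
    refine Finset.sum_congr rfl fun u _ => ?_
    rw [tsum_fintype, Finset.mul_sum]
  have h2 : ∀ u : T, Summable fun w => conj ((χ u : Circle) : ℂ) *
      ∑' t : T, Γ (w, t) * ((F ((v, u) + (w, t)) : ℤ) : ℂ) := fun u => (hs u).prod.mul_left _
  rw [tsum_congr h1, Summable.tsum_finsetSum fun u _ => h2 u]
  refine Finset.sum_eq_zero fun u _ => ?_
  rw [tsum_mul_left, ← (hs u).tsum_prod, hF.2, mul_zero]

/-- **Small Fourier coefficients near `ξ`.**  PROOF: `av_iter` for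
`f x = φ(x) conj (ex x ξ)`, `C = B * card T` and
`κ' w = (∑' w, gch Γ χ w * ex w ξ)⁻¹ * gch Γ χ w * ex w ξ` (`∑' w, κ' w = 1`,
`∑' w, κ' w * f (u+w) = 0` by `phi_eq`, `‖κ' w‖ ≤ c⁻¹ ‖gch Γ χ w‖`, so
`th κ' l ≤ c⁻¹ * th (gch Γ χ) l`). -/
theorem small_coeff {j : ℕ} {T : Type*} [AddCommGroup T] [Fintype T]
    {Γ : (Fin j → ℤ) × T → ℂ} (hΓ : Summable fun g => ‖Γ g‖) {B : ℕ} {F : (Fin j → ℤ) × T → ℤ}
    (hF : Ker Γ B F) (χ : AddChar T Circle) {ξ : Fin j → ℝ} {c : ℝ} (hc : 0 < c)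
    (hξ : c ≤ ‖∑' w, gch Γ χ w * ex w ξ‖) {l : ℕ} (hl : 0 < l) (K : ℕ) (u : Fin j → ℤ) :
    ‖(av l)^[K] (fun x => phi F χ x * conj (ex x ξ)) u‖ ≤
      (c⁻¹ * th (gch Γ χ) l) ^ K * (B * Fintype.card T) := by
  obtain ⟨z, hz⟩ : ∃ z, z = ∑' w, gch Γ χ w * ex w ξ := ⟨_, rfl⟩
  rw [← hz] at hξ
  have hz0 : z ≠ 0 := by
    intro h
    rw [h, norm_zero] at hξ
    exact absurd hξ (not_le.2 hc)
  have hg := gch_summable hΓ χ
  have hg2 : Summable fun w => gch Γ χ w * ex w ξ := by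
    refine Summable.of_norm_bounded hg fun w => ?_
    rw [norm_mul, norm_ex, mul_one]
  have hn : ∀ w, ‖z⁻¹ * (gch Γ χ w * ex w ξ)‖ = ‖z‖⁻¹ * ‖gch Γ χ w‖ := by
    intro w
    rw [norm_mul, norm_mul, norm_ex, mul_one, norm_inv]
  have h1 : Summable fun w => ‖z⁻¹ * (gch Γ χ w * ex w ξ)‖ := by
    simp only [hn]
    exact hg.mul_left _
  have h2 : ∑' w, z⁻¹ * (gch Γ χ w * ex w ξ) = 1 := by
    rw [tsum_mul_left, ← hz, inv_mul_cancel₀ hz0]
  have h3 : ∀ x, ‖phi F χ x * conj (ex x ξ)‖ ≤ B * Fintype.card T := by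
    intro x
    rw [norm_mul, RCLike.norm_conj, norm_ex, mul_one]
    exact phi_le hF.1 χ x
  have h4 : ∀ u, ∑' w, z⁻¹ * (gch Γ χ w * ex w ξ) *
      (phi F χ (u + w) * conj (ex (u + w) ξ)) = 0 := by
    intro u
    have h5 : ∀ w, z⁻¹ * (gch Γ χ w * ex w ξ) * (phi F χ (u + w) * conj (ex (u + w) ξ)) =
        (z⁻¹ * conj (ex u ξ)) * (gch Γ χ w * phi F χ (u + w)) := by
      intro w
      rw [ex_add, map_mul]
      linear_combination (z⁻¹ * gch Γ χ w * phi F χ (u + w) * conj (ex u ξ)) * ex_mul_conj w ξ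
    rw [tsum_congr h5, tsum_mul_left, phi_eq hΓ hF, mul_zero]
  refine (av_iter hl h1 h2 h3 h4 K u).trans ?_
  have h5 : th (fun w => z⁻¹ * (gch Γ χ w * ex w ξ)) l = ‖z‖⁻¹ * th (gch Γ χ) l := by
    rw [th, th, ← tsum_mul_left]
    refine tsum_congr fun w => ?_
    rw [hn, mul_assoc]
  have h6 : 0 ≤ th (gch Γ χ) l := by
    refine tsum_nonneg fun w => mul_nonneg (norm_nonneg _) (le_min (by norm_num) ?_)
    have : (0 : ℝ) ≤ ∑ i, |(w i : ℝ)| := Finset.sum_nonneg fun i _ => abs_nonneg _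
    positivity
  rw [h5]
  refine mul_le_mul_of_nonneg_right (pow_le_pow_left₀ (by positivity) ?_ K) (by positivity)
  exact mul_le_mul_of_nonneg_right (inv_anti₀ hc hξ) h6

end Pool.Agent.NL53
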