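import Pool.Agent.Lib.MP_53fa4a_an_NL.Dual
import Pool.Agent.Lib.MP_53fa4a_an_NL.SymB
import Pool.Agent.Lib.MP_53fa4a_an_NL.FChar
import Pool.Agent.Lib.MP_53fa4a_an_NL.ParDef

/-!
# The estimate in the Siegel argument
-/

set_option autoImplicit false

open Filter
open scoped BigOperators Topology ComplexConjugate

noncomputable section

namespace Pool.Agent.NL53

private theorem est_card (j : ℕ) (a b : ℤ) : (bx j a b).card = (b - a).toNat ^ j := by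
  unfold bx
  rw [Fintype.card_piFinset]
  simp

private theorem est_n {j q s : ℕ} (hq : 0 < q) : pn j q s + s * s = pn' j q s := by
  unfold pn pn'
  have h : 0 < q * pM j q := Nat.mul_pos hq (by unfold pM; omega)
  obtain ⟨x, hx⟩ : ∃ x, q * pM j q = x + 1 := ⟨q * pM j q - 1, by omega⟩
  rw [hx, Nat.add_sub_cancel]
  ring

/-- points of the box `k_i / (M s²) = a_i` -/
private theorem est_box {q M k a : ℤ} {s : ℕ} {n' : ℕ} (hq : 0 < q) (hM : 0 < M) (hs : 0 < s)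
    (hn' : (n' : ℤ) = q * M * s ^ 2) (h : k / (M * s ^ 2) = a) :
    (a : ℝ) ≤ q * ((k : ℝ) / n') ∧ q * ((k : ℝ) / n') < a + 1 := by
  have hd : (0 : ℤ) < M * s ^ 2 := by positivity
  have h1 : a * (M * s ^ 2) ≤ k := by
    rw [← h]
    exact Int.ediv_mul_le k hd.ne'
  have h2 : k < (a + 1) * (M * s ^ 2) := by
    rw [← h]
    exact Int.lt_ediv_add_one_mul_self k hd
  have hdR : (0 : ℝ) < (M : ℝ) * s ^ 2 := by exact_mod_cast hd
  have hqR : (0 : ℝ) < (q : ℝ) := by exact_mod_cast hq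
  have h3 : (n' : ℝ) = q * ((M : ℝ) * s ^ 2) := by
    have h4 : ((n' : ℤ) : ℝ) = ((q * M * s ^ 2 : ℤ) : ℝ) := by rw [hn']
    push_cast at h4
    rw [h4]
    ring
  have h5 : (q : ℝ) * ((k : ℝ) / n') = k / ((M : ℝ) * s ^ 2) := by
    rw [h3]
    field_simp
  rw [h5, le_div_iff₀ hdR, div_lt_iff₀ hdR]
  constructor
  · exact_mod_cast h1
  · exact_mod_cast h2

private theorem est_th_nonneg {j : ℕ} (κ : (Fin j → ℤ) → ℂ) (l : ℕ) : 0 ≤ th κ l := by
  unfold th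
  refine tsum_nonneg fun w => mul_nonneg (norm_nonneg _) (le_min zero_le_two ?_)
  positivity

/-- **The estimate.**  `g` is a function on the box `[0,n)^j × T` (extended by `0`), complex valued,
`‖g‖ ≤ 2H`; all components `∑_t g(v,t) χ'(t)`, `χ' ≠ χ`, and all Fourier coefficients
`∑_{v,t} g(v,t) χ(t) e(v·k/n')` with `k/n'` outside the box `∏ [a_i/q, (a_i+1)/q)` (i.e. not
`k_i / (M s²) = a_i` for all `i`) are at most `1/δ`; `F` is a solution, bounded by `B`.  Then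
`‖∑ g F‖ < 1`.
PROOF.  `parseval_T` for every `v`: `card T * ∑_{v,t} g F = ∑_{χ'} ∑_v M_{v,χ'} φ_{χ'}(v)`
(`phi`).  For `χ' ≠ χ`: `‖M_{v,χ'}‖ ≤ 1/δ`, `‖φ‖ ≤ B τ` (`phi_le`).  For `χ`: by `dual` (with
`K = l = s`, `n + s² = n'`) `∑_v M_{v,χ} φ(v) = n'^{-j} ∑_k L_k J_k`, `L_k = ∑_{v,t} g χ e(v·k/n')`,
`J_k = ∑_{u ∈ bx (-s²) n} (av s)^[s] (φ conj e_k) u`, `‖J_k‖ ≤ n'^j B τ` (`av_iter_le`, the box has
`(n + s²)^j = n'^j` points), and for `k` with `k_i / (M s²) = a_i` for all `i` (then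
`a_i ≤ q (k_i/n') < a_i + 1`) `‖J_k‖ ≤ n'^j (c⁻¹ th)^s B τ` (`small_coeff`) and
`‖L_k‖ ≤ 2 H N`.  So `τ ‖∑ g F‖ ≤ (τ-1) n^j B τ/δ + n'^j B τ/δ + n'^j 2 H N B τ (c⁻¹ th)^s ≤
τ (2/8 + 2/8)`. -/
theorem est {j : ℕ} {T : Type*} [AddCommGroup T] [Fintype T] {Γ : (Fin j → ℤ) × T → ℂ}
    (hΓ : Summable fun g => ‖Γ g‖) {B : ℕ} (χ : AddChar T Circle) {q : ℕ} (hq : 0 < q)
    {a : Fin j → ℕ} {c : ℝ} (hc : 0 < c)
    (hbox : ∀ ξ : Fin j → ℝ, (∀ i, (a i : ℝ) ≤ q * ξ i ∧ q * ξ i < a i + 1) →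
        c ≤ ‖∑' w, gch Γ χ w * ex w ξ‖)
    {s : ℕ} (hs : 0 < s)
    (hs' : 8 * (pH j q (Fintype.card T) B s : ℝ) * pN j q (Fintype.card T) s * (B + 1) *
      Fintype.card T * (pn' j q s : ℝ) ^ j * (c⁻¹ * th (gch Γ χ) s) ^ s < 1)
    (g : (Fin j → ℤ) → T → ℂ)
    (hg : ∀ v ∈ bx j 0 (pn j q s), ∀ t, ‖g v t‖ ≤ 2 * pH j q (Fintype.card T) B s)
    (hM : ∀ v ∈ bx j 0 (pn j q s), ∀ χ' : AddChar T Circle, χ' ≠ χ →
      ‖∑ t, g v t * ((χ' t : Circle) : ℂ)‖ ≤ 1 / (pδ j q (Fintype.card T) B s : ℝ))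
    (hL : ∀ k ∈ bx j 0 (pn' j q s), ¬ (∀ i, k i / (pM j q * s ^ 2 : ℕ) = a i) →
      ‖∑ v ∈ bx j 0 (pn j q s), ∑ t, g v t * ((χ t : Circle) : ℂ) *
        ex v (fun i => (k i : ℝ) / pn' j q s)‖ ≤ 1 / (pδ j q (Fintype.card T) B s : ℝ))
    {F : (Fin j → ℤ) × T → ℤ} (hF : Ker Γ B F) :
    ‖∑ v ∈ bx j 0 (pn j q s), ∑ t, g v t * (F (v, t) : ℂ)‖ < 1 := by
  classical
  have hcard : 0 < Fintype.card T := Fintype.card_pos_iff.2 ⟨0⟩
  obtain ⟨τ, hτ⟩ : ∃ τ, τ = Fintype.card T := ⟨_, rfl⟩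
  rw [← hτ] at hs' hg hM hL hcard
  -- the parameters
  have hMpos : 0 < pM j q := by unfold pM; omega
  have hn'0 : 0 < pn' j q s := by
    unfold pn'
    positivity
  have hnn : pn j q s + s * s = pn' j q s := est_n hq
  obtain ⟨A, hA⟩ : ∃ A : ℝ, A = (pn' j q s : ℝ) ^ j := ⟨_, rfl⟩
  obtain ⟨D, hD⟩ : ∃ D : ℝ, D = (pδ j q τ B s : ℝ) := ⟨_, rfl⟩
  obtain ⟨H, hH⟩ : ∃ H : ℝ, H = (pH j q τ B s : ℝ) := ⟨_, rfl⟩
  obtain ⟨X, hX⟩ : ∃ X : ℝ, X = (c⁻¹ * th (gch Γ χ) s) ^ s := ⟨_, rfl⟩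
  have hApos : 0 < A := by
    rw [hA]
    positivity
  have hτR : (1 : ℝ) ≤ τ := by exact_mod_cast hcard
  have hDeq : D = 8 * ((B : ℝ) + 1) * τ * A := by
    rw [hD, hA]
    unfold pδ
    push_cast
    ring
  have hDpos : 0 < D := by
    rw [hDeq]
    positivity
  have hH0 : 0 ≤ H := by
    rw [hH]
    positivity
  have hX0 : 0 ≤ X := by
    rw [hX]
    exact pow_nonneg (mul_nonneg (inv_nonneg.2 hc.le) (est_th_nonneg _ _)) _
  have hN : (pN j q τ s : ℝ) = τ * (pn j q s : ℝ) ^ j := by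
    unfold pN
    push_cast
    ring
  rw [← hH, hN, ← hA, ← hX] at hs'
  rw [← hH] at hg
  rw [← hD] at hM hL
  have hnle : (pn j q s : ℝ) ^ j ≤ A := by
    rw [hA]
    exact pow_le_pow_left₀ (by positivity) (by exact_mod_cast (by omega)) j
  have hn0 : (0 : ℝ) ≤ (pn j q s : ℝ) ^ j := by positivity
  -- the components of the solution
  have hphi : ∀ (χ' : AddChar T Circle) (v : Fin j → ℤ), ‖phi F χ' v‖ ≤ B * τ := by
    intro χ' v
    have h := phi_le hF.1 χ' v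
    rwa [← hτ] at h
  have hχn : ∀ (χ' : AddChar T Circle) (t : T), ‖((χ' t : Circle) : ℂ)‖ = 1 := fun χ' t =>
    Circle.norm_coe _
  have hcardn : ((bx j 0 (pn j q s)).card : ℝ) = (pn j q s : ℝ) ^ j := by
    rw [est_card, sub_zero, Int.toNat_natCast]
    push_cast
    rfl
  have hcardn' : ((bx j 0 (pn' j q s)).card : ℝ) = A := by
    rw [est_card, sub_zero, Int.toNat_natCast, hA]
    push_cast
    rfl
  have hcards : ((bx j (-((s * s : ℕ) : ℤ)) (pn j q s)).card : ℝ) = A := by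
    rw [est_card, hA, ← hnn]
    have h1 : ((pn j q s : ℤ) - -((s * s : ℕ) : ℤ)).toNat = pn j q s + s * s := by omega
    rw [h1]
    push_cast
    rfl
  -- Parseval
  have hpars : ∀ v, (τ : ℂ) * ∑ t, g v t * (F (v, t) : ℂ) =
      (∑ t, g v t * ((χ t : Circle) : ℂ)) * phi F χ v +
        ∑ χ' ∈ Finset.univ.erase χ, (∑ t, g v t * ((χ' t : Circle) : ℂ)) * phi F χ' v := by
    intro v
    rw [Finset.add_sum_erase Finset.univ
      (fun χ' : AddChar T Circle => (∑ t, g v t * ((χ' t : Circle) : ℂ)) * phi F χ' v)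
      (Finset.mem_univ χ), hτ]
    exact parseval_T (g v) fun t => (F (v, t) : ℂ)
  -- the components `χ' ≠ χ`
  have hS2 : ‖∑ v ∈ bx j 0 (pn j q s), ∑ χ' ∈ Finset.univ.erase χ,
      (∑ t, g v t * ((χ' t : Circle) : ℂ)) * phi F χ' v‖ ≤ τ / 8 := by
    have h1 : ‖∑ v ∈ bx j 0 (pn j q s), ∑ χ' ∈ Finset.univ.erase χ,
        (∑ t, g v t * ((χ' t : Circle) : ℂ)) * phi F χ' v‖ ≤
        ∑ _v ∈ bx j 0 (pn j q s), (τ : ℝ) * (1 / D * (B * τ)) := by
      refine norm_sum_le_of_le _ fun v hv => ?_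
      have h2 : ‖∑ χ' ∈ Finset.univ.erase χ,
          (∑ t, g v t * ((χ' t : Circle) : ℂ)) * phi F χ' v‖ ≤
          ∑ _χ' ∈ Finset.univ.erase χ, 1 / D * ((B : ℝ) * τ) := by
        refine norm_sum_le_of_le _ fun χ' hχ' => ?_
        rw [norm_mul]
        exact mul_le_mul (hM v hv χ' (Finset.ne_of_mem_erase hχ')) (hphi χ' v)
          (norm_nonneg _) (by positivity)
      refine h2.trans ?_
      rw [Finset.sum_const, nsmul_eq_mul]
      refine mul_le_mul_of_nonneg_right ?_ (by positivity)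
      have h3 : (Finset.univ.erase χ).card ≤ τ := by
        refine (Finset.card_le_univ _).trans ?_
        rw [card_char, hτ]
      exact_mod_cast h3
    refine h1.trans ?_
    rw [Finset.sum_const, nsmul_eq_mul, hcardn]
    have h4 : (τ : ℝ) * (1 / D * (B * τ)) * A = τ * (B / (8 * (B + 1))) := by
      rw [hDeq]
      field_simp
    have h5 : (B : ℝ) / (8 * (B + 1)) ≤ 1 / 8 := by
      rw [div_le_div_iff₀ (by positivity) (by norm_num)]
      linarith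
    calc (pn j q s : ℝ) ^ j * ((τ : ℝ) * (1 / D * (B * τ)))
        ≤ A * ((τ : ℝ) * (1 / D * (B * τ))) :=
          mul_le_mul_of_nonneg_right hnle (by positivity)
      _ = τ * (B / (8 * (B + 1))) := by rw [← h4]; ring
      _ ≤ τ * (1 / 8) := mul_le_mul_of_nonneg_left h5 (by positivity)
      _ = τ / 8 := by ring
  -- the component `χ`
  let ξ : (Fin j → ℤ) → Fin j → ℝ := fun k i => (k i : ℝ) / pn' j q s
  let J : (Fin j → ℤ) → ℂ := fun k => ∑ u ∈ bx j (-((s * s : ℕ) : ℤ)) (pn j q s),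
    (av s)^[s] (fun x => phi F χ x * conj (ex x (ξ k))) u
  let L : (Fin j → ℤ) → ℂ := fun k => ∑ v ∈ bx j 0 (pn j q s), ∑ t,
    g v t * ((χ t : Circle) : ℂ) * ex v (ξ k)
  have hS1 : ∑ v ∈ bx j 0 (pn j q s), (∑ t, g v t * ((χ t : Circle) : ℂ)) * phi F χ v =
      ((pn' j q s : ℂ) ^ j)⁻¹ * ∑ k ∈ bx j 0 (pn' j q s), L k * J k := by
    have h1 : ∀ v ∈ bx j 0 (pn j q s), (∑ t, g v t * ((χ t : Circle) : ℂ)) * phi F χ v =
        ((pn' j q s : ℂ) ^ j)⁻¹ * ∑ k ∈ bx j 0 (pn' j q s),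
          (∑ t, g v t * ((χ t : Circle) : ℂ) * ex v (ξ k)) * J k := by
      intro v hv
      have h2 := dual (K := s) hs hnn.le (phi F χ) hv
      rw [h2, mul_left_comm, Finset.mul_sum]
      congr 1
      refine Finset.sum_congr rfl fun k _ => ?_
      rw [← Finset.sum_mul, mul_assoc]
    rw [Finset.sum_congr rfl h1, ← Finset.mul_sum, Finset.sum_comm]
    congr 1
    exact Finset.sum_congr rfl fun k _ => (Finset.sum_mul _ _ _).symm
  have hJ : ∀ k, ‖J k‖ ≤ A * (B * τ) := by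
    intro k
    have h1 : ‖J k‖ ≤ ∑ _u ∈ bx j (-((s * s : ℕ) : ℤ)) (pn j q s), (B : ℝ) * τ := by
      refine norm_sum_le_of_le _ fun u _ => ?_
      refine av_iter_le hs (fun x => ?_) s u
      rw [norm_mul, RCLike.norm_conj, norm_ex, mul_one]
      exact hphi χ x
    rwa [Finset.sum_const, nsmul_eq_mul, hcards] at h1
  have hJ' : ∀ k : Fin j → ℤ, (∀ i, k i / (pM j q * s ^ 2 : ℕ) = a i) →
      ‖J k‖ ≤ A * (X * (B * τ)) := by
    intro k hk
    have hξ : c ≤ ‖∑' w, gch Γ χ w * ex w (ξ k)‖ := by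
      refine hbox (ξ k) fun i => ?_
      have h2 := hk i
      have h3 := est_box (q := (q : ℤ)) (M := (pM j q : ℤ)) (k := k i) (a := (a i : ℤ))
        (s := s) (n' := pn' j q s) (by exact_mod_cast hq) (by exact_mod_cast hMpos) hs
        (by unfold pn'; push_cast; ring) (by rw [← h2]; push_cast; rfl)
      rw [Int.cast_natCast, Int.cast_natCast] at h3
      exact h3
    have h1 : ‖J k‖ ≤ ∑ _u ∈ bx j (-((s * s : ℕ) : ℤ)) (pn j q s), X * ((B : ℝ) * τ) := by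
      refine norm_sum_le_of_le _ fun u _ => ?_
      have h4 := small_coeff hΓ hF χ hc hξ hs s u
      rwa [← hτ, ← hX] at h4
    rwa [Finset.sum_const, nsmul_eq_mul, hcards] at h1
  have hLa : ∀ k, ‖L k‖ ≤ (pn j q s : ℝ) ^ j * (τ * (2 * H)) := by
    intro k
    have h1 : ‖L k‖ ≤ ∑ _v ∈ bx j 0 (pn j q s), (τ : ℝ) * (2 * H) := by
      refine norm_sum_le_of_le _ fun v hv => ?_
      have h2 : ‖∑ t, g v t * ((χ t : Circle) : ℂ) * ex v (ξ k)‖ ≤ ∑ _t : T, 2 * H := by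
        refine norm_sum_le_of_le _ fun t _ => ?_
        rw [norm_mul, norm_mul, hχn, norm_ex, mul_one, mul_one]
        exact hg v hv t
      rwa [Finset.sum_const, Finset.card_univ, nsmul_eq_mul, ← hτ] at h2
    rwa [Finset.sum_const, nsmul_eq_mul, hcardn] at h1
  have hLJ : ∀ k ∈ bx j 0 (pn' j q s), ‖L k * J k‖ ≤
      A * (1 / D * (B * τ)) + A * ((pn j q s : ℝ) ^ j * (τ * (2 * H)) * (X * (B * τ))) := by
    intro k hk
    rw [norm_mul]
    have hp1 : 0 ≤ A * (1 / D * (B * τ)) := by positivity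
    have hp2 : 0 ≤ A * ((pn j q s : ℝ) ^ j * (τ * (2 * H)) * (X * (B * τ))) := by positivity
    by_cases hka : ∀ i, k i / (pM j q * s ^ 2 : ℕ) = a i
    · have h1 : ‖L k‖ * ‖J k‖ ≤
          (pn j q s : ℝ) ^ j * (τ * (2 * H)) * (A * (X * (B * τ))) :=
        mul_le_mul (hLa k) (hJ' k hka) (norm_nonneg _) (by positivity)
      linarith
    · have h1 : ‖L k‖ * ‖J k‖ ≤ 1 / D * (A * (B * τ)) :=
        mul_le_mul (hL k hk hka) (hJ k) (norm_nonneg _) (by positivity)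
      linarith
  have hS1' : ‖∑ v ∈ bx j 0 (pn j q s), (∑ t, g v t * ((χ t : Circle) : ℂ)) * phi F χ v‖ ≤
      1 / 8 + 1 / 4 := by
    rw [hS1, norm_mul, norm_inv, norm_pow, Complex.norm_natCast, ← hA]
    have h1 : ‖∑ k ∈ bx j 0 (pn' j q s), L k * J k‖ ≤ A *
        (A * (1 / D * (B * τ)) + A * ((pn j q s : ℝ) ^ j * (τ * (2 * H)) * (X * (B * τ)))) := by
      have h2 := norm_sum_le_of_le _ hLJ
      rwa [Finset.sum_const, nsmul_eq_mul, hcardn'] at h2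
    have h3 : A⁻¹ * ‖∑ k ∈ bx j 0 (pn' j q s), L k * J k‖ ≤
        A * (1 / D * (B * τ)) + A * ((pn j q s : ℝ) ^ j * (τ * (2 * H)) * (X * (B * τ))) := by
      rw [inv_mul_le_iff₀ hApos]
      exact h1
    refine h3.trans (add_le_add ?_ ?_)
    · have h4 : A * (1 / D * (B * τ)) = B / (8 * (B + 1)) := by
        rw [hDeq]
        field_simp
      rw [h4, div_le_div_iff₀ (by positivity) (by norm_num)]
      linarith
    · have h5 : 0 ≤ H * (τ * (pn j q s : ℝ) ^ j) * τ * A * X := by positivity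
      have h6 : A * ((pn j q s : ℝ) ^ j * (τ * (2 * H)) * (X * (B * τ))) =
          2 * B * (H * (τ * (pn j q s : ℝ) ^ j) * τ * A * X) := by ring
      have h7 : 8 * H * (τ * (pn j q s : ℝ) ^ j) * (B + 1) * τ * A * X =
          8 * (B + 1) * (H * (τ * (pn j q s : ℝ) ^ j) * τ * A * X) := by ring
      rw [h7] at hs'
      rw [h6]
      nlinarith
  -- conclusion
  have hfin : (τ : ℝ) * ‖∑ v ∈ bx j 0 (pn j q s), ∑ t, g v t * (F (v, t) : ℂ)‖ ≤
      1 / 8 + 1 / 4 + τ / 8 := by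
    have h1 : (τ : ℂ) * ∑ v ∈ bx j 0 (pn j q s), ∑ t, g v t * (F (v, t) : ℂ) =
        ∑ v ∈ bx j 0 (pn j q s), (∑ t, g v t * ((χ t : Circle) : ℂ)) * phi F χ v +
          ∑ v ∈ bx j 0 (pn j q s), ∑ χ' ∈ Finset.univ.erase χ,
            (∑ t, g v t * ((χ' t : Circle) : ℂ)) * phi F χ' v := by
      rw [Finset.mul_sum, ← Finset.sum_add_distrib]
      exact Finset.sum_congr rfl fun v _ => hpars v
    have h2 : (τ : ℝ) * ‖∑ v ∈ bx j 0 (pn j q s), ∑ t, g v t * (F (v, t) : ℂ)‖ =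
        ‖(τ : ℂ) * ∑ v ∈ bx j 0 (pn j q s), ∑ t, g v t * (F (v, t) : ℂ)‖ := by
      rw [norm_mul, Complex.norm_natCast]
    rw [h2, h1]
    exact (norm_add_le _ _).trans (add_le_add hS1' hS2)
  by_contra hcon
  push Not at hcon
  have h8 : (τ : ℝ) ≤ τ * ‖∑ v ∈ bx j 0 (pn j q s), ∑ t, g v t * (F (v, t) : ℂ)‖ :=
    le_mul_of_one_le_right (by positivity) hcon
  linarith

end Pool.Agent.NL53
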