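import Pool.Agent.Lib.MP_53fa4a_an_NL.SpecDef

/-!
# Integer spectra: injectivity modulo `ℤ^d`
-/

set_option autoImplicit false

open MeasureTheory Set Filter
open scoped ENNReal Topology ComplexConjugate BigOperators

noncomputable section

namespace Pool.Agent.NL53

open Pool.Agent.SpecND (E ee)

variable {d : ℕ}

private lemma ij_ee (m n : Fin d → ℤ) : ee (zv m) (zv n) = 1 := by
  rw [Pool.Agent.SpecND.ee_eq]
  have h1 : (inner ℝ (zv m) (zv n) : ℝ) = ((∑ i, m i * n i : ℤ) : ℝ) := by
    simp only [zv, rv, PiLp.inner_apply]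
    push_cast
    refine Finset.sum_congr rfl fun i _ => ?_
    simp [mul_comm]
  rw [h1, Complex.exp_eq_one_iff]
  refine ⟨∑ i, m i * n i, ?_⟩
  push_cast
  ring

private lemma ij_floor (n : ℤ) (hn : n ≠ 0) (x : ℝ) :
    (⌊(x + n) / |(n : ℝ)|⌋ % 2 = (⌊x / |(n : ℝ)|⌋ + 1) % 2) := by
  have hn' : (n : ℝ) ≠ 0 := by exact_mod_cast hn
  rcases lt_or_gt_of_ne hn' with h | h
  · rw [abs_of_neg h]
    have e : (x + n) / -(n : ℝ) = x / -(n : ℝ) - 1 := by
      field_simp
      ring
    rw [e, Int.floor_sub_one]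
    omega
  · rw [abs_of_pos h]
    have e : (x + n) / (n : ℝ) = x / (n : ℝ) + 1 := by
      field_simp
    rw [e, Int.floor_add_one]

/-- the part of `Ω ∩ (Ω - n)` with the given parity -/
private def ijE (Ω : Set (E d)) (n : Fin d → ℤ) (i : Fin d) (r : ℤ) : Set (E d) :=
  (Ω ∩ {x | x + zv n ∈ Ω}) ∩ {x | ⌊x i / |((n i : ℤ) : ℝ)|⌋ % 2 = r}

private lemma ijE_disj {Ω : Set (E d)} {n : Fin d → ℤ} {i : Fin d} (hi : n i ≠ 0) {r : ℤ} {x : E d}
    (hx : x ∈ ijE Ω n i r) (hx' : x + zv n ∈ ijE Ω n i r) : False := by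
  have h1 : ⌊x i / |((n i : ℤ) : ℝ)|⌋ % 2 = r := hx.2
  have h2 : ⌊(x + zv n) i / |((n i : ℤ) : ℝ)|⌋ % 2 = r := hx'.2
  have h3 : (x + zv n) i = x i + n i := rfl
  rw [h3, ij_floor _ hi] at h2
  omega

private lemma ijE_meas {Ω : Set (E d)} (hm : MeasurableSet Ω) (n : Fin d → ℤ) (i : Fin d)
    (r : ℤ) : MeasurableSet (ijE Ω n i r) := by
  refine (hm.inter (hm.preimage (measurable_add_const (zv n)))).inter ?_
  have h1 : Measurable fun x : E d => x i := by fun_prop
  have h2 : Measurable fun x : E d => ⌊x i / |((n i : ℤ) : ℝ)|⌋ :=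
    Int.measurable_floor.comp (h1.div_const _)
  exact h2 (MeasurableSet.of_discrete (s := {z : ℤ | z % 2 = r}))

private lemma ijE_zero {Ω : Set (E d)} (hm : MeasurableSet Ω) (hfin : volume Ω ≠ ∞) {Λ : Set (E d)}
    (hs : IsSpectrum Λ Ω) (hΛ : ∀ l ∈ Λ, ∃ n, l = zv n) {n : Fin d → ℤ} {i : Fin d}
    (hi : n i ≠ 0) (r : ℤ) : volume (ijE Ω n i r) = 0 := by
  set A := ijE Ω n i r with hA
  have hAm : MeasurableSet A := ijE_meas hm n i r
  have hAΩ : A ⊆ Ω := fun x hx => hx.1.1
  set B : Set (E d) := (fun x => x - zv n) ⁻¹' A with hB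
  have hBm : MeasurableSet B := hAm.preimage (measurable_sub_const (zv n))
  have hBΩ : B ⊆ Ω := by
    intro x hx
    have h1 : x - zv n + zv n ∈ Ω := hx.1.2
    rwa [sub_add_cancel] at h1
  have hfinr : IsFiniteMeasure (volume.restrict Ω) := ⟨by
    rw [Measure.restrict_apply_univ]
    exact lt_of_le_of_ne le_top hfin⟩
  have hmA : MemLp (A.indicator fun _ => (1 : ℂ)) 2 (volume.restrict Ω) :=
    memLp_indicator_const _ hAm _ (Or.inr (measure_ne_top _ _))
  have hmB : MemLp (B.indicator fun _ => (1 : ℂ)) 2 (volume.restrict Ω) :=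
    memLp_indicator_const _ hBm _ (Or.inr (measure_ne_top _ _))
  have hz := hs.2 (fun x => A.indicator (fun _ => (1 : ℂ)) x - B.indicator (fun _ => (1 : ℂ)) x)
    (hmA.sub hmB) (by
      intro l hl
      obtain ⟨m, rfl⟩ := hΛ l hl
      have hc : Continuous fun x : E d => conj (ee (zv m) x) :=
        Complex.continuous_conj.comp (Pool.Agent.SpecND.continuous_ee _)
      have hint : ∀ C : Set (E d), MeasurableSet C →
          Integrable (C.indicator fun x => conj (ee (zv m) x)) (volume.restrict Ω) := by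
        intro C hC
        refine Integrable.indicator ?_ hC
        refine Integrable.mono' (g := fun _ => (1 : ℝ)) (integrable_const _)
          hc.aestronglyMeasurable (Eventually.of_forall fun x => ?_)
        rw [RCLike.norm_conj, Pool.Agent.SpecND.norm_ee]
      have e1 : ∀ x : E d, (A.indicator (fun _ => (1 : ℂ)) x - B.indicator (fun _ => (1 : ℂ)) x) *
          conj (ee (zv m) x) = A.indicator (fun x => conj (ee (zv m) x)) x -
            B.indicator (fun x => conj (ee (zv m) x)) x := by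
        intro x
        by_cases hxA : x ∈ A <;> by_cases hxB : x ∈ B <;> simp [hxA, hxB]
      simp_rw [e1]
      rw [integral_sub (hint A hAm) (hint B hBm), setIntegral_indicator hAm,
        setIntegral_indicator hBm, inter_eq_right.2 hAΩ, inter_eq_right.2 hBΩ,
        ← integral_indicator hAm, ← integral_indicator hBm]
      have e2 : ∀ x : E d, B.indicator (fun x => conj (ee (zv m) x)) x =
          A.indicator (fun x => conj (ee (zv m) x)) (x - zv n) := by
        intro x
        have e3 : ee (zv m) x = ee (zv m) (x - zv n) := by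
          conv_lhs => rw [← sub_add_cancel x (zv n), Pool.Agent.SpecND.ee_add, ij_ee, one_mul]
        by_cases hx : x ∈ B
        · have hx' : x - zv n ∈ A := hx
          rw [indicator_of_mem hx, indicator_of_mem hx', e3]
        · have hx' : x - zv n ∉ A := hx
          rw [indicator_of_notMem hx, indicator_of_notMem hx']
      simp_rw [e2]
      rw [integral_sub_right_eq_self (μ := volume)
        (fun x => A.indicator (fun x => conj (ee (zv m) x)) x) (zv n), sub_self])
  have h1 : ∀ᵐ x ∂(volume.restrict A),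
      A.indicator (fun _ => (1 : ℂ)) x - B.indicator (fun _ => (1 : ℂ)) x = 0 :=
    ae_restrict_of_ae_restrict_of_subset hAΩ hz
  have h2 : ∀ᵐ x ∂(volume.restrict A), False := by
    filter_upwards [h1, ae_restrict_mem hAm] with x hx hxA
    have hxB : x ∉ B := by
      intro hxB
      have h3 : x - zv n ∈ A := hxB
      exact ijE_disj hi h3 (by rwa [sub_add_cancel])
    rw [indicator_of_mem hxA, indicator_of_notMem hxB] at hx
    norm_num at hx
  have h3 : volume.restrict A Set.univ = 0 := by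
    have h4 := h2
    rw [ae_iff] at h4
    simpa using h4
  rwa [Measure.restrict_apply_univ] at h3

/-- **Injectivity.**  PROOF.  Let `n i ≠ 0` and `E₀ = {x ∈ Ω : x + zv n ∈ Ω, ⌊x i / |n i|⌋ even}`;
then `E₀` and `E₀ + zv n` are disjoint subsets of `Ω` (the floor changes by `± 1`), and the function
`h = 1_{E₀} - 1_{E₀ + zv n}` is in `L²(Ω)` and orthogonal to all `ee l`, `l ∈ Λ`, because
`ee l (x + zv n) = ee l x` (`l` an integer vector).  So `h = 0` a.e. on `Ω` and `|E₀| = 0`; the same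
for odd floors. -/
theorem inj_mod {Ω : Set (E d)} (hm : MeasurableSet Ω) (hfin : volume Ω ≠ ∞) {Λ : Set (E d)}
    (hs : IsSpectrum Λ Ω) (hΛ : ∀ l ∈ Λ, ∃ n, l = zv n) (n : Fin d → ℤ) (hn : n ≠ 0) :
    volume (Ω ∩ {x | x + zv n ∈ Ω}) = 0 := by
  obtain ⟨i, hi⟩ : ∃ i, n i ≠ 0 := by
    by_contra h
    push Not at h
    exact hn (funext h)
  have h0 := ijE_zero hm hfin hs hΛ hi 0
  have h1 := ijE_zero hm hfin hs hΛ hi 1
  refine measure_mono_null ?_ (measure_union_null h0 h1)
  intro x hx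
  rcases Int.emod_two_eq_zero_or_one ⌊x i / |((n i : ℤ) : ℝ)|⌋ with h | h
  · exact Or.inl ⟨hx, h⟩
  · exact Or.inr ⟨hx, h⟩

end Pool.Agent.NL53
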