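import Pool.Agent.Lib.MP_53fa4a_an_NL.SpecDef

/-!
# General lattices: transformation of the spectrum
-/

set_option autoImplicit false

open MeasureTheory Set Filter
open scoped ENNReal Topology ComplexConjugate BigOperators

noncomputable section

namespace Pool.Agent.NL53

open Pool.Agent.SpecND (E ee)

variable {d : ℕ}

private lemma eeAdd (l m x : E d) : ee (l + m) x = ee l x * ee m x := by
  unfold ee
  rw [← Complex.exp_add, inner_add_left]
  congr 1
  push_cast
  ring

/-- a translate of a spectrum is a spectrum (multiply by `ee l₀`) -/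
theorem spec_translate {Λ Ω : Set (E d)} (hs : IsSpectrum Λ Ω) (l₀ : E d) :
    IsSpectrum {l | l + l₀ ∈ Λ} Ω := by
  obtain ⟨h1, h2⟩ := hs
  refine ⟨fun l hl l' hl' hne => ?_, fun f hf h => ?_⟩
  · have h3 := h1 (l + l₀) hl (l' + l₀) hl' fun h => hne (add_right_cancel h)
    rw [← h3]
    refine integral_congr_ae (Eventually.of_forall fun x => ?_)
    change ee l x * conj (ee l' x) = ee (l + l₀) x * conj (ee (l' + l₀) x)
    rw [eeAdd, eeAdd, map_mul]
    linear_combination (-(ee l x * conj (ee l' x))) * Pool.Agent.SpecND.ee_mul_conj l₀ x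
  · have hg : MemLp (fun x => f x * ee l₀ x) 2 (volume.restrict Ω) := by
      refine hf.of_le (hf.aestronglyMeasurable.mul
        (Pool.Agent.SpecND.continuous_ee l₀).aestronglyMeasurable) ?_
      refine Eventually.of_forall fun x => ?_
      change ‖f x * ee l₀ x‖ ≤ ‖f x‖
      rw [norm_mul, Pool.Agent.SpecND.norm_ee, mul_one]
    have h4 := h2 _ hg fun m hm => ?_
    · filter_upwards [h4] with x hx
      have h5 : f x * ee l₀ x = 0 := hx
      have h6 : ee l₀ x ≠ 0 := by
        rw [← norm_ne_zero_iff, Pool.Agent.SpecND.norm_ee]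
        exact one_ne_zero
      exact (mul_eq_zero.mp h5).resolve_right h6
    · have h5 := h (m - l₀) (by
        change m - l₀ + l₀ ∈ Λ
        rwa [sub_add_cancel])
      rw [← h5]
      refine integral_congr_ae (Eventually.of_forall fun x => ?_)
      change f x * ee l₀ x * conj (ee m x) = f x * conj (ee (m - l₀) x)
      have h6 : ee m x = ee (m - l₀) x * ee l₀ x := by rw [← eeAdd, sub_add_cancel]
      rw [h6, map_mul]
      linear_combination (f x * conj (ee (m - l₀) x)) * Pool.Agent.SpecND.ee_mul_conj l₀ x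

/-- the linear map `S x = (⟨b_i, x⟩)_i`; it is invertible because `b` is a basis -/
theorem exists_lin (b : Module.Basis (Fin d) ℝ (E d)) :
    ∃ S : E d ≃L[ℝ] E d, ∀ (n : Fin d → ℤ) (x : E d),
      ee (∑ i, (n i : ℝ) • b i) x = ee (zv n) (S x) := by
  let T : E d →ₗ[ℝ] E d :=
    { toFun := fun x => WithLp.toLp 2 fun i => inner ℝ (b i) x
      map_add' := fun x y => by
        ext i
        simp [inner_add_right]
      map_smul' := fun c x => by
        ext i
        simp [inner_smul_right] }
  have hT : ∀ x i, T x i = inner ℝ (b i) x := fun x i => rfl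
  have hinj : Function.Injective T := by
    intro x y hxy
    refine InnerProductSpace.ext_inner_left_basis b ?_
    intro i
    rw [← hT x i, ← hT y i, hxy]
  let S : E d ≃L[ℝ] E d := (LinearEquiv.ofInjectiveEndo T hinj).toContinuousLinearEquiv
  have hS : ∀ x, S x = T x := fun x => rfl
  refine ⟨S, fun n x => ?_⟩
  unfold ee
  congr 3
  rw [hS, sum_inner, PiLp.inner_apply]
  refine Finset.sum_congr rfl fun i _ => ?_
  rw [hT, real_inner_smul_left]
  simp [zv, rv, mul_comm]

private lemma map_restrict {Ω : Set (E d)} (S : E d ≃L[ℝ] E d) :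
    ∃ c : ℝ≥0∞, c ≠ 0 ∧ c ≠ ∞ ∧
      Measure.map S (volume.restrict Ω) = c • volume.restrict (S '' Ω) := by
  have hdet : LinearMap.det (S : E d →ₗ[ℝ] E d) ≠ 0 := by
    exact (LinearEquiv.isUnit_det' S.toLinearEquiv).ne_zero
  have h1 := Measure.map_linearMap_addHaar_eq_smul_addHaar (volume : Measure (E d)) hdet
  refine ⟨ENNReal.ofReal |(LinearMap.det (S : E d →ₗ[ℝ] E d))⁻¹|, ?_, ENNReal.ofReal_ne_top, ?_⟩
  · rw [Ne, ENNReal.ofReal_eq_zero, not_le]
    exact abs_pos.mpr (inv_ne_zero hdet)
  · rw [← Measure.restrict_smul]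
    have h2 : (volume : Measure (E d)).map S =
        ENNReal.ofReal |(LinearMap.det (S : E d →ₗ[ℝ] E d))⁻¹| • volume := h1
    have hemb : MeasurableEmbedding (S : E d → E d) := S.toHomeomorph.measurableEmbedding
    rw [← h2, hemb.restrict_map, S.injective.preimage_image]

/-- PROOF: change of variables `y = S x` (`integral_image_eq_integral_abs_det_fderiv_smul`, or
`MeasureTheory.Measure.map_linearMap_addHaar_eq_smul_addHaar`); constants do not matter. -/
theorem spec_lin {Λ Ω : Set (E d)} (hm : MeasurableSet Ω) (hs : IsSpectrum Λ Ω)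
    {b : Module.Basis (Fin d) ℝ (E d)} (hΛ : Λ ⊆ Submodule.span ℤ (Set.range b))
    {S : E d ≃L[ℝ] E d} (hS : ∀ (n : Fin d → ℤ) (x : E d),
      ee (∑ i, (n i : ℝ) • b i) x = ee (zv n) (S x)) :
    IsSpectrum {l | ∃ n : Fin d → ℤ, l = zv n ∧ ∑ i, (n i : ℝ) • b i ∈ Λ} (S '' Ω) := by
  obtain ⟨h1, h2⟩ := hs
  obtain ⟨c, hc0, hct, hc⟩ := map_restrict (Ω := Ω) S
  have hemb : MeasurableEmbedding (S : E d → E d) := S.toHomeomorph.measurableEmbedding
  have hint : ∀ g : E d → ℂ, ∫ x in Ω, g (S x) = c.toReal • ∫ y in S '' Ω, g y := by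
    intro g
    rw [← hemb.integral_map, hc, integral_smul_measure]
  have hc' : c.toReal ≠ 0 := ENNReal.toReal_ne_zero.mpr ⟨hc0, hct⟩
  refine ⟨?_, fun f hf h => ?_⟩
  · rintro l ⟨n, rfl, hn⟩ l' ⟨n', rfl, hn'⟩ hne
    have h3 : ∑ i, (n i : ℝ) • b i ≠ ∑ i, (n' i : ℝ) • b i := by
      intro heq
      apply hne
      rw [← b.equivFun_symm_apply (fun i => (n i : ℝ)),
        ← b.equivFun_symm_apply (fun i => (n' i : ℝ))] at heq
      have h4 := b.equivFun.symm.injective heq
      unfold zv
      rw [h4]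
    have h4 := h1 _ hn _ hn' h3
    have h5 := hint fun y => ee (zv n) y * conj (ee (zv n') y)
    have h6 : ∫ x in Ω, ee (zv n) (S x) * conj (ee (zv n') (S x)) = 0 := by
      rw [← h4]
      refine integral_congr_ae (Eventually.of_forall fun x => ?_)
      change ee (zv n) (S x) * conj (ee (zv n') (S x)) = _
      rw [← hS, ← hS]
    rw [h6] at h5
    exact (smul_eq_zero.mp h5.symm).resolve_left hc'
  · have hg : MemLp (f ∘ S) 2 (volume.restrict Ω) := by
      rw [← hemb.memLp_map_measure_iff, hc]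
      exact hf.smul_measure hct
    have h3 := h2 _ hg fun l hl => ?_
    · have h4 : ∀ᵐ y ∂(Measure.map S (volume.restrict Ω)), f y = 0 := by
        rw [hemb.ae_map_iff]
        exact h3
      rw [hc, ae_iff, Measure.smul_apply, smul_eq_mul, mul_eq_zero] at h4
      exact h4.resolve_left hc0
    · obtain ⟨k, hk⟩ := (Submodule.mem_span_range_iff_exists_fun ℤ).mp (hΛ hl)
      have hk' : ∑ i, (k i : ℝ) • b i = l := by
        rw [← hk]
        exact Finset.sum_congr rfl fun i _ => Int.cast_smul_eq_zsmul ℝ _ _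
      have h5 := h (zv k) ⟨k, rfl, by rwa [hk']⟩
      have h6 := hint fun y => f y * conj (ee (zv k) y)
      rw [h5, smul_zero] at h6
      rw [← h6]
      refine integral_congr_ae (Eventually.of_forall fun x => ?_)
      change f (S x) * conj (ee l x) = f (S x) * conj (ee (zv k) (S x))
      rw [← hS, hk']

end Pool.Agent.NL53
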