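import Pool.Agent.Lib.MP_53fa4a_an_NL.SpecDef

/-!
# General lattices: transformation of the tiling
-/

set_option autoImplicit false

open MeasureTheory Set Filter
open scoped ENNReal Topology ComplexConjugate BigOperators

noncomputable section

namespace Pool.Agent.NL53

open Pool.Agent.SpecND (E ee)

variable {d : ℕ}

/-- **Back to `Ω`.**  A multi-tiling of `S '' Ω` by `m^{-1} ℤ^d` is a multi-tiling of `Ω` by the
lattice spanned by `v_i = S⁻¹ (m^{-1} e_i)`.  PROOF: `{l ∈ span ℤ (range v) | x + l ∈ Ω}` is the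
image of `fib (S '' Ω) m (S x)` under the injective map `k ↦ ∑ k_i v_i`; null sets are preserved by
`S`. -/
theorem tile_back {Ω : Set (E d)} (S : E d ≃L[ℝ] E d) {m : ℕ} (hm : 0 < m) {N : ℕ}
    (h : ∀ᵐ x, (fib (S '' Ω) m x).encard = N) :
    ∃ v : Module.Basis (Fin d) ℝ (E d),
      ∀ᵐ x, {l | l ∈ Submodule.span ℤ (Set.range v) ∧ x + l ∈ Ω}.encard = N := by
  have hm' : (m : ℝ)⁻¹ ≠ 0 := inv_ne_zero (by exact_mod_cast hm.ne')
  let b0 : Module.Basis (Fin d) ℝ (E d) := (EuclideanSpace.basisFun (Fin d) ℝ).toBasis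
  let T : E d ≃ₗ[ℝ] E d := (LinearEquiv.smulOfNeZero ℝ (E d) (m : ℝ)⁻¹ hm').trans
    S.symm.toLinearEquiv
  refine ⟨b0.map T, ?_⟩
  have hv : ∀ k : Fin d → ℤ, ∑ i, k i • (b0.map T) i = S.symm ((m : ℝ)⁻¹ • zv k) := by
    intro k
    have h1 : ∀ i, k i • (b0.map T) i = S.symm ((m : ℝ)⁻¹ • ((k i : ℝ) • b0 i)) := by
      intro i
      have h2 : (b0.map T) i = S.symm ((m : ℝ)⁻¹ • b0 i) := by
        rw [Module.Basis.map_apply]
        rfl
      rw [h2, smul_comm ((m : ℝ)⁻¹) ((k i : ℝ)), map_smul S.symm (k i : ℝ),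
        Int.cast_smul_eq_zsmul]
    rw [Finset.sum_congr rfl fun i _ => h1 i, ← map_sum, ← Finset.smul_sum]
    congr 2
    ext j
    have h3 : ∀ i, b0 i = EuclideanSpace.single i (1 : ℝ) := by
      intro i
      simp [b0]
    simp only [h3]
    simp [zv, rv, Finset.sum_apply, Pi.single_apply]
  have hinj : Function.Injective fun k : Fin d → ℤ => S.symm ((m : ℝ)⁻¹ • zv k) := by
    intro k k' hk
    have h1 : (m : ℝ)⁻¹ • zv k = (m : ℝ)⁻¹ • zv k' := S.symm.injective hk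
    have h2 : zv k = zv k' := smul_right_injective _ hm' h1
    funext i
    have h3 : (zv k) i = (zv k') i := by rw [h2]
    simpa [zv, rv] using h3
  have hset : ∀ x, {l | l ∈ Submodule.span ℤ (Set.range (b0.map T)) ∧ x + l ∈ Ω} =
      (fun k : Fin d → ℤ => S.symm ((m : ℝ)⁻¹ • zv k)) '' fib (S '' Ω) m (S x) := by
    intro x
    ext l
    rw [Set.mem_ofPred_eq, Submodule.mem_span_range_iff_exists_fun]
    constructor
    · rintro ⟨⟨k, hk⟩, hl⟩
      refine ⟨k, ?_, (hv k).symm.trans hk⟩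
      rw [← hk, hv k] at hl
      refine ⟨_, hl, ?_⟩
      rw [map_add, S.apply_symm_apply]
    · rintro ⟨k, hk, rfl⟩
      refine ⟨⟨k, hv k⟩, ?_⟩
      obtain ⟨y, hy, hy'⟩ := hk
      have : x + S.symm ((m : ℝ)⁻¹ • zv k) = y := by
        apply S.injective
        rw [map_add, S.apply_symm_apply, hy']
      change x + S.symm ((m : ℝ)⁻¹ • zv k) ∈ Ω
      rw [this]
      exact hy
  have hq : ∀ᵐ x, (fib (S '' Ω) m (S x)).encard = N := by
    have hS : Measure.QuasiMeasurePreserving (S : E d → E d) volume volume := by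
      refine ⟨S.continuous.measurable, ?_⟩
      refine Measure.AbsolutelyContinuous.mk fun s hs h0 => ?_
      rw [Measure.map_apply S.continuous.measurable hs,
        Measure.addHaar_preimage_continuousLinearEquiv, h0, mul_zero]
    exact hS.ae h
  filter_upwards [hq] with x hx
  rw [hset x, hinj.encard_image, hx]

/-- null sets do not matter.  PROOF: countably many translates of the null set where `Ω`, `Ω'`
differ. -/
theorem tile_congr {Ω Ω' : Set (E d)} (h : Ω =ᵐ[volume] Ω') (v : Module.Basis (Fin d) ℝ (E d))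
    {N : ℕ} (ht : ∀ᵐ x, {l | l ∈ Submodule.span ℤ (Set.range v) ∧ x + l ∈ Ω}.encard = N) :
    ∀ᵐ x, {l | l ∈ Submodule.span ℤ (Set.range v) ∧ x + l ∈ Ω'}.encard = N := by
  have h1 : ∀ᵐ x, ∀ k : Fin d → ℤ, (x + ∑ i, k i • v i ∈ Ω ↔ x + ∑ i, k i • v i ∈ Ω') := by
    rw [ae_all_iff]
    intro k
    exact (measurePreserving_add_right volume (∑ i, k i • v i)).quasiMeasurePreserving.ae
      h.mem_iff
  filter_upwards [h1, ht] with x hx hN
  rw [← hN]
  congr 1
  ext l
  rw [Set.mem_ofPred_eq, Set.mem_ofPred_eq, Submodule.mem_span_range_iff_exists_fun]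
  constructor
  · rintro ⟨⟨k, rfl⟩, hl⟩
    exact ⟨⟨k, rfl⟩, (hx k).mpr hl⟩
  · rintro ⟨⟨k, rfl⟩, hl⟩
    exact ⟨⟨k, rfl⟩, (hx k).mp hl⟩

end Pool.Agent.NL53
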