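import Pool.Agent.Lib.MP_53fa4a_an_NL.SpecDef

/-!
# Parseval's identity
-/

set_option autoImplicit false

open MeasureTheory Set Filter
open scoped ENNReal Topology ComplexConjugate BigOperators

noncomputable section

namespace Pool.Agent.NL53

open Pool.Agent.SpecND (E ee)

variable {d : ℕ}

private lemma ee_neg_left (l x : E d) : ee (-l) x = conj (ee l x) := by
  rw [← Pool.Agent.SpecND.ee_neg]
  unfold ee
  rw [inner_neg_left, inner_neg_right]

private lemma ee_add_left (l l' x : E d) : ee (l + l') x = ee l x * ee l' x := by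
  unfold ee
  rw [← Complex.exp_add, inner_add_left]
  congr 1
  push_cast
  ring

private lemma ee_sub_left (l l' x : E d) : ee (l - l') x = ee l x * conj (ee l' x) := by
  rw [sub_eq_add_neg, ee_add_left, ee_neg_left]

private lemma memLp_ee {Ω : Set (E d)} (hfin : volume Ω ≠ ∞) (l : E d) :
    MemLp (ee l) 2 (volume.restrict Ω) := by
  have : IsFiniteMeasure (volume.restrict Ω) :=
    ⟨by rwa [Measure.restrict_apply_univ, lt_top_iff_ne_top]⟩
  exact MemLp.of_bound (Pool.Agent.SpecND.continuous_ee l).aestronglyMeasurable 1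
    (Eventually.of_forall fun x => (Pool.Agent.SpecND.norm_ee l x).le)

/-- the inner product with an exponential -/
private lemma inner_ee {Ω : Set (E d)} (hfin : volume Ω ≠ ∞) (l : E d)
    (g : Lp ℂ 2 (volume.restrict Ω)) :
    inner ℂ (memLp_ee hfin l).toLp g = ∫ x in Ω, g x * conj (ee l x) := by
  rw [L2.inner_def]
  refine integral_congr_ae ?_
  filter_upwards [(memLp_ee hfin l).coeFn_toLp] with x hx
  rw [hx, RCLike.inner_apply]

private lemma inner_ee_ee {Ω : Set (E d)} (hfin : volume Ω ≠ ∞) (l l' : E d) :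
    inner ℂ (memLp_ee hfin l).toLp (memLp_ee hfin l').toLp = ∫ x in Ω, ee (l' - l) x := by
  rw [inner_ee hfin]
  refine integral_congr_ae ?_
  filter_upwards [(memLp_ee hfin l').coeFn_toLp] with x hx
  rw [hx, ee_sub_left]

private lemma inner_ee_self {Ω : Set (E d)} (hfin : volume Ω ≠ ∞) (l : E d) :
    inner ℂ (memLp_ee hfin l).toLp (memLp_ee hfin l).toLp = ((volume.real Ω : ℝ) : ℂ) := by
  rw [inner_ee_ee hfin]
  have h : ∀ x, ee (l - l) x = 1 := by
    intro x
    rw [ee_sub_left, Pool.Agent.SpecND.ee_mul_conj]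
  rw [integral_congr_ae (Eventually.of_forall h)]
  simp

/-- **Parseval.**  PROOF: the functions `|Ω|^{-1/2} ee μ`, `μ ∈ Λ`, are an orthonormal system in
`L²(Ω)` with trivial orthogonal complement, i.e. a Hilbert basis
(`HilbertBasis.mkOfOrthogonalEqBot`); Parseval for `ee l`
(`HilbertBasis.hasSum_inner_mul_inner`), with `∫_Ω ee l conj (ee μ) = ∫_Ω ee (l - μ)`. -/
theorem parseval_full {Ω : Set (E d)} (hm : MeasurableSet Ω) (hfin : volume Ω ≠ ∞)
    {Λ : Set (E d)} (hs : IsSpectrum Λ Ω) (l : E d) :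
    HasSum (fun μ : Λ => ‖∫ x in Ω, ee (l - (μ : E d)) x‖ ^ 2) (volume.real Ω ^ 2) := by
  obtain ⟨horth, hcomp⟩ := hs
  by_cases hc : volume.real Ω = 0
  · have h0 : volume Ω = 0 := by
      rw [measureReal_def, ENNReal.toReal_eq_zero_iff] at hc
      exact hc.resolve_right hfin
    have h1 : ∀ μ : Λ, ‖∫ x in Ω, ee (l - (μ : E d)) x‖ ^ 2 = 0 := by
      intro μ
      rw [Measure.restrict_eq_zero.mpr h0, integral_zero_measure]
      simp
    rw [hc]
    simp only [h1]
    simp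
  have hc0 : 0 < volume.real Ω := lt_of_le_of_ne measureReal_nonneg (Ne.symm hc)
  set c : ℝ := volume.real Ω with hcdef
  set s : ℝ := √c with hsdef
  have hs0 : 0 < s := Real.sqrt_pos.2 hc0
  have hss : s * s = c := Real.mul_self_sqrt hc0.le
  have hsC : (s : ℂ) ≠ 0 := by exact_mod_cast hs0.ne'
  let F : E d → Lp ℂ 2 (volume.restrict Ω) := fun l => (memLp_ee hfin l).toLp
  let V : Λ → Lp ℂ 2 (volume.restrict Ω) := fun μ => ((s : ℂ)⁻¹) • F μ
  have hin : ∀ (μ : Λ) (g : Lp ℂ 2 (volume.restrict Ω)),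
      inner ℂ (V μ) g = (s : ℂ)⁻¹ * inner ℂ (F μ) g := by
    intro μ g
    simp only [V]
    rw [inner_smul_left, map_inv₀, Complex.conj_ofReal]
  have hV : Orthonormal ℂ V := by
    rw [orthonormal_iff_ite]
    intro μ ν
    rw [hin]
    simp only [V]
    rw [inner_smul_right]
    split_ifs with h
    · subst h
      simp only [F]
      rw [inner_ee_self hfin, ← hcdef, ← hss]
      push_cast
      field_simp
    · simp only [F]
      rw [inner_ee_ee hfin]
      have h2 : ∫ x in Ω, ee ((ν : E d) - (μ : E d)) x = 0 := by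
        have h3 := horth ν ν.2 μ μ.2 (fun h' => h (Subtype.ext h'.symm))
        rw [← h3]
        exact integral_congr_ae (Eventually.of_forall fun x => ee_sub_left _ _ _)
      rw [h2]
      simp
  have hbot : (Submodule.span ℂ (Set.range V))ᗮ = ⊥ := by
    rw [Submodule.eq_bot_iff]
    intro g hg
    have h0 : ∀ l ∈ Λ, ∫ x in Ω, g x * conj (ee l x) = 0 := by
      intro l hl
      have h1 := (Submodule.mem_orthogonal _ g).1 hg (V ⟨l, hl⟩)
        (Submodule.subset_span ⟨⟨l, hl⟩, rfl⟩)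
      rw [hin] at h1
      simp only [F] at h1
      rw [inner_ee hfin] at h1
      rcases mul_eq_zero.mp h1 with h2 | h2
      · exact absurd h2 (inv_ne_zero hsC)
      · exact h2
    exact (Lp.eq_zero_iff_ae_eq_zero).2 (hcomp g (Lp.memLp g) h0)
  let b := HilbertBasis.mkOfOrthogonalEqBot hV hbot
  have hb : ∀ μ : Λ, b μ = V μ := fun μ => by
    simp only [b]
    rw [HilbertBasis.coe_mkOfOrthogonalEqBot]
  have h5 := b.hasSum_inner_mul_inner (F l) (F l)
  have h6 : inner ℂ (F l) (F l) = ((c : ℝ) : ℂ) := inner_ee_self hfin l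
  rw [h6] at h5
  have h7 : ∀ μ : Λ, inner ℂ (F l) (b μ) * inner ℂ (b μ) (F l) =
      ((c⁻¹ * ‖∫ x in Ω, ee (l - (μ : E d)) x‖ ^ 2 : ℝ) : ℂ) := by
    intro μ
    rw [hb, ← inner_conj_symm (F l) (V μ), hin]
    simp only [F]
    rw [inner_ee_ee hfin, map_mul, map_inv₀, Complex.conj_ofReal]
    have h8 : (c : ℂ) = (s : ℂ) * (s : ℂ) := by
      rw [← hss]
      push_cast
      ring
    have h9 : ((‖∫ x in Ω, ee (l - (μ : E d)) x‖ ^ 2 : ℝ) : ℂ) =
        (∫ x in Ω, ee (l - (μ : E d)) x) * conj (∫ x in Ω, ee (l - (μ : E d)) x) := by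
      rw [Complex.mul_conj, Complex.normSq_eq_norm_sq]
    rw [Complex.ofReal_mul, h9, Complex.ofReal_inv, h8]
    field_simp
  simp only [h7] at h5
  have h10 : HasSum (fun μ : Λ => c⁻¹ * ‖∫ x in Ω, ee (l - (μ : E d)) x‖ ^ 2) c := by
    exact_mod_cast h5
  have h11 := h10.mul_left c
  have h12 : ∀ μ : Λ, c * (c⁻¹ * ‖∫ x in Ω, ee (l - (μ : E d)) x‖ ^ 2) =
      ‖∫ x in Ω, ee (l - (μ : E d)) x‖ ^ 2 := by
    intro μ
    rw [← mul_assoc, mul_inv_cancel₀ hc, one_mul]
  simp only [h12] at h11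
  rw [pow_two]
  exact h11

private lemma zv_inj {n n' : Fin d → ℤ} (h : zv n = zv n') : n = n' := by
  funext i
  have h1 := congrArg (fun v : E d => v i) h
  simp only [zv, rv] at h1
  exact_mod_cast h1

private lemma zv_sub (n g : Fin d → ℤ) : zv n - zv (n + g) = -zv g := by
  ext i
  simp only [zv, rv, PiLp.sub_apply, PiLp.neg_apply, Pi.add_apply]
  push_cast
  ring

/-- PROOF: `parseval_full` for `l = zv n`; the elements of `Λ` are the `zv (n + g)` with
`zv (n+g) ∈ Λ` and `|∫_Ω ee (zv n - zv (n+g))|² = |∫_Ω ee (- zv g)|² = |∫_Ω ee (zv g)|²`. -/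
theorem spec_eq {Ω : Set (E d)} (hm : MeasurableSet Ω) (hfin : volume Ω ≠ ∞)
    {Λ : Set (E d)} (hs : IsSpectrum Λ Ω) (hΛ : ∀ l ∈ Λ, ∃ n, l = zv n) (n : Fin d → ℤ) :
    ∑' g, Gm Ω g * {k | zv k ∈ Λ}.indicator (fun _ => (1 : ℂ)) (n + g) =
      ((volume.real Ω ^ 2 : ℝ) : ℂ) := by
  have h1 := parseval_full hm hfin hs (zv n)
  let e : {k : Fin d → ℤ | zv k ∈ Λ} ≃ Λ := Equiv.ofBijective (fun k => ⟨zv k.1, k.2⟩)
    ⟨fun a b hab => Subtype.ext (zv_inj (congrArg Subtype.val hab)), fun y => by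
      obtain ⟨k, hk⟩ := hΛ y.1 y.2
      exact ⟨⟨k, by rw [Set.mem_setOf_eq, ← hk]; exact y.2⟩, Subtype.ext hk.symm⟩⟩
  have h2 : HasSum (fun k : {k : Fin d → ℤ | zv k ∈ Λ} =>
      ‖∫ x in Ω, ee (zv n - zv k.1) x‖ ^ 2) (volume.real Ω ^ 2) :=
    (Equiv.hasSum_iff e).mpr h1
  have h3 : HasSum ({k : Fin d → ℤ | zv k ∈ Λ}.indicator
      (fun k => ‖∫ x in Ω, ee (zv n - zv k) x‖ ^ 2)) (volume.real Ω ^ 2) :=
    (hasSum_subtype_iff_indicator (f := fun k : Fin d → ℤ =>
      ‖∫ x in Ω, ee (zv n - zv k) x‖ ^ 2)).mp h2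
  have h4 := (Equiv.hasSum_iff (Equiv.addLeft n)).mpr h3
  have h5 : ∀ g : Fin d → ℤ, Gm Ω g * {k | zv k ∈ Λ}.indicator (fun _ => (1 : ℂ)) (n + g) =
      ((({k : Fin d → ℤ | zv k ∈ Λ}.indicator
      (fun k => ‖∫ x in Ω, ee (zv n - zv k) x‖ ^ 2) ∘ (Equiv.addLeft n)) g : ℝ) : ℂ) := by
    intro g
    simp only [Function.comp_apply, Equiv.coe_addLeft]
    by_cases hg : n + g ∈ {k : Fin d → ℤ | zv k ∈ Λ}
    · rw [Set.indicator_of_mem hg, Set.indicator_of_mem hg, mul_one]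
      unfold Gm
      rw [zv_sub]
      have h6 : ∫ x in Ω, ee (-zv g) x = conj (∫ x in Ω, ee (zv g) x) := by
        rw [← integral_conj]
        exact integral_congr_ae (Eventually.of_forall fun x => ee_neg_left _ _)
      rw [h6, RCLike.norm_conj]
    · rw [Set.indicator_of_notMem hg, Set.indicator_of_notMem hg, mul_zero, Complex.ofReal_zero]
  rw [tsum_congr h5]
  exact (Complex.hasSum_ofReal.mpr h4).tsum_eq

end Pool.Agent.NL53
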