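import Pool.Agent.Lib.MP_53fa4a_an_NL.SpecDef

/-!
# Small fibres give a multi-tiling
-/

set_option autoImplicit false

open MeasureTheory Set Filter
open scoped ENNReal Topology ComplexConjugate BigOperators

noncomputable section

namespace Pool.Agent.NL53

open Pool.Agent.SpecND (E ee)

variable {d : ℕ}

/-- the index of the cell -/
private def cel (m : ℕ) (x : E d) : Fin d → ℤ := fun i => ⌊(m : ℝ) * x i⌋

private theorem cel_meas (m : ℕ) : Measurable (cel (d := d) m) := by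
  refine measurable_pi_lambda _ fun i => ?_
  have h : Measurable fun x : E d => (m : ℝ) * x i := by fun_prop
  exact Int.measurable_floor.comp h

private theorem tt_apply (m : ℕ) (k : Fin d → ℤ) (i : Fin d) :
    ((m : ℝ)⁻¹ • zv k : E d) i = (m : ℝ)⁻¹ * (k i : ℝ) := by
  simp [zv, rv]

private theorem cel_add {m : ℕ} (hm0 : 0 < m) (x : E d) (k : Fin d → ℤ) :
    cel m (x + (m : ℝ)⁻¹ • zv k) = cel m x + k := by
  funext i
  have hm : (m : ℝ) ≠ 0 := by exact_mod_cast hm0.ne'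
  have h1 : (m : ℝ) * (x + (m : ℝ)⁻¹ • zv k : E d) i = (m : ℝ) * x i + (k i : ℝ) := by
    rw [PiLp.add_apply, tt_apply, mul_add, mul_inv_cancel_left₀ hm]
  simp only [cel, Pi.add_apply]
  rw [h1, Int.floor_add_intCast]

private theorem cel_vol {m : ℕ} (hm0 : 0 < m) :
    volume (cel (d := d) m ⁻¹' {0}) = ENNReal.ofReal ((m : ℝ)⁻¹) ^ d := by
  have hm : (0 : ℝ) < m := by exact_mod_cast hm0
  have h1 : cel (d := d) m ⁻¹' {0} =
      (WithLp.ofLp : E d → (Fin d → ℝ)) ⁻¹' (Set.pi univ fun _ => Ico (0 : ℝ) (m : ℝ)⁻¹) := by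
    ext x
    simp only [mem_preimage, mem_singleton_iff, mem_univ_pi, mem_Ico, cel, funext_iff,
      Pi.zero_apply, Int.floor_eq_iff, Int.cast_zero, zero_add]
    refine forall_congr' fun i => ?_
    rw [mul_nonneg_iff_of_pos_left hm, inv_eq_one_div, lt_div_iff₀' hm]
  rw [h1, (PiLp.volume_preserving_ofLp (Fin d)).measure_preimage
    (MeasurableSet.univ_pi fun _ => measurableSet_Ico).nullMeasurableSet, Real.volume_pi_Ico]
  simp

/-- the number of the points of the fibre -/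
private def nf (Ω : Set (E d)) (m : ℕ) (x : E d) : ℝ≥0∞ := ∑' k, (fib Ω m x).indicator 1 k

private theorem nf_eq {Ω : Set (E d)} {m : ℕ} {x : E d} (h : (fib Ω m x).Finite) :
    nf Ω m x = ((fib Ω m x).ncard : ℝ≥0∞) := by
  unfold nf
  rw [tsum_eq_sum (s := h.toFinset), Set.ncard_eq_toFinset_card _ h]
  · rw [Finset.sum_congr rfl fun k hk => Set.indicator_of_mem (h.mem_toFinset.1 hk) 1]
    simp
  · intro k hk
    exact Set.indicator_of_notMem (fun h' => hk (h.mem_toFinset.2 h')) 1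

private theorem nf_add (Ω : Set (E d)) (m : ℕ) (x : E d) (k : Fin d → ℤ) :
    nf Ω m (x + (m : ℝ)⁻¹ • zv k) = nf Ω m x := by
  unfold nf
  rw [← (Equiv.addLeft k).tsum_eq fun j => (fib Ω m x).indicator (1 : (Fin d → ℤ) → ℝ≥0∞) j]
  refine tsum_congr fun j => ?_
  have h1 : (m : ℝ)⁻¹ • zv (k + j) = (m : ℝ)⁻¹ • zv k + ((m : ℝ)⁻¹ • zv j : E d) := by
    ext i
    rw [PiLp.add_apply, tt_apply, tt_apply, tt_apply, Pi.add_apply]
    push_cast
    ring
  have h2 : j ∈ fib Ω m (x + (m : ℝ)⁻¹ • zv k) ↔ k + j ∈ fib Ω m x := by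
    simp only [fib, Set.mem_ofPred_eq]
    rw [h1, add_assoc]
  by_cases h3 : k + j ∈ fib Ω m x
  · rw [Set.indicator_of_mem (h2.2 h3)]
    exact (Set.indicator_of_mem (f := (1 : (Fin d → ℤ) → ℝ≥0∞)) h3).symm
  · rw [Set.indicator_of_notMem fun h => h3 (h2.1 h)]
    exact (Set.indicator_of_notMem (f := (1 : (Fin d → ℤ) → ℝ≥0∞)) h3).symm

private theorem nf_int {Ω : Set (E d)} (hm : MeasurableSet Ω) {m : ℕ} (hm0 : 0 < m) :
    ∫⁻ x in cel (d := d) m ⁻¹' {0}, nf Ω m x = volume Ω := by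
  have hD : ∀ k, MeasurableSet (cel (d := d) m ⁻¹' {k}) := fun k =>
    cel_meas m (measurableSet_singleton k)
  have hT : ∀ k : Fin d → ℤ, MeasurableSet {x : E d | x + (m : ℝ)⁻¹ • zv k ∈ Ω} := fun k =>
    (measurable_add_const _) hm
  have h1 : ∀ x, nf Ω m x =
      ∑' k, ({x : E d | x + (m : ℝ)⁻¹ • zv k ∈ Ω}).indicator (1 : E d → ℝ≥0∞) x := fun x => rfl
  simp only [h1]
  rw [lintegral_tsum fun k => (measurable_one.indicator (hT k)).aemeasurable]
  have h2 : Ω = ⋃ k, Ω ∩ cel (d := d) m ⁻¹' {k} := by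
    ext x
    simp
  conv_rhs => rw [h2]
  rw [measure_iUnion (fun k k' hk => ?_) fun k => hm.inter (hD k)]
  · refine tsum_congr fun k => ?_
    rw [lintegral_indicator_one (hT k), Measure.restrict_apply (hT k),
      ← measure_preimage_add_right volume ((m : ℝ)⁻¹ • zv k : E d) (Ω ∩ cel (d := d) m ⁻¹' {k})]
    refine congrArg volume ?_
    ext x
    simp only [mem_inter_iff, Set.mem_ofPred_eq, mem_preimage, mem_singleton_iff]
    rw [cel_add hm0, add_eq_right]
  · refine Set.disjoint_left.2 fun x hx hx' => hk ?_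
    have e1 : cel m x = k := hx.2
    have e2 : cel m x = k' := hx'.2
    rw [← e1, ← e2]

/-- **Equality.**  PROOF.  The fundamental domain `D = [0,1/m)^d` of `m^{-1} ℤ^d` has measure
`m^{-d}`, and `∫_D (number of k with x + k/m ∈ Ω) dx = |Ω|` (`ZSpan.isAddFundamentalDomain`,
`IsAddFundamentalDomain.lintegral_eq_tsum`, or split `Ω` directly into the parts in the cubes).  If
the number is `≤ m^d |Ω|` a.e., equality holds a.e. on `D`, and a.e. by periodicity
(`fib Ω m (x + k/m)` is a translate of `fib Ω m x`).  The common value is a natural number `N`,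
positive because `|Ω| > 0`. -/
theorem tile_eq {Ω : Set (E d)} (hm : MeasurableSet Ω) (h0 : volume Ω ≠ 0)
    (hfin : volume Ω ≠ ∞) {m : ℕ} (hm0 : 0 < m)
    (hle : ∀ᵐ x, (fib Ω m x).Finite ∧ ((fib Ω m x).ncard : ℝ) ≤ m ^ d * volume.real Ω) :
    ∃ N : ℕ, 0 < N ∧ ∀ᵐ x, (fib Ω m x).encard = N := by
  have hmr : (0 : ℝ) < m := by exact_mod_cast hm0
  have hD : MeasurableSet (cel (d := d) m ⁻¹' {0}) := cel_meas m (measurableSet_singleton 0)
  obtain ⟨c, hc⟩ : ∃ c : ℝ≥0∞, c = ENNReal.ofReal (m ^ d * volume.real Ω) := ⟨_, rfl⟩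
  have hΩr : 0 < volume.real Ω := ENNReal.toReal_pos h0 hfin
  have hc0 : c ≠ 0 := by
    rw [hc, Ne, ENNReal.ofReal_eq_zero, not_le]
    positivity
  have hcD : c * ENNReal.ofReal ((m : ℝ)⁻¹) ^ d = volume Ω := by
    rw [hc, ← ENNReal.ofReal_pow (inv_nonneg.2 hmr.le), ← ENNReal.ofReal_mul (by positivity)]
    have e1 : (m : ℝ) ^ d * volume.real Ω * (m : ℝ)⁻¹ ^ d = volume.real Ω := by
      rw [inv_pow]
      field_simp
    rw [e1]
    exact ENNReal.ofReal_toReal hfin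
  have hae : ∀ᵐ x, nf Ω m x ≤ c := by
    filter_upwards [hle] with x hx
    rw [nf_eq hx.1, hc, ← ENNReal.ofReal_natCast]
    exact ENNReal.ofReal_le_ofReal hx.2
  have hint := nf_int hm hm0
  have h1 : nf Ω m =ᵐ[volume.restrict (cel (d := d) m ⁻¹' {0})] fun _ => c := by
    refine ae_eq_of_ae_le_of_lintegral_le (ae_restrict_of_ae hae) ?_ aemeasurable_const ?_
    · rw [hint]
      exact hfin
    · rw [hint, lintegral_const, Measure.restrict_apply_univ, cel_vol hm0, hcD]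
  have h2 : ∀ᵐ x, x ∈ cel (d := d) m ⁻¹' {0} → nf Ω m x = c := (ae_restrict_iff' hD).1 h1
  have h3 : ∀ k : Fin d → ℤ, ∀ᵐ x : E d, x + (m : ℝ)⁻¹ • zv k ∈ cel (d := d) m ⁻¹' {0} →
      nf Ω m (x + (m : ℝ)⁻¹ • zv k) = c := fun k =>
    (measurePreserving_add_right volume ((m : ℝ)⁻¹ • zv k : E d)).quasiMeasurePreserving.ae h2
  have h4 : ∀ᵐ x, ((fib Ω m x).ncard : ℝ≥0∞) = c ∧ (fib Ω m x).Finite := by
    filter_upwards [ae_all_iff.2 h3, hle] with x hx hx'
    have h5 := hx (-cel m x) (by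
      show cel m (x + (m : ℝ)⁻¹ • zv (-cel m x)) = 0
      rw [cel_add hm0, add_neg_cancel])
    rw [nf_add, nf_eq hx'.1] at h5
    exact ⟨h5, hx'.1⟩
  obtain ⟨x₀, hx₀⟩ := h4.exists
  refine ⟨(fib Ω m x₀).ncard, ?_, ?_⟩
  · rw [Nat.pos_iff_ne_zero]
    intro h5
    rw [h5, Nat.cast_zero] at hx₀
    exact hc0 hx₀.1.symm
  · filter_upwards [h4] with x hx
    have h5 : ((fib Ω m x).ncard : ℝ≥0∞) = ((fib Ω m x₀).ncard : ℝ≥0∞) := hx.1.trans hx₀.1.symm
    have h6 : (fib Ω m x).ncard = (fib Ω m x₀).ncard := by exact_mod_cast h5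
    rw [← hx.2.cast_ncard_eq, h6]

end Pool.Agent.NL53
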