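import Pool.Agent.Lib.MP_53fa4a_an_NL.SpecDef

/-!
# Small fibres
-/

set_option autoImplicit false

open MeasureTheory Set Filter
open scoped ENNReal Topology ComplexConjugate BigOperators

noncomputable section

namespace Pool.Agent.NL53

open Pool.Agent.SpecND (E ee)

variable {d : ℕ}

private lemma zv_sub_add (k k' : Fin d → ℤ) (m : ℕ) (x : E d) :
    x + (m : ℝ)⁻¹ • zv k' + (m : ℝ)⁻¹ • zv (k - k') = x + (m : ℝ)⁻¹ • zv k := by
  rw [add_assoc, ← smul_add]
  congr 2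
  ext i
  simp [zv, rv]

private lemma null_pair {Ω : Set (E d)} {m : ℕ} {k k' : Fin d → ℤ}
    (h : volume (Ω ∩ {x | x + (m : ℝ)⁻¹ • zv (k - k') ∈ Ω}) = 0) :
    ∀ᵐ x : E d, ¬ (k ∈ fib Ω m x ∧ k' ∈ fib Ω m x) := by
  rw [ae_iff]
  have h1 : {x : E d | ¬ ¬ (k ∈ fib Ω m x ∧ k' ∈ fib Ω m x)} =
      (fun x => x + (m : ℝ)⁻¹ • zv k') ⁻¹' (Ω ∩ {x | x + (m : ℝ)⁻¹ • zv (k - k') ∈ Ω}) := by
    ext x
    simp only [not_not, Set.mem_ofPred_eq, Set.mem_preimage, Set.mem_inter_iff]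
    rw [zv_sub_add]
    exact and_comm
  rw [h1, measure_preimage_add_right]
  exact h

/-- **Almost all fibres are small.**  PROOF.  For every pair `k ≠ k'` the set of all `x` with
`k, k' ∈ fib Ω m x` is null or `(k, k')` is an admissible pair: it is the set of `x` with
`y = x + k'/m ∈ Ω` and `y + (k-k')/m ∈ Ω`, a translate of `Ω ∩ {y | y + (k-k')/m ∈ Ω}`.  There are
countably many pairs; so for almost all `x` all pairs in `fib Ω m x` are admissible, so every finite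
subset has at most `m^d |Ω|` elements. -/
theorem fib_le {Ω : Set (E d)} {m : ℕ} {C : ℝ} {good : (Fin d → ℤ) → Prop}
    (hgood : ∀ k : Fin d → ℤ, k ≠ 0 → ¬ good k →
      volume (Ω ∩ {x | x + (m : ℝ)⁻¹ • zv k ∈ Ω}) = 0)
    (hA : ∀ A : Finset (Fin d → ℤ), (∀ k ∈ A, ∀ k' ∈ A, k ≠ k' → good (k - k')) →
      (A.card : ℝ) ≤ C) :
    ∀ᵐ x, (fib Ω m x).Finite ∧ ((fib Ω m x).ncard : ℝ) ≤ C := by
  have h1 : ∀ᵐ x : E d, ∀ k k' : Fin d → ℤ, k ≠ k' → ¬ good (k - k') →
      ¬ (k ∈ fib Ω m x ∧ k' ∈ fib Ω m x) := by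
    rw [ae_all_iff]
    intro k
    rw [ae_all_iff]
    intro k'
    by_cases hk : k = k'
    · exact Filter.Eventually.of_forall fun x h => absurd hk h
    by_cases hg : good (k - k')
    · exact Filter.Eventually.of_forall fun x _ h => absurd hg h
    filter_upwards [null_pair (hgood _ (sub_ne_zero.2 hk) hg)] with x hx _ _
    exact hx
  filter_upwards [h1] with x hx
  have h2 : ∀ A : Finset (Fin d → ℤ), (A : Set (Fin d → ℤ)) ⊆ fib Ω m x → (A.card : ℝ) ≤ C := by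
    intro A hAx
    refine hA A fun k hk k' hk' hne => ?_
    by_contra hcon
    exact hx k k' hne hcon ⟨hAx hk, hAx hk'⟩
  have hfin : (fib Ω m x).Finite := by
    by_contra hinf
    obtain ⟨n, hn⟩ := exists_nat_gt C
    obtain ⟨A, hA1, hA2⟩ := Set.Infinite.exists_subset_card_eq hinf n
    have h3 := h2 A hA1
    rw [hA2] at h3
    exact absurd hn (not_lt.2 h3)
  refine ⟨hfin, ?_⟩
  have h3 := h2 hfin.toFinset (by rw [hfin.coe_toFinset])
  rwa [← Set.ncard_eq_toFinset_card _ hfin] at h3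

end Pool.Agent.NL53
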