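import Pool.Agent.Lib.MP_53fa4a_an_NL.Cube
import Pool.Agent.Lib.MP_53fa4a_an_NL.CubeT

/-!
# The autocorrelation of a set which is injective modulo `ℤ^d`
-/

set_option autoImplicit false

open MeasureTheory Set Filter
open scoped ENNReal Topology ComplexConjugate BigOperators

noncomputable section

namespace Pool.Agent.NL53

open Pool.Agent.SpecND (E ee)

variable {d : ℕ}

/-- **Autocorrelation.**  PROOF: `exists_cube`, `cube_corr`.  For `ξ = 0` the set is `V` (`V` is in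
the cube `(0,1]^d`), `volume V = volume Ω`, and summability is part of `HasSum`. -/
theorem torus_gam {Ω : Set (E d)} (hm : MeasurableSet Ω) (hfin : volume Ω ≠ ∞)
    (hinj : ∀ n : Fin d → ℤ, n ≠ 0 → volume (Ω ∩ {x | x + zv n ∈ Ω}) = 0) :
    (Summable fun g => ‖Gm Ω g‖) ∧ ∑' g, Gm Ω g = ((volume.real Ω : ℝ) : ℂ) ∧
      ∀ ξ : Fin d → ℝ, ∑' g, Gm Ω g * ex g ξ = 0 → volume (Ω ∩ {x | x + rv ξ ∈ Ω}) = 0 := by
  obtain ⟨V, hVm, hV', hg, hvol, hlast⟩ := exists_cube hm hfin hinj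
  have hG : ∀ g : Fin d → ℤ, Gm Ω g = ((‖∫ x in V, ex g x‖ ^ 2 : ℝ) : ℂ) := by
    intro g
    unfold Gm
    rw [hg g]
  have h0 := cube_corr hVm hV' (0 : Fin d → ℝ)
  have hset : V ∩ {x | ∃ n : Fin d → ℤ,
      (fun i => x i + (0 : Fin d → ℝ) i + (n i : ℝ)) ∈ V} = V := by
    apply Set.inter_eq_left.mpr
    intro x hx
    refine ⟨0, ?_⟩
    have : (fun i => x i + (0 : Fin d → ℝ) i + (((0 : Fin d → ℤ) i : ℤ) : ℝ)) = x := by
      funext i
      simp
    rw [this]
    exact hx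
  rw [hset] at h0
  have h1 : HasSum (fun g : Fin d → ℤ => Gm Ω g) ((volume.real V : ℝ) : ℂ) := by
    have he : (fun g : Fin d → ℤ => Gm Ω g) = fun g : Fin d → ℤ =>
        ((‖∫ x in V, ex g x‖ ^ 2 : ℝ) : ℂ) * ex g (0 : Fin d → ℝ) := by
      funext g
      rw [ex_zero_right, mul_one]
      exact hG g
    rw [he]
    exact h0
  refine ⟨h1.summable.norm, ?_, ?_⟩
  · rw [h1.tsum_eq, measureReal_def, measureReal_def, hvol]
  · intro ξ hξ
    apply hlast ξ
    have h2 := cube_corr hVm hV' ξ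
    have he : (fun g : Fin d → ℤ => ((‖∫ x in V, ex g x‖ ^ 2 : ℝ) : ℂ) * ex g ξ) =
        fun g : Fin d → ℤ => Gm Ω g * ex g ξ := by
      funext g
      rw [hG g]
    rw [he] at h2
    have h3 := h2.tsum_eq
    rw [hξ] at h3
    have h4 : volume.real (V ∩
        {x | ∃ n : Fin d → ℤ, (fun i => x i + ξ i + (n i : ℝ)) ∈ V}) = 0 := by
      exact_mod_cast h3.symm
    have h5 : volume (V ∩
        {x | ∃ n : Fin d → ℤ, (fun i => x i + ξ i + (n i : ℝ)) ∈ V}) ≠ ∞ := by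
      refine ne_top_of_le_ne_top ?_ (measure_mono Set.inter_subset_left)
      rw [hvol]
      exact hfin
    exact (measureReal_eq_zero_iff h5).mp h4

end Pool.Agent.NL53
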