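import Pool.Agent.Lib.MP_53fa4a_an_NL.Rank
import Pool.Agent.Lib.MP_53fa4a_an_NL.Comb
import Pool.Agent.Lib.MP_53fa4a_an_NL.Inj
import Pool.Agent.Lib.MP_53fa4a_an_NL.Pars
import Pool.Agent.Lib.MP_53fa4a_an_NL.Torus
import Pool.Agent.Lib.MP_53fa4a_an_NL.TileA
import Pool.Agent.Lib.MP_53fa4a_an_NL.Tile
import Pool.Agent.Lib.MP_53fa4a_an_NL.LinA
import Pool.Agent.Lib.MP_53fa4a_an_NL.LinB
import Pool.Agent.Lib.MP_53fa4a_an_NL.Baire

/-!
# Spectra contained in a lattice: the final theorem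
-/

set_option autoImplicit false

open MeasureTheory Set Filter
open scoped ENNReal Topology ComplexConjugate BigOperators

noncomputable section

namespace Pool.Agent.NL53

open Pool.Agent.SpecND (E ee)

variable {d : ℕ}

/-- integer spectra -/
theorem int_main {Ω : Set (E d)} (hm : MeasurableSet Ω) (h0 : volume Ω ≠ 0) (hfin : volume Ω ≠ ∞)
    {Λ : Set (E d)} (hs : IsSpectrum Λ Ω) (hΛ : ∀ l ∈ Λ, ∃ n, l = zv n) :
    ∃ m N : ℕ, 0 < m ∧ 0 < N ∧ ∀ᵐ x, (fib Ω m x).encard = N := by
  have hinj := inj_mod hm hfin hs hΛ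
  obtain ⟨hsum, hD, hpos⟩ := torus_gam hm hfin hinj
  have hV : 0 < volume.real Ω := ENNReal.toReal_pos h0 hfin
  obtain ⟨m, hm0, hA⟩ := comb hsum (MM_all (Fin d → ℤ)) {k | zv k ∈ Λ} (pow_pos hV 2) hV hD
    (spec_eq hm hfin hs hΛ)
  have hsm : ∀ k : Fin d → ℤ, (m : ℝ)⁻¹ • zv k = rv fun i => (k i : ℝ) / m := by
    intro k
    ext i
    simp [zv, rv, div_eq_inv_mul]
  have hle : ∀ᵐ x, (fib Ω m x).Finite ∧ ((fib Ω m x).ncard : ℝ) ≤ m ^ d * volume.real Ω := by
    refine fib_le (good := fun k => (¬ ∀ i, (m : ℤ) ∣ k i) ∧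
      ∑' g, Gm Ω g * ex g (fun i => (k i : ℝ) / m) ≠ 0) ?_ ?_
    · intro k hk hbad
      rw [hsm]
      by_cases hdiv : ∀ i, (m : ℤ) ∣ k i
      · choose n hn using hdiv
        have hn0 : n ≠ 0 := by
          rintro rfl
          apply hk
          funext i
          rw [hn i]
          simp
        have e : (rv fun i => (k i : ℝ) / m) = (zv n : E d) := by
          ext i
          simp only [zv, rv, hn i]
          have : (m : ℝ) ≠ 0 := by exact_mod_cast hm0.ne'
          push_cast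
          field_simp
        rw [e]
        exact hinj n hn0
      · refine hpos _ ?_
        by_contra hne
        exact hbad ⟨hdiv, hne⟩
    · intro A hAk
      have h1 := hA A (fun k hk k' hk' hne => by
        obtain ⟨h1, h2⟩ := hAk k hk k' hk' hne
        exact ⟨h1, h2⟩)
      have h2 : (A.card : ℝ) * volume.real Ω ≤ (m ^ d * volume.real Ω) * volume.real Ω := by
        calc (A.card : ℝ) * volume.real Ω ≤ (m : ℝ) ^ d * volume.real Ω ^ 2 := h1
          _ = (m ^ d * volume.real Ω) * volume.real Ω := by ring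
      exact le_of_mul_le_mul_right h2 hV
  obtain ⟨N, hN, hN'⟩ := tile_eq hm h0 hfin hm0 hle
  exact ⟨m, N, hm0, hN, hN'⟩

/-- **Main theorem.**  A set with a spectrum contained in a translate of a lattice is a multi-tile
for some lattice; if it is bounded, its closure has interior points. -/
theorem lattice_main {Ω : Set (E d)} (hm : NullMeasurableSet Ω volume) (h0 : volume Ω ≠ 0)
    (hfin : volume Ω ≠ ∞) {Λ : Set (E d)} (hs : IsSpectrum Λ Ω)
    (b : Module.Basis (Fin d) ℝ (E d))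
    (hΛ : ∀ l ∈ Λ, ∀ l' ∈ Λ, l - l' ∈ Submodule.span ℤ (Set.range b)) :
    (∃ (v : Module.Basis (Fin d) ℝ (E d)) (N : ℕ), 0 < N ∧
      ∀ᵐ x, {l | l ∈ Submodule.span ℤ (Set.range v) ∧ x + l ∈ Ω}.encard = N) ∧
    (Bornology.IsBounded Ω → (interior (closure Ω)).Nonempty) := by
  have key : ∃ (v : Module.Basis (Fin d) ℝ (E d)) (N : ℕ), 0 < N ∧
      ∀ᵐ x, {l | l ∈ Submodule.span ℤ (Set.range v) ∧ x + l ∈ Ω}.encard = N := by
    obtain ⟨Ω', -, hm', hae⟩ := hm.exists_measurable_subset_ae_eq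
    have hr : volume.restrict Ω' = volume.restrict Ω := Measure.restrict_congr_set hae
    have hs' : IsSpectrum Λ Ω' := by
      unfold IsSpectrum
      rw [hr]
      exact hs
    have hvol : volume Ω' = volume Ω := measure_congr hae
    have h0' : volume Ω' ≠ 0 := by rwa [hvol]
    have hfin' : volume Ω' ≠ ∞ := by rwa [hvol]
    -- `Λ` is nonempty
    have hne : Λ.Nonempty := by
      by_contra hcon
      rw [Set.not_nonempty_iff_eq_empty] at hcon
      have : IsFiniteMeasure (volume.restrict Ω') :=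
        ⟨by rw [Measure.restrict_apply_univ]; exact hfin'.lt_top⟩
      have h1 := hs'.2 (fun _ => (1 : ℂ)) (memLp_const 1) (by simp [hcon])
      rw [Filter.EventuallyEq, ae_iff] at h1
      simp at h1
      exact h0' (by simp [h1])
    obtain ⟨l₀, hl₀⟩ := hne
    have hs'' := spec_translate hs' l₀
    have hsub : {l | l + l₀ ∈ Λ} ⊆ (Submodule.span ℤ (Set.range b) : Set (E d)) := by
      intro l hl
      have h1 := hΛ _ hl _ hl₀
      simpa using h1
    obtain ⟨S, hS⟩ := exists_lin b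
    have hspec := spec_lin hm' hs'' hsub hS
    have hmS : MeasurableSet (S '' Ω') :=
      S.toHomeomorph.toMeasurableEquiv.measurableSet_image.2 hm'
    have hvolS : volume (S '' Ω') = ENNReal.ofReal |(S : E d →ₗ[ℝ] E d).det| * volume Ω' := by
      have h := Measure.addHaar_image_continuousLinearMap (volume : Measure (E d))
        (S : E d →L[ℝ] E d) Ω'
      simpa using h
    have hdet : ENNReal.ofReal |(S : E d →ₗ[ℝ] E d).det| ≠ 0 := by
      have h1 : (S : E d →ₗ[ℝ] E d).det ≠ 0 := by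
        have h2 := LinearEquiv.isUnit_det' S.toLinearEquiv
        exact h2.ne_zero
      simpa using h1
    have hS0 : volume (S '' Ω') ≠ 0 := by
      rw [hvolS]
      exact mul_ne_zero hdet h0'
    have hSfin : volume (S '' Ω') ≠ ∞ := by
      rw [hvolS]
      exact ENNReal.mul_ne_top ENNReal.ofReal_ne_top hfin'
    obtain ⟨m, N, hm0, hN, hN'⟩ := int_main hmS hS0 hSfin hspec (by
      rintro l ⟨n, rfl, -⟩
      exact ⟨n, rfl⟩)
    obtain ⟨v, hv⟩ := tile_back S hm0 hN'
    exact ⟨v, N, hN, tile_congr hae v hv⟩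
  refine ⟨key, fun hb => ?_⟩
  obtain ⟨v, N, hN, hv⟩ := key
  exact interior_of_tile hb v hN hv

end Pool.Agent.NL53
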