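import Pool.Agent.Lib.MP_53fa4a_an_NL.Defs

/-!
# Dilated annihilators (Frobenius)
-/

set_option autoImplicit false

open Polynomial
open scoped BigOperators ComplexConjugate

noncomputable section

namespace Pool.Agent.NL53

variable {G : Type*} [AddCommGroup G] {Γ : G → ℂ} {B : ℕ}

private def frobN (φ : G →₀ ℤ) : ℕ := φ.sum fun _ c => c.natAbs

omit [AddCommGroup G] in
private theorem frobN_add (φ ψ : G →₀ ℤ) : frobN (φ + ψ) ≤ frobN φ + frobN ψ := by
  classical
  have h1 : frobN φ = ∑ v ∈ φ.support ∪ ψ.support, (φ v).natAbs :=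
    Finsupp.sum_of_support_subset _ Finset.subset_union_left _ (by simp)
  have h2 : frobN ψ = ∑ v ∈ φ.support ∪ ψ.support, (ψ v).natAbs :=
    Finsupp.sum_of_support_subset _ Finset.subset_union_right _ (by simp)
  have h3 : frobN (φ + ψ) = ∑ v ∈ φ.support ∪ ψ.support, ((φ + ψ) v).natAbs :=
    Finsupp.sum_of_support_subset _ Finsupp.support_add _ (by simp)
  rw [h1, h2, h3, ← Finset.sum_add_distrib]
  refine Finset.sum_le_sum fun v _ => ?_
  rw [Finsupp.add_apply]
  exact Int.natAbs_add_le _ _

omit [AddCommGroup G] in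
private theorem frobN_sum {ι : Type*} (t : Finset ι) (F : ι → G →₀ ℤ) :
    frobN (∑ i ∈ t, F i) ≤ ∑ i ∈ t, frobN (F i) := by
  classical
  induction t using Finset.induction_on with
  | empty => simp [frobN]
  | insert a t ha ih =>
    rw [Finset.sum_insert ha, Finset.sum_insert ha]
    exact (frobN_add _ _).trans (Nat.add_le_add_left ih _)

omit [AddCommGroup G] in
private theorem frobN_single (v : G) (c : ℤ) : frobN (Finsupp.single v c) = c.natAbs := by
  unfold frobN
  rw [Finsupp.sum_single_index (by simp)]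

/-- the norm does not increase under dilation (auxiliary form) -/
private theorem frob_nrm (n : ℕ) (g : RG ℤ G) : nrm (dil n g) ≤ nrm g := by
  have h1 : nrm (dil n g) = frobN (Finsupp.mapDomain (fun v => n • v) g.coeff) := rfl
  have h2 : nrm g = ∑ v ∈ g.coeff.support, (g.coeff v).natAbs := rfl
  rw [h1, h2, Finsupp.mapDomain, Finsupp.sum]
  refine (frobN_sum _ _).trans (Finset.sum_le_sum fun v _ => ?_)
  rw [frobN_single]

private theorem frob_dil_add (n : ℕ) (g k : RG ℤ G) : dil n (g + k) = dil n g + dil n k :=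
  AddMonoidAlgebra.mapDomain_add _ _ _

private theorem frob_dil_single (n : ℕ) (v : G) (c : ℤ) :
    dil n (AddMonoidAlgebra.single v c : RG ℤ G) = AddMonoidAlgebra.single (n • v) c :=
  AddMonoidAlgebra.mapDomain_single

/-- the Frobenius congruence -/
private theorem frob_cong {p : ℕ} (hp : p.Prime) (g : RG ℤ G) :
    ∃ r : RG ℤ G, g ^ p = dil p g + (p : ℤ) • r := by
  induction g using AddMonoidAlgebra.induction_linear with
  | zero =>
    refine ⟨0, ?_⟩
    rw [zero_pow hp.ne_zero, smul_zero, add_zero]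
    exact (AddMonoidAlgebra.mapDomain_zero _).symm
  | add x y hx hy =>
    obtain ⟨a, ha⟩ := hx
    obtain ⟨b, hb⟩ := hy
    obtain ⟨c, hc⟩ := exists_add_pow_prime_eq hp x y
    refine ⟨a + b + x * y * c, ?_⟩
    rw [hc, ha, hb, frob_dil_add, smul_add, smul_add]
    have h1 : (p : ℤ) • (x * y * c) = (p : RG ℤ G) * x * y * c := by
      rw [zsmul_eq_mul]
      push_cast
      ring
    rw [h1]
    abel
  | single v c =>
    obtain ⟨d, hd⟩ : (p : ℤ) ∣ c ^ p - c := by
      have : Fact p.Prime := ⟨hp⟩
      rw [← ZMod.intCast_eq_intCast_iff_dvd_sub]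
      push_cast
      rw [ZMod.pow_card]
    refine ⟨AddMonoidAlgebra.single (p • v) d, ?_⟩
    rw [frob_dil_single, AddMonoidAlgebra.single_pow, AddMonoidAlgebra.smul_single,
      ← AddMonoidAlgebra.single_add]
    congr 1
    rw [smul_eq_mul]
    linarith

/-- **The step for a prime.**  Let `p` be a prime with `p > B * nrm g`.  PROOF: the ring
`ℤ[G]` is commutative.  `g ^ p - dil p g` is divisible by `p` in `ℤ[G]`: in `(ZMod p)[G]`
(`AddMonoidAlgebra.mapRingHom G (Int.castRingHom (ZMod p))`), a commutative ring of characteristic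
`p`, the Frobenius map is additive, and on `single v c` it is `single (p • v) (c ^ p)` with
`c ^ p = c` in `ZMod p`; induction (`induction_linear`) gives
`(map g) ^ p = mapDomain (p • ·) (map g)`; so all coefficients of `g ^ p - dil p g` are divisible
by `p`: `g ^ p = dil p g + p • r` (`r ∈ ℤ[G]`).  For `F` with `Ker Γ B F`:
`act (g ^ p) F = act (g ^ (p-1)) (act g F) = 0`, so `act (dil p g) F x = - p * act r F x` is
divisible by `p`, and `|act (dil p g) F x| ≤ B * nrm (dil p g) ≤ B * nrm g < p` (`natAbs_act_le`,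
and `nrm (dil p g) ≤ nrm g`), so it is `0`. -/
theorem kills_dil_prime {g : RG ℤ G} (h : Kills Γ B g) {p : ℕ} (hp : p.Prime)
    (hlt : B * nrm g < p) : Kills Γ B (dil p g) := by
  obtain ⟨r, hr⟩ := frob_cong hp g
  intro F hF
  funext x
  have h1 : act (g ^ p) F = 0 := by
    have h2 : g ^ p = g ^ (p - 1) * g := by
      rw [← pow_succ, Nat.sub_add_cancel hp.one_le]
    rw [h2]
    exact h.mul_left _ F hF
  rw [hr, act_add] at h1
  have h2 := congrFun h1 x
  have h3 : act ((p : ℤ) • r) F x = (p : ℤ) * act r F x := by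
    have h4 : (p : ℤ) • r = AddMonoidAlgebra.single 0 (p : ℤ) * r := by
      rw [zsmul_eq_mul]
      rfl
    rw [h4, act_mul, act_single, add_zero, smul_eq_mul]
  change act (dil p g) F x + act ((p : ℤ) • r) F x = 0 at h2
  rw [h3] at h2
  have h5 : (p : ℤ) ∣ act (dil p g) F x := ⟨-act r F x, by linarith⟩
  refine Int.eq_zero_of_abs_lt_dvd h5 ?_
  have h6 := natAbs_act_le (dil p g) F hF.1 x
  have h7 : B * nrm (dil p g) < p := (Nat.mul_le_mul_left B (frob_nrm p g)).trans_lt hlt
  exact h6.trans_lt (by exact_mod_cast h7)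

/-- the norm does not increase under dilation (triangle inequality; `dil` is `mapDomain`) -/
theorem nrm_dil_le (n : ℕ) (g : RG ℤ G) : nrm (dil n g) ≤ nrm g := frob_nrm n g

private theorem frob_dil_dil (a b : ℕ) (g : RG ℤ G) : dil (a * b) g = dil a (dil b g) := by
  induction g using AddMonoidAlgebra.induction_linear with
  | zero =>
    change AddMonoidAlgebra.mapDomain _ 0 =
      AddMonoidAlgebra.mapDomain _ (AddMonoidAlgebra.mapDomain _ 0)
    rw [AddMonoidAlgebra.mapDomain_zero, AddMonoidAlgebra.mapDomain_zero,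
      AddMonoidAlgebra.mapDomain_zero]
  | add x y hx hy => rw [frob_dil_add, frob_dil_add, frob_dil_add, hx, hy]
  | single v c => rw [frob_dil_single, frob_dil_single, frob_dil_single, mul_smul]

private theorem frob_dil_one (g : RG ℤ G) : dil 1 g = g := by
  induction g using AddMonoidAlgebra.induction_linear with
  | zero => exact AddMonoidAlgebra.mapDomain_zero _
  | add x y hx hy => rw [frob_dil_add, hx, hy]
  | single v c => rw [frob_dil_single, one_smul]

/-- PROOF: induction on `n` (`Nat.recOnMul` or strong induction, writing `n = p * n'` with `p`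
prime): `dil (p * n') g = dil p (dil n' g)`, `nrm (dil n' g) ≤ nrm g`; `dil 1 g = g`. -/
theorem kills_dil {g : RG ℤ G} (h : Kills Γ B g) {n : ℕ} (hn0 : n ≠ 0)
    (hn : ∀ p : ℕ, p.Prime → p ∣ n → B * nrm g < p) : Kills Γ B (dil n g) := by
  induction n using Nat.strong_induction_on with
  | _ n ih =>
    rcases Nat.lt_or_ge 1 n with h1 | h1
    · obtain ⟨p, hp, k, rfl⟩ := Nat.exists_prime_and_dvd (n := n) (by omega)
      have hk0 : k ≠ 0 := by
        rintro rfl
        exact hn0 (mul_zero p)
      have hk : k < p * k := by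
        have := hp.two_le
        nlinarith [Nat.pos_of_ne_zero hk0]
      have h2 : Kills Γ B (dil k g) :=
        ih k hk hk0 fun q hq hqk => hn q hq (hqk.mul_left p)
      rw [frob_dil_dil]
      refine kills_dil_prime h2 hp ?_
      exact (Nat.mul_le_mul_left B (nrm_dil_le k g)).trans_lt (hn p hp (dvd_mul_right p k))
    · have h2 : n = 1 := by omega
      rw [h2, frob_dil_one]
      exact h

end Pool.Agent.NL53
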