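import Pool.Agent.Lib.MP_53fa4a_an_NL.PartDef
import Pool.Agent.Lib.MP_53fa4a_an_NL.Frob

/-!
# Interpolation: the part of an annihilator over one point
-/

set_option autoImplicit false

open Polynomial
open scoped BigOperators ComplexConjugate

noncomputable section

namespace Pool.Agent.NL53

variable {A T : Type*} [AddCommGroup A] [AddCommGroup T]

open Classical in
private theorem interp_part (u : A) (g : RG ℤ (A × T)) :
    part u g = ∑ v ∈ g.coeff.support,
      if v.1 = u then AddMonoidAlgebra.single v (g.coeff v) else 0 := by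
  refine AddMonoidAlgebra.ext (Finsupp.ext fun w => ?_)
  change (Finsupp.filter (fun v => v.1 = u) g.coeff) w = _
  rw [AddMonoidAlgebra.coeff_sum, Finsupp.finsetSum_apply, Finsupp.filter_apply]
  rw [Finset.sum_eq_single w]
  · by_cases h : w.1 = u
    · rw [if_pos h, if_pos h, AddMonoidAlgebra.coeff_single, Finsupp.single_eq_same]
    · rw [if_neg h, if_neg h, AddMonoidAlgebra.coeff_zero, Finsupp.zero_apply]
  · intro v _ hv
    by_cases h : v.1 = u
    · rw [if_pos h, AddMonoidAlgebra.coeff_single, Finsupp.single_eq_of_ne hv.symm]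
    · rw [if_neg h, AddMonoidAlgebra.coeff_zero, Finsupp.zero_apply]
  · intro hw
    rw [Finsupp.notMem_support_iff] at hw
    by_cases h : w.1 = u
    · rw [if_pos h, AddMonoidAlgebra.coeff_single, Finsupp.single_eq_same, hw]
    · rw [if_neg h, AddMonoidAlgebra.coeff_zero, Finsupp.zero_apply]

private theorem interp_dil {G : Type*} [AddCommGroup G] (n : ℕ) (g : RG ℤ G) :
    dil n g = ∑ v ∈ g.coeff.support, AddMonoidAlgebra.single (n • v) (g.coeff v) := by
  have h1 := AddMonoidAlgebra.mapDomain_sum (R := ℤ) (fun v : G => n • v) g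
    AddMonoidAlgebra.single
  rw [AddMonoidAlgebra.sum_coeff_single] at h1
  unfold dil
  rw [h1]
  refine Finset.sum_congr rfl fun v _ => ?_
  exact AddMonoidAlgebra.mapDomain_single

open Classical in
/-- The dilations by `1 + r i` as combinations of the parts. -/
private theorem interp_key {r : ℕ} (hr : ∀ t : T, r • t = 0) (g : RG ℤ (A × T)) {S : Finset A}
    (hS : ∀ v ∈ g.coeff.support, v.1 ∈ S) (i : ℕ) :
    dil (1 + r * i) g = ∑ u ∈ S, tr ((r • u, 0) : A × T) ^ i * part u g := by
  have h1 : ∀ u : A, tr ((r • u, 0) : A × T) ^ i * part u g = ∑ v ∈ g.coeff.support,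
      if v.1 = u then tr ((r • u, 0) : A × T) ^ i * AddMonoidAlgebra.single v (g.coeff v)
        else 0 := by
    intro u
    rw [interp_part, Finset.mul_sum]
    refine Finset.sum_congr rfl fun v _ => ?_
    by_cases h : v.1 = u
    · rw [if_pos h, if_pos h]
    · rw [if_neg h, if_neg h, mul_zero]
  rw [interp_dil, Finset.sum_congr rfl fun u _ => h1 u, Finset.sum_comm]
  refine Finset.sum_congr rfl fun v hv => ?_
  rw [Finset.sum_eq_single v.1]
  · rw [if_pos rfl, ← tr_nsmul]
    unfold tr
    rw [AddMonoidAlgebra.single_mul_single, one_mul]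
    congr 1
    refine Prod.ext ?_ ?_
    · change (1 + r * i) • v.1 = i • (r • v.1) + v.1
      rw [add_nsmul, one_nsmul, mul_comm, mul_nsmul', add_comm]
    · change (1 + r * i) • v.2 = i • (0 : T) + v.2
      rw [add_nsmul, one_nsmul, mul_comm, mul_nsmul', hr, smul_zero, add_zero, zero_add]
  · intro u _ hu
    rw [if_neg (Ne.symm hu)]
  · intro h
    exact absurd (hS v hv) h

/-- **Interpolation.**  `A` torsion free, `T` finite; if `g` annihilates, then so does
`part u₀ g * ∏ (1 - X^p)` for a list of elements `p` of infinite order.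
PROOF.  Let `L = B * nrm g`, `r = L! * card T`, `S` = the finite set of first coordinates of the
support of `g` (`S = g.coeff.support.image Prod.fst`), `y u = tr ((r • u, 0) : A × T)`.
For `i ∈ ℕ` let `n = 1 + r * i`.  Every prime divisor of `n` is `> L` (a prime `≤ L` divides `L!`,
so it would divide `1`), so `kills_dil` gives `Kills Γ B (dil n g)`.  As `(1 + r i) • (u, t) =
(i • (r • u), 0) + (u, t)` (because `card T • t = 0`), `dil n g = ∑_{u ∈ S} y u ^ i * part u g`.
Taking the polynomial `c = ∏_{u ∈ S \ {u₀}} (X - C (y u)) ∈ (ℤ[A × T])[X]` and summing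
`c.coeff i * dil (1 + r i) g` over `i` shows that
`∑_{u ∈ S} c.eval (y u) * part u g = c.eval (y u₀) * part u₀ g` annihilates
(if `u₀ ∉ S`, then `part u₀ g = 0` and there is nothing to prove: `ps = []`).
Finally `y u₀ - y u = tr (r • u₀, 0) * (1 - tr (r • (u - u₀), 0))` and the monomial is a unit
(multiply by `tr (-..)`), so `ps` = the list of the `(r • (u - u₀), 0)`, `u ∈ S \ {u₀}`; these have
infinite order by `hA` and `r ≠ 0`. -/
theorem interp [Finite T] (hA : ∀ n : ℕ, n ≠ 0 → ∀ a : A, n • a = 0 → a = 0)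
    {Γ : A × T → ℂ} {B : ℕ} {g : RG ℤ (A × T)} (h : Kills Γ B g) (u₀ : A) :
    ∃ ps : List (A × T), (∀ p ∈ ps, ∀ n : ℕ, n ≠ 0 → n • p ≠ 0) ∧
      Kills Γ B (part u₀ g * dprd ps) := by
  classical
  obtain ⟨r, hr⟩ : ∃ r : ℕ, r = (B * nrm g).factorial * Nat.card T := ⟨_, rfl⟩
  have hr0 : r ≠ 0 := by
    rw [hr]
    exact mul_ne_zero (Nat.factorial_ne_zero _) Nat.card_pos.ne'
  have hrT : ∀ t : T, r • t = 0 := by
    intro t
    rw [hr, mul_nsmul']
    rw [card_nsmul_eq_zero', smul_zero]
  obtain ⟨S, hS⟩ : ∃ S : Finset A, S = insert u₀ (g.coeff.support.image Prod.fst) := ⟨_, rfl⟩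
  have hu₀ : u₀ ∈ S := by
    rw [hS]
    exact Finset.mem_insert_self _ _
  have hSs : ∀ v ∈ g.coeff.support, v.1 ∈ S := by
    intro v hv
    rw [hS]
    exact Finset.mem_insert_of_mem (Finset.mem_image_of_mem _ hv)
  have hdil : ∀ i : ℕ, Kills Γ B (dil (1 + r * i) g) := by
    intro i
    refine kills_dil h (by omega) fun p hp hpd => ?_
    by_contra hcon
    push Not at hcon
    have h1 : p ∣ r * i := by
      have h2 : p ∣ (B * nrm g).factorial := Nat.dvd_factorial hp.pos hcon
      rw [hr]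
      exact (h2.mul_right _).mul_right _
    exact hp.one_lt.ne' (Nat.dvd_one.1 ((Nat.dvd_add_left h1).1 hpd))
  obtain ⟨y, hy⟩ : ∃ y : A → RG ℤ (A × T), ∀ u, y u = tr ((r • u, 0) : A × T) :=
    ⟨_, fun _ => rfl⟩
  obtain ⟨c, hc⟩ : ∃ c : (RG ℤ (A × T))[X], c = ∏ u ∈ S.erase u₀, (X - C (y u)) := ⟨_, rfl⟩
  have h1 : Kills Γ B (∑ i ∈ Finset.range (c.natDegree + 1), c.coeff i * dil (1 + r * i) g) :=
    Kills.sum _ fun i _ => (hdil i).mul_left _
  have h2 : ∑ i ∈ Finset.range (c.natDegree + 1), c.coeff i * dil (1 + r * i) g =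
      ∑ u ∈ S, c.eval (y u) * part u g := by
    have h3 : ∀ i, c.coeff i * dil (1 + r * i) g =
        ∑ u ∈ S, c.coeff i * y u ^ i * part u g := by
      intro i
      rw [interp_key hrT g hSs i, Finset.mul_sum]
      refine Finset.sum_congr rfl fun u _ => ?_
      rw [hy, mul_assoc]
    rw [Finset.sum_congr rfl fun i _ => h3 i, Finset.sum_comm]
    refine Finset.sum_congr rfl fun u _ => ?_
    rw [Polynomial.eval_eq_sum_range, Finset.sum_mul]
  have h3 : ∑ u ∈ S, c.eval (y u) * part u g = c.eval (y u₀) * part u₀ g := by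
    refine Finset.sum_eq_single u₀ (fun u hu hne => ?_) fun hn => absurd hu₀ hn
    have h4 : c.eval (y u) = 0 := by
      rw [hc, Polynomial.eval_prod]
      refine Finset.prod_eq_zero (Finset.mem_erase.2 ⟨hne, hu⟩) ?_
      rw [Polynomial.eval_sub, Polynomial.eval_X, Polynomial.eval_C, sub_self]
    rw [h4, zero_mul]
  rw [h2, h3] at h1
  refine ⟨((S.erase u₀).toList.map fun u => ((r • (u - u₀), 0) : A × T)), ?_, ?_⟩
  · intro p hp n hn hnp
    obtain ⟨u, hu, rfl⟩ := List.mem_map.1 hp
    have h4 : n • (r • (u - u₀)) = 0 := congrArg Prod.fst hnp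
    have h5 := hA r hr0 _ (hA n hn _ h4)
    rw [Finset.mem_toList, Finset.mem_erase] at hu
    exact hu.1 (sub_eq_zero.1 h5)
  · have h4 : ∀ u, y u₀ - y u = tr ((r • u₀, 0) : A × T) *
        (1 - tr ((r • (u - u₀), 0) : A × T)) := by
      intro u
      rw [mul_sub, mul_one, ← tr_add, hy, hy]
      congr 2
      refine Prod.ext ?_ ?_
      · change r • u = r • u₀ + r • (u - u₀)
        rw [smul_sub, add_sub_cancel]
      · exact (add_zero (0 : T)).symm
    have h5 : dprd ((S.erase u₀).toList.map fun u => ((r • (u - u₀), 0) : A × T)) =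
        ∏ u ∈ S.erase u₀, (1 - tr ((r • (u - u₀), 0) : A × T)) := by
      unfold dprd
      rw [List.map_map]
      exact Finset.prod_map_toList _ _
    have h6 : c.eval (y u₀) = tr ((r • u₀, 0) : A × T) ^ (S.erase u₀).card *
        dprd ((S.erase u₀).toList.map fun u => ((r • (u - u₀), 0) : A × T)) := by
      rw [h5, hc, Polynomial.eval_prod, ← Finset.prod_const, ← Finset.prod_mul_distrib]
      refine Finset.prod_congr rfl fun u _ => ?_
      rw [Polynomial.eval_sub, Polynomial.eval_X, Polynomial.eval_C, h4]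
    have h7 : tr (-((r • u₀, 0) : A × T)) * tr ((r • u₀, 0) : A × T) = 1 := by
      rw [← tr_add, neg_add_cancel, tr_zero]
    have h8 := h1.mul_left (tr (-((r • u₀, 0) : A × T)) ^ (S.erase u₀).card)
    have h9 : tr (-((r • u₀, 0) : A × T)) ^ (S.erase u₀).card * (c.eval (y u₀) * part u₀ g) =
        part u₀ g * dprd ((S.erase u₀).toList.map fun u => ((r • (u - u₀), 0) : A × T)) := by
      rw [h6]
      have h10 : tr (-((r • u₀, 0) : A × T)) ^ (S.erase u₀).card *
          tr ((r • u₀, 0) : A × T) ^ (S.erase u₀).card = 1 := by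
        rw [← mul_pow, h7, one_pow]
      rw [mul_assoc (tr ((r • u₀, 0) : A × T) ^ (S.erase u₀).card), ← mul_assoc, h10, one_mul,
        mul_comm]
    rw [h9] at h8
    exact h8

end Pool.Agent.NL53
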