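import Pool.Agent.Lib.MP_53fa4a_an_NL.Fin

/-!
# MP_53fa4a_an: spectra contained in a lattice

If a measurable set `Ω` in `ℝ^d` of positive finite measure has a spectrum contained in a translate
of a lattice, then `Ω` is a multi-tile for some lattice; if `Ω` is bounded, its closure has interior
points.
-/

set_option autoImplicit false

open MeasureTheory Set Filter
open scoped ENNReal Topology ComplexConjugate

namespace Pool.Agent.NL53.LatticeSpectra

/-- The exponential `x ↦ exp (2 π i ⟨l, x⟩)`. -/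
noncomputable def ee {d : ℕ} (l x : EuclideanSpace ℝ (Fin d)) : ℂ :=
  Complex.exp (2 * Real.pi * Complex.I * ((inner ℝ l x : ℝ) : ℂ))

/-- `Λ` is a spectrum of `Ω`: the exponentials with frequencies in `Λ` form an orthogonal and
complete family in `L²(Ω)`. -/
def IsSpectrum {d : ℕ} (Λ Ω : Set (EuclideanSpace ℝ (Fin d))) : Prop :=
  (∀ l ∈ Λ, ∀ l' ∈ Λ, l ≠ l' → ∫ x in Ω, ee l x * conj (ee l' x) = 0) ∧
    ∀ f : EuclideanSpace ℝ (Fin d) → ℂ, MemLp f 2 (volume.restrict Ω) →
      (∀ l ∈ Λ, ∫ x in Ω, f x * conj (ee l x) = 0) → f =ᵐ[volume.restrict Ω] 0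

/-- **Main theorem.**  Let `Λ` be a spectrum of `Ω` such that all differences of elements of `Λ` are
in the lattice spanned by a basis `b` of `ℝ^d`.  Then there are a lattice, spanned by a basis `v`,
and a positive integer `N`, such that almost every point is in exactly `N` translates of `Ω` by
vectors of the lattice; if `Ω` is bounded, its closure has an interior point. -/
theorem result {d : ℕ} {Ω Λ : Set (EuclideanSpace ℝ (Fin d))} (hm : NullMeasurableSet Ω volume)
    (hpos : volume Ω ≠ 0) (hfin : volume Ω ≠ ∞) (hs : IsSpectrum Λ Ω)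
    (b : Module.Basis (Fin d) ℝ (EuclideanSpace ℝ (Fin d)))
    (hΛ : ∀ l ∈ Λ, ∀ l' ∈ Λ, l - l' ∈ Submodule.span ℤ (Set.range b)) :
    (∃ (v : Module.Basis (Fin d) ℝ (EuclideanSpace ℝ (Fin d))) (N : ℕ), 0 < N ∧
      ∀ᵐ x, {l | l ∈ Submodule.span ℤ (Set.range v) ∧ x + l ∈ Ω}.encard = N) ∧
    (Bornology.IsBounded Ω → (interior (closure Ω)).Nonempty) :=
  Pool.Agent.NL53.lattice_main hm hpos hfin hs b hΛ

end Pool.Agent.NL53.LatticeSpectra
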