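import Pool.Agent.Lib.MP_53fa4a_an_NL.ParDef

/-!
# Counting the linear forms
-/

set_option autoImplicit false

open Filter
open scoped BigOperators Topology ComplexConjugate

noncomputable section

namespace Pool.Agent.NL53

private theorem bern (P : ℕ) : ∀ j : ℕ, (P + 1) ^ j ≤ P ^ j + j * (P + 1) ^ (j - 1) := by
  intro j
  induction j with
  | zero => simp
  | succ j ih =>
    have h1 : j * (P * (P + 1) ^ (j - 1)) ≤ j * (P + 1) ^ j := by
      rcases Nat.eq_zero_or_pos j with hj | hj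
      · subst hj
        simp
      · obtain ⟨i, rfl⟩ : ∃ i, j = i + 1 := ⟨j - 1, by omega⟩
        apply Nat.mul_le_mul_left
        rw [Nat.add_sub_cancel, pow_succ, mul_comm]
        exact Nat.mul_le_mul_left _ (Nat.le_succ P)
    have h2 : P * (P + 1) ^ j ≤ P * (P ^ j + j * (P + 1) ^ (j - 1)) := Nat.mul_le_mul_left _ ih
    calc (P + 1) ^ (j + 1) = P * (P + 1) ^ j + (P + 1) ^ j := by ring
      _ ≤ P * (P ^ j + j * (P + 1) ^ (j - 1)) + (P + 1) ^ j := Nat.add_le_add_right h2 _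
      _ = P ^ (j + 1) + j * (P * (P + 1) ^ (j - 1)) + (P + 1) ^ j := by ring
      _ ≤ P ^ (j + 1) + j * (P + 1) ^ j + (P + 1) ^ j := by omega
      _ = P ^ (j + 1) + (j + 1) * (P + 1) ^ (j + 1 - 1) := by
        rw [Nat.add_sub_cancel]
        ring

/-- PROOF: with `Q = q * pM j q ≥ 1`, `M = pM j q`: `Q^j ≤ (Q-1)^j + j Q^(j-1)` (Bernoulli /
telescoping), `j Q^(j-1) = j q^(j-1) M^(j-1)` and `M^j = (j q^(j-1) + 1) M^(j-1) ≥ j Q^(j-1) + 1`
(for `j = 0` everything is `1 ≤ 1 + 1 - 1`), so `(Q-1)^j + M^j ≥ Q^j + 1`.  Multiply by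
`s^(2j) ≥ 1`: `N - R = n^j + (M s^2)^j - n'^j ≥ s^(2j)`, `R ≤ N ≤ τ Q^j s^(2j) ≤ E (N - R)`.
(natural number subtraction: `(M s^2)^j ≤ n'^j`, and `R ≤ N`.) -/
theorem count {j q τ s : ℕ} (hq : 0 < q) (hτ : 0 < τ) (hs : 0 < s) :
    pR j q τ s < pN j q τ s ∧ pR j q τ s ≤ pE j q τ * (pN j q τ s - pR j q τ s) := by
  obtain ⟨M, hM⟩ : ∃ M, M = pM j q := ⟨_, rfl⟩
  have hM1 : 1 ≤ M := by
    rw [hM]
    unfold pM
    omega
  have hQ1 : 1 ≤ q * M := Nat.mul_pos hq hM1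
  have hMQ : M ≤ q * M := Nat.le_mul_of_pos_left M hq
  obtain ⟨P, hP⟩ : ∃ P, q * M = P + 1 := ⟨q * M - 1, by omega⟩
  have hkey : (P + 1) ^ j + 1 ≤ P ^ j + M ^ j := by
    have h1 := bern P j
    rcases Nat.eq_zero_or_pos j with hj | hj
    · subst hj
      simp
    · obtain ⟨i, rfl⟩ : ∃ i, j = i + 1 := ⟨j - 1, by omega⟩
      have h2 : M ^ (i + 1) = (i + 1) * (P + 1) ^ i + M ^ i := by
        rw [← hP, mul_pow, pow_succ]
        have h3 : M = (i + 1) * q ^ i + 1 := by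
          rw [hM]
          rfl
        calc M ^ i * M = M ^ i * ((i + 1) * q ^ i + 1) := by rw [← h3]
          _ = (i + 1) * (q ^ i * M ^ i) + M ^ i := by ring
      have h4 : 1 ≤ M ^ i := Nat.one_le_pow _ _ hM1
      simp only [Nat.add_sub_cancel] at h1
      rw [h2]
      omega
  obtain ⟨S, hS⟩ : ∃ S, S = (s ^ 2) ^ j := ⟨_, rfl⟩
  have hS1 : 1 ≤ S := by
    rw [hS]
    exact Nat.one_le_pow _ _ (Nat.pow_pos hs)
  obtain ⟨t, ht⟩ : ∃ t, τ = t + 1 := ⟨τ - 1, by omega⟩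
  have hn : pn j q s ^ j = P ^ j * S := by
    unfold pn
    rw [← hM, hP, Nat.add_sub_cancel, mul_pow, hS]
  have hn' : pn' j q s ^ j = (P + 1) ^ j * S := by
    unfold pn'
    rw [← hM, hP, mul_pow, hS]
  have hMs : (pM j q * s ^ 2) ^ j = M ^ j * S := by
    rw [← hM, mul_pow, hS]
  have hle : M ^ j * S ≤ (P + 1) ^ j * S := by
    rw [← hP]
    exact Nat.mul_le_mul_right _ (Nat.pow_le_pow_left hMQ j)
  have hmul : (P + 1) ^ j * S + S ≤ P ^ j * S + M ^ j * S := by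
    calc (P + 1) ^ j * S + S = ((P + 1) ^ j + 1) * S := by ring
      _ ≤ (P ^ j + M ^ j) * S := Nat.mul_le_mul_right _ hkey
      _ = P ^ j * S + M ^ j * S := by ring
  have hNR : pR j q τ s + S ≤ pN j q τ s := by
    unfold pR pN
    rw [hn, hn', hMs, ht, Nat.add_sub_cancel]
    have h5 : (t + 1) * (P ^ j * S) = t * (P ^ j * S) + P ^ j * S := by ring
    rw [h5]
    omega
  refine ⟨by omega, ?_⟩
  have h6 : S ≤ pN j q τ s - pR j q τ s := by omega
  have h7 : pN j q τ s ≤ pE j q τ * S := by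
    unfold pN pE
    rw [hn, ← hM, hP, ← mul_assoc]
    exact Nat.mul_le_mul_right _ (Nat.mul_le_mul_left _ (Nat.pow_le_pow_left (Nat.le_succ P) j))
  calc pR j q τ s ≤ pN j q τ s := by omega
    _ ≤ pE j q τ * S := h7
    _ ≤ pE j q τ * (pN j q τ s - pR j q τ s) := Nat.mul_le_mul_left _ h6

end Pool.Agent.NL53
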