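import Pool.Agent.Lib.MP_53fa4a_an_NL.ParDef

/-!
# Choice of the parameter
-/

set_option autoImplicit false

open Filter
open scoped BigOperators Topology ComplexConjugate

noncomputable section

namespace Pool.Agent.NL53

private theorem parb_pn (j q s : ℕ) : pn' j q s ^ j = (q * pM j q) ^ j * s ^ (2 * j) := by
  rw [pn', mul_pow, ← pow_mul]

private theorem parb_pN (j q τ s : ℕ) : pN j q τ s ≤ τ * (q * pM j q) ^ j * s ^ (2 * j) := by
  have h1 : pn j q s ≤ pn' j q s := Nat.mul_le_mul_right _ (Nat.sub_le _ _)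
  have h2 : pn j q s ^ j ≤ pn' j q s ^ j := Nat.pow_le_pow_left h1 j
  rw [parb_pn] at h2
  rw [pN, mul_assoc]
  exact Nat.mul_le_mul_left τ h2

private theorem parb_pH (j q τ B s : ℕ) : pH j q τ B s ≤
    (64 * (B + 1) * τ ^ 2 * (q * pM j q) ^ (2 * j)) ^ pE j q τ * s ^ (4 * j * pE j q τ) := by
  have h1 : 8 * pN j q τ s * pδ j q τ B s ≤
      64 * (B + 1) * τ ^ 2 * (q * pM j q) ^ (2 * j) * s ^ (4 * j) := by
    calc 8 * pN j q τ s * pδ j q τ B s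
        ≤ 8 * (τ * (q * pM j q) ^ j * s ^ (2 * j)) *
          (8 * (B + 1) * τ * ((q * pM j q) ^ j * s ^ (2 * j))) := by
          rw [pδ, parb_pn]
          exact Nat.mul_le_mul_right _ (Nat.mul_le_mul_left _ (parb_pN j q τ s))
      _ = 64 * (B + 1) * τ ^ 2 * (q * pM j q) ^ (2 * j) * s ^ (4 * j) := by
          rw [show 2 * j = j + j by ring, show 4 * j = (j + j) + (j + j) by ring, pow_add,
            pow_add _ (j + j), pow_add _ j]
          ring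
  rw [pH, pow_mul s (4 * j), ← mul_pow]
  exact Nat.pow_le_pow_left h1 _

/-- PROOF: `pn' ≤ q M s^2`, `pN ≤ τ (q M)^j s^(2j)`, `pδ`, `pH` are at most `C * s^D` for constants
`C`, `D` depending on `j, q, τ, B`; so the left side is at most `C s^D f(s)^s`, and
`f(s) ≤ 1/2` for large `s`, `s^D (1/2)^s → 0`
(`tendsto_pow_const_mul_const_pow_of_abs_lt_one`). -/
theorem params (j q τ B : ℕ) {f : ℕ → ℝ} (hf0 : ∀ s, 0 ≤ f s) (hf : Tendsto f atTop (𝓝 0)) :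
    ∃ s : ℕ, 0 < s ∧
      8 * (pH j q τ B s : ℝ) * pN j q τ s * (B + 1) * τ * (pn' j q s : ℝ) ^ j * f s ^ s < 1 := by
  obtain ⟨E, hE⟩ : ∃ E, E = pE j q τ := ⟨_, rfl⟩
  obtain ⟨A, hA⟩ : ∃ A, A = q * pM j q := ⟨_, rfl⟩
  obtain ⟨C, hC⟩ : ∃ C : ℝ, C = 8 * ((64 * (B + 1) * τ ^ 2 * A ^ (2 * j) : ℕ) : ℝ) ^ E *
    ((τ * A ^ j : ℕ) : ℝ) * (B + 1) * τ * (A : ℝ) ^ j := ⟨_, rfl⟩
  have hC0 : 0 ≤ C := by
    rw [hC]
    positivity
  have key : ∀ s : ℕ, 8 * (pH j q τ B s : ℝ) * pN j q τ s * (B + 1) * τ *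
      (pn' j q s : ℝ) ^ j ≤ C * (s : ℝ) ^ (4 * j * E + 4 * j) := by
    intro s
    have h1 : (pH j q τ B s : ℝ) ≤ ((64 * (B + 1) * τ ^ 2 * A ^ (2 * j) : ℕ) : ℝ) ^ E *
        (s : ℝ) ^ (4 * j * E) := by
      have h := parb_pH j q τ B s
      rw [← hE, ← hA] at h
      exact_mod_cast h
    have h2 : (pN j q τ s : ℝ) ≤ ((τ * A ^ j : ℕ) : ℝ) * (s : ℝ) ^ (2 * j) := by
      have h := parb_pN j q τ s
      rw [← hA] at h
      exact_mod_cast h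
    have h3 : (pn' j q s : ℝ) ^ j = (A : ℝ) ^ j * (s : ℝ) ^ (2 * j) := by
      have h := parb_pn j q s
      rw [← hA] at h
      exact_mod_cast h
    rw [h3]
    calc 8 * (pH j q τ B s : ℝ) * pN j q τ s * (B + 1) * τ * ((A : ℝ) ^ j * (s : ℝ) ^ (2 * j))
        ≤ 8 * (((64 * (B + 1) * τ ^ 2 * A ^ (2 * j) : ℕ) : ℝ) ^ E * (s : ℝ) ^ (4 * j * E)) *
          (((τ * A ^ j : ℕ) : ℝ) * (s : ℝ) ^ (2 * j)) * (B + 1) * τ *
          ((A : ℝ) ^ j * (s : ℝ) ^ (2 * j)) := by gcongr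
      _ = C * (s : ℝ) ^ (4 * j * E + 4 * j) := by
          rw [hC, show 4 * j * E + 4 * j = 4 * j * E + (2 * j + 2 * j) by ring, pow_add, pow_add]
          ring
  have h5 : Tendsto (fun s : ℕ => (s : ℝ) ^ (4 * j * E + 4 * j) * (1 / 2 : ℝ) ^ s) atTop
      (𝓝 0) := by
    refine tendsto_pow_const_mul_const_pow_of_abs_lt_one _ ?_
    rw [abs_of_pos (by norm_num)]
    norm_num
  have h6 : Tendsto (fun s : ℕ => C * ((s : ℝ) ^ (4 * j * E + 4 * j) * (1 / 2 : ℝ) ^ s)) atTop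
      (𝓝 0) := by
    have h := h5.const_mul C
    rwa [mul_zero] at h
  have h7 := h6.eventually (gt_mem_nhds (show (0 : ℝ) < 1 by norm_num))
  have h8 := hf.eventually (gt_mem_nhds (show (0 : ℝ) < 1 / 2 by norm_num))
  obtain ⟨s, ⟨hs1, hs2⟩, hs3⟩ := ((h7.and h8).and (eventually_gt_atTop 0)).exists
  refine ⟨s, hs3, lt_of_le_of_lt ?_ hs1⟩
  rw [← mul_assoc]
  exact mul_le_mul (key s) (pow_le_pow_left₀ (hf0 s) hs2.le s) (pow_nonneg (hf0 s) s)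
    (by positivity)

end Pool.Agent.NL53
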