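import Pool.Agent.Lib.MP_53fa4a_an_NL.Defs

/-!
# The part of an element over a point of the torsion free factor
-/

set_option autoImplicit false

open Polynomial
open scoped BigOperators ComplexConjugate

noncomputable section

namespace Pool.Agent.NL53

variable {A T : Type*} [AddCommGroup A] [AddCommGroup T]

open Classical in
/-- the part of `g ∈ ℤ[A × T]` over `u ∈ A` -/
def part (u : A) (g : RG ℤ (A × T)) : RG ℤ (A × T) :=
  AddMonoidAlgebra.ofCoeff (g.coeff.filter fun v => v.1 = u)

private theorem partDef_zero (u : A) : part u (0 : RG ℤ (A × T)) = 0 := by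
  classical
  refine AddMonoidAlgebra.ext ?_
  change Finsupp.filter _ (0 : (A × T) →₀ ℤ) = 0
  exact Finsupp.filter_zero _

private theorem partDef_add (u : A) (g h : RG ℤ (A × T)) :
    part u (g + h) = part u g + part u h := by
  classical
  refine AddMonoidAlgebra.ext ?_
  change Finsupp.filter _ (g.coeff + h.coeff) = Finsupp.filter _ g.coeff + Finsupp.filter _ h.coeff
  exact Finsupp.filter_add

private theorem partDef_pos {u : A} {v : A × T} (h : v.1 = u) (c : ℤ) :
    part u (AddMonoidAlgebra.single v c : RG ℤ (A × T)) = AddMonoidAlgebra.single v c := by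
  classical
  refine AddMonoidAlgebra.ext ?_
  change Finsupp.filter _ (Finsupp.single v c) = Finsupp.single v c
  exact Finsupp.filter_single_of_pos _ h

private theorem partDef_neg {u : A} {v : A × T} (h : ¬ v.1 = u) (c : ℤ) :
    part u (AddMonoidAlgebra.single v c : RG ℤ (A × T)) = 0 := by
  classical
  refine AddMonoidAlgebra.ext ?_
  change Finsupp.filter _ (Finsupp.single v c) = 0
  exact Finsupp.filter_single_of_neg _ h

/-- the action of the part over `u` -/
theorem act_part [Fintype T] (u : A) (g : RG ℤ (A × T)) (F : A × T → ℤ) (x : A × T) :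
    act (part u g) F x = ∑ t : T, g.coeff (u, t) * F (x + (u, t)) := by
  classical
  induction g using AddMonoidAlgebra.induction_linear with
  | zero =>
    rw [partDef_zero, act_zero, Pi.zero_apply]
    refine (Finset.sum_eq_zero fun t _ => ?_).symm
    rw [AddMonoidAlgebra.coeff_zero, Finsupp.zero_apply, zero_mul]
  | add g h hg hh =>
    rw [partDef_add, act_add, Pi.add_apply, hg, hh, ← Finset.sum_add_distrib]
    refine Finset.sum_congr rfl fun t _ => ?_
    rw [AddMonoidAlgebra.coeff_add, Finsupp.add_apply, add_mul]
  | single v c =>
    by_cases hv : v.1 = u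
    · subst hv
      rw [partDef_pos rfl, act_single, Finset.sum_eq_single v.2]
      · rw [AddMonoidAlgebra.coeff_single, Finsupp.single_eq_same, smul_eq_mul]
      · intro t _ ht
        rw [AddMonoidAlgebra.coeff_single, Finsupp.single_eq_of_ne, zero_mul]
        intro h
        exact ht (congrArg Prod.snd h)
      · intro h
        exact absurd (Finset.mem_univ _) h
    · rw [partDef_neg hv, act_zero, Pi.zero_apply]
      refine (Finset.sum_eq_zero fun t _ => ?_).symm
      rw [AddMonoidAlgebra.coeff_single, Finsupp.single_eq_of_ne, zero_mul]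
      intro h
      exact hv (congrArg Prod.fst h).symm

end Pool.Agent.NL53
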