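import Mathlib

/-!
# Siegel's lemma for complex linear forms (pigeonhole principle)
-/

set_option autoImplicit false

open Filter
open scoped BigOperators Topology ComplexConjugate

noncomputable section

namespace Pool.Agent.NL53

/-- The count of the cells. -/
private theorem pigeon_card (N R E δ : ℕ) (hδ : 0 < δ) (hlt : R < N) (hE : R ≤ E * (N - R)) :
    (8 * (8 * N * δ) ^ E * N * δ + 1) ^ R < ((8 * N * δ) ^ E + 1) ^ N := by
  obtain ⟨q, hq⟩ : ∃ q, q = 8 * N * δ := ⟨_, rfl⟩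
  obtain ⟨H, hH⟩ : ∃ H, H = (8 * N * δ) ^ E := ⟨_, rfl⟩
  have hN : 0 < N := by omega
  have hq1 : 1 ≤ q := by
    rw [hq]
    exact Nat.mul_pos (Nat.mul_pos (by norm_num) hN) hδ
  rw [← hH]
  rw [← hq] at hH
  have h1 : 8 * H * N * δ + 1 ≤ (H + 1) * q := by
    have h2 : 8 * H * N * δ = H * q := by
      rw [hq]
      ring
    rw [h2, add_mul, one_mul]
    omega
  have h3 : q ^ R ≤ H ^ (N - R) := by
    rw [hH, ← pow_mul]
    exact Nat.pow_le_pow_right hq1 hE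
  have h4 : H ^ (N - R) < (H + 1) ^ (N - R) :=
    Nat.pow_lt_pow_left (Nat.lt_succ_self H) (by omega)
  calc (8 * H * N * δ + 1) ^ R ≤ ((H + 1) * q) ^ R := Nat.pow_le_pow_left h1 R
    _ = (H + 1) ^ R * q ^ R := mul_pow _ _ _
    _ ≤ (H + 1) ^ R * H ^ (N - R) := Nat.mul_le_mul_left _ h3
    _ < (H + 1) ^ R * (H + 1) ^ (N - R) :=
        Nat.mul_lt_mul_of_pos_left h4 (pow_pos (Nat.succ_pos H) R)
    _ = (H + 1) ^ N := by
        rw [← pow_add]
        congr 1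
        omega

/-- Two real numbers in one cell. -/
private theorem pigeon_cell (x y c d : ℝ) (hd : 0 < d) (hx : 0 ≤ (x + c) * (2 * d))
    (hy : 0 ≤ (y + c) * (2 * d)) (h : ⌊(x + c) * (2 * d)⌋₊ = ⌊(y + c) * (2 * d)⌋₊) :
    |x - y| ≤ 1 / (2 * d) := by
  have h1 := Nat.floor_le hx
  have h2 := Nat.lt_floor_add_one ((x + c) * (2 * d))
  have h3 := Nat.floor_le hy
  have h4 := Nat.lt_floor_add_one ((y + c) * (2 * d))
  rw [h] at h1 h2
  rw [le_div_iff₀ (by positivity), ← abs_of_pos (show (0 : ℝ) < 2 * d by positivity), ← abs_mul,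
    abs_le]
  constructor
  · linarith
  · linarith

/-- **Pigeonhole.**  `N = card ι` unknown Gaussian integers `g i = (g i).1 + (g i).2 * I`,
`R = card κ < N` linear forms with coefficients of absolute value `≤ 1`.
PROOF.  Let `H = (8 N δ)^E`.  Consider the `(H+1)^(2N)` vectors `g : ι → Fin (H+1) × Fin (H+1)`
(real and imaginary parts between `0` and `H`).  The real and imaginary parts of every form lie in
`[-2HN, 2HN]`; put `g` into the cell given by the integers `⌊(Re + 2HN) * 2δ⌋`, `⌊(Im + 2HN) * 2δ⌋`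
in `{0, ..., 8HNδ}`; there are `(8HNδ+1)^(2R)` cells.  `8HNδ + 1 ≤ (H+1) * (8Nδ)` and
`(H+1)^(N-R) > H^(N-R) = (8Nδ)^(E(N-R)) ≥ (8Nδ)^R` (`N ≥ 1`, `δ ≥ 1`, `R ≤ E (N-R)`, and
`N - R ≥ 1`), so `(8HNδ+1)^(2R) < (H+1)^(2N)` and two different vectors are in one cell
(`Fintype.exists_ne_map_eq_of_card_lt`); their difference `g ≠ 0` has real and imaginary parts at
most `H` in absolute value and every form has real and imaginary part `≤ 1/(2δ)` in absolute value,
so its norm is at most `1/δ`. -/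
theorem pigeon {ι κ : Type*} [Fintype ι] [Fintype κ] (a : κ → ι → ℂ) (ha : ∀ k i, ‖a k i‖ ≤ 1)
    (E δ : ℕ) (hδ : 0 < δ) (hlt : Fintype.card κ < Fintype.card ι)
    (hE : Fintype.card κ ≤ E * (Fintype.card ι - Fintype.card κ)) :
    ∃ g : ι → ℤ × ℤ, g ≠ 0 ∧
      (∀ i, |(g i).1| ≤ ((8 * Fintype.card ι * δ) ^ E : ℕ) ∧
        |(g i).2| ≤ ((8 * Fintype.card ι * δ) ^ E : ℕ)) ∧
      ∀ k, ‖∑ i, a k i * (((g i).1 : ℂ) + ((g i).2 : ℂ) * Complex.I)‖ ≤ 1 / δ := by
  classical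
  obtain ⟨H, hH⟩ : ∃ H, H = (8 * Fintype.card ι * δ) ^ E := ⟨_, rfl⟩
  obtain ⟨N, hN⟩ : ∃ N, N = Fintype.card ι := ⟨_, rfl⟩
  have hcard : (8 * H * N * δ + 1) ^ Fintype.card κ < (H + 1) ^ N := by
    rw [hH, hN]
    exact pigeon_card _ _ E δ hδ hlt hE
  rw [← hH]
  obtain ⟨L, hL⟩ : ∃ L : (ι → Fin (H + 1) × Fin (H + 1)) → κ → ℂ, ∀ g k,
      L g k = ∑ i, a k i * ((((g i).1 : ℕ) : ℂ) + (((g i).2 : ℕ) : ℂ) * Complex.I) :=
    ⟨_, fun _ _ => rfl⟩
  have hLn : ∀ g k, ‖L g k‖ ≤ 2 * H * N := by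
    intro g k
    rw [hL]
    have h1 : ∀ i ∈ (Finset.univ : Finset ι),
        ‖a k i * ((((g i).1 : ℕ) : ℂ) + (((g i).2 : ℕ) : ℂ) * Complex.I)‖ ≤ 2 * (H : ℝ) := by
      intro i _
      rw [norm_mul]
      have h2 : ‖((((g i).1 : ℕ) : ℂ) + (((g i).2 : ℕ) : ℂ) * Complex.I)‖ ≤ 2 * (H : ℝ) := by
        refine (norm_add_le _ _).trans ?_
        rw [norm_mul, Complex.norm_I, mul_one, Complex.norm_natCast, Complex.norm_natCast]
        have h3 : (((g i).1 : ℕ) : ℝ) ≤ H := by exact_mod_cast Nat.lt_succ_iff.1 (g i).1.2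
        have h4 : (((g i).2 : ℕ) : ℝ) ≤ H := by exact_mod_cast Nat.lt_succ_iff.1 (g i).2.2
        linarith
      calc ‖a k i‖ * ‖((((g i).1 : ℕ) : ℂ) + (((g i).2 : ℕ) : ℂ) * Complex.I)‖
          ≤ 1 * (2 * (H : ℝ)) := mul_le_mul (ha k i) h2 (norm_nonneg _) zero_le_one
        _ = 2 * (H : ℝ) := one_mul _
    refine (norm_sum_le_of_le _ h1).trans ?_
    rw [Finset.sum_const, Finset.card_univ, nsmul_eq_mul, ← hN]
    linarith
  have hd0 : (0 : ℝ) < δ := by exact_mod_cast hδ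
  have hre : ∀ g k, 0 ≤ ((L g k).re + 2 * H * N) * (2 * δ) ∧
      ((L g k).re + 2 * H * N) * (2 * δ) < ((8 * H * N * δ + 1 : ℕ) : ℝ) := by
    intro g k
    have h1 := abs_le.1 ((Complex.abs_re_le_norm (L g k)).trans (hLn g k))
    constructor
    · exact mul_nonneg (by linarith) (by positivity)
    · push_cast
      have h2 : ((L g k).re + 2 * H * N) * (2 * δ) ≤ (2 * H * N + 2 * H * N) * (2 * δ) :=
        mul_le_mul_of_nonneg_right (by linarith) (by positivity)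
      nlinarith
  have him : ∀ g k, 0 ≤ ((L g k).im + 2 * H * N) * (2 * δ) ∧
      ((L g k).im + 2 * H * N) * (2 * δ) < ((8 * H * N * δ + 1 : ℕ) : ℝ) := by
    intro g k
    have h1 := abs_le.1 ((Complex.abs_im_le_norm (L g k)).trans (hLn g k))
    constructor
    · exact mul_nonneg (by linarith) (by positivity)
    · push_cast
      have h2 : ((L g k).im + 2 * H * N) * (2 * δ) ≤ (2 * H * N + 2 * H * N) * (2 * δ) :=
        mul_le_mul_of_nonneg_right (by linarith) (by positivity)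
      nlinarith
  obtain ⟨f, hf1, hf2⟩ : ∃ f : (ι → Fin (H + 1) × Fin (H + 1)) →
      (κ → Fin (8 * H * N * δ + 1) × Fin (8 * H * N * δ + 1)),
      (∀ g k, ((f g k).1 : ℕ) = ⌊((L g k).re + 2 * H * N) * (2 * δ)⌋₊) ∧
      ∀ g k, ((f g k).2 : ℕ) = ⌊((L g k).im + 2 * H * N) * (2 * δ)⌋₊ :=
    ⟨fun g k => (⟨⌊((L g k).re + 2 * H * N) * (2 * δ)⌋₊,
        (Nat.floor_lt (hre g k).1).2 (hre g k).2⟩,
      ⟨⌊((L g k).im + 2 * H * N) * (2 * δ)⌋₊, (Nat.floor_lt (him g k).1).2 (him g k).2⟩),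
      fun _ _ => rfl, fun _ _ => rfl⟩
  have hc : Fintype.card (κ → Fin (8 * H * N * δ + 1) × Fin (8 * H * N * δ + 1)) <
      Fintype.card (ι → Fin (H + 1) × Fin (H + 1)) := by
    rw [Fintype.card_fun, Fintype.card_fun, Fintype.card_prod, Fintype.card_prod,
      Fintype.card_fin, Fintype.card_fin, mul_pow, mul_pow, ← hN]
    exact Nat.mul_lt_mul'' hcard hcard
  obtain ⟨g, g', hne, hgg⟩ := Fintype.exists_ne_map_eq_of_card_lt f hc
  refine ⟨fun i => (((g i).1 : ℕ) - ((g' i).1 : ℕ), ((g i).2 : ℕ) - ((g' i).2 : ℕ)),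
    ?_, fun i => ?_, fun k => ?_⟩
  · intro h
    apply hne
    funext i
    have h1 := congrFun h i
    simp only [Pi.zero_apply, Prod.ext_iff, Prod.fst_zero, Prod.snd_zero, sub_eq_zero] at h1
    refine Prod.ext (Fin.ext ?_) (Fin.ext ?_)
    · exact_mod_cast h1.1
    · exact_mod_cast h1.2
  · have h1 := (g i).1.2
    have h2 := (g' i).1.2
    have h3 := (g i).2.2
    have h4 := (g' i).2.2
    constructor
    · rw [abs_le]
      constructor <;> simp only <;> omega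
    · rw [abs_le]
      constructor <;> simp only <;> omega
  · have h1 : ∑ i, a k i * (((((g i).1 : ℕ) - ((g' i).1 : ℕ) : ℤ) : ℂ) +
        ((((g i).2 : ℕ) - ((g' i).2 : ℕ) : ℤ) : ℂ) * Complex.I) = L g k - L g' k := by
      rw [hL, hL, ← Finset.sum_sub_distrib]
      refine Finset.sum_congr rfl fun i _ => ?_
      push_cast
      ring
    have h2 : |(L g k).re - (L g' k).re| ≤ 1 / (2 * δ) := by
      refine pigeon_cell _ _ (2 * H * N) δ hd0 (hre g k).1 (hre g' k).1 ?_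
      rw [← hf1, ← hf1, hgg]
    have h3 : |(L g k).im - (L g' k).im| ≤ 1 / (2 * δ) := by
      refine pigeon_cell _ _ (2 * H * N) δ hd0 (him g k).1 (him g' k).1 ?_
      rw [← hf2, ← hf2, hgg]
    have h4 := Complex.norm_le_abs_re_add_abs_im (L g k - L g' k)
    rw [Complex.sub_re, Complex.sub_im] at h4
    have h5 : (1 : ℝ) / δ = 1 / (2 * δ) + 1 / (2 * δ) := by
      field_simp
      norm_num
    simp only
    rw [h1, h5]
    linarith

end Pool.Agent.NL53
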