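import Mathlib

/-!
# The rank of a quotient by an element of infinite order
-/

set_option autoImplicit false

open Polynomial
open scoped BigOperators ComplexConjugate

noncomputable section

namespace Pool.Agent.NL53

/-- PROOF: `AddSubgroup.zmultiples p` is a `ℤ`-submodule of rank one (`p` is not torsion) and
the rank is additive in short exact sequences (`Submodule.finrank_quotient_add_finrank` or
`rank_quotient_add_rank_of_isDomain`); finitely generated modules. -/
theorem finrank_quot_lt {G : Type*} [AddCommGroup G] [AddGroup.FG G] {p : G}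
    (hp : ∀ n : ℕ, n ≠ 0 → n • p ≠ 0) :
    Module.finrank ℤ (G ⧸ AddSubgroup.zmultiples p) < Module.finrank ℤ G := by
  have : Module.Finite ℤ G := Module.Finite.iff_addGroup_fg.2 inferInstance
  let q : G →ₗ[ℤ] (G ⧸ AddSubgroup.zmultiples p) :=
    (QuotientAddGroup.mk' (AddSubgroup.zmultiples p)).toIntLinearMap
  have hq : Function.Surjective q := QuotientAddGroup.mk'_surjective _
  have h1 := Submodule.finrank_quotient_add_finrank (LinearMap.ker q)
  rw [(q.quotKerEquivOfSurjective hq).finrank_eq] at h1
  have hker : p ∈ LinearMap.ker q := by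
    rw [LinearMap.mem_ker]
    exact (QuotientAddGroup.eq_zero_iff p).2 (AddSubgroup.mem_zmultiples p)
  have h2 : Module.finrank ℤ (LinearMap.ker q) ≠ 0 := by
    intro h0
    rw [Module.finrank_eq_zero_iff] at h0
    obtain ⟨a, ha, h⟩ := h0 ⟨p, hker⟩
    have h3 : a • p = 0 := by
      have := congrArg Subtype.val h
      simpa using this
    have h4 : a.natAbs • p = 0 := by
      rcases Int.natAbs_eq a with h5 | h5
      · rw [← natCast_zsmul, ← h5, h3]
      · rw [← natCast_zsmul, ← neg_eq_zero, ← neg_zsmul, ← h5, h3]
    exact hp a.natAbs (by simpa using ha) h4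
  omega

end Pool.Agent.NL53
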