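import Pool.Agent.Lib.MP_53fa4a_an_NL.Box

/-!
# Characters of `ℤ^j`; the symbol near a nonvanishing point
-/

set_option autoImplicit false

open Filter
open scoped BigOperators Topology ComplexConjugate

noncomputable section

namespace Pool.Agent.NL53

private theorem ex_eq_prod {j : ℕ} (w : Fin j → ℤ) (ξ : Fin j → ℝ) :
    ex w ξ = ∏ i, Complex.exp (2 * Real.pi * Complex.I * (ξ i : ℂ)) ^ (w i) := by
  unfold ex
  rw [Complex.ofReal_sum, Finset.mul_sum, Complex.exp_sum]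
  refine Finset.prod_congr rfl fun i _ => ?_
  rw [← Complex.exp_int_mul]
  congr 1
  push_cast
  ring

private theorem exists_frac (z : Circle) :
    ∃ t : ℝ, (0 ≤ t ∧ t < 1) ∧ (z : ℂ) = Complex.exp (2 * Real.pi * Complex.I * (t : ℂ)) := by
  refine ⟨Int.fract (Complex.arg z / (2 * Real.pi)), ⟨Int.fract_nonneg _, Int.fract_lt_one _⟩, ?_⟩
  have h1 : (2 * Real.pi * Complex.I *
      ((Int.fract (Complex.arg z / (2 * Real.pi)) : ℝ) : ℂ)) =
      (Complex.arg z : ℂ) * Complex.I -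
        (⌊Complex.arg z / (2 * Real.pi)⌋ : ℤ) * (2 * Real.pi * Complex.I) := by
    rw [← Int.self_sub_floor]
    push_cast
    have h2 : (Real.pi : ℂ) ≠ 0 := by exact_mod_cast Real.pi_ne_zero
    field_simp
  rw [h1, Complex.exp_sub, Complex.exp_int_mul_two_pi_mul_I, div_one]
  have h3 := Complex.norm_mul_exp_arg_mul_I (z : ℂ)
  rw [Circle.norm_coe, Complex.ofReal_one, one_mul] at h3
  exact h3.symm

private theorem char_sum {G ι : Type*} [AddCommGroup G] (b : AddChar G Circle) (s : Finset ι)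
    (f : ι → G) : b (∑ i ∈ s, f i) = ∏ i ∈ s, b (f i) := by
  classical
  induction s using Finset.induction_on with
  | empty => simp
  | insert a s ha ih => rw [Finset.sum_insert ha, Finset.prod_insert ha,
      AddChar.map_add_eq_mul, ih]

/-- Every unitary character of `ℤ^j` is `w ↦ exp (2πi ⟨w, ξ⟩)` with `ξ ∈ [0,1)^j`.
PROOF: `b (Pi.single i 1) = exp (2πi ξ_i)` with `ξ_i` the fractional part of `arg / 2π`
(`Circle.exp` is surjective), and `w = ∑_i w_i • e_i`. -/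
theorem char_repr {j : ℕ} (b : AddChar (Fin j → ℤ) Circle) :
    ∃ ξ : Fin j → ℝ, (∀ i, 0 ≤ ξ i ∧ ξ i < 1) ∧ ∀ w, ((b w : Circle) : ℂ) = ex w ξ := by
  choose ξ h1 h2 using fun i : Fin j => exists_frac (b (Pi.single i 1))
  refine ⟨ξ, h1, fun w => ?_⟩
  have h3 : w = ∑ i, w i • (Pi.single i 1 : Fin j → ℤ) := by
    funext l
    rw [Finset.sum_apply, Finset.sum_eq_single l]
    · simp
    · intro i _ hi
      simp [Pi.single_eq_of_ne (Ne.symm hi)]
    · intro h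
      exact absurd (Finset.mem_univ _) h
  have h4 : b w = ∏ i, b (Pi.single i 1) ^ (w i) := by
    conv_lhs => rw [h3]
    rw [char_sum]
    refine Finset.prod_congr rfl fun i _ => ?_
    rw [AddChar.map_zsmul_eq_zpow]
  rw [h4, ex_eq_prod, ← Circle.coeHom_apply, map_prod]
  refine Finset.prod_congr rfl fun i _ => ?_
  rw [map_zpow, Circle.coeHom_apply, h2]

/-- **A rational box.**  PROOF: `γ(ξ) = ∑' w, κ w * ex w ξ` is continuous (`continuous_tsum` with
bound `‖κ w‖`), so `|γ| ≥ |γ(ξ₀)|/2 =: c` for `|ξ_i - ξ₀_i| < η` (all `i`); take `q > 1/η` and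
`a i = ⌊q ξ₀_i⌋` (`< q`). -/
theorem good_box {j : ℕ} {κ : (Fin j → ℤ) → ℂ} (hκ : Summable fun w => ‖κ w‖) {ξ₀ : Fin j → ℝ}
    (h0 : ∀ i, 0 ≤ ξ₀ i ∧ ξ₀ i < 1) (hne : ∑' w, κ w * ex w ξ₀ ≠ 0) :
    ∃ (q : ℕ) (a : Fin j → ℕ) (c : ℝ), 0 < q ∧ 0 < c ∧ (∀ i, a i < q) ∧
      ∀ ξ : Fin j → ℝ, (∀ i, (a i : ℝ) ≤ q * ξ i ∧ q * ξ i < a i + 1) →
        c ≤ ‖∑' w, κ w * ex w ξ‖ := by
  have hcont : Continuous fun ξ : Fin j → ℝ => ∑' w, κ w * ex w ξ := by
    refine continuous_tsum (fun w => ?_) hκ fun w ξ => ?_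
    · unfold ex
      fun_prop
    · rw [norm_mul, norm_ex, mul_one]
  have hc : 0 < ‖∑' w, κ w * ex w ξ₀‖ / 2 := by
    have := norm_pos_iff.2 hne
    linarith
  obtain ⟨η, hη, h⟩ := Metric.continuous_iff.1 hcont ξ₀ _ hc
  obtain ⟨q, hq⟩ := exists_nat_gt (1 / η)
  have hq0 : (0 : ℝ) < q := lt_trans (by positivity) hq
  have hq1 : 0 < q := by exact_mod_cast hq0
  have hqη : 1 / (q : ℝ) < η := by
    rw [div_lt_iff₀ hη] at hq
    rw [div_lt_iff₀ hq0]
    linarith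
  refine ⟨q, fun i => ⌊q * ξ₀ i⌋₊, _, hq1, hc, fun i => ?_, fun ξ hξ => ?_⟩
  · rw [Nat.floor_lt (mul_nonneg hq0.le (h0 i).1)]
    have := mul_lt_mul_of_pos_left (h0 i).2 hq0
    linarith
  · have hd : dist ξ ξ₀ < η := by
      rw [dist_pi_lt_iff hη]
      intro i
      have h1 := Nat.floor_le (mul_nonneg hq0.le (h0 i).1)
      have h2 := Nat.lt_floor_add_one ((q : ℝ) * ξ₀ i)
      obtain ⟨h3, h4⟩ := hξ i
      have h5 : |(q : ℝ) * (ξ i - ξ₀ i)| < 1 := by
        rw [abs_lt]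
        constructor <;> nlinarith
      rw [abs_mul, abs_of_pos hq0] at h5
      rw [Real.dist_eq]
      refine lt_trans ?_ hqη
      rw [lt_div_iff₀ hq0]
      linarith
    have h6 := h ξ hd
    rw [dist_eq_norm] at h6
    have h7 := norm_sub_norm_le (∑' w, κ w * ex w ξ₀) (∑' w, κ w * ex w ξ)
    rw [norm_sub_rev] at h7
    linarith

end Pool.Agent.NL53
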