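import Pool.Agent.Lib.MP_53fa4a_an_NL.Est
import Pool.Agent.Lib.MP_53fa4a_an_NL.SymA
import Pool.Agent.Lib.MP_53fa4a_an_NL.ParA
import Pool.Agent.Lib.MP_53fa4a_an_NL.ParB
import Pool.Agent.Lib.MP_53fa4a_an_NL.Pig

/-!
# The Siegel argument: an annihilator with nonvanishing `χ`-component
-/

set_option autoImplicit false

open Filter
open scoped BigOperators Topology ComplexConjugate

noncomputable section

namespace Pool.Agent.NL53

private theorem sga_card (j : ℕ) (n : ℕ) : (bx j 0 n).card = n ^ j := by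
  unfold bx
  rw [Fintype.card_piFinset]
  simp

/-- the number of points of the box `k_i / m = a_i` -/
private theorem sga_card_box {j q m : ℕ} (hm : 0 < m) {a : Fin j → ℕ} (ha : ∀ i, a i < q) :
    ((bx j 0 (q * m : ℕ)).filter fun k => ∀ i, k i / (m : ℤ) = a i).card = m ^ j := by
  classical
  have h1 : (bx j 0 (q * m : ℕ)).filter (fun k => ∀ i, k i / (m : ℤ) = a i) =
      Fintype.piFinset fun i => Finset.Ico ((a i : ℤ) * m) ((a i + 1) * m) := by
    ext k
    simp only [bx, Finset.mem_filter, Fintype.mem_piFinset, Finset.mem_Ico]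
    have hm' : (0 : ℤ) < m := by exact_mod_cast hm
    constructor
    · rintro ⟨-, h⟩ i
      rw [← h i]
      exact ⟨Int.ediv_mul_le _ hm'.ne', Int.lt_ediv_add_one_mul_self _ hm'⟩
    · intro h
      refine ⟨fun i => ⟨?_, ?_⟩, fun i => ?_⟩
      · exact le_trans (by positivity) (h i).1
      · refine lt_of_lt_of_le (h i).2 ?_
        have h2 : a i + 1 ≤ q := ha i
        have h3 : (a i + 1) * m ≤ q * m := Nat.mul_le_mul_right m h2
        exact_mod_cast h3
      · refine le_antisymm ?_ ?_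
        · exact Int.lt_add_one_iff.1 ((Int.ediv_lt_iff_lt_mul hm').2 (h i).2)
        · exact (Int.le_ediv_iff_mul_le hm').2 (h i).1
  rw [h1, Fintype.card_piFinset]
  have h2 : ∀ i, (Finset.Ico ((a i : ℤ) * m) ((a i + 1) * m)).card = m := by
    intro i
    rw [Int.card_Ico]
    have h3 : ((a i : ℤ) + 1) * m - a i * m = m := by ring
    rw [h3, Int.toNat_natCast]
  rw [Finset.prod_congr rfl fun i _ => h2 i]
  simp

/-- the element with coefficients `G v t` in the box -/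
private def sgaE {j : ℕ} {T : Type*} [AddCommGroup T] [Fintype T] (V : Finset (Fin j → ℤ))
    (G : (Fin j → ℤ) → T → ℤ) : RG ℤ ((Fin j → ℤ) × T) :=
  ∑ v ∈ V, ∑ t, AddMonoidAlgebra.single (v, t) (G v t)

private theorem sgaE_coeff {j : ℕ} {T : Type*} [AddCommGroup T] [Fintype T]
    (V : Finset (Fin j → ℤ)) (G : (Fin j → ℤ) → T → ℤ) {u : Fin j → ℤ} (hu : u ∈ V) (t : T) :
    (sgaE V G).coeff (u, t) = G u t := by
  classical
  unfold sgaE
  simp only [AddMonoidAlgebra.coeff_sum, Finsupp.coe_finsetSum, Finset.sum_apply,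
    AddMonoidAlgebra.coeff_single, Finsupp.single_apply, Prod.mk.injEq]
  rw [Finset.sum_eq_single_of_mem u hu]
  · rw [Finset.sum_eq_single_of_mem t (Finset.mem_univ t)]
    · simp
    · intro t' _ ht'
      simp [ht']
  · intro v _ hv
    simp [hv]

private theorem sgaE_act {j : ℕ} {T : Type*} [AddCommGroup T] [Fintype T]
    (V : Finset (Fin j → ℤ)) (G : (Fin j → ℤ) → T → ℤ) (F : (Fin j → ℤ) × T → ℤ) :
    act (sgaE V G) F 0 = ∑ v ∈ V, ∑ t, G v t * F (v, t) := by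
  unfold sgaE
  rw [act_sum, Finset.sum_apply]
  refine Finset.sum_congr rfl fun v _ => ?_
  rw [act_sum, Finset.sum_apply]
  refine Finset.sum_congr rfl fun t _ => ?_
  rw [act_single, zero_add, smul_eq_mul]

/-- inversion on `T` -/
private theorem sga_inv {T : Type*} [AddCommGroup T] [Fintype T] {f : T → ℂ} {e : ℝ}
    (hf : ∀ χ : AddChar T Circle, ‖∑ t, f t * ((χ t : Circle) : ℂ)‖ ≤ e) (t : T) :
    ‖f t‖ ≤ e := by
  classical
  have h1 := parseval_T f fun s => if s = t then (1 : ℂ) else 0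
  simp only [mul_ite, mul_one, mul_zero, ite_mul, one_mul, zero_mul, Finset.sum_ite_eq',
    Finset.mem_univ, if_true] at h1
  have h2 : ‖∑ χ : AddChar T Circle, (∑ t, f t * ((χ t : Circle) : ℂ)) *
      conj ((χ t : Circle) : ℂ)‖ ≤ ∑ _χ : AddChar T Circle, e := by
    refine norm_sum_le_of_le _ fun χ _ => ?_
    rw [norm_mul, RCLike.norm_conj, Circle.norm_coe, mul_one]
    exact hf χ
  rw [← h1, norm_mul, Complex.norm_natCast, Finset.sum_const, Finset.card_univ, card_char,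
    nsmul_eq_mul] at h2
  have h3 : (0 : ℝ) < Fintype.card T := by
    exact_mod_cast Fintype.card_pos_iff.2 ⟨(0 : T)⟩
  exact le_of_mul_le_mul_left h2 h3

private theorem sga_int {x : ℤ} (h : |(x : ℝ)| < 1) : x = 0 := by
  have h1 : |x| < 1 := by exact_mod_cast h
  exact Int.abs_lt_one_iff.1 h1

/-- **Siegel.**  PROOF.  Write `b₀ (w, t) = e(w·ξ₀) χ(t)` (`char_repr`, `χ t = b₀ (0,t)`), so
`∑' w, gch Γ χ w * ex w ξ₀ = Gh Γ b₀ ≠ 0` (`gh_eq`); `good_box` gives `q, a, c`; `params` with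
`f s = c⁻¹ * th (gch Γ χ) s` (`th_tendsto`) gives `s`.  `pigeon` with
`ι = bx j 0 n × T` (`card = pN`),
`κ = (bx j 0 n × {χ' ≠ χ}) ⊕ {k ∈ bx j 0 n' // ¬ ∀ i, k i / (M s²) = a i}`
(`card = (τ-1) n^j + (n'^j - (M s²)^j) = pR`: the `k` with `k_i / (M s²) = a_i < q` for all `i` are
`(M s²)^j` elements of the box `[0, q M s²)^j`; `count`), the coefficients `χ'(t)` (at the point
`v` only, `0` elsewhere) and `χ(t) e(v·k/n')`, `E = pE`, `δ = pδ`: Gaussian integers
`g = g₁ + i g₂`, not all `0`, `|g₁|, |g₂| ≤ H`.  By `est` for all solutions `F`: `|∑ g F| < 1`;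
real and imaginary part of `∑ g F` are the integers `∑ g₁ F`, `∑ g₂ F`, so they are `0`; so the
elements `g₁, g₂ ∈ ℤ[ℤ^j × T]` annihilate (`kills_of_zero`).  If `∑_t g_i(v,t) χ(t) = 0` for all
`v` and `i = 1, 2`, then all components `∑_t g(v,t) χ'(t)` (`χ' = χ` included) are `≤ 1/δ` in
absolute value, so by inversion (`parseval_T` with `F = ` indicator of `t`) `|g(v,t)| ≤ 1/δ < 1`,
so `g = 0`, a contradiction. Take `g_i` and `u₀ = v` with `∑_t g_i(v,t) χ(t) ≠ 0`. -/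
theorem siegelA {j : ℕ} {T : Type*} [AddCommGroup T] [Fintype T] {Γ : (Fin j → ℤ) × T → ℂ}
    (hΓ : Summable fun g => ‖Γ g‖) (B : ℕ) (b₀ : AddChar ((Fin j → ℤ) × T) Circle)
    (hb : Gh Γ b₀ ≠ 0) :
    ∃ (g : RG ℤ ((Fin j → ℤ) × T)) (u₀ : Fin j → ℤ), Kills Γ B g ∧
      ∑ t, ((g.coeff (u₀, t) : ℤ) : ℂ) * ((b₀ (0, t) : Circle) : ℂ) ≠ 0 := by
  classical
  -- the characters
  obtain ⟨χ, hχ⟩ : ∃ χ : AddChar T Circle, ∀ t, χ t = b₀ (0, t) :=
    ⟨b₀.compAddMonoidHom (AddMonoidHom.inr (Fin j → ℤ) T), fun t => rfl⟩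
  obtain ⟨b₁, hb₁⟩ : ∃ b₁ : AddChar (Fin j → ℤ) Circle, ∀ w, b₁ w = b₀ (w, 0) :=
    ⟨b₀.compAddMonoidHom (AddMonoidHom.inl (Fin j → ℤ) T), fun t => rfl⟩
  obtain ⟨ξ₀, hξ0, hξ⟩ := char_repr b₁
  have hb' : ∀ w t, ((b₀ (w, t) : Circle) : ℂ) = ex w ξ₀ * ((χ t : Circle) : ℂ) := by
    intro w t
    have h1 : ((w, t) : (Fin j → ℤ) × T) = (w, 0) + (0, t) := by simp
    rw [h1, AddChar.map_add_eq_mul, Circle.coe_mul, ← hb₁, hξ, hχ]
  have hne : ∑' w, gch Γ χ w * ex w ξ₀ ≠ 0 := by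
    rw [← gh_eq hΓ χ ξ₀ b₀ hb']
    exact hb
  obtain ⟨q, a, c, hq, hc, haq, hbox⟩ := good_box (gch_summable hΓ χ) hξ0 hne
  obtain ⟨τ, hτ⟩ : ∃ τ, τ = Fintype.card T := ⟨_, rfl⟩
  have hτ0 : 0 < τ := by
    rw [hτ]
    exact Fintype.card_pos_iff.2 ⟨0⟩
  have hth0 : ∀ s : ℕ, 0 ≤ c⁻¹ * th (gch Γ χ) s := by
    intro s
    refine mul_nonneg (inv_nonneg.2 hc.le) ?_
    unfold th
    refine tsum_nonneg fun w => mul_nonneg (norm_nonneg _) (le_min zero_le_two ?_)
    positivity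
  have hth : Tendsto (fun s : ℕ => c⁻¹ * th (gch Γ χ) s) atTop (𝓝 0) := by
    have h := (th_tendsto (gch_summable hΓ χ)).const_mul c⁻¹
    rwa [mul_zero] at h
  obtain ⟨s, hs, hs'⟩ := params j q τ B hth0 hth
  obtain ⟨hlt, hE⟩ := count (j := j) hq hτ0 hs
  have hMpos : 0 < pM j q := by unfold pM; omega
  have hn'0 : 0 < pn' j q s := by
    unfold pn'
    positivity
  have hδ0 : 8 ≤ pδ j q τ B s := by
    unfold pδ
    have h1 : 0 < (B + 1) * τ * pn' j q s ^ j := by positivity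
    calc 8 = 8 * 1 := rfl
      _ ≤ 8 * ((B + 1) * τ * pn' j q s ^ j) := Nat.mul_le_mul_left _ h1
      _ = 8 * (B + 1) * τ * pn' j q s ^ j := by ring
  -- the linear forms
  let V : Finset (Fin j → ℤ) := bx j 0 (pn j q s)
  let K : Finset (Fin j → ℤ) :=
    (bx j 0 (pn' j q s)).filter fun k => ¬ ∀ i, k i / ((pM j q * s ^ 2 : ℕ) : ℤ) = a i
  let X : Finset (AddChar T Circle) := Finset.univ.erase χ
  let A : (V × X) ⊕ K → V × T → ℂ := fun f p => Sum.elim
    (fun y : V × X => if p.1 = y.1 then (((y.2 : AddChar T Circle) p.2 : Circle) : ℂ) else 0)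
    (fun k : K => ((χ p.2 : Circle) : ℂ) *
      ex (p.1 : Fin j → ℤ) (fun i => ((k : Fin j → ℤ) i : ℝ) / pn' j q s)) f
  have hA : ∀ f p, ‖A f p‖ ≤ 1 := by
    rintro (y | k) p
    · simp only [A, Sum.elim_inl]
      split_ifs
      · rw [Circle.norm_coe]
      · rw [norm_zero]
        exact zero_le_one
    · simp only [A, Sum.elim_inr]
      rw [norm_mul, Circle.norm_coe, norm_ex, mul_one]
  have hcι : Fintype.card (V × T) = pN j q τ s := by
    rw [Fintype.card_prod, Fintype.card_coe, sga_card, ← hτ, mul_comm]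
    rfl
  have hcK : K.card = pn' j q s ^ j - (pM j q * s ^ 2) ^ j := by
    have h1 := Finset.card_filter_add_card_filter_not (s := bx j 0 (pn' j q s))
      fun k => ∀ i, k i / ((pM j q * s ^ 2 : ℕ) : ℤ) = a i
    have h2 : ((bx j 0 (pn' j q s)).filter fun k =>
        ∀ i, k i / ((pM j q * s ^ 2 : ℕ) : ℤ) = a i).card = (pM j q * s ^ 2) ^ j := by
      have h3 : pn' j q s = q * (pM j q * s ^ 2) := by
        unfold pn'
        ring
      rw [h3]
      exact sga_card_box (by positivity) haq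
    rw [h2, sga_card] at h1
    have h4 : K.card = ((bx j 0 (pn' j q s)).filter fun k =>
      ¬ ∀ i, k i / ((pM j q * s ^ 2 : ℕ) : ℤ) = a i).card := rfl
    omega
  have hcκ : Fintype.card ((V × X) ⊕ K) = pR j q τ s := by
    rw [Fintype.card_sum, Fintype.card_prod, Fintype.card_coe, Fintype.card_coe, Fintype.card_coe,
      hcK, sga_card, Finset.card_erase_of_mem (Finset.mem_univ _), Finset.card_univ, card_char,
      ← hτ, mul_comm]
    rfl
  obtain ⟨g, hg0, hgH, hgL⟩ := pigeon A hA (pE j q τ) (pδ j q τ B s) (by omega)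
    (by rw [hcι, hcκ]; exact hlt) (by rw [hcι, hcκ]; exact hE)
  rw [hcι] at hgH
  -- the extension of `g`
  obtain ⟨G, hG⟩ : ∃ G : (Fin j → ℤ) → T → ℤ × ℤ, ∀ (v : V) t, G v t = g (v, t) :=
    ⟨fun v t => if h : v ∈ V then g (⟨v, h⟩, t) else 0, fun v t => by simp⟩
  obtain ⟨C, hC⟩ : ∃ C : (Fin j → ℤ) → T → ℂ, ∀ v t,
      C v t = ((G v t).1 : ℂ) + ((G v t).2 : ℂ) * Complex.I := ⟨_, fun _ _ => rfl⟩
  have hCre : ∀ v t, (C v t).re = ((G v t).1 : ℝ) := by
    intro v t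
    rw [hC]
    simp
  have hCim : ∀ v t, (C v t).im = ((G v t).2 : ℝ) := by
    intro v t
    rw [hC]
    simp
  have hsum : ∀ f, ∑ i, A f i * (((g i).1 : ℂ) + ((g i).2 : ℂ) * Complex.I) =
      ∑ v : V, ∑ t, A f (v, t) * C v t := by
    intro f
    rw [Fintype.sum_prod_type]
    refine Finset.sum_congr rfl fun v _ => Finset.sum_congr rfl fun t _ => ?_
    rw [hC, hG]
  have hM : ∀ v ∈ V, ∀ χ' : AddChar T Circle, χ' ≠ χ →
      ‖∑ t, C v t * ((χ' t : Circle) : ℂ)‖ ≤ 1 / (pδ j q τ B s : ℝ) := by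
    intro v hv χ' hχ'
    have h1 := hgL (Sum.inl (⟨v, hv⟩, ⟨χ', Finset.mem_erase.2 ⟨hχ', Finset.mem_univ _⟩⟩))
    rw [hsum] at h1
    have h2 : ∑ w : V, ∑ t, A (Sum.inl (⟨v, hv⟩,
        ⟨χ', Finset.mem_erase.2 ⟨hχ', Finset.mem_univ _⟩⟩)) (w, t) * C w t =
        ∑ t, C v t * ((χ' t : Circle) : ℂ) := by
      rw [Finset.sum_eq_single_of_mem (⟨v, hv⟩ : V) (Finset.mem_univ _)]
      · refine Finset.sum_congr rfl fun t _ => ?_
        simp only [A, Sum.elim_inl, if_true]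
        rw [mul_comm]
      · intro w _ hw
        refine Finset.sum_eq_zero fun t _ => ?_
        simp only [A, Sum.elim_inl, if_neg hw, zero_mul]
    rwa [h2] at h1
  have hL : ∀ k ∈ bx j 0 (pn' j q s), ¬ (∀ i, k i / (pM j q * s ^ 2 : ℕ) = a i) →
      ‖∑ v ∈ V, ∑ t, C v t * ((χ t : Circle) : ℂ) *
        ex v (fun i => (k i : ℝ) / pn' j q s)‖ ≤ 1 / (pδ j q τ B s : ℝ) := by
    intro k hk hka
    have hkK : k ∈ K := Finset.mem_filter.2 ⟨hk, hka⟩
    have h1 := hgL (Sum.inr ⟨k, hkK⟩)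
    rw [hsum] at h1
    have h2 : ∑ w : V, ∑ t, A (Sum.inr ⟨k, hkK⟩) (w, t) * C w t =
        ∑ v ∈ V, ∑ t, C v t * ((χ t : Circle) : ℂ) *
          ex v (fun i => (k i : ℝ) / pn' j q s) := by
      rw [← Finset.sum_coe_sort V]
      refine Finset.sum_congr rfl fun w _ => Finset.sum_congr rfl fun t _ => ?_
      simp only [A, Sum.elim_inr]
      ring
    rwa [h2] at h1
  have hgC : ∀ v ∈ V, ∀ t, ‖C v t‖ ≤ 2 * pH j q τ B s := by
    intro v hv t
    have h1 := hgH (⟨v, hv⟩, t)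
    rw [← hG] at h1
    have h2 : |((G v t).1 : ℝ)| ≤ pH j q τ B s := by exact_mod_cast h1.1
    have h3 : |((G v t).2 : ℝ)| ≤ pH j q τ B s := by exact_mod_cast h1.2
    have h4 := Complex.norm_le_abs_re_add_abs_im (C v t)
    rw [hCre, hCim] at h4
    linarith
  -- the two elements annihilate
  have hest : ∀ F, Ker Γ B F → ‖∑ v ∈ V, ∑ t, C v t * (F (v, t) : ℂ)‖ < 1 := by
    intro F hF
    rw [hτ] at hs' hgC hM hL
    exact est hΓ χ hq hc hbox hs hs' C hgC hM hL hF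
  have hre : ∀ F : (Fin j → ℤ) × T → ℤ, (∑ v ∈ V, ∑ t, C v t * (F (v, t) : ℂ)).re =
      ((∑ v ∈ V, ∑ t, (G v t).1 * F (v, t) : ℤ) : ℝ) := by
    intro F
    rw [Complex.re_sum]
    push_cast
    refine Finset.sum_congr rfl fun v _ => ?_
    rw [Complex.re_sum]
    refine Finset.sum_congr rfl fun t _ => ?_
    rw [Complex.mul_re, hCre, Complex.intCast_re, Complex.intCast_im, mul_zero, sub_zero]
  have him : ∀ F : (Fin j → ℤ) × T → ℤ, (∑ v ∈ V, ∑ t, C v t * (F (v, t) : ℂ)).im =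
      ((∑ v ∈ V, ∑ t, (G v t).2 * F (v, t) : ℤ) : ℝ) := by
    intro F
    rw [Complex.im_sum]
    push_cast
    refine Finset.sum_congr rfl fun v _ => ?_
    rw [Complex.im_sum]
    refine Finset.sum_congr rfl fun t _ => ?_
    rw [Complex.mul_im, hCim, Complex.intCast_re, Complex.intCast_im, mul_zero, zero_add]
  have hk1 : Kills Γ B (sgaE V fun v t => (G v t).1) := by
    refine kills_of_zero fun F hF => ?_
    rw [sgaE_act]
    apply sga_int
    rw [← hre]
    exact (Complex.abs_re_le_norm _).trans_lt (hest F hF)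
  have hk2 : Kills Γ B (sgaE V fun v t => (G v t).2) := by
    refine kills_of_zero fun F hF => ?_
    rw [sgaE_act]
    apply sga_int
    rw [← him]
    exact (Complex.abs_im_le_norm _).trans_lt (hest F hF)
  -- conclusion
  by_contra hcon
  push Not at hcon
  have hz : ∀ v ∈ V, ∑ t, C v t * ((χ t : Circle) : ℂ) = 0 := by
    intro v hv
    have h1 := hcon _ v hk1
    have h2 := hcon _ v hk2
    have h3 : ∑ t, C v t * ((χ t : Circle) : ℂ) =
        ∑ t, (((sgaE V fun v t => (G v t).1).coeff (v, t) : ℤ) : ℂ) *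
          ((b₀ (0, t) : Circle) : ℂ) +
        (∑ t, (((sgaE V fun v t => (G v t).2).coeff (v, t) : ℤ) : ℂ) *
          ((b₀ (0, t) : Circle) : ℂ)) * Complex.I := by
      rw [Finset.sum_mul, ← Finset.sum_add_distrib]
      refine Finset.sum_congr rfl fun t _ => ?_
      rw [sgaE_coeff V _ hv, sgaE_coeff V _ hv, hC, hχ]
      ring
    rw [h3, h1, h2]
    simp
  have hδR : (8 : ℝ) ≤ pδ j q τ B s := by exact_mod_cast hδ0
  have hall : ∀ v ∈ V, ∀ χ' : AddChar T Circle,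
      ‖∑ t, C v t * ((χ' t : Circle) : ℂ)‖ ≤ 1 / (pδ j q τ B s : ℝ) := by
    intro v hv χ'
    by_cases h : χ' = χ
    · rw [h, hz v hv, norm_zero]
      positivity
    · exact hM v hv χ' h
  have hsmall : 1 / (pδ j q τ B s : ℝ) < 1 := by
    rw [div_lt_one (by linarith)]
    linarith
  apply hg0
  funext p
  obtain ⟨v, t⟩ := p
  have h1 : ‖C v t‖ < 1 := (sga_inv (hall v v.2) t).trans_lt hsmall
  have h2 : (G v t).1 = 0 := by
    apply sga_int
    rw [← hCre]
    exact (Complex.abs_re_le_norm _).trans_lt h1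
  have h3 : (G v t).2 = 0 := by
    apply sga_int
    rw [← hCim]
    exact (Complex.abs_im_le_norm _).trans_lt h1
  rw [← hG]
  exact Prod.ext h2 h3

end Pool.Agent.NL53
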