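import Pool.Agent.Lib.MP_53fa4a_an_NL.Desc

/-!
# The tree lemma
-/

set_option autoImplicit false

open Polynomial
open scoped BigOperators ComplexConjugate

noncomputable section

namespace Pool.Agent.NL53

variable {G : Type*} [AddCommGroup G] {Γ : G → ℂ} {B : ℕ}

/-- **The tree lemma.**  PROOF: induction on `ps`, for all `L`.  `ps = []`: `P = [L]`.
`ps = p :: ps'`: (1) `L₁ = (1 - X, p) :: L` (`fl_one_sub`, `cyc_one_sub`), `prd L₁ * dprd ps' =
prd L * dprd ps`; the induction hypothesis gives `P₁`.  (2) `descend` for `p` and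
`prd L * dprd ps'` gives `R`; for `L' ∈ R` the induction hypothesis for `L ++ L'` (`prd_append`)
gives `P_{L'}`.  Take `P = P₁ ++ R.flatMap P_{L'}` (choose).  For `b` with `Γ(b) ≠ 0`,
`ev b (prd L) ≠ 0`: if `b p ≠ 1`, then `ev b (prd L₁) = (1 - b p) ev b (prd L) ≠ 0`, use `P₁`; if
`b p = 1`, take `L' ∈ R` with `ev b (prd L') ≠ 0` and use `P_{L'}`. -/
theorem tree (hΓ : Summable fun g => ‖Γ g‖)
    (hM : ∀ p : G, (∀ n : ℕ, n ≠ 0 → n • p ≠ 0) → MM (G ⧸ AddSubgroup.zmultiples p)) :
    ∀ ps : List G, (∀ p ∈ ps, ∀ n : ℕ, n ≠ 0 → n • p ≠ 0) →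
      ∀ L : List (ℤ[X] × G), (∀ p ∈ L, Cyc p.1) → Kills Γ B (prd L * dprd ps) →
      ∃ P : List (List (ℤ[X] × G)), (∀ L' ∈ P, Good Γ B L') ∧
        ∀ b : AddChar G Circle, Gh Γ b ≠ 0 → ev b (prd L) ≠ 0 → ∃ L' ∈ P, ev b (prd L') ≠ 0 := by
  intro ps
  induction ps with
  | nil =>
    intro _ L hL hK
    rw [dprd_nil, mul_one] at hK
    refine ⟨[L], ?_, ?_⟩
    · intro L' hL'
      rw [List.mem_singleton] at hL'
      rw [hL']
      exact ⟨hL, hK⟩
    · intro b _ hb
      exact ⟨L, List.mem_singleton.2 rfl, hb⟩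
  | cons p ps ih =>
    intro hps L hL hK
    have hps' : ∀ p ∈ ps, ∀ n : ℕ, n ≠ 0 → n • p ≠ 0 := fun q hq =>
      hps q (List.mem_cons_of_mem p hq)
    have hK1 : Kills Γ B (prd ((1 - X, p) :: L) * dprd ps) := by
      have h1 : prd ((1 - X, p) :: L) * dprd ps = prd L * dprd (p :: ps) := by
        rw [prd_cons, dprd_cons, fl_one_sub]
        ring
      rw [h1]
      exact hK
    have hL1 : ∀ q ∈ ((1 - X, p) :: L : List (ℤ[X] × G)), Cyc q.1 := by
      intro q hq
      rcases List.mem_cons.1 hq with h | h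
      · rw [h]
        exact cyc_one_sub
      · exact hL q h
    obtain ⟨P₁, hP₁, hP₁'⟩ := ih hps' _ hL1 hK1
    have hK2 : Kills Γ B ((1 - tr p) * (prd L * dprd ps)) := by
      have h1 : (1 - tr p) * (prd L * dprd ps) = prd L * dprd (p :: ps) := by
        rw [dprd_cons]
        ring
      rw [h1]
      exact hK
    obtain ⟨R, hR, hR'⟩ := descend hΓ p (prd L * dprd ps) hK2
      (hM p (hps p List.mem_cons_self))
    have hch : ∀ L' : {L' // L' ∈ R}, ∃ P : List (List (ℤ[X] × G)),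
        (∀ L'' ∈ P, Good Γ B L'') ∧ ∀ b : AddChar G Circle, Gh Γ b ≠ 0 →
          ev b (prd (L ++ L'.1)) ≠ 0 → ∃ L'' ∈ P, ev b (prd L'') ≠ 0 := by
      rintro ⟨L', hL'⟩
      obtain ⟨h1, h2⟩ := hR L' hL'
      apply ih hps'
      · intro q hq
        rcases List.mem_append.1 hq with h | h
        · exact hL q h
        · exact h1 q h
      · have h3 : prd (L ++ L') * dprd ps = prd L * dprd ps * prd L' := by
          rw [prd_append]
          ring
        rw [h3]
        exact h2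
    choose Pf hPf hPf' using hch
    refine ⟨P₁ ++ R.attach.flatMap Pf, ?_, ?_⟩
    · intro L' hL'
      rcases List.mem_append.1 hL' with h | h
      · exact hP₁ L' h
      · obtain ⟨x, -, hx⟩ := List.mem_flatMap.1 h
        exact hPf x L' hx
    · intro b hb hbL
      by_cases hbp : b p = 1
      · obtain ⟨L', hL', hev⟩ := hR' b hbp hb
        have h1 : ev b (prd (L ++ L')) ≠ 0 := by
          rw [prd_append, map_mul]
          exact mul_ne_zero hbL hev
        obtain ⟨L'', hL'', hev''⟩ := hPf' ⟨L', hL'⟩ b hb h1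
        exact ⟨L'', List.mem_append.2 (Or.inr (List.mem_flatMap.2
          ⟨⟨L', hL'⟩, List.mem_attach _ _, hL''⟩)), hev''⟩
      · have h1 : ev b (prd ((1 - X, p) :: L)) ≠ 0 := by
          rw [prd_cons, map_mul, fl_one_sub, map_sub, map_one, ev_tr]
          refine mul_ne_zero ?_ hbL
          intro h0
          apply hbp
          have h2 : ((b p : Circle) : ℂ) = 1 := (sub_eq_zero.1 h0).symm
          exact Circle.ext h2
        obtain ⟨L'', hL'', hev''⟩ := hP₁' b hb h1
        exact ⟨L'', List.mem_append.2 (Or.inl hL''), hev''⟩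

end Pool.Agent.NL53
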