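import Pool.Agent.Lib.MP_53fa4a_an_NL.Chi
import Pool.Agent.Lib.MP_53fa4a_an_NL.Tree
import Pool.Agent.Lib.MP_53fa4a_an_NL.SiegA

/-!
# The main property of `ℤ^j × T`
-/

set_option autoImplicit false

open Polynomial
open scoped BigOperators ComplexConjugate

noncomputable section

namespace Pool.Agent.NL53

private lemma finite_chars (T : Type*) [AddCommGroup T] [Fintype T] :
    Finite (AddChar T Circle) :=
  Finite.of_equiv _ (AddChar.circleEquivComplex (α := T)).symm.toEquiv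

private lemma one_char {j : ℕ} {T : Type*} [AddCommGroup T] [Fintype T]
    (hM : ∀ p : (Fin j → ℤ) × T, (∀ n : ℕ, n ≠ 0 → n • p ≠ 0) →
      MM (((Fin j → ℤ) × T) ⧸ AddSubgroup.zmultiples p))
    {Γ : (Fin j → ℤ) × T → ℂ} (hΓ : Summable fun g => ‖Γ g‖) (B : ℕ) (χ : AddChar T Circle) :
    ∃ P : List (List (ℤ[X] × ((Fin j → ℤ) × T))), (∀ L ∈ P, Good Γ B L) ∧
      ∀ b : AddChar ((Fin j → ℤ) × T) Circle, (∀ t, b (0, t) = χ t) → Gh Γ b ≠ 0 →
        ∃ L ∈ P, ev b (prd L) ≠ 0 := by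
  by_cases hex : ∃ b₀ : AddChar ((Fin j → ℤ) × T) Circle, (∀ t, b₀ (0, t) = χ t) ∧ Gh Γ b₀ ≠ 0
  · obtain ⟨b₀, hb₀, hG⟩ := hex
    obtain ⟨g, u₀, hg, hne⟩ := siegelA hΓ B b₀ hG
    have hA : ∀ n : ℕ, n ≠ 0 → ∀ a : Fin j → ℤ, n • a = 0 → a = 0 := by
      intro n hn a ha
      funext i
      have h1 := congrFun ha i
      simp only [Pi.smul_apply, Pi.zero_apply, nsmul_eq_mul, mul_eq_zero] at h1
      rcases h1 with h1 | h1
      · exact absurd (by exact_mod_cast h1) hn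
      · exact h1
    have hne' : ∑ t, ((g.coeff (u₀, t) : ℤ) : ℂ) * ((χ t : Circle) : ℂ) ≠ 0 := by
      simpa only [hb₀] using hne
    obtain ⟨L, ps, hL, hps, hev, hk⟩ := chi_list hA hg χ u₀ hne'
    obtain ⟨P, hP, hP2⟩ := tree hΓ hM ps hps L hL hk
    exact ⟨P, hP, fun b hb hGb => hP2 b hGb (hev b hb)⟩
  · refine ⟨[], by simp, fun b hb hGb => ?_⟩
    exact absurd ⟨b, hb, hGb⟩ hex

/-- **One group.**  PROOF.  For every `χ : AddChar T Circle` (finitely many) choose a list `P_χ`: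
if there is a `b₀` with `b₀ (0, t) = χ t` for all `t` and `Gh Γ b₀ ≠ 0`, then `siegelA` gives `g`,
`u₀`, `chi_list` (with `A = Fin j → ℤ`) gives `L`, `ps`, and `tree` gives `P_χ`; otherwise
`P_χ = []`. Take the concatenation of all `P_χ` (`Finset.univ.toList.flatMap`). -/
theorem MM_prod {j : ℕ} {T : Type*} [AddCommGroup T] [Fintype T]
    (hM : ∀ p : (Fin j → ℤ) × T, (∀ n : ℕ, n ≠ 0 → n • p ≠ 0) →
      MM (((Fin j → ℤ) × T) ⧸ AddSubgroup.zmultiples p)) : MM ((Fin j → ℤ) × T) := by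
  classical
  intro Γ hΓ B
  have hfin : Finite (AddChar T Circle) := finite_chars T
  have hft : Fintype (AddChar T Circle) := Fintype.ofFinite _
  choose P hP hP2 using fun χ : AddChar T Circle => one_char hM hΓ B χ
  refine ⟨(Finset.univ : Finset (AddChar T Circle)).toList.flatMap P, ?_, ?_⟩
  · intro L hL
    obtain ⟨χ, -, hχ⟩ := List.mem_flatMap.1 hL
    exact hP χ L hχ
  · intro b hb
    obtain ⟨χ, hχ⟩ : ∃ χ : AddChar T Circle, ∀ t, b (0, t) = χ t :=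
      ⟨b.compAddMonoidHom (AddMonoidHom.inr (Fin j → ℤ) T), fun t => by simp⟩
    obtain ⟨L, hL, hev⟩ := hP2 χ b hχ hb
    exact ⟨L, List.mem_flatMap.2 ⟨χ, Finset.mem_toList.2 (Finset.mem_univ _), hL⟩, hev⟩

end Pool.Agent.NL53
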