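import Pool.Agent.Lib.MP_53fa4a_an_NL.RankA
import Pool.Agent.Lib.MP_53fa4a_an_NL.RankB
import Pool.Agent.Lib.MP_53fa4a_an_NL.RankC

/-!
# The main property for all finitely generated abelian groups
-/

set_option autoImplicit false

open Polynomial
open scoped BigOperators ComplexConjugate

noncomputable section

namespace Pool.Agent.NL53

/-- **Main theorem.**  PROOF: strong induction on `Module.finrank ℤ G`.  By the structure theorem
(`AddCommGroup.equiv_free_prod_directSum_zmod`) `G ≃+ (Fin j → ℤ) × T` with `T` finite; by
`MM_equiv` it suffices to treat `(Fin j → ℤ) × T` and `MM_prod` applies: the quotients are finitely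
generated of smaller rank (`finrank_quot_lt`; the rank is invariant under isomorphisms). -/
theorem MM_all (G : Type) [AddCommGroup G] [AddGroup.FG G] : MM G := by
  have key : ∀ n : ℕ, ∀ (G : Type) [AddCommGroup G] [AddGroup.FG G],
      Module.finrank ℤ G = n → MM G := by
    intro n
    induction n using Nat.strong_induction_on with
    | _ n ih =>
      intro G _ _ hn
      classical
      obtain ⟨j, ι, hι, p, hp, e, ⟨f⟩⟩ := AddCommGroup.equiv_free_prod_directSum_zmod G
      haveI : ∀ i, NeZero (p i ^ e i) := fun i => ⟨pow_ne_zero _ (hp i).ne_zero⟩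
      let f' : G ≃+ (Fin j → ℤ) × (∀ i, ZMod (p i ^ e i)) :=
        f.trans (AddEquiv.prodCongr
          (Finsupp.linearEquivFunOnFinite ℤ ℤ (Fin j)).toAddEquiv (DirectSum.addEquivProd _))
      haveI : AddGroup.FG ((Fin j → ℤ) × (∀ i, ZMod (p i ^ e i))) :=
        AddGroup.fg_of_surjective (f := f'.toAddMonoidHom) f'.surjective
      refine MM_equiv f'.symm (MM_prod ?_)
      intro q hq
      have h1 := finrank_quot_lt hq
      have h2 : Module.finrank ℤ ((Fin j → ℤ) × (∀ i, ZMod (p i ^ e i))) =
          Module.finrank ℤ G := (f'.toIntLinearEquiv).finrank_eq.symm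
      rw [h2, hn] at h1
      exact ih _ h1 _ rfl
  exact key _ G rfl

end Pool.Agent.NL53
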