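import Pool.Agent.Lib.MP_53fa4a_an_NL.Defs

/-!
# The main property is invariant under isomorphism
-/

set_option autoImplicit false

open Polynomial
open scoped BigOperators ComplexConjugate

noncomputable section

namespace Pool.Agent.NL53

section

variable {G G' : Type*} [AddCommGroup G] [AddCommGroup G']

private def rk (e : G ≃+ G') : RG ℤ G →+* RG ℤ G' :=
  AddMonoidAlgebra.mapDomainRingHom ℤ (e : G →+ G')

private lemma rk_single (e : G ≃+ G') (v : G) (c : ℤ) :
    rk e (AddMonoidAlgebra.single v c) = AddMonoidAlgebra.single (e v) c := by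
  simp [rk]

private lemma rk_tr (e : G ≃+ G') (q : G) : rk e (tr q) = tr (e q) := rk_single e q 1

private lemma rk_fl (e : G ≃+ G') (θ : ℤ[X]) (q : G) : rk e (fl θ q) = fl θ (e q) := by
  unfold fl
  rw [← rk_tr]
  exact (Polynomial.aeval_algHom_apply ((rk e).toIntAlgHom) (tr q) θ).symm

private def mp (e : G ≃+ G') (L : List (ℤ[X] × G)) : List (ℤ[X] × G') :=
  L.map fun p => (p.1, e p.2)

private lemma rk_prd (e : G ≃+ G') (L : List (ℤ[X] × G)) : rk e (prd L) = prd (mp e L) := by
  induction L with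
  | nil =>
    have h : mp e ([] : List (ℤ[X] × G)) = [] := rfl
    rw [h, prd_nil, prd_nil, map_one]
  | cons p L ih =>
    have h : mp e (p :: L) = (p.1, e p.2) :: mp e L := rfl
    rw [h, prd_cons, prd_cons, map_mul, rk_fl, ih]

private lemma rk_act (e : G ≃+ G') (g : RG ℤ G) (F : G' → ℤ) (x : G) :
    act (rk e g) F (e x) = act g (fun y => F (e y)) x := by
  induction g using AddMonoidAlgebra.induction_linear with
  | zero => rw [map_zero, act_zero, act_zero]; rfl
  | add x y hx hy => rw [map_add, act_add, act_add, Pi.add_apply, Pi.add_apply, hx, hy]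
  | single v c => rw [rk_single, act_single, act_single, map_add]

private lemma rk_ev (e : G ≃+ G') (b : AddChar G' Circle) (g : RG ℤ G) :
    ev b (rk e g) = ev (b.compAddMonoidHom (e : G →+ G')) g := by
  induction g using AddMonoidAlgebra.induction_linear with
  | zero => rw [map_zero, map_zero, map_zero]
  | add x y hx hy => rw [map_add, map_add, map_add, hx, hy]
  | single v c => rw [rk_single, ev_single, ev_single]; rfl

end

/-- PROOF: transport of all notions along the isomorphism. -/
theorem MM_equiv {G G' : Type*} [AddCommGroup G] [AddCommGroup G'] (e : G ≃+ G') (h : MM G) :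
    MM G' := by
  intro Γ hΓ B
  have hΓe : Summable fun g => ‖Γ (e g)‖ := (e.toEquiv.summable_iff (f := fun g => ‖Γ g‖)).2 hΓ
  obtain ⟨P, hP, hb⟩ := h (fun g => Γ (e g)) hΓe B
  refine ⟨P.map (mp e), fun L hL => ?_, fun b hb0 => ?_⟩
  · obtain ⟨L₀, hL₀, rfl⟩ := List.mem_map.1 hL
    obtain ⟨h1, h2⟩ := hP L₀ hL₀
    refine ⟨fun p hp => ?_, fun F hF => ?_⟩
    · obtain ⟨p₀, hp₀, rfl⟩ := List.mem_map.1 hp
      exact h1 p₀ hp₀
    · have h3 : Ker (fun g => Γ (e g)) B (fun y => F (e y)) := by
        refine ⟨fun x => hF.1 _, fun x => ?_⟩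
        have h4 := hF.2 (e x)
        rw [← e.toEquiv.tsum_eq (fun g => Γ g * ((F (e x + g) : ℤ) : ℂ))] at h4
        rw [← h4]
        refine tsum_congr fun g => ?_
        change Γ (e g) * ((F (e (x + g)) : ℤ) : ℂ) = Γ (e g) * ((F (e x + e g) : ℤ) : ℂ)
        rw [map_add]
      have h4 := h2 _ h3
      funext y
      have h5 := rk_act e (prd L₀) F (e.symm y)
      rw [h4, e.apply_symm_apply, rk_prd] at h5
      exact h5
  · have h1 : Gh (fun g => Γ (e g)) (b.compAddMonoidHom (e : G →+ G')) = Gh Γ b := by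
      unfold Gh
      exact e.toEquiv.tsum_eq (fun g => Γ g * ((b g : Circle) : ℂ))
    obtain ⟨L, hL, hL0⟩ := hb _ (by rw [h1]; exact hb0)
    refine ⟨mp e L, List.mem_map_of_mem hL, ?_⟩
    rw [← rk_prd, rk_ev]
    exact hL0

end Pool.Agent.NL53
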