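import Pool.Agent.Lib.MP_53fa4a_an.Appr
import Pool.Agent.Lib.MP_53fa4a_an_NL.Box

/-!
# Spectra: definitions
-/

set_option autoImplicit false

open MeasureTheory Set Filter
open scoped ENNReal Topology ComplexConjugate BigOperators

noncomputable section

namespace Pool.Agent.NL53

open Pool.Agent.SpecND (E ee)

variable {d : ℕ}

/-- `Λ` is a spectrum of `Ω` -/
def IsSpectrum (Λ Ω : Set (E d)) : Prop :=
  (∀ l ∈ Λ, ∀ l' ∈ Λ, l ≠ l' → ∫ x in Ω, ee l x * conj (ee l' x) = 0) ∧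
    ∀ f : E d → ℂ, MemLp f 2 (volume.restrict Ω) →
      (∀ l ∈ Λ, ∫ x in Ω, f x * conj (ee l x) = 0) → f =ᵐ[volume.restrict Ω] 0

/-- the vector with coordinates `ξ_i` -/
def rv (ξ : Fin d → ℝ) : E d := WithLp.toLp 2 ξ

/-- the integer vector `n` -/
def zv (n : Fin d → ℤ) : E d := rv fun i => (n i : ℝ)

/-- `Γ(g) = |∫_Ω e_g|²` -/
def Gm (Ω : Set (E d)) (g : Fin d → ℤ) : ℂ := ((‖∫ x in Ω, ee (zv g) x‖ ^ 2 : ℝ) : ℂ)

/-- the fibre `{k : x + k/m ∈ Ω}` -/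
def fib (Ω : Set (E d)) (m : ℕ) (x : E d) : Set (Fin d → ℤ) :=
  {k | x + (m : ℝ)⁻¹ • zv k ∈ Ω}

end Pool.Agent.NL53
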