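import Pool.Agent.Lib.MP_53fa4a_an_NL.WinDef

/-!
# Characters of finite order; positivity and support of the window
-/

set_option autoImplicit false

open Polynomial
open scoped BigOperators ComplexConjugate

noncomputable section

namespace Pool.Agent.NL53

variable {d : ℕ}

open scoped ComplexOrder in
private lemma wa_nn_mul {x y : RG ℂ (Fin d → ℤ)} (hx : ∀ n, 0 ≤ x.coeff n)
    (hy : ∀ n, 0 ≤ y.coeff n) (n : Fin d → ℤ) : 0 ≤ (x * y).coeff n := by
  classical
  rw [AddMonoidAlgebra.coeff_mul]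
  refine Finset.sum_nonneg fun a _ => Finset.sum_nonneg fun b _ => ?_
  dsimp only
  split_ifs
  · exact mul_nonneg (hx a) (hy b)
  · exact le_refl 0

open scoped ComplexOrder in
private lemma wa_nn_aq (m : ℕ) (q n : Fin d → ℤ) : 0 ≤ (aq m q).coeff n := by
  classical
  rw [aq, AddMonoidAlgebra.coeff_sum, Finsupp.finsetSum_apply]
  refine Finset.sum_nonneg fun i _ => ?_
  rw [AddMonoidAlgebra.coeff_single, Finsupp.single_apply]
  split_ifs
  · rw [Complex.nonneg_iff]
    have h : ((m : ℂ)⁻¹) = (((m : ℝ)⁻¹ : ℝ) : ℂ) := by push_cast; rfl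
    rw [h]
    exact ⟨by rw [Complex.ofReal_re]; positivity, (Complex.ofReal_im _).symm⟩
  · exact le_refl 0

open scoped ComplexOrder in
private lemma wa_nn_wL (m : ℕ) (qs : List (Fin d → ℤ)) (n : Fin d → ℤ) :
    0 ≤ (wL m qs).coeff n := by
  classical
  induction qs generalizing n with
  | nil =>
    show 0 ≤ (1 : RG ℂ (Fin d → ℤ)).coeff n
    rw [AddMonoidAlgebra.one_def, AddMonoidAlgebra.coeff_single, Finsupp.single_apply]
    split_ifs
    · exact zero_le_one
    · exact le_refl 0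
  | cons q qs ih =>
    have h : wL m (q :: qs) = aq m q * wL m qs := by
      unfold wL
      rw [List.map_cons, List.prod_cons]
    rw [h]
    exact wa_nn_mul (wa_nn_aq m q) ih n

private lemma wa_sup_mul {x y : RG ℂ (Fin d → ℤ)} {a b : ℤ}
    (hx : ∀ n, x.coeff n ≠ 0 → ∀ i, |n i| ≤ a) (hy : ∀ n, y.coeff n ≠ 0 → ∀ i, |n i| ≤ b)
    (n : Fin d → ℤ) (h : (x * y).coeff n ≠ 0) (i : Fin d) : |n i| ≤ a + b := by
  classical
  rw [AddMonoidAlgebra.coeff_mul] at h
  obtain ⟨u, hu, h1⟩ := Finset.exists_ne_zero_of_sum_ne_zero h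
  obtain ⟨v, hv, h2⟩ := Finset.exists_ne_zero_of_sum_ne_zero h1
  dsimp only at h2
  by_cases h3 : u + v = n
  · rw [← h3, Pi.add_apply]
    refine (abs_add_le _ _).trans (add_le_add (hx u ?_ i) (hy v ?_ i))
    · exact Finsupp.mem_support_iff.1 hu
    · exact Finsupp.mem_support_iff.1 hv
  · rw [if_neg h3] at h2
    exact absurd rfl h2

private lemma wa_sup_aq (m : ℕ) (q n : Fin d → ℤ) (h : (aq m q).coeff n ≠ 0) (i : Fin d) :
    |n i| ≤ m * ((∑ j, (q j).natAbs : ℕ) : ℤ) := by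
  classical
  rw [aq, AddMonoidAlgebra.coeff_sum, Finsupp.finsetSum_apply] at h
  obtain ⟨l, hl, h1⟩ := Finset.exists_ne_zero_of_sum_ne_zero h
  rw [AddMonoidAlgebra.coeff_single, Finsupp.single_apply] at h1
  by_cases h3 : l • q = n
  · have h4 : (l : ℤ) ≤ m := by exact_mod_cast (Finset.mem_range.1 hl).le
    have h5 : |q i| ≤ ((∑ j, (q j).natAbs : ℕ) : ℤ) := by
      rw [Int.abs_eq_natAbs]
      exact_mod_cast Finset.single_le_sum (f := fun j => (q j).natAbs)
        (fun _ _ => Nat.zero_le _) (Finset.mem_univ i)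
    rw [← h3, Pi.smul_apply, nsmul_eq_mul, abs_mul, Nat.abs_cast]
    exact mul_le_mul h4 h5 (abs_nonneg _) (by positivity)
  · rw [if_neg h3] at h1
    exact absurd rfl h1

private lemma wa_sup_wL (m : ℕ) (qs : List (Fin d → ℤ)) (n : Fin d → ℤ)
    (h : (wL m qs).coeff n ≠ 0) (i : Fin d) :
    |n i| ≤ m * (((qs.map fun q => ∑ j, (q j).natAbs).sum : ℕ) : ℤ) := by
  classical
  induction qs generalizing n i with
  | nil =>
    have h1 : (1 : RG ℂ (Fin d → ℤ)).coeff n ≠ 0 := h
    rw [AddMonoidAlgebra.one_def, AddMonoidAlgebra.coeff_single, Finsupp.single_apply] at h1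
    by_cases h2 : (0 : Fin d → ℤ) = n
    · rw [← h2]
      simp
    · rw [if_neg h2] at h1
      exact absurd rfl h1
  | cons q qs ih =>
    have h1 : wL m (q :: qs) = aq m q * wL m qs := by
      unfold wL
      rw [List.map_cons, List.prod_cons]
    rw [h1] at h
    have h2 := wa_sup_mul (wa_sup_aq m q) ih n h i
    rw [List.map_cons, List.sum_cons]
    push_cast at h2 ⊢
    rw [mul_add]
    exact h2

/-- the character `n ↦ e(n · k/m)` of `ℤ^d` -/
theorem exists_char (k : Fin d → ℤ) {m : ℕ} (hm : 0 < m) :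
    ∃ b : AddChar (Fin d → ℤ) Circle, (∀ g, b (m • g) = 1) ∧
      ∀ g, ((b g : Circle) : ℂ) = ex g (fun i => (k i : ℝ) / m) := by
  refine ⟨{ toFun := fun g => ⟨ex g (fun i => (k i : ℝ) / m), ?_⟩, map_zero_eq_one' := ?_,
            map_add_eq_mul' := ?_ }, ?_, ?_⟩
  · exact mem_sphere_zero_iff_norm.2 (norm_ex g _)
  · exact Circle.ext (ex_zero _)
  · intro a b
    exact Circle.ext (ex_add a b _)
  · intro g
    refine Circle.ext ?_
    show ex (m • g) (fun i => (k i : ℝ) / m) = 1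
    unfold ex
    rw [Complex.exp_eq_one_iff]
    refine ⟨∑ i, g i * k i, ?_⟩
    have hm' : (m : ℝ) ≠ 0 := by exact_mod_cast hm.ne'
    have h : (∑ i, ((m • g) i : ℝ) * ((k i : ℝ) / m) : ℝ) = ((∑ i, g i * k i : ℤ) : ℝ) := by
      push_cast
      refine Finset.sum_congr rfl fun i _ => ?_
      rw [Pi.smul_apply, nsmul_eq_mul]
      push_cast
      field_simp
    rw [h]
    push_cast
    ring
  · intro g
    rfl

/-- the coefficients of the window are nonnegative real numbers (all `aq` have this property,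
products too) -/
theorem win_nonneg (P : List (List (ℤ[X] × (Fin d → ℤ)))) (m : ℕ) (n : Fin d → ℤ) :
    ∃ r : ℝ, 0 ≤ r ∧ (win d P m).coeff n = (r : ℂ) := by
  have h := wa_nn_wL m (P.flatten.map Prod.snd ++ (List.finRange d).map fun i => Pi.single i 1) n
  rw [Complex.nonneg_iff] at h
  exact ⟨_, h.1, Complex.ext (Complex.ofReal_re _).symm (h.2.symm.trans (Complex.ofReal_im _).symm)⟩

/-- the support of the window: `n = ∑ j_i q_i` with `0 ≤ j_i < m`, so `|n|_∞ ≤ m R`,
`R = ∑ |q_i|_∞` over all vectors in the list -/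
theorem win_support (P : List (List (ℤ[X] × (Fin d → ℤ)))) :
    ∃ R : ℕ, ∀ m : ℕ, ∀ n, (win d P m).coeff n ≠ 0 → ∀ i, |n i| ≤ m * R :=
  ⟨_, fun m n h i => wa_sup_wL m _ n h i⟩

end Pool.Agent.NL53
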