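import Pool.Agent.Lib.MP_53fa4a_an_NL.AvgDef
import Pool.Agent.Lib.MP_53fa4a_an_NL.Box

/-!
# The window: definition
-/

set_option autoImplicit false

open Polynomial
open scoped BigOperators ComplexConjugate

noncomputable section

namespace Pool.Agent.NL53

variable {d : ℕ}

/-- the window: averages over all `q` of the lists in `P` and over the unit vectors -/
def win (d : ℕ) (P : List (List (ℤ[X] × (Fin d → ℤ)))) (m : ℕ) : RG ℂ (Fin d → ℤ) :=
  wL m (P.flatten.map Prod.snd ++ (List.finRange d).map fun i => Pi.single i 1)

end Pool.Agent.NL53
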